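import Pool.Agent.HypVol.Defs
open MeasureTheory Real ProbabilityTheory
open scoped ENNReal BigOperators

namespace HypVol
namespace Sol_TP_prob



theorem TP_prob (d : ℕ) : IsProbabilityMeasure (TP d) := by
  have h : IsProbabilityMeasure
      (ENNReal.ofReal (2 * π)⁻¹ • volume.restrict (Set.Ico (0 : ℝ) (2 * π))) := by
    refine ⟨?_⟩
    rw [Measure.smul_apply, Measure.restrict_apply MeasurableSet.univ, Set.univ_inter,
      Real.volume_Ico, sub_zero, smul_eq_mul, ← ENNReal.ofReal_mul (by positivity),
      inv_mul_cancel₀ (by positivity), ENNReal.ofReal_one]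
  unfold TP
  infer_instance


end Sol_TP_prob

alias TP_prob := Sol_TP_prob.TP_prob

end HypVol
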