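import Pool.Agent.HypVol.Defs
import Pool.Agent.HypVol.L_TP_prob
open MeasureTheory Real ProbabilityTheory
open scoped ENNReal BigOperators

namespace HypVol
namespace Sol_conv_poly




/-- one-variable measure -/
noncomputable def cpMu : Measure ℝ :=
  ENNReal.ofReal (2 * π)⁻¹ • volume.restrict (Set.Ico 0 (2 * π))

instance cpMu_prob : IsProbabilityMeasure cpMu := by
  constructor
  have h : (0:ℝ) < 2 * π := by positivity
  unfold cpMu
  rw [Measure.smul_apply, Measure.restrict_apply MeasurableSet.univ, Set.univ_inter,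
    Real.volume_Ico, sub_zero, smul_eq_mul, ← ENNReal.ofReal_mul (by positivity),
    inv_mul_cancel₀ h.ne', ENNReal.ofReal_one]

theorem cpMu_int (f : ℝ → ℂ) :
    ∫ y, f y ∂cpMu = ((2 * π)⁻¹ : ℝ) • ∫ y in (0:ℝ)..(2 * π), f y := by
  have h : (0:ℝ) ≤ 2 * π := by positivity
  unfold cpMu
  rw [integral_smul_measure, integral_Ico_eq_integral_Ioc, intervalIntegral.integral_of_le h,
    ENNReal.toReal_ofReal (by positivity)]

theorem cp_exp (c : ℤ) :
    ∫ y, Complex.exp (Complex.I * (((c:ℝ) * y : ℝ) : ℂ)) ∂cpMu = if c = 0 then 1 else 0 := by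
  by_cases hc : c = 0
  · subst hc
    simp
  · rw [if_neg hc, cpMu_int]
    have h1 : (fun y : ℝ => Complex.exp (Complex.I * (((c:ℝ) * y : ℝ) : ℂ))) =
        fun y : ℝ => Complex.exp ((Complex.I * (c:ℂ)) * (y:ℂ)) := by
      funext y
      congr 1
      push_cast
      ring
    have h2 : Complex.I * (c:ℂ) ≠ 0 :=
      mul_ne_zero Complex.I_ne_zero (by exact_mod_cast hc)
    rw [h1, integral_exp_mul_complex h2]
    have h3 : Complex.exp (Complex.I * (c:ℂ) * ((2 * π : ℝ) : ℂ)) = 1 := by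
      rw [← Complex.exp_int_mul_two_pi_mul_I c]
      congr 1
      push_cast
      ring
    rw [h3]
    simp

theorem cp_cont (c : ℤ) : Continuous fun y : ℝ =>
    Complex.exp (Complex.I * (((c:ℝ) * y : ℝ) : ℂ)) := by fun_prop

theorem cp_exp_int (c : ℤ) : Integrable (fun y : ℝ =>
    Complex.exp (Complex.I * (((c:ℝ) * y : ℝ) : ℂ))) cpMu := by
  refine Integrable.of_bound (cp_cont c).aestronglyMeasurable 1 ?_
  filter_upwards with y
  rw [mul_comm, Complex.norm_exp_ofReal_mul_I]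

/-- the terms -/
noncomputable def cpG (r α x : ℝ) (k : ℤ) (m : ℕ) (y : ℝ) : ℂ :=
  (((((m:ℝ)+1)^(-r)) * (2 * Real.cos (((m:ℝ)+1) * (x - y) - α * π / 2)) : ℝ) : ℂ) *
    Complex.exp (Complex.I * (((k:ℝ) * y : ℝ) : ℂ))

theorem cpG_eq (r α x : ℝ) (k : ℤ) (m : ℕ) (y : ℝ) :
    cpG r α x k m y = (((((m:ℝ)+1)^(-r)) : ℝ) : ℂ) *
      (Complex.exp (Complex.I * ((((m:ℝ)+1) * x - α * π / 2 : ℝ) : ℂ)) *
        Complex.exp (Complex.I * ((((k - (m + 1) : ℤ) : ℝ) * y : ℝ) : ℂ)) +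
       Complex.exp (-(Complex.I * ((((m:ℝ)+1) * x - α * π / 2 : ℝ) : ℂ))) *
        Complex.exp (Complex.I * ((((k + (m + 1) : ℤ) : ℝ) * y : ℝ) : ℂ))) := by
  unfold cpG
  rw [Complex.ofReal_mul, mul_assoc]
  congr 1
  rw [Complex.ofReal_mul, Complex.ofReal_cos]
  have h := Complex.two_cos (((((m:ℝ)+1) * (x - y) - α * π / 2 : ℝ)) : ℂ)
  have h2 : ((2:ℝ):ℂ) = 2 := by norm_num
  rw [h2, h, add_mul, ← Complex.exp_add, ← Complex.exp_add, ← Complex.exp_add, ← Complex.exp_add]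
  congr 2
  · push_cast
    ring
  · push_cast
    ring

theorem cpG_integrable (r α x : ℝ) (k : ℤ) (m : ℕ) : Integrable (cpG r α x k m) cpMu := by
  have h : cpG r α x k m = fun y => (((((m:ℝ)+1)^(-r)) : ℝ) : ℂ) *
      (Complex.exp (Complex.I * ((((m:ℝ)+1) * x - α * π / 2 : ℝ) : ℂ)) *
        Complex.exp (Complex.I * ((((k - (m + 1) : ℤ) : ℝ) * y : ℝ) : ℂ)) +
       Complex.exp (-(Complex.I * ((((m:ℝ)+1) * x - α * π / 2 : ℝ) : ℂ))) *
        Complex.exp (Complex.I * ((((k + (m + 1) : ℤ) : ℝ) * y : ℝ) : ℂ))) :=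
    funext fun y => cpG_eq r α x k m y
  rw [h]
  exact (((cp_exp_int _).const_mul _).add ((cp_exp_int _).const_mul _)).const_mul _

theorem cpG_integral (r α x : ℝ) (k : ℤ) (m : ℕ) : ∫ y, cpG r α x k m y ∂cpMu =
    (((((m:ℝ)+1)^(-r)) : ℝ) : ℂ) *
      (Complex.exp (Complex.I * ((((m:ℝ)+1) * x - α * π / 2 : ℝ) : ℂ)) *
        (if k - (m + 1) = 0 then 1 else 0) +
       Complex.exp (-(Complex.I * ((((m:ℝ)+1) * x - α * π / 2 : ℝ) : ℂ))) *
        (if k + (m + 1) = 0 then 1 else 0)) := by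
  simp_rw [cpG_eq]
  rw [integral_const_mul, integral_add ((cp_exp_int _).const_mul _) ((cp_exp_int _).const_mul _),
    integral_const_mul, integral_const_mul, cp_exp, cp_exp]

theorem cpG_norm (r α x : ℝ) (k : ℤ) (m : ℕ) (y : ℝ) :
    ‖cpG r α x k m y‖ ≤ 2 * ((m:ℝ)+1)^(-r) := by
  unfold cpG
  have h0 : (0:ℝ) ≤ ((m:ℝ)+1)^(-r) := Real.rpow_nonneg (by positivity) _
  rw [norm_mul, mul_comm Complex.I, Complex.norm_exp_ofReal_mul_I, mul_one,
    Complex.norm_real, Real.norm_eq_abs, abs_mul, abs_of_nonneg h0, abs_mul]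
  have h1 := Real.abs_cos_le_one (((m:ℝ)+1) * (x - y) - α * π / 2)
  have h2 : |(2:ℝ)| = 2 := abs_of_pos two_pos
  rw [h2]
  nlinarith

theorem cp_summ (r : ℝ) (hr : 1 < r) : Summable fun m : ℕ => 2 * ((m:ℝ)+1)^(-r) := by
  refine Summable.mul_left 2 ?_
  have h := (Real.summable_nat_rpow (p := -r)).2 (by linarith)
  have h2 := (summable_nat_add_iff 1).2 h
  refine h2.congr fun m => ?_
  push_cast
  rfl

theorem cp_F1 (r α x : ℝ) (k : ℤ) (y : ℝ) :
    ((F1 r α (x - y) : ℝ) : ℂ) * Complex.exp (Complex.I * (((k:ℝ) * y : ℝ) : ℂ)) =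
      Complex.exp (Complex.I * (((k:ℝ) * y : ℝ) : ℂ)) + ∑' m : ℕ, cpG r α x k m y := by
  unfold F1 cpG
  rw [tsum_mul_right, ← tsum_mul_left, Complex.ofReal_add, Complex.ofReal_one, add_mul, one_mul,
    Complex.ofReal_tsum]
  congr 3
  funext m
  congr 1
  ring

theorem cpG_hasSum (r : ℝ) (hr : 1 < r) (α x : ℝ) (k : ℤ) :
    HasSum (fun m : ℕ => ∫ y, cpG r α x k m y ∂cpMu) (∫ y, ∑' m : ℕ, cpG r α x k m y ∂cpMu) := by
  refine hasSum_integral_of_summable_integral_norm (fun m => cpG_integrable r α x k m) ?_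
  refine Summable.of_nonneg_of_le (fun m => integral_nonneg fun y => norm_nonneg _) (fun m => ?_)
    (cp_summ r hr)
  calc ∫ y, ‖cpG r α x k m y‖ ∂cpMu ≤ ∫ y, 2 * ((m:ℝ)+1)^(-r) ∂cpMu :=
        integral_mono (cpG_integrable r α x k m).norm (integrable_const _)
          (fun y => cpG_norm r α x k m y)
    _ = 2 * ((m:ℝ)+1)^(-r) := by simp

theorem cp_tsum_integrable (r : ℝ) (hr : 1 < r) (α x : ℝ) (k : ℤ) :
    Integrable (fun y => ∑' m : ℕ, cpG r α x k m y) cpMu := by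
  have hc : Continuous fun y => ∑' m : ℕ, cpG r α x k m y := by
    refine continuous_tsum (fun m => ?_) (cp_summ r hr) (fun m y => cpG_norm r α x k m y)
    unfold cpG
    fun_prop
  refine Integrable.of_bound hc.aestronglyMeasurable (∑' m : ℕ, 2 * ((m:ℝ)+1)^(-r)) ?_
  filter_upwards with y
  exact tsum_of_norm_bounded (cp_summ r hr).hasSum (fun m => cpG_norm r α x k m y)

/-- coefficient in one variable -/
noncomputable def cpH (r α : ℝ) (k : ℤ) : ℂ :=
  if k = 0 then 1 else (((|(k : ℝ)|)^(-r) : ℝ) : ℂ) *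
    Complex.exp (-(Complex.I * (((SignType.sign k : ℤ) : ℝ) * α * π / 2 : ℝ)))

theorem cp_one_int (r : ℝ) (hr : 1 < r) (α x : ℝ) (k : ℤ) :
    Integrable (fun y => ((F1 r α (x - y) : ℝ) : ℂ) *
      Complex.exp (Complex.I * (((k:ℝ) * y : ℝ) : ℂ))) cpMu := by
  simp_rw [cp_F1]
  exact (cp_exp_int k).add (cp_tsum_integrable r hr α x k)

theorem cp_one (r : ℝ) (hr : 1 < r) (α x : ℝ) (k : ℤ) :
    ∫ y, ((F1 r α (x - y) : ℝ) : ℂ) * Complex.exp (Complex.I * (((k:ℝ) * y : ℝ) : ℂ)) ∂cpMu =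
      cpH r α k * Complex.exp (Complex.I * (((k:ℝ) * x : ℝ) : ℂ)) := by
  simp_rw [cp_F1]
  rw [integral_add (cp_exp_int k) (cp_tsum_integrable r hr α x k), cp_exp,
    ← (cpG_hasSum r hr α x k).tsum_eq]
  simp_rw [cpG_integral]
  unfold cpH
  rcases lt_trichotomy k 0 with hk | hk | hk
  · obtain ⟨K, hK⟩ : ∃ K : ℕ, k = -((K:ℤ) + 1) := ⟨(-k - 1).toNat, by omega⟩
    rw [if_neg hk.ne, if_neg hk.ne, zero_add, tsum_eq_single K]
    · rw [if_neg (by omega), if_pos (by omega), mul_zero, zero_add, mul_one, sign_neg hk, hK]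
      have h1 : |((-((K:ℤ) + 1) : ℤ) : ℝ)| = (K:ℝ) + 1 := by
        push_cast
        rw [abs_neg, abs_of_nonneg (by positivity)]
      rw [h1, mul_assoc, ← Complex.exp_add]
      congr 2
      push_cast
      simp
      ring
    · intro m hm
      rw [if_neg (by omega), if_neg (by omega)]
      simp
  · subst hk
    have h : ∀ m : ℕ, (((((m:ℝ)+1)^(-r)) : ℝ) : ℂ) *
      (Complex.exp (Complex.I * ((((m:ℝ)+1) * x - α * π / 2 : ℝ) : ℂ)) *
        (if (0:ℤ) - (m + 1) = 0 then 1 else 0) +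
       Complex.exp (-(Complex.I * ((((m:ℝ)+1) * x - α * π / 2 : ℝ) : ℂ))) *
        (if (0:ℤ) + (m + 1) = 0 then 1 else 0)) = 0 := by
      intro m
      rw [if_neg (by omega), if_neg (by omega)]
      simp
    simp_rw [h]
    simp
  · obtain ⟨K, hK⟩ : ∃ K : ℕ, k = (K:ℤ) + 1 := ⟨(k - 1).toNat, by omega⟩
    rw [if_neg hk.ne', if_neg hk.ne', zero_add, tsum_eq_single K]
    · rw [if_pos (by omega), if_neg (by omega), mul_zero, add_zero, mul_one, sign_pos hk, hK]
      have h1 : |(((K:ℤ) + 1 : ℤ) : ℝ)| = (K:ℝ) + 1 := by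
        push_cast
        rw [abs_of_nonneg (by positivity)]
      rw [h1, mul_assoc, ← Complex.exp_add]
      congr 2
      push_cast
      simp
      ring
    · intro m hm
      rw [if_neg (by omega), if_neg (by omega)]
      simp

theorem conv_poly {d n : ℕ} (r : ℝ) (hr : 1 < r) (α : Fin d → ℝ) (a : (layer d n) × Fin 2 → ℝ)
    (x : Fin d → ℝ) : ∫ y, Fr r α (x - y) • poly a y ∂(TP d) = poly (Mact r α a) x := by
  have hexp : ∀ (k : Fin d → ℤ) (y : Fin d → ℝ),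
      Complex.exp (Complex.I * ((∑ j, (k j : ℝ) * y j : ℝ) : ℂ)) =
        ∏ j, Complex.exp (Complex.I * (((k j : ℝ) * y j : ℝ) : ℂ)) := by
    intro k y
    rw [Complex.ofReal_sum, Finset.mul_sum, Complex.exp_sum]
  have h1 : (fun y => Fr r α (x - y) • poly a y) = fun y => ∑ k : layer d n,
      ((a (k, 0) : ℂ) + (a (k, 1) : ℂ) * Complex.I) *
        ∏ j, (((F1 r (α j) (x j - y j) : ℝ) : ℂ) *
          Complex.exp (Complex.I * (((k.1 j : ℝ) * y j : ℝ) : ℂ))) := by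
    funext y
    unfold poly Fr
    rw [Finset.smul_sum]
    refine Finset.sum_congr rfl fun k _ => ?_
    rw [Complex.real_smul, hexp, Finset.prod_mul_distrib, Complex.ofReal_prod]
    simp only [Pi.sub_apply]
    ring
  rw [h1]
  have hTP : TP d = Measure.pi (fun _ : Fin d => cpMu) := rfl
  have hint : ∀ k : layer d n, Integrable (fun y : Fin d → ℝ =>
      ∏ j, (((F1 r (α j) (x j - y j) : ℝ) : ℂ) *
          Complex.exp (Complex.I * (((k.1 j : ℝ) * y j : ℝ) : ℂ)))) (TP d) := by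
    intro k
    rw [hTP]
    exact Integrable.fintype_prod (f := fun j y => ((F1 r (α j) (x j - y) : ℝ) : ℂ) *
          Complex.exp (Complex.I * (((k.1 j : ℝ) * y : ℝ) : ℂ)))
      (fun j => cp_one_int r hr (α j) (x j) (k.1 j))
  rw [integral_finsetSum _ (fun k _ => (hint k).const_mul _)]
  unfold poly
  refine Finset.sum_congr rfl fun k _ => ?_
  rw [integral_const_mul, hTP]
  have h2 := integral_fintype_prod_eq_prod (𝕜 := ℂ) (μ := fun _ : Fin d => cpMu)
    (fun (j : Fin d) (y : ℝ) => ((F1 r (α j) (x j - y) : ℝ) : ℂ) *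
          Complex.exp (Complex.I * (((k.1 j : ℝ) * y : ℝ) : ℂ)))
  rw [h2]
  simp_rw [cp_one r hr]
  rw [Finset.prod_mul_distrib, ← hexp]
  have h3 : (∏ j, cpH r (α j) (k.1 j)) = Fh r α k.1 := by
    unfold Fh
    refine Finset.prod_congr rfl fun j _ => ?_
    unfold cpH
    rfl
  rw [h3]
  have h4 : ((Mact r α a (k, 0) : ℂ) + (Mact r α a (k, 1) : ℂ) * Complex.I) =
      Fh r α k.1 * ((a (k, 0) : ℂ) + (a (k, 1) : ℂ) * Complex.I) := by
    unfold Mact
    simp only [if_true, one_ne_zero, if_false]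
    exact Complex.re_add_im _
  rw [h4]
  ring


end Sol_conv_poly

alias conv_poly := Sol_conv_poly.conv_poly

end HypVol
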