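import Pool.Agent.HypVol.Defs
open MeasureTheory Real ProbabilityTheory
open scoped ENNReal BigOperators

namespace HypVol
namespace Sol_mem_rho



theorem mem_rho_iff (k : ℤ) (s : ℕ) : k ∈ rho s ↔ Nat.size k.natAbs = s := by
  have hk : |k| = (k.natAbs : ℤ) := Int.abs_eq_natAbs k
  show ((2:ℤ)^s / 2 ≤ |k| ∧ |k| < (2:ℤ)^s) ↔ _
  rw [hk]
  have h1 : ((k.natAbs : ℤ) < (2:ℤ)^s) ↔ Nat.size k.natAbs ≤ s := by
    rw [Nat.size_le]
    constructor
    · intro h; exact_mod_cast h
    · intro h; exact_mod_cast h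
  rw [h1]
  rcases s with _ | t
  · constructor
    · rintro ⟨-, h⟩; exact Nat.le_zero.1 h
    · intro h
      exact ⟨by simp, h.le⟩
  · have h2 : ((2:ℤ)^(t+1) / 2 ≤ (k.natAbs : ℤ)) ↔ t < Nat.size k.natAbs := by
      rw [Nat.lt_size, pow_succ, Int.mul_ediv_cancel _ (by norm_num)]
      constructor
      · intro h; exact_mod_cast h
      · intro h; exact_mod_cast h
    rw [h2]
    omega


end Sol_mem_rho

alias mem_rho_iff := Sol_mem_rho.mem_rho_iff

end HypVol
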