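import Pool.Agent.HypVol.Defs
import Pool.Agent.HypVol.L_mem_rho
open MeasureTheory Real ProbabilityTheory
open scoped ENNReal BigOperators

namespace HypVol
namespace Sol_mem_layer




theorem mem_layer_iff (d n : ℕ) (k : Fin d → ℤ) :
    k ∈ layer d n ↔ ∑ j, Nat.size (k j).natAbs = n := by
  classical
  unfold layer
  rw [Finset.mem_filter, Fintype.mem_piFinset]
  constructor
  · rintro ⟨_, s, hs, h⟩
    rw [← hs]
    exact Finset.sum_congr rfl (fun j _ => (mem_rho_iff (k j) (s j)).1 (h j))
  · intro h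
    refine ⟨fun j => ?_, fun j => Nat.size (k j).natAbs, h, fun j => (mem_rho_iff _ _).2 rfl⟩
    have h1 : Nat.size (k j).natAbs ≤ n := by
      rw [← h]
      exact Finset.single_le_sum (f := fun j => Nat.size (k j).natAbs)
        (fun i _ => Nat.zero_le _) (Finset.mem_univ j)
    have h2 : (k j).natAbs < 2 ^ n :=
      lt_of_lt_of_le (Nat.lt_size_self _) (Nat.pow_le_pow_right (by norm_num) h1)
    have h3 : |k j| < (2 : ℤ) ^ n := by
      rw [Int.abs_eq_natAbs]
      exact_mod_cast h2
    rw [Finset.mem_Ioo]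
    exact abs_lt.mp h3


end Sol_mem_layer

alias mem_layer_iff := Sol_mem_layer.mem_layer_iff

end HypVol
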