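import Pool.Agent.HypVol.Defs
import Pool.Agent.HypVol.L_TP_prob
open MeasureTheory Real ProbabilityTheory
open scoped ENNReal BigOperators

namespace HypVol
namespace Sol_fc_poly




theorem hv_one (m : ℤ) :
    ∫ x : ℝ, Complex.exp (Complex.I * ((((m : ℤ) : ℝ) * x : ℝ) : ℂ))
      ∂(ENNReal.ofReal (2 * π)⁻¹ • (volume : Measure ℝ).restrict (Set.Ico 0 (2 * π))) =
      if m = 0 then 1 else 0 := by
  have hpi : (0 : ℝ) < 2 * π := by positivity
  rw [integral_smul_measure, ENNReal.toReal_ofReal (by positivity),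
    integral_Ico_eq_integral_Ioo, ← integral_Ioc_eq_integral_Ioo,
    ← intervalIntegral.integral_of_le hpi.le]
  by_cases hm : m = 0
  · subst hm
    rw [if_pos rfl]
    have h1 : (fun x : ℝ => Complex.exp (Complex.I * (((((0 : ℤ) : ℤ) : ℝ) * x : ℝ) : ℂ))) =
        fun _ => (1 : ℂ) := by
      funext x
      simp
    rw [h1, intervalIntegral.integral_const, sub_zero, smul_smul, inv_mul_cancel₀ hpi.ne',
      one_smul]
  · rw [if_neg hm]
    have h1 : (fun x : ℝ => Complex.exp (Complex.I * ((((m : ℤ) : ℝ) * x : ℝ) : ℂ))) =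
        fun x : ℝ => Complex.exp ((Complex.I * (m : ℂ)) * (x : ℂ)) := by
      funext x
      congr 1
      push_cast
      ring
    have hc : Complex.I * (m : ℂ) ≠ 0 :=
      mul_ne_zero Complex.I_ne_zero (by exact_mod_cast hm)
    have h2 : Complex.exp (Complex.I * (m : ℂ) * ((2 * π : ℝ) : ℂ)) = 1 := by
      have h3 : Complex.I * (m : ℂ) * ((2 * π : ℝ) : ℂ) =
          (m : ℂ) * (2 * (π : ℂ) * Complex.I) := by
        push_cast
        ring
      rw [h3]
      exact Complex.exp_int_mul_two_pi_mul_I m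
    rw [h1, integral_exp_mul_complex hc, h2]
    simp

theorem hv_orth {d : ℕ} (l k : Fin d → ℤ) :
    ∫ x : Fin d → ℝ, Complex.exp (Complex.I * ((∑ j, (l j : ℝ) * x j : ℝ) : ℂ)) *
      Complex.exp (-(Complex.I * ((∑ j, (k j : ℝ) * x j : ℝ) : ℂ))) ∂(TP d) =
      if l = k then 1 else 0 := by
  have h1 : (fun x : Fin d → ℝ => Complex.exp (Complex.I * ((∑ j, (l j : ℝ) * x j : ℝ) : ℂ)) *
      Complex.exp (-(Complex.I * ((∑ j, (k j : ℝ) * x j : ℝ) : ℂ)))) =
      fun x => ∏ j, Complex.exp (Complex.I * (((((l j - k j : ℤ)) : ℝ) * x j : ℝ) : ℂ)) := by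
    funext x
    rw [← Complex.exp_add, ← Complex.exp_sum]
    congr 1
    push_cast
    rw [Finset.mul_sum, Finset.mul_sum, ← Finset.sum_neg_distrib, ← Finset.sum_add_distrib]
    refine Finset.sum_congr rfl fun j _ => ?_
    ring
  rw [h1]
  haveI : IsFiniteMeasure (ENNReal.ofReal (2 * π)⁻¹ •
      (volume : Measure ℝ).restrict (Set.Ico 0 (2 * π))) := by
    refine ⟨?_⟩
    rw [Measure.smul_apply, smul_eq_mul]
    exact ENNReal.mul_lt_top ENNReal.ofReal_lt_top (by
      rw [Measure.restrict_apply_univ, Real.volume_Ico]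
      exact ENNReal.ofReal_lt_top)
  have h2 := integral_fintype_prod_eq_prod (𝕜 := ℂ) (ι := Fin d) (E := fun _ => ℝ)
    (μ := fun _ => ENNReal.ofReal (2 * π)⁻¹ •
      (volume : Measure ℝ).restrict (Set.Ico 0 (2 * π)))
    (fun j x => Complex.exp (Complex.I * (((((l j - k j : ℤ)) : ℝ) * x : ℝ) : ℂ)))
  rw [TP, h2, Finset.prod_congr rfl fun j _ => hv_one (l j - k j)]
  by_cases h : l = k
  · rw [if_pos h, h]
    simp
  · rw [if_neg h]
    obtain ⟨j, hj⟩ : ∃ j, l j ≠ k j := by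
      by_contra hcon
      push Not at hcon
      exact h (funext hcon)
    exact Finset.prod_eq_zero (Finset.mem_univ j) (if_neg (sub_ne_zero.2 hj))

theorem fc_poly {d n : ℕ} (a : (layer d n) × Fin 2 → ℝ) (k : layer d n) :
    fc (poly a) k.1 = (a (k, 0) : ℂ) + (a (k, 1) : ℂ) * Complex.I := by
  haveI := TP_prob d
  unfold fc poly
  have h1 : ∀ x : Fin d → ℝ,
      (∑ l : layer d n, ((a (l, 0) : ℂ) + (a (l, 1) : ℂ) * Complex.I) *
        Complex.exp (Complex.I * ((∑ j, (l.1 j : ℝ) * x j : ℝ) : ℂ))) *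
        Complex.exp (-(Complex.I * ((∑ j, (k.1 j : ℝ) * x j : ℝ) : ℂ))) =
      ∑ l : layer d n, ((a (l, 0) : ℂ) + (a (l, 1) : ℂ) * Complex.I) *
        (Complex.exp (Complex.I * ((∑ j, (l.1 j : ℝ) * x j : ℝ) : ℂ)) *
        Complex.exp (-(Complex.I * ((∑ j, (k.1 j : ℝ) * x j : ℝ) : ℂ)))) := by
    intro x
    rw [Finset.sum_mul]
    exact Finset.sum_congr rfl fun l _ => mul_assoc _ _ _
  rw [integral_congr_ae (Filter.Eventually.of_forall h1)]
  have hI : ∀ l : layer d n, Integrable (fun x : Fin d → ℝ =>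
      ((a (l, 0) : ℂ) + (a (l, 1) : ℂ) * Complex.I) *
        (Complex.exp (Complex.I * ((∑ j, (l.1 j : ℝ) * x j : ℝ) : ℂ)) *
        Complex.exp (-(Complex.I * ((∑ j, (k.1 j : ℝ) * x j : ℝ) : ℂ))))) (TP d) := by
    intro l
    refine Integrable.const_mul ?_ _
    refine Integrable.of_bound ?_ 1 (Filter.Eventually.of_forall fun x => ?_)
    · refine Continuous.aestronglyMeasurable ?_
      fun_prop
    · rw [norm_mul, Complex.norm_exp_I_mul_ofReal, ← mul_neg, ← Complex.ofReal_neg,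
        Complex.norm_exp_I_mul_ofReal, one_mul]
  rw [integral_finsetSum _ fun l _ => hI l]
  have h2 : ∀ l : layer d n, ∫ x : Fin d → ℝ, ((a (l, 0) : ℂ) + (a (l, 1) : ℂ) * Complex.I) *
        (Complex.exp (Complex.I * ((∑ j, (l.1 j : ℝ) * x j : ℝ) : ℂ)) *
        Complex.exp (-(Complex.I * ((∑ j, (k.1 j : ℝ) * x j : ℝ) : ℂ)))) ∂(TP d) =
      if l = k then (a (l, 0) : ℂ) + (a (l, 1) : ℂ) * Complex.I else 0 := by
    intro l
    rw [integral_const_mul, hv_orth]
    by_cases h : l = k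
    · rw [if_pos h, if_pos (by rw [h]), mul_one]
    · rw [if_neg h, if_neg (fun h' => h (Subtype.ext h')), mul_zero]
  rw [Finset.sum_congr rfl fun l _ => h2 l, Finset.sum_ite_eq' Finset.univ k,
    if_pos (Finset.mem_univ k)]


end Sol_fc_poly

alias fc_poly := Sol_fc_poly.fc_poly

end HypVol
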