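import Pool.Agent.HypVol.Defs
import Pool.Agent.HypVol.L_TP_prob
open MeasureTheory Real ProbabilityTheory
open scoped ENNReal BigOperators

namespace HypVol
namespace Sol_Lq_vol




theorem Lq_vol_one (t : ℝ) : ∫ a in Set.Icc (-1:ℝ) 1, Real.exp (t * a) ≤ 2 * Real.exp (t ^ 2 / 2) := by
  have h : ∀ a ∈ Set.Icc (-1:ℝ) 1, Real.exp (t * a) ≤
      (Real.exp t + Real.exp (-t)) / 2 + (Real.exp t - Real.exp (-t)) / 2 * a := by
    intro a ha
    have h1 := convexOn_exp.2 (Set.mem_univ t) (Set.mem_univ (-t))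
      (by linarith [ha.1] : 0 ≤ (1 + a) / 2) (by linarith [ha.2] : 0 ≤ (1 - a) / 2) (by ring)
    simp only [smul_eq_mul] at h1
    have e1 : (1 + a) / 2 * t + (1 - a) / 2 * -t = t * a := by ring
    rw [e1] at h1
    linarith
  have hi : ∫ a in Set.Icc (-1:ℝ) 1, ((Real.exp t + Real.exp (-t)) / 2 +
      (Real.exp t - Real.exp (-t)) / 2 * a) = Real.exp t + Real.exp (-t) := by
    rw [integral_Icc_eq_integral_Ioc, ← intervalIntegral.integral_of_le (by norm_num)]
    rw [intervalIntegral.integral_add (by simp) (by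
      apply Continuous.intervalIntegrable; fun_prop), intervalIntegral.integral_const_mul,
      integral_id, intervalIntegral.integral_const]
    simp only [smul_eq_mul]
    ring
  have h2 : ∫ a in Set.Icc (-1:ℝ) 1, Real.exp (t * a) ≤ Real.exp t + Real.exp (-t) := by
    rw [← hi]
    refine setIntegral_mono_on ?_ ?_ measurableSet_Icc h
    · exact (Continuous.continuousOn (by fun_prop)).integrableOn_Icc
    · exact (Continuous.continuousOn (by fun_prop)).integrableOn_Icc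
  have h3 := Real.cosh_le_exp_half_sq t
  rw [Real.cosh_eq] at h3
  linarith

theorem Lq_vol_prod {ι : Type} [Fintype ι] (τ : ι → ℝ) :
    ∫⁻ a : ι → ℝ, ENNReal.ofReal (Real.exp (∑ i, τ i * a i))
      ∂(Measure.pi (fun _ : ι => (volume : Measure ℝ).restrict (Set.Icc (-1) 1))) ≤
    ENNReal.ofReal (2 ^ Fintype.card ι * Real.exp ((∑ i, τ i ^ 2) / 2)) := by
  have hint : Integrable (fun a : ι → ℝ => ∏ i, Real.exp (τ i * a i))
      (Measure.pi (fun _ : ι => (volume : Measure ℝ).restrict (Set.Icc (-1) 1))) := by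
    refine Integrable.fintype_prod (f := fun i x => Real.exp (τ i * x)) (fun i => ?_)
    exact (Continuous.continuousOn (by fun_prop)).integrableOn_Icc
  have e1 : ∀ a : ι → ℝ, Real.exp (∑ i, τ i * a i) = ∏ i, Real.exp (τ i * a i) := fun a =>
    Real.exp_sum _ _
  simp only [e1]
  rw [← ofReal_integral_eq_lintegral_ofReal hint
    (Filter.Eventually.of_forall fun a => Finset.prod_nonneg fun i _ => (Real.exp_pos _).le)]
  refine ENNReal.ofReal_le_ofReal ?_
  rw [integral_fintype_prod_eq_prod (f := fun i x => Real.exp (τ i * x))]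
  have e2 : (2:ℝ) ^ Fintype.card ι * Real.exp ((∑ i, τ i ^ 2) / 2) =
      ∏ i : ι, (2 * Real.exp (τ i ^ 2 / 2)) := by
    rw [Finset.prod_mul_distrib, Finset.prod_const, Finset.card_univ, ← Real.exp_sum,
      Finset.sum_div]
  rw [e2]
  exact Finset.prod_le_prod (fun i _ => integral_nonneg fun x => (Real.exp_pos _).le)
    (fun i _ => Lq_vol_one (τ i))

/-- the coordinates of the real part -/
noncomputable def Lq_vol_R {d n : ℕ} (x : Fin d → ℝ) (i : (layer d n) × Fin 2) : ℝ :=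
  if i.2 = 0 then Real.cos (∑ j, (i.1.1 j : ℝ) * x j) else -Real.sin (∑ j, (i.1.1 j : ℝ) * x j)

/-- the coordinates of the imaginary part -/
noncomputable def Lq_vol_I {d n : ℕ} (x : Fin d → ℝ) (i : (layer d n) × Fin 2) : ℝ :=
  if i.2 = 0 then Real.sin (∑ j, (i.1.1 j : ℝ) * x j) else Real.cos (∑ j, (i.1.1 j : ℝ) * x j)

theorem Lq_vol_term (u v θ : ℝ) : ((u : ℂ) + (v : ℂ) * Complex.I) *
    Complex.exp (Complex.I * ((θ : ℝ) : ℂ)) =
    ((Real.cos θ * u + -Real.sin θ * v : ℝ) : ℂ) +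
      ((Real.sin θ * u + Real.cos θ * v : ℝ) : ℂ) * Complex.I := by
  rw [mul_comm Complex.I, Complex.exp_mul_I, ← Complex.ofReal_cos, ← Complex.ofReal_sin]
  push_cast
  linear_combination ((v:ℂ) * Complex.sin θ) * Complex.I_sq

theorem Lq_vol_poly {d n : ℕ} (a : (layer d n) × Fin 2 → ℝ) (x : Fin d → ℝ) :
    poly a x = ((∑ i, Lq_vol_R x i * a i : ℝ) : ℂ) + ((∑ i, Lq_vol_I x i * a i : ℝ) : ℂ) * Complex.I := by
  unfold poly
  rw [Fintype.sum_prod_type, Fintype.sum_prod_type]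
  simp only [Fin.sum_univ_two, Lq_vol_R, Lq_vol_I, if_true, Fin.isValue, one_ne_zero, if_false]
  rw [Complex.ofReal_sum, Complex.ofReal_sum, Finset.sum_mul, ← Finset.sum_add_distrib]
  refine Finset.sum_congr rfl fun k _ => ?_
  exact Lq_vol_term _ _ _

theorem Lq_vol_sqR {d n : ℕ} (x : Fin d → ℝ) :
    ∑ i : (layer d n) × Fin 2, Lq_vol_R x i ^ 2 = (layer d n).card := by
  rw [Fintype.sum_prod_type]
  simp only [Fin.sum_univ_two, Lq_vol_R, if_true, Fin.isValue, one_ne_zero, if_false, neg_sq,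
    Real.cos_sq_add_sin_sq]
  simp

theorem Lq_vol_sqI {d n : ℕ} (x : Fin d → ℝ) :
    ∑ i : (layer d n) × Fin 2, Lq_vol_I x i ^ 2 = (layer d n).card := by
  rw [Fintype.sum_prod_type]
  simp only [Fin.sum_univ_two, Lq_vol_I, if_true, Fin.isValue, one_ne_zero, if_false,
    Real.sin_sq_add_cos_sq]
  simp

theorem Lq_vol_pw (q : ℝ) (hq : 1 ≤ q) (t : ℝ) (ht : 0 ≤ t) :
    t ^ q ≤ (Nat.factorial ⌈q⌉₊ : ℝ) * Real.exp t := by
  have hf : (1:ℝ) ≤ (Nat.factorial ⌈q⌉₊ : ℝ) := by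
    exact_mod_cast Nat.one_le_iff_ne_zero.2 (Nat.factorial_ne_zero _)
  by_cases h1 : t ≤ 1
  · have h2 : t ^ q ≤ 1 := Real.rpow_le_one ht h1 (by linarith)
    have h3 : 1 ≤ Real.exp t := Real.one_le_exp ht
    nlinarith
  · push Not at h1
    have h2 : t ^ q ≤ t ^ (⌈q⌉₊ : ℝ) := Real.rpow_le_rpow_of_exponent_le h1.le (Nat.le_ceil q)
    rw [Real.rpow_natCast] at h2
    have h3 := Real.pow_div_factorial_le_exp t ht ⌈q⌉₊
    rw [div_le_iff₀ (by linarith)] at h3
    linarith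

theorem Lq_vol_point {d n : ℕ} (q : ℝ) (hq : 1 ≤ q) (hM : 0 < (layer d n).card)
    (a : (layer d n) × Fin 2 → ℝ) (x : Fin d → ℝ) :
    ‖poly a x‖ ^ q ≤ Real.sqrt ((layer d n).card) ^ q * (Nat.factorial ⌈q⌉₊ : ℝ) / 2 *
      (Real.exp (∑ i, (2 / Real.sqrt ((layer d n).card) * Lq_vol_R x i) * a i) +
       Real.exp (∑ i, (-2 / Real.sqrt ((layer d n).card) * Lq_vol_R x i) * a i) +
       Real.exp (∑ i, (2 / Real.sqrt ((layer d n).card) * Lq_vol_I x i) * a i) +
       Real.exp (∑ i, (-2 / Real.sqrt ((layer d n).card) * Lq_vol_I x i) * a i)) := by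
  set S := Real.sqrt ((layer d n).card) with hS
  have hSpos : 0 < S := Real.sqrt_pos.2 (by exact_mod_cast hM)
  set u := ∑ i, Lq_vol_R x i * a i with hu
  set v := ∑ i, Lq_vol_I x i * a i with hv
  have hn : ‖poly a x‖ ≤ |u| + |v| := by
    rw [Lq_vol_poly]
    refine (norm_add_le _ _).trans ?_
    rw [norm_mul, Complex.norm_I, mul_one, Complex.norm_real, Complex.norm_real,
      Real.norm_eq_abs, Real.norm_eq_abs]
  have e1 : ∀ (c : ℝ) (g : (layer d n) × Fin 2 → ℝ), ∑ i, (c * g i) * a i = c * ∑ i, g i * a i := by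
    intro c g
    rw [Finset.mul_sum]
    exact Finset.sum_congr rfl fun i _ => by ring
  rw [e1, e1, e1, e1, ← hu, ← hv]
  have h1 : ‖poly a x‖ ^ q = S ^ q * (‖poly a x‖ / S) ^ q := by
    rw [← Real.mul_rpow hSpos.le (by positivity), mul_div_cancel₀ _ hSpos.ne']
  have h2 := Lq_vol_pw q hq (‖poly a x‖ / S) (by positivity)
  have h3 : Real.exp (‖poly a x‖ / S) ≤ Real.exp (|u| / S + |v| / S) := by
    apply Real.exp_le_exp.2
    rw [← add_div]
    exact div_le_div_of_nonneg_right hn hSpos.le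
  have h4 : Real.exp (|u| / S + |v| / S) ≤
      (Real.exp (2 * (|u| / S)) + Real.exp (2 * (|v| / S))) / 2 := by
    rw [Real.exp_add, two_mul, two_mul, Real.exp_add, Real.exp_add]
    nlinarith [sq_nonneg (Real.exp (|u| / S) - Real.exp (|v| / S))]
  have h5 : ∀ w : ℝ, Real.exp (2 * (|w| / S)) ≤ Real.exp (2 / S * w) + Real.exp (-2 / S * w) := by
    intro w
    rcases abs_cases w with ⟨h, _⟩ | ⟨h, _⟩
    · rw [h]
      have : 2 * (w / S) = 2 / S * w := by ring
      rw [this]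
      linarith [Real.exp_pos (-2 / S * w)]
    · rw [h]
      have : 2 * (-w / S) = -2 / S * w := by ring
      rw [this]
      linarith [Real.exp_pos (2 / S * w)]
  have h6 := h5 u
  have h7 := h5 v
  rw [h1]
  have hSq : 0 ≤ S ^ q := Real.rpow_nonneg hSpos.le _
  have hf : (0:ℝ) ≤ (Nat.factorial ⌈q⌉₊ : ℝ) := Nat.cast_nonneg _
  have h8 : Real.exp (‖poly a x‖ / S) ≤ (Real.exp (2 / S * u) + Real.exp (-2 / S * u) +
      Real.exp (2 / S * v) + Real.exp (-2 / S * v)) / 2 := by linarith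
  calc S ^ q * (‖poly a x‖ / S) ^ q
      ≤ S ^ q * ((Nat.factorial ⌈q⌉₊ : ℝ) * Real.exp (‖poly a x‖ / S)) :=
        mul_le_mul_of_nonneg_left h2 hSq
    _ ≤ S ^ q * ((Nat.factorial ⌈q⌉₊ : ℝ) * ((Real.exp (2 / S * u) + Real.exp (-2 / S * u) +
      Real.exp (2 / S * v) + Real.exp (-2 / S * v)) / 2)) :=
        mul_le_mul_of_nonneg_left (mul_le_mul_of_nonneg_left h8 hf) hSq
    _ = _ := by ring

theorem Lq_vol_lin {α : Type} [MeasurableSpace α] (μ : Measure α) (c : ℝ≥0∞)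
    {f1 f2 f3 f4 : α → ℝ≥0∞} (h1 : Measurable f1) (h2 : Measurable f2) (h3 : Measurable f3)
    (h4 : Measurable f4) : ∫⁻ a, c * (f1 a + f2 a + f3 a + f4 a) ∂μ =
      c * (∫⁻ a, f1 a ∂μ + ∫⁻ a, f2 a ∂μ + ∫⁻ a, f3 a ∂μ + ∫⁻ a, f4 a ∂μ) := by
  have m2 : Measurable fun a => f1 a + f2 a := h1.add h2
  have m3 : Measurable fun a => f1 a + f2 a + f3 a := m2.add h3
  have m4 : Measurable fun a => f1 a + f2 a + f3 a + f4 a := m3.add h4
  rw [lintegral_const_mul c m4, lintegral_add_left m3, lintegral_add_left m2,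
    lintegral_add_left h1]

/-- uniform measure on the cube -/
noncomputable abbrev Lq_vol_nu (d n : ℕ) : Measure ((layer d n) × Fin 2 → ℝ) :=
  Measure.pi (fun _ => (volume : Measure ℝ).restrict (Set.Icc (-1) 1))

theorem Lq_vol_exp {d n : ℕ} (hM : 0 < (layer d n).card) (c : ℝ) (hc : c ^ 2 = 4)
    (g : (layer d n) × Fin 2 → ℝ) (hg : ∑ i, g i ^ 2 = (layer d n).card) :
    ∫⁻ a, ENNReal.ofReal (Real.exp (∑ i, (c / Real.sqrt ((layer d n).card) * g i) * a i))
      ∂(Lq_vol_nu d n) ≤ ENNReal.ofReal (2 ^ (2 * (layer d n).card) * Real.exp 2) := by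
  refine (Lq_vol_prod _).trans (le_of_eq ?_)
  have hM' : (0:ℝ) < (layer d n).card := by exact_mod_cast hM
  have e1 : ∑ i, (c / Real.sqrt ((layer d n).card) * g i) ^ 2 = 4 := by
    have : ∀ i, (c / Real.sqrt ((layer d n).card) * g i) ^ 2 = 4 / (layer d n).card * g i ^ 2 := by
      intro i
      rw [mul_pow, div_pow, Real.sq_sqrt hM'.le, hc]
    simp only [this]
    rw [← Finset.mul_sum, hg]
    field_simp
  rw [e1]
  congr 2
  · simp [mul_comm]
  · norm_num

theorem Lq_vol_mom {d n : ℕ} (q : ℝ) (hq : 1 ≤ q) (hM : 0 < (layer d n).card) (x : Fin d → ℝ) :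
    ∫⁻ a, ENNReal.ofReal (‖poly a x‖ ^ q) ∂(Lq_vol_nu d n) ≤
      ENNReal.ofReal (2 * Real.exp 2 * (Nat.factorial ⌈q⌉₊ : ℝ) *
        Real.sqrt ((layer d n).card) ^ q * 2 ^ (2 * (layer d n).card)) := by
  set S := Real.sqrt ((layer d n).card) with hS
  have hSpos : 0 < S := Real.sqrt_pos.2 (by exact_mod_cast hM)
  have hSq : 0 ≤ S ^ q := Real.rpow_nonneg hSpos.le _
  have hK : (0:ℝ) ≤ S ^ q * (Nat.factorial ⌈q⌉₊ : ℝ) / 2 := by positivity
  have hm : ∀ g : (layer d n) × Fin 2 → ℝ, Measurable fun a : (layer d n) × Fin 2 → ℝ =>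
      ENNReal.ofReal (Real.exp (∑ i, g i * a i)) := by
    intro g
    fun_prop
  calc ∫⁻ a, ENNReal.ofReal (‖poly a x‖ ^ q) ∂(Lq_vol_nu d n)
      ≤ ∫⁻ a, ENNReal.ofReal (S ^ q * (Nat.factorial ⌈q⌉₊ : ℝ) / 2) *
      (ENNReal.ofReal (Real.exp (∑ i, (2 / S * Lq_vol_R x i) * a i)) +
       ENNReal.ofReal (Real.exp (∑ i, (-2 / S * Lq_vol_R x i) * a i)) +
       ENNReal.ofReal (Real.exp (∑ i, (2 / S * Lq_vol_I x i) * a i)) +
       ENNReal.ofReal (Real.exp (∑ i, (-2 / S * Lq_vol_I x i) * a i))) ∂(Lq_vol_nu d n) := by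
        refine lintegral_mono fun a => ?_
        rw [← ENNReal.ofReal_add (Real.exp_pos _).le (Real.exp_pos _).le,
          ← ENNReal.ofReal_add (by positivity) (Real.exp_pos _).le,
          ← ENNReal.ofReal_add (by positivity) (Real.exp_pos _).le,
          ← ENNReal.ofReal_mul hK]
        exact ENNReal.ofReal_le_ofReal (Lq_vol_point q hq hM a x)
    _ = ENNReal.ofReal (S ^ q * (Nat.factorial ⌈q⌉₊ : ℝ) / 2) *
      (∫⁻ a, ENNReal.ofReal (Real.exp (∑ i, (2 / S * Lq_vol_R x i) * a i)) ∂(Lq_vol_nu d n) +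
       ∫⁻ a, ENNReal.ofReal (Real.exp (∑ i, (-2 / S * Lq_vol_R x i) * a i)) ∂(Lq_vol_nu d n) +
       ∫⁻ a, ENNReal.ofReal (Real.exp (∑ i, (2 / S * Lq_vol_I x i) * a i)) ∂(Lq_vol_nu d n) +
       ∫⁻ a, ENNReal.ofReal (Real.exp (∑ i, (-2 / S * Lq_vol_I x i) * a i)) ∂(Lq_vol_nu d n)) := by
        exact Lq_vol_lin _ _ (hm _) (hm _) (hm _) (hm _)
    _ ≤ ENNReal.ofReal (S ^ q * (Nat.factorial ⌈q⌉₊ : ℝ) / 2) *
      (ENNReal.ofReal (2 ^ (2 * (layer d n).card) * Real.exp 2) +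
       ENNReal.ofReal (2 ^ (2 * (layer d n).card) * Real.exp 2) +
       ENNReal.ofReal (2 ^ (2 * (layer d n).card) * Real.exp 2) +
       ENNReal.ofReal (2 ^ (2 * (layer d n).card) * Real.exp 2)) := by
        gcongr
        · exact Lq_vol_exp hM 2 (by norm_num) _ (Lq_vol_sqR x)
        · exact Lq_vol_exp hM (-2) (by norm_num) _ (Lq_vol_sqR x)
        · exact Lq_vol_exp hM 2 (by norm_num) _ (Lq_vol_sqI x)
        · exact Lq_vol_exp hM (-2) (by norm_num) _ (Lq_vol_sqI x)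
    _ = _ := by
        rw [← ENNReal.ofReal_add (by positivity) (by positivity),
          ← ENNReal.ofReal_add (by positivity) (by positivity),
          ← ENNReal.ofReal_add (by positivity) (by positivity),
          ← ENNReal.ofReal_mul hK]
        congr 1
        ring

theorem Lq_vol_cont {d n : ℕ} : Continuous (fun p : ((layer d n) × Fin 2 → ℝ) × (Fin d → ℝ) =>
    poly p.1 p.2) := by
  unfold poly
  fun_prop

theorem Lq_vol (d : ℕ) (q : ℝ) (hq : 1 ≤ q) : ∃ C : ℝ, 0 < C ∧ ∀ n : ℕ,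
    ENNReal.ofReal (2^(2 * (layer d n).card) / 2) ≤
      volume {a : (layer d n) × Fin 2 → ℝ | (∀ i, |a i| ≤ 1) ∧
        eLpNorm (poly a) (ENNReal.ofReal q) (TP d) ≤ ENNReal.ofReal (C * Real.sqrt ((layer d n).card))} := by
  have := TP_prob d
  set c : ℝ := 2 * Real.exp 2 * (Nat.factorial ⌈q⌉₊ : ℝ) with hc
  have hf : (1:ℝ) ≤ (Nat.factorial ⌈q⌉₊ : ℝ) := by
    exact_mod_cast Nat.one_le_iff_ne_zero.2 (Nat.factorial_ne_zero _)
  have he : (1:ℝ) ≤ Real.exp 2 := Real.one_le_exp (by norm_num)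
  have hc1 : 1 ≤ c := by
    rw [hc]
    nlinarith
  have hq0 : ENNReal.ofReal q ≠ 0 := by
    simp only [ne_eq, ENNReal.ofReal_eq_zero, not_le]
    linarith
  refine ⟨2 * c, by linarith, fun n => ?_⟩
  rcases Nat.eq_zero_or_pos (layer d n).card with hM | hM
  · have hempty : IsEmpty ((layer d n) × Fin 2) := by
      have : layer d n = ∅ := Finset.card_eq_zero.1 hM
      refine ⟨fun i => ?_⟩
      exact Finset.ne_empty_of_mem i.1.2 this
    have hset : {a : (layer d n) × Fin 2 → ℝ | (∀ i, |a i| ≤ 1) ∧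
        eLpNorm (poly a) (ENNReal.ofReal q) (TP d) ≤
          ENNReal.ofReal (2 * c * Real.sqrt ((layer d n).card))} = Set.univ := by
      ext a
      simp only [Set.mem_univ, iff_true, Set.mem_ofPred_eq]
      refine ⟨fun i => (hempty.false i).elim, ?_⟩
      have hp : poly a = 0 := by
        funext x
        rw [Lq_vol_poly]
        simp
      rw [hp, eLpNorm_zero]
      exact bot_le
    rw [hset, hM, volume_pi, Measure.pi_univ]
    simp only [mul_zero, pow_zero, Finset.univ_eq_empty, Finset.prod_empty]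
    rw [← ENNReal.ofReal_one]
    exact ENNReal.ofReal_le_ofReal (by norm_num)
  · set S := Real.sqrt ((layer d n).card) with hS
    have hSpos : 0 < S := Real.sqrt_pos.2 (by exact_mod_cast hM)
    have hSq : 0 < S ^ q := Real.rpow_pos_of_pos hSpos _
    have hνeq : Lq_vol_nu d n = volume.restrict (Set.univ.pi fun _ => Set.Icc (-1:ℝ) 1) := by
      rw [volume_pi, Measure.restrict_pi_pi]
    have hGm : Measurable (fun a : (layer d n) × Fin 2 → ℝ =>
        ∫⁻ x, ENNReal.ofReal (‖poly a x‖ ^ q) ∂(TP d)) := by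
      apply Measurable.lintegral_prod_right'
        (f := fun p : ((layer d n) × Fin 2 → ℝ) × (Fin d → ℝ) => ENNReal.ofReal (‖poly p.1 p.2‖ ^ q))
      exact ENNReal.measurable_ofReal.comp
        ((Lq_vol_cont.norm.measurable).pow_const q)
    have hfub : ∫⁻ a, ∫⁻ x, ENNReal.ofReal (‖poly a x‖ ^ q) ∂(TP d) ∂(Lq_vol_nu d n) ≤
        ENNReal.ofReal (c * S ^ q * 2 ^ (2 * (layer d n).card)) := by
      rw [lintegral_lintegral_swap]
      · calc ∫⁻ x, ∫⁻ a, ENNReal.ofReal (‖poly a x‖ ^ q) ∂(Lq_vol_nu d n) ∂(TP d)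
            ≤ ∫⁻ x, ENNReal.ofReal (c * S ^ q * 2 ^ (2 * (layer d n).card)) ∂(TP d) :=
              lintegral_mono fun x => Lq_vol_mom q hq hM x
          _ = _ := by
              rw [lintegral_const, measure_univ, mul_one]
      · exact (ENNReal.measurable_ofReal.comp
          ((Lq_vol_cont.norm.measurable).pow_const q)).aemeasurable
    have hmark := mul_meas_ge_le_lintegral (μ := Lq_vol_nu d n) hGm
      (ENNReal.ofReal (2 * c * S ^ q))
    have hbad : Lq_vol_nu d n {a | ENNReal.ofReal (2 * c * S ^ q) ≤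
        ∫⁻ x, ENNReal.ofReal (‖poly a x‖ ^ q) ∂(TP d)} ≤
        ENNReal.ofReal (2 ^ (2 * (layer d n).card) / 2) := by
      have h1 := hmark.trans hfub
      have e1 : ENNReal.ofReal (c * S ^ q * 2 ^ (2 * (layer d n).card)) =
          ENNReal.ofReal (2 * c * S ^ q) * ENNReal.ofReal (2 ^ (2 * (layer d n).card) / 2) := by
        rw [← ENNReal.ofReal_mul (by positivity)]
        congr 1
        ring
      rw [e1] at h1
      have h2 : ENNReal.ofReal (2 * c * S ^ q) ≠ 0 := by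
        simp only [ne_eq, ENNReal.ofReal_eq_zero, not_le]
        positivity
      exact (ENNReal.mul_le_mul_iff_right h2 ENNReal.ofReal_ne_top).1 h1
    have hcube : (volume : Measure ((layer d n) × Fin 2 → ℝ))
        (Set.univ.pi fun _ => Set.Icc (-1:ℝ) 1) = ENNReal.ofReal (2 ^ (2 * (layer d n).card)) := by
      rw [volume_pi, Measure.pi_pi]
      simp only [Real.volume_Icc, Finset.prod_const, Finset.card_univ]
      rw [← ENNReal.ofReal_pow (by norm_num)]
      congr 1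
      rw [Fintype.card_prod, Fintype.card_coe, Fintype.card_fin, mul_comm]
      norm_num
    have hsub : (Set.univ.pi fun _ => Set.Icc (-1:ℝ) 1 : Set ((layer d n) × Fin 2 → ℝ)) ⊆
        {a : (layer d n) × Fin 2 → ℝ | (∀ i, |a i| ≤ 1) ∧
          eLpNorm (poly a) (ENNReal.ofReal q) (TP d) ≤ ENNReal.ofReal (2 * c * S)} ∪
        ({a | ENNReal.ofReal (2 * c * S ^ q) ≤
          ∫⁻ x, ENNReal.ofReal (‖poly a x‖ ^ q) ∂(TP d)} ∩
          (Set.univ.pi fun _ => Set.Icc (-1:ℝ) 1)) := by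
      intro a ha
      by_cases hn : eLpNorm (poly a) (ENNReal.ofReal q) (TP d) ≤ ENNReal.ofReal (2 * c * S)
      · exact Or.inl ⟨fun i => abs_le.2 (ha i (Set.mem_univ i)), hn⟩
      · refine Or.inr ⟨?_, ha⟩
        push Not at hn
        show ENNReal.ofReal (2 * c * S ^ q) ≤ ∫⁻ x, ENNReal.ofReal (‖poly a x‖ ^ q) ∂(TP d)
        rw [eLpNorm_eq_lintegral_rpow_enorm_toReal hq0 ENNReal.ofReal_ne_top,
          ENNReal.toReal_ofReal (by linarith)] at hn
        have h1 : ENNReal.ofReal (2 * c * S) ^ q ≤ ∫⁻ x, ‖poly a x‖ₑ ^ q ∂(TP d) := by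
          have := ENNReal.rpow_le_rpow hn.le (by linarith : 0 ≤ q)
          rwa [← ENNReal.rpow_mul, one_div, inv_mul_cancel₀ (by linarith), ENNReal.rpow_one] at this
        have h2 : ∀ x, ‖poly a x‖ₑ ^ q = ENNReal.ofReal (‖poly a x‖ ^ q) := by
          intro x
          rw [← ofReal_norm, ENNReal.ofReal_rpow_of_nonneg (norm_nonneg _) (by linarith)]
        simp only [h2] at h1
        refine le_trans ?_ h1
        rw [ENNReal.ofReal_rpow_of_nonneg (by positivity) (by linarith),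
          Real.mul_rpow (by positivity) hSpos.le]
        refine ENNReal.ofReal_le_ofReal (mul_le_mul_of_nonneg_right ?_ hSq.le)
        calc 2 * c = (2 * c) ^ (1:ℝ) := (Real.rpow_one _).symm
          _ ≤ (2 * c) ^ q := Real.rpow_le_rpow_of_exponent_le (by linarith) hq
    have hle := (measure_mono hsub).trans (measure_union_le (μ := volume) _ _)
    have hbad' : (volume : Measure ((layer d n) × Fin 2 → ℝ)) ({a | ENNReal.ofReal (2 * c * S ^ q) ≤
          ∫⁻ x, ENNReal.ofReal (‖poly a x‖ ^ q) ∂(TP d)} ∩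
          (Set.univ.pi fun _ => Set.Icc (-1:ℝ) 1)) ≤
        ENNReal.ofReal (2 ^ (2 * (layer d n).card) / 2) := by
      rw [hνeq, Measure.restrict_apply (measurableSet_le measurable_const hGm)] at hbad
      exact hbad
    rw [hcube] at hle
    have h2 := hle.trans (add_le_add_right hbad' _)
    have e2 : ENNReal.ofReal (2 ^ (2 * (layer d n).card)) =
        ENNReal.ofReal (2 ^ (2 * (layer d n).card) / 2) +
          ENNReal.ofReal (2 ^ (2 * (layer d n).card) / 2) := by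
      rw [← ENNReal.ofReal_add (by positivity) (by positivity)]
      congr 1
      ring
    rw [e2] at h2
    exact (ENNReal.add_le_add_iff_right ENNReal.ofReal_ne_top).1 h2


end Sol_Lq_vol

alias Lq_vol := Sol_Lq_vol.Lq_vol

end HypVol
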