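import Pool.Agent.HypVol.Defs
import Pool.Agent.HypVol.L_mem_layer
open MeasureTheory Real ProbabilityTheory
open scoped ENNReal BigOperators

namespace HypVol
namespace Sol_Mact_vol





theorem Mact_vol_b {d : ℕ} (r : ℝ) (α : Fin d → ℝ) (k : Fin d → ℤ) :
    ‖Fh r α k‖ = ∏ j, (if k j = 0 then 1 else (|(k j : ℝ)|)^(-r)) := by
  unfold Fh
  rw [norm_prod]
  refine Finset.prod_congr rfl (fun j _ => ?_)
  have h1 : ‖Complex.exp (-(Complex.I * (((SignType.sign (k j) : ℤ) : ℝ) * α j * π / 2 : ℝ)))‖ = 1 := by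
    have : -(Complex.I * ((((SignType.sign (k j) : ℤ) : ℝ) * α j * π / 2 : ℝ) : ℂ)) =
      ((-(((SignType.sign (k j) : ℤ) : ℝ) * α j * π / 2) : ℝ) : ℂ) * Complex.I := by
      push_cast
      ring
    rw [this]
    exact Complex.norm_exp_ofReal_mul_I _
  split_ifs with h
  · simp
  · rw [norm_mul, h1, mul_one, Complex.norm_real, Real.norm_eq_abs, abs_of_nonneg]
    positivity

theorem Mact_vol_c {d n : ℕ} (r : ℝ) (hr : 0 < r) (α : Fin d → ℝ) (k : Fin d → ℤ) (hk : k ∈ layer d n) :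
    ((2:ℝ)^(r * n))⁻¹ ≤ ‖Fh r α k‖ := by
  rw [Mact_vol_b]
  have hs : ∑ j, Nat.size (k j).natAbs = n := (mem_layer_iff d n k).1 hk
  have h1 : ((2:ℝ)^(r * n))⁻¹ = ∏ j, (2:ℝ)^(-(r * (Nat.size (k j).natAbs : ℝ))) := by
    rw [← Real.rpow_neg (by norm_num), ← Real.rpow_sum_of_pos (by norm_num)]
    congr 1
    rw [Finset.sum_neg_distrib, ← Finset.mul_sum, ← hs]
    push_cast
    rfl
  rw [h1]
  apply Finset.prod_le_prod
  · intro j _
    positivity
  · intro j _
    split_ifs with h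
    · rw [h]
      simp
    · have h2 : (0:ℝ) < |(k j : ℝ)| := by
        rw [abs_pos]
        exact_mod_cast h
      have h3 : |(k j : ℝ)| ≤ (2:ℝ)^((Nat.size (k j).natAbs : ℝ)) := by
        rw [Real.rpow_natCast]
        have h4 : (k j).natAbs < 2 ^ Nat.size (k j).natAbs := Nat.lt_size_self _
        have h5 : (((k j).natAbs : ℕ) : ℝ) < (2:ℝ) ^ Nat.size (k j).natAbs := by exact_mod_cast h4
        have h6 : (((k j).natAbs : ℕ) : ℝ) = |(k j : ℝ)| := by
          rw [Nat.cast_natAbs]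
          push_cast
          rfl
        rw [← h6]
        exact h5.le
      have h7 : (2:ℝ)^(-(r * (Nat.size (k j).natAbs : ℝ))) = ((2:ℝ)^((Nat.size (k j).natAbs : ℝ)))^(-r) := by
        rw [← Real.rpow_mul (by norm_num)]
        congr 1
        ring
      rw [h7]
      exact Real.rpow_le_rpow_of_nonpos h2 h3 (by linarith)

/-- the matrix of `Mact` -/
noncomputable def Mact_vol_m {d n : ℕ} (r : ℝ) (α : Fin d → ℝ) :
    Matrix ((layer d n) × Fin 2) ((layer d n) × Fin 2) ℝ :=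
  (Matrix.blockDiagonal (fun k : layer d n =>
    !![(Fh r α k.1).re, -(Fh r α k.1).im; (Fh r α k.1).im, (Fh r α k.1).re])).submatrix
    (Equiv.prodComm _ _) (Equiv.prodComm _ _)

theorem Mact_vol_mdet {d n : ℕ} (r : ℝ) (α : Fin d → ℝ) :
    (Mact_vol_m (n := n) r α).det = ∏ k : layer d n, ‖Fh r α k.1‖ ^ 2 := by
  unfold Mact_vol_m
  rw [Matrix.det_submatrix_equiv_self, Matrix.det_blockDiagonal]
  refine Finset.prod_congr rfl (fun k _ => ?_)
  rw [Matrix.det_fin_two_of, ← Complex.normSq_eq_norm_sq, Complex.normSq_apply]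
  ring

theorem Mact_vol_map {d n : ℕ} (r : ℝ) (α : Fin d → ℝ) (a : (layer d n) × Fin 2 → ℝ) :
    Matrix.toLin' (Mact_vol_m r α) a = Mact r α a := by
  funext i
  obtain ⟨k, c⟩ := i
  rw [Matrix.toLin'_apply, Matrix.mulVec, dotProduct, Fintype.sum_prod_type]
  rw [Finset.sum_eq_single k]
  · unfold Mact_vol_m Mact
    fin_cases c
    · simp [Fin.sum_univ_two, Matrix.blockDiagonal_apply]
      ring
    · simp [Fin.sum_univ_two, Matrix.blockDiagonal_apply]
      ring
  · intro k' _ hk'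
    unfold Mact_vol_m
    simp [Matrix.blockDiagonal_apply, Ne.symm hk']
  · intro h
    exact absurd (Finset.mem_univ _) h

theorem Mact_vol {d n : ℕ} (r : ℝ) (hr : 0 < r) (α : Fin d → ℝ) (S : Set ((layer d n) × Fin 2 → ℝ)) :
    volume ((Mact r α) ⁻¹' S) ≤ ENNReal.ofReal (((2:ℝ)^(r * n))^(2 * (layer d n).card)) * volume S := by
  have h2 : (0:ℝ) < (2:ℝ)^(r * n) := by positivity
  have hlow : (((2:ℝ)^(r * n))^(2 * (layer d n).card))⁻¹ ≤ (Mact_vol_m (n := n) r α).det := by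
    rw [Mact_vol_mdet]
    have h3 : (((2:ℝ)^(r * n))^(2 * (layer d n).card))⁻¹ =
        ∏ k : layer d n, (((2:ℝ)^(r * n))⁻¹) ^ 2 := by
      rw [Finset.prod_const, Finset.card_univ, Fintype.card_coe, ← pow_mul, inv_pow]
    rw [h3]
    apply Finset.prod_le_prod
    · intro k _
      positivity
    · intro k _
      exact pow_le_pow_left₀ (by positivity) (Mact_vol_c r hr α k.1 k.2) 2
  have hpos : 0 < (Mact_vol_m (n := n) r α).det := lt_of_lt_of_le (by positivity) hlow
  have hdet : LinearMap.det (Matrix.toLin' (Mact_vol_m (n := n) r α)) = (Mact_vol_m (n := n) r α).det :=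
    LinearMap.det_toLin' _
  have hpre : (Mact r α) ⁻¹' S = (Matrix.toLin' (Mact_vol_m (n := n) r α)) ⁻¹' S := by
    ext a
    rw [Set.mem_preimage, Set.mem_preimage, Mact_vol_map]
  rw [hpre, Measure.addHaar_preimage_linearMap volume (by rw [hdet]; exact hpos.ne') S, hdet]
  gcongr
  rw [abs_of_pos (inv_pos.2 hpos)]
  rw [inv_le_comm₀ hpos (by positivity)]
  exact hlow


end Sol_Mact_vol

alias Mact_vol := Sol_Mact_vol.Mact_vol

end HypVol
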