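import Pool.Agent.HypVol.Defs
import Pool.Agent.HypVol.L_mem_rho
import Pool.Agent.HypVol.L_mem_layer
open MeasureTheory Real ProbabilityTheory
open scoped ENNReal BigOperators

namespace HypVol
namespace Sol_card_layer





/-- the integers of size `s` -/
noncomputable def card_layer_blk : ℕ → Finset ℤ
  | 0 => {0}
  | (t + 1) => Finset.Ico ((2 : ℤ) ^ t) (2 ^ (t + 1)) ∪ Finset.Ioc (-((2 : ℤ) ^ (t + 1))) (-(2 ^ t))

theorem card_layer_mem (s : ℕ) (k : ℤ) : k ∈ card_layer_blk s ↔ Nat.size k.natAbs = s := by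
  rw [← mem_rho_iff]
  cases s with
  | zero =>
    simp only [card_layer_blk, rho, Finset.mem_singleton, Set.mem_setOf_eq, pow_zero]
    constructor
    · rintro rfl; norm_num
    · rintro ⟨_, h⟩
      exact Int.abs_lt_one_iff.mp h
  | succ t =>
    have h2 : (2 : ℤ) ^ (t + 1) / 2 = 2 ^ t := by
      rw [pow_succ]; exact Int.mul_ediv_cancel _ (by norm_num)
    have h3 : (2 : ℤ) ^ (t + 1) = 2 * 2 ^ t := by rw [pow_succ]; ring
    have hp : (0 : ℤ) < 2 ^ t := by positivity
    simp only [card_layer_blk, rho, Finset.mem_union, Finset.mem_Ico, Finset.mem_Ioc,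
      Set.mem_setOf_eq]
    rw [h2, h3]
    generalize (2 : ℤ) ^ t = a at hp
    rcases abs_cases k with ⟨h, _⟩ | ⟨h, _⟩ <;> rw [h] <;> omega

theorem card_layer_card (s : ℕ) : (card_layer_blk s).card = 2 ^ s := by
  cases s with
  | zero => simp [card_layer_blk]
  | succ t =>
    have hp : (0 : ℤ) < 2 ^ t := by positivity
    have h3 : (2 : ℤ) ^ (t + 1) = 2 * 2 ^ t := by rw [pow_succ]; ring
    simp only [card_layer_blk]
    rw [Finset.card_union_of_disjoint, Int.card_Ico, Int.card_Ioc]
    · rw [h3]
      have h4 : (2 * (2 : ℤ) ^ t - 2 ^ t).toNat = 2 ^ t := by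
        have : (2 * (2 : ℤ) ^ t - 2 ^ t) = ((2 ^ t : ℕ) : ℤ) := by push_cast; ring
        rw [this, Int.toNat_natCast]
      have h5 : (-(2 : ℤ) ^ t - -(2 * 2 ^ t)).toNat = 2 ^ t := by
        have : (-(2 : ℤ) ^ t - -(2 * 2 ^ t)) = ((2 ^ t : ℕ) : ℤ) := by push_cast; ring
        rw [this, Int.toNat_natCast]
      rw [h4, h5, pow_succ]
      ring
    · rw [Finset.disjoint_left]
      intro x hx hy
      rw [Finset.mem_Ico] at hx
      rw [Finset.mem_Ioc] at hy
      linarith [hx.1, hy.2]

theorem card_layer (d n : ℕ) : (layer d n).card = 2^n * shp d n := by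
  classical
  let f : (Fin d → ℤ) → (Fin d → Fin (n + 1)) := fun k j =>
    ⟨min (Nat.size (k j).natAbs) n, by omega⟩
  have hf : ∀ k j, ((f k j : Fin (n + 1)) : ℕ) = min (Nat.size (k j).natAbs) n := fun k j => rfl
  have hmin : ∀ k ∈ layer d n, ∀ j, min (Nat.size (k j).natAbs) n = Nat.size (k j).natAbs := by
    intro k hk j
    rw [mem_layer_iff] at hk
    apply min_eq_left
    rw [← hk]
    exact Finset.single_le_sum (f := fun j => Nat.size (k j).natAbs) (fun i _ => Nat.zero_le _)
      (Finset.mem_univ j)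
  have hmaps : ∀ k ∈ layer d n, f k ∈ Sh d n := by
    intro k hk
    unfold Sh
    rw [Finset.mem_filter]
    refine ⟨Finset.mem_univ _, ?_⟩
    have h1 := (mem_layer_iff d n k).mp hk
    refine Eq.trans (Finset.sum_congr rfl (fun j _ => ?_)) h1
    rw [hf, hmin k hk j]
  rw [Finset.card_eq_sum_card_fiberwise (t := Sh d n) (f := f) hmaps]
  have hfib : ∀ s ∈ Sh d n, ((layer d n).filter (fun k => f k = s)).card = 2 ^ n := by
    intro s hs
    unfold Sh at hs
    rw [Finset.mem_filter] at hs
    have hs2 := hs.2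
    have h1 : (layer d n).filter (fun k => f k = s) =
        Fintype.piFinset (fun j => card_layer_blk (s j : ℕ)) := by
      ext k
      rw [Finset.mem_filter, Fintype.mem_piFinset]
      constructor
      · rintro ⟨hk, rfl⟩ j
        rw [card_layer_mem, hf, hmin k hk j]
      · intro h
        have h2 : ∀ j, Nat.size (k j).natAbs = (s j : ℕ) := fun j => (card_layer_mem _ _).mp (h j)
        constructor
        · rw [mem_layer_iff]
          exact (Finset.sum_congr rfl (fun j _ => h2 j)).trans hs2
        · funext j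
          apply Fin.ext
          rw [hf, h2 j]
          have := (s j).isLt
          omega
    rw [h1, Fintype.card_piFinset]
    simp only [card_layer_card]
    rw [Finset.prod_pow_eq_pow_sum, hs2]
  rw [Finset.sum_congr rfl hfib, Finset.sum_const, smul_eq_mul, mul_comm]
  rfl


end Sol_card_layer

alias card_layer := Sol_card_layer.card_layer

end HypVol
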