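import Pool.Agent.HypVol.Defs
open MeasureTheory Real ProbabilityTheory
open scoped ENNReal BigOperators

namespace HypVol
namespace Sol_shp_lower



theorem shp_lower_aux (m n : ℕ) : (n / (m + 1) + 1) ^ m ≤ shp (m + 1) n := by
  classical
  have hle : ∀ t : Fin m → Fin (n / (m + 1) + 1), ∑ j, (t j : ℕ) ≤ n := by
    intro t
    calc ∑ j, (t j : ℕ) ≤ ∑ _j : Fin m, n / (m + 1) :=
          Finset.sum_le_sum fun j _ => Nat.lt_succ_iff.1 (t j).isLt
      _ = m * (n / (m + 1)) := by simp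
      _ ≤ (m + 1) * (n / (m + 1)) := Nat.mul_le_mul_right _ (Nat.le_succ m)
      _ ≤ n := Nat.mul_div_le n (m + 1)
  have hq : n / (m + 1) ≤ n := Nat.div_le_self _ _
  let f : (Fin m → Fin (n / (m + 1) + 1)) → (Fin (m + 1) → Fin (n + 1)) := fun t =>
    Fin.cons ⟨n - ∑ j, (t j : ℕ), by omega⟩ (fun j => ⟨(t j : ℕ), by
      have := (t j).isLt; omega⟩)
  have hcard : (Finset.univ : Finset (Fin m → Fin (n / (m + 1) + 1))).card =
      (n / (m + 1) + 1) ^ m := by simp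
  rw [← hcard]
  unfold shp
  apply Finset.card_le_card_of_injOn f
  · intro t _
    rw [Finset.mem_coe]
    unfold Sh
    rw [Finset.mem_filter]
    refine ⟨Finset.mem_univ _, ?_⟩
    rw [Fin.sum_univ_succ]
    simp only [f, Fin.cons_zero, Fin.cons_succ]
    have := hle t
    omega
  · intro t _ t' _ htt
    funext j
    have h1 := congrFun htt (Fin.succ j)
    simp only [f, Fin.cons_succ, Fin.mk.injEq] at h1
    exact Fin.ext h1

theorem shp_lower (d : ℕ) (hd : 1 ≤ d) : ∃ c : ℝ, 0 < c ∧ ∀ n : ℕ, 1 ≤ n →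
    c * (n:ℝ)^(d-1) ≤ shp d n := by
  obtain ⟨m, rfl⟩ : ∃ m, d = m + 1 := ⟨d - 1, by omega⟩
  refine ⟨(1 / ((m : ℝ) + 1)) ^ m, by positivity, fun n hn => ?_⟩
  rw [Nat.add_sub_cancel, ← mul_pow]
  have h1 : (((n / (m + 1) + 1) ^ m : ℕ) : ℝ) ≤ (shp (m + 1) n : ℝ) := by
    exact_mod_cast shp_lower_aux m n
  refine le_trans ?_ h1
  rw [Nat.cast_pow]
  apply pow_le_pow_left₀ (by positivity)
  have h2 : n < (m + 1) * (n / (m + 1) + 1) := by
    have := Nat.lt_mul_div_succ n (Nat.succ_pos m)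
    simpa using this
  have h3 : (n : ℝ) ≤ ((m : ℝ) + 1) * (((n / (m + 1) + 1 : ℕ)) : ℝ) := by exact_mod_cast h2.le
  rw [one_div, inv_mul_le_iff₀ (by positivity)]
  exact h3


end Sol_shp_lower

alias shp_lower := Sol_shp_lower.shp_lower

end HypVol
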