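import Pool.Agent.HypVol.Defs
import Pool.Agent.HypVol.L_mem_layer
import Pool.Agent.HypVol.L_blk
open MeasureTheory Real ProbabilityTheory
open scoped ENNReal BigOperators

namespace HypVol
namespace Sol_layer_bound





theorem lb_exp (d n : ℕ) (x y : Fin d → Fin (2^(n+2))) (k : Fin d → ℤ) :
    Complex.exp (Complex.I * ((th k x - th k y : ℝ) : ℂ)) =
      ∏ j, Complex.exp (Complex.I *
        ((2 * π * ((k j : ℤ) : ℝ) * (((x j : ℕ) : ℝ) - ((y j : ℕ) : ℝ)) / 2^(n+2) : ℝ) : ℂ)) := by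
  have h : th k x - th k y =
      ∑ j, 2 * π * ((k j : ℤ) : ℝ) * (((x j : ℕ) : ℝ) - ((y j : ℕ) : ℝ)) / 2^(n+2) := by
    unfold th
    rw [← sub_div, ← mul_sub, ← Finset.sum_sub_distrib, Finset.mul_sum, Finset.sum_div]
    refine Finset.sum_congr rfl fun j _ => ?_
    ring
  rw [h, Complex.ofReal_sum, Finset.mul_sum, Complex.exp_sum]

theorem lb_size (n : ℕ) (z : ℤ) (h : Nat.size z.natAbs ≤ n) :
    z ∈ Finset.Ioo (-(2:ℤ)^n) ((2:ℤ)^n) := by
  rw [Nat.size_le] at h
  have h1 : ((z.natAbs : ℕ) : ℤ) < (2:ℤ)^n := by exact_mod_cast h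
  rw [Int.natCast_natAbs] at h1
  rw [Finset.mem_Ioo]
  exact abs_lt.1 h1

theorem lb_fib (d n : ℕ) (s : Fin d → Fin (n+1)) (hs : s ∈ Sh d n) :
    (layer d n).filter (fun k => (fun j => (⟨min (Nat.size (k j).natAbs) n, by omega⟩ : Fin (n+1))) = s)
      = Fintype.piFinset (fun j => (Finset.Ioo (-(2:ℤ)^n) ((2:ℤ)^n)).filter
          (fun k => Nat.size k.natAbs = (s j : ℕ))) := by
  ext k
  rw [Finset.mem_filter, Fintype.mem_piFinset, mem_layer_iff]
  constructor
  · rintro ⟨h1, h2⟩ j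
    have h3 : Nat.size (k j).natAbs ≤ n := by
      rw [← h1]
      exact Finset.single_le_sum (f := fun j => Nat.size (k j).natAbs) (fun _ _ => Nat.zero_le _)
        (Finset.mem_univ j)
    have h4 := congrArg Fin.val (congrFun h2 j)
    have h5 : min (Nat.size (k j).natAbs) n = (s j : ℕ) := h4
    rw [min_eq_left h3] at h5
    exact Finset.mem_filter.2 ⟨lb_size n _ h3, h5⟩
  · intro h
    have h1 : ∀ j, Nat.size (k j).natAbs = (s j : ℕ) := fun j => (Finset.mem_filter.1 (h j)).2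
    have h2 : ∑ j, ((s j : Fin (n+1)) : ℕ) = n := (Finset.mem_filter.1 hs).2
    refine ⟨?_, ?_⟩
    · rw [← h2]
      exact Finset.sum_congr rfl fun j _ => h1 j
    · funext j
      apply Fin.ext
      show min (Nat.size (k j).natAbs) n = (s j : ℕ)
      rw [h1 j]
      have := (s j).2
      omega

theorem layer_bound (d n : ℕ) (x y : Fin d → Fin (2^(n+2))) :
    ‖∑ k ∈ layer d n, Complex.exp (Complex.I * ((th k x - th k y : ℝ) : ℂ))‖
      ≤ Th d n (fun j => T1 n (x j) (y j)) := by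
  classical
  have hmaps : ∀ k ∈ layer d n,
      (fun j => (⟨min (Nat.size (k j).natAbs) n, by omega⟩ : Fin (n+1))) ∈ Sh d n := by
    intro k hk
    rw [mem_layer_iff] at hk
    refine Finset.mem_filter.2 ⟨Finset.mem_univ _, ?_⟩
    have h : ∀ j, min (Nat.size (k j).natAbs) n = Nat.size (k j).natAbs := by
      intro j
      apply min_eq_left
      rw [← hk]
      exact Finset.single_le_sum (f := fun j => Nat.size (k j).natAbs) (fun _ _ => Nat.zero_le _)
        (Finset.mem_univ j)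
    calc ∑ j, min (Nat.size (k j).natAbs) n = ∑ j, Nat.size (k j).natAbs :=
          Finset.sum_congr rfl fun j _ => h j
      _ = n := hk
  rw [← Finset.sum_fiberwise_of_maps_to hmaps]
  unfold Th
  refine (norm_sum_le _ _).trans (Finset.sum_le_sum fun s hs => ?_)
  rw [lb_fib d n s hs]
  simp_rw [lb_exp]
  rw [← Finset.prod_univ_sum (fun j => (Finset.Ioo (-(2:ℤ)^n) ((2:ℤ)^n)).filter
          (fun k => Nat.size k.natAbs = (s j : ℕ))) (fun j (k : ℤ) => Complex.exp (Complex.I *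
        ((2 * π * ((k : ℤ) : ℝ) * (((x j : ℕ) : ℝ) - ((y j : ℕ) : ℝ)) / 2^(n+2) : ℝ) : ℂ)))]
  rw [norm_prod, ← Finset.prod_pow_eq_pow_sum]
  refine Finset.prod_le_prod (fun _ _ => norm_nonneg _) fun j _ => ?_
  exact block_bound n (s j) (by have := (s j).2; omega) (x j) (y j)


end Sol_layer_bound

alias layer_bound := Sol_layer_bound.layer_bound

end HypVol
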