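import Pool.Agent.HypVol.Defs
open MeasureTheory Real ProbabilityTheory
open scoped ENNReal BigOperators

namespace HypVol
namespace Sol_pair_count



theorem pc_card (M x R : ℕ) (hx : x < M) :
    (Finset.univ.filter fun y : Fin M =>
      min (max x (y : ℕ) - min x (y : ℕ)) (M - (max x (y : ℕ) - min x (y : ℕ))) < R).card ≤ 2 * R := by
  classical
  have hsub : (Finset.univ.filter fun y : Fin M =>
      min (max x (y : ℕ) - min x (y : ℕ)) (M - (max x (y : ℕ) - min x (y : ℕ))) < R) ⊆
      (Finset.univ.filter fun y : Fin M => (if x ≤ (y : ℕ) then (y : ℕ) - x else y + M - x) < R) ∪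
      (Finset.univ.filter fun y : Fin M => (if (y : ℕ) ≤ x then x - (y : ℕ) else x + M - y) < R) := by
    intro y hy
    rw [Finset.mem_filter] at hy
    rw [Finset.mem_union, Finset.mem_filter, Finset.mem_filter]
    have hy2 := hy.2
    have hyM := y.2
    by_cases h1 : x ≤ (y : ℕ) <;> by_cases h2 : (y : ℕ) ≤ x
    · left; refine ⟨Finset.mem_univ _, ?_⟩; rw [if_pos h1]; omega
    · by_cases h3 : (y : ℕ) - x < R
      · left; refine ⟨Finset.mem_univ _, ?_⟩; rw [if_pos h1]; omega
      · right; refine ⟨Finset.mem_univ _, ?_⟩; rw [if_neg h2]; omega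
    · by_cases h3 : x - (y : ℕ) < R
      · right; refine ⟨Finset.mem_univ _, ?_⟩; rw [if_pos h2]; omega
      · left; refine ⟨Finset.mem_univ _, ?_⟩; rw [if_neg h1]; omega
    · omega
  have c1 : (Finset.univ.filter fun y : Fin M =>
      (if x ≤ (y : ℕ) then (y : ℕ) - x else y + M - x) < R).card ≤ R := by
    have := Finset.card_le_card_of_injOn (s := Finset.univ.filter fun y : Fin M =>
      (if x ≤ (y : ℕ) then (y : ℕ) - x else y + M - x) < R) (t := Finset.range R)
      (fun y : Fin M => if x ≤ (y : ℕ) then (y : ℕ) - x else y + M - x) (fun y hy => by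
        rw [Finset.mem_coe, Finset.mem_filter] at hy
        rw [Finset.mem_coe, Finset.mem_range]; exact hy.2) (fun y _ y' _ h => by
        have h1 := y.2
        have h2 := y'.2
        apply Fin.ext
        simp only at h
        split_ifs at h <;> omega)
    rwa [Finset.card_range] at this
  have c2 : (Finset.univ.filter fun y : Fin M =>
      (if (y : ℕ) ≤ x then x - (y : ℕ) else x + M - y) < R).card ≤ R := by
    have := Finset.card_le_card_of_injOn (s := Finset.univ.filter fun y : Fin M =>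
      (if (y : ℕ) ≤ x then x - (y : ℕ) else x + M - y) < R) (t := Finset.range R)
      (fun y : Fin M => if (y : ℕ) ≤ x then x - (y : ℕ) else x + M - y) (fun y hy => by
        rw [Finset.mem_coe, Finset.mem_filter] at hy
        rw [Finset.mem_coe, Finset.mem_range]; exact hy.2) (fun y _ y' _ h => by
        have h1 := y.2
        have h2 := y'.2
        apply Fin.ext
        simp only at h
        split_ifs at h <;> omega)
    rwa [Finset.card_range] at this
  have := (Finset.card_le_card hsub).trans (Finset.card_union_le _ _)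
  omega

theorem pc_T1_lt (n : ℕ) (x y : Fin (2^(n+2))) : T1 n x y < n + 3 := by
  unfold T1
  simp only
  split_ifs <;> omega

theorem pc_count (n : ℕ) (x : Fin (2^(n+2))) (t : ℕ) (ht : t < n + 3) :
    ((Finset.univ.filter fun y : Fin (2^(n+2)) => T1 n x y = t).card : ℝ) ≤
      4 * 2^(n+2) * (1/2)^t := by
  have h1 : (Finset.univ.filter fun y : Fin (2^(n+2)) => T1 n x y = t).card ≤ 2 * 2^(n+3-t) := by
    refine le_trans (Finset.card_le_card ?_) (pc_card (2^(n+2)) x (2^(n+3-t)) x.2)
    intro y hy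
    rw [Finset.mem_filter] at hy ⊢
    refine ⟨Finset.mem_univ _, ?_⟩
    have h := hy.2
    unfold T1 at h
    simp only at h
    generalize hr : min (max (x:ℕ) (y:ℕ) - min (x:ℕ) (y:ℕ))
      (2^(n+2) - (max (x:ℕ) (y:ℕ) - min (x:ℕ) (y:ℕ))) = r at h ⊢
    split_ifs at h with h0
    · rw [h0]; positivity
    · have hrlt : r < 2^(n+2) := by
        have hx := x.2
        have hy := y.2
        omega
      have hlog : Nat.log 2 r < n + 2 := (Nat.log_lt_iff_lt_pow (by norm_num) h0).2 hrlt
      have h2 := Nat.lt_pow_succ_log_self (b := 2) (by norm_num) r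
      have h3 : n + 3 - t = (Nat.log 2 r).succ := by omega
      rw [h3]; exact h2
  have h2 : ((2 * 2^(n+3-t) : ℕ) : ℝ) = 4 * 2^(n+2) * (1/2)^t := by
    push_cast
    have h3 : (2:ℝ)^(n+3-t) * 2^t = 2^(n+3) := by
      rw [← pow_add]; congr 1; omega
    have h4 : ((1:ℝ)/2)^t * 2^t = 1 := by
      rw [← mul_pow]; norm_num
    have h5 : (2:ℝ)^t ≠ 0 := by positivity
    apply mul_right_cancel₀ h5
    calc 2 * (2:ℝ)^(n+3-t) * 2^t = 2 * ((2:ℝ)^(n+3-t) * 2^t) := by ring
      _ = 2 * 2^(n+3) := by rw [h3]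
      _ = 4 * 2^(n+2) * 1 := by ring
      _ = 4 * 2^(n+2) * (((1:ℝ)/2)^t * 2^t) := by rw [h4]
      _ = _ := by ring
  rw [← h2]
  exact_mod_cast h1

theorem pair_count (d n : ℕ) (F : (Fin d → ℕ) → ℝ) (hF : ∀ T, 0 ≤ F T) :
    ∑ x : Fin d → Fin (2^(n+2)), ∑ y : Fin d → Fin (2^(n+2)), F (fun j => T1 n (x j) (y j))
      ≤ ((2:ℝ)^(n+2))^(2*d) * 4^d * ∑ T : Fin d → Fin (n+3), (1/2)^(∑ j, ((T j : Fin (n+3)) : ℕ)) * F (fun j => T j) := by
  classical
  have hx : ∀ x : Fin d → Fin (2^(n+2)),
      ∑ y : Fin d → Fin (2^(n+2)), F (fun j => T1 n (x j) (y j)) ≤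
      ((2:ℝ)^(n+2))^d * 4^d * ∑ T : Fin d → Fin (n+3),
        (1/2)^(∑ j, ((T j : Fin (n+3)) : ℕ)) * F (fun j => T j) := by
    intro x
    have e1 : ∀ y : Fin d → Fin (2^(n+2)), F (fun j => T1 n (x j) (y j)) =
        ∑ T : Fin d → Fin (n+3), if (∀ j, T1 n (x j) (y j) = T j) then F (fun j => T j) else 0 := by
      intro y
      rw [Finset.sum_eq_single (fun j => (⟨T1 n (x j) (y j), pc_T1_lt n _ _⟩ : Fin (n+3)))]
      · rw [if_pos (fun j => rfl)]
      · intro T _ hT
        rw [if_neg]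
        intro h
        apply hT
        funext j
        exact Fin.ext (h j).symm
      · intro h; exact absurd (Finset.mem_univ _) h
    rw [Finset.sum_congr rfl fun y _ => e1 y, Finset.sum_comm, Finset.mul_sum]
    refine Finset.sum_le_sum fun T _ => ?_
    rw [← Finset.sum_filter, Finset.sum_const, nsmul_eq_mul]
    have e2 : (Finset.univ.filter fun y : Fin d → Fin (2^(n+2)) => ∀ j, T1 n (x j) (y j) = T j) =
        Fintype.piFinset (fun j => Finset.univ.filter fun y : Fin (2^(n+2)) => T1 n (x j) y = T j) := by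
      ext y
      simp [Fintype.mem_piFinset]
    rw [e2, Fintype.card_piFinset]
    push_cast
    have e3 : ∏ j, ((Finset.univ.filter fun y : Fin (2^(n+2)) => T1 n (x j) y = T j).card : ℝ) ≤
        ∏ j : Fin d, (4 * (2:ℝ)^(n+2) * (1/2)^((T j : Fin (n+3)) : ℕ)) :=
      Finset.prod_le_prod (fun j _ => Nat.cast_nonneg _) fun j _ => pc_count n (x j) (T j) (T j).2
    have e4 : ∏ j : Fin d, (4 * (2:ℝ)^(n+2) * (1/2)^((T j : Fin (n+3)) : ℕ)) =
        ((2:ℝ)^(n+2))^d * 4^d * (1/2)^(∑ j, ((T j : Fin (n+3)) : ℕ)) := by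
      rw [Finset.prod_mul_distrib, Finset.prod_const, Finset.card_univ, Fintype.card_fin,
        Finset.prod_pow_eq_pow_sum, mul_pow]
      ring
    calc _ ≤ (((2:ℝ)^(n+2))^d * 4^d * (1/2)^(∑ j, ((T j : Fin (n+3)) : ℕ))) * F (fun j => T j) := by
          refine mul_le_mul_of_nonneg_right ?_ (hF _)
          rw [← e4]; exact e3
      _ = _ := by ring
  calc _ ≤ ∑ x : Fin d → Fin (2^(n+2)), ((2:ℝ)^(n+2))^d * 4^d * ∑ T : Fin d → Fin (n+3),
        (1/2)^(∑ j, ((T j : Fin (n+3)) : ℕ)) * F (fun j => T j) := Finset.sum_le_sum fun x _ => hx x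
    _ = _ := by
      rw [Finset.sum_const, Finset.card_univ, Fintype.card_fun, Fintype.card_fin, Fintype.card_fin,
        nsmul_eq_mul]
      push_cast
      rw [two_mul, pow_add]
      ring


end Sol_pair_count

alias pair_count := Sol_pair_count.pair_count

end HypVol
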