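import Pool.Agent.HypVol.Defs
import Pool.Agent.HypVol.L_mem_layer
open MeasureTheory Real ProbabilityTheory
open scoped ENNReal BigOperators

namespace HypVol
namespace Sol_tb_facts




theorem Esum {d n : ℕ} (m : Fin d → ℤ) (hm : ∀ j, |m j| < 2 ^ (n + 2)) (hne : m ≠ 0) :
    ∑ p : Fin d → Fin (2 ^ (n + 2)), Complex.exp ((th m p : ℂ) * Complex.I) = 0 := by
  obtain ⟨j0, hj0⟩ : ∃ j, m j ≠ 0 := Function.ne_iff.1 hne
  set ζ : Fin d → ℂ := fun j => Complex.exp ((2 * π * (m j : ℝ) / 2 ^ (n + 2) : ℝ) * Complex.I) with hζ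
  have h1 : ∀ p : Fin d → Fin (2 ^ (n + 2)), Complex.exp ((th m p : ℂ) * Complex.I)
      = ∏ j, ζ j ^ ((p j : ℕ)) := by
    intro p
    simp only [hζ, ← Complex.exp_nat_mul]
    rw [← Complex.exp_sum]
    congr 1
    unfold th
    push_cast
    rw [Finset.mul_sum, Finset.sum_div, Finset.sum_mul]
    apply Finset.sum_congr rfl
    intro j _
    ring
  simp_rw [h1]
  have h2 := Finset.prod_univ_sum (fun _ : Fin d => (Finset.univ : Finset (Fin (2 ^ (n + 2)))))
    (fun j (t : Fin (2 ^ (n + 2))) => ζ j ^ (t : ℕ))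
  rw [Fintype.piFinset_univ] at h2
  rw [← h2]
  apply Finset.prod_eq_zero (Finset.mem_univ j0)
  rw [Fin.sum_univ_eq_sum_range (fun i => ζ j0 ^ i)]
  have hN : (2 : ℂ) ^ (n + 2) ≠ 0 := pow_ne_zero _ two_ne_zero
  have hpi : (π : ℂ) ≠ 0 := by exact_mod_cast Real.pi_ne_zero
  have hz1 : ζ j0 ≠ 1 := by
    intro h
    rw [hζ] at h
    simp only at h
    rw [Complex.exp_eq_one_iff] at h
    obtain ⟨t, ht⟩ := h
    have h3 : (m j0 : ℂ) = t * 2 ^ (n + 2) := by
      have hI := Complex.I_ne_zero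
      push_cast at ht
      have h4 : (2 * π * Complex.I) * (m j0 : ℂ) = (2 * π * Complex.I) * (t * 2 ^ (n + 2)) := by
        have h5 : 2 * (π : ℂ) * (m j0 : ℂ) / 2 ^ (n + 2) * Complex.I * 2 ^ (n + 2)
            = t * (2 * π * Complex.I) * 2 ^ (n + 2) := by rw [ht]
        have h6 : 2 * (π : ℂ) * (m j0 : ℂ) / 2 ^ (n + 2) * Complex.I * 2 ^ (n + 2)
            = (2 * π * Complex.I) * (m j0 : ℂ) := by field_simp
        rw [← h6, h5]; ring
      exact mul_left_cancel₀ (mul_ne_zero (mul_ne_zero two_ne_zero hpi) hI) h4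
    have h4 : m j0 = t * 2 ^ (n + 2) := by exact_mod_cast h3
    have h5 := hm j0
    have ht0 : t ≠ 0 := by
      rintro rfl
      simp at h4
      exact hj0 h4
    rw [h4, abs_mul, abs_of_pos (show (0 : ℤ) < 2 ^ (n + 2) by positivity)] at h5
    have h6 : 1 ≤ |t| := Int.one_le_abs ht0
    have h7 : (0 : ℤ) < 2 ^ (n + 2) := by positivity
    nlinarith
  have hzN : ζ j0 ^ (2 ^ (n + 2)) = 1 := by
    simp only [hζ]
    rw [← Complex.exp_nat_mul, Complex.exp_eq_one_iff]
    refine ⟨m j0, ?_⟩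
    push_cast
    field_simp
  have h3 := mul_geom_sum (ζ j0) (2 ^ (n + 2))
  rw [hzN, sub_self] at h3
  rcases mul_eq_zero.1 h3 with h | h
  · exact absurd (sub_eq_zero.1 h) hz1
  · exact h

theorem layer_facts {d n : ℕ} {k : Fin d → ℤ} (hk : k ∈ layer d n) (hn : 1 ≤ n) :
    k ≠ 0 ∧ ∀ j, |k j| < 2 ^ n := by
  rw [mem_layer_iff] at hk
  constructor
  · rintro rfl
    simp at hk
    omega
  · intro j
    have h1 : Nat.size (k j).natAbs ≤ n := by
      rw [← hk]
      exact Finset.single_le_sum (f := fun j => Nat.size (k j).natAbs) (fun _ _ => Nat.zero_le _)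
        (Finset.mem_univ j)
    have h2 : (k j).natAbs < 2 ^ n := Nat.size_le.1 h1
    rw [← Int.natCast_natAbs]
    exact_mod_cast h2

theorem th_sub {d n : ℕ} (k l : Fin d → ℤ) (p : Fin d → Fin (2 ^ (n + 2))) :
    th (n := n) (k - l) p = th k p - th l p := by
  unfold th
  rw [← sub_div, ← mul_sub, ← Finset.sum_sub_distrib]
  congr 2
  apply Finset.sum_congr rfl
  intro j _
  simp only [Pi.sub_apply]
  push_cast
  ring

theorem trig0 {d n : ℕ} {m : Fin d → ℤ} (hm : ∀ j, |m j| < 2 ^ (n + 2)) (hne : m ≠ 0) :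
    ∑ p : Fin d → Fin (2 ^ (n + 2)), Real.cos (th m p) = 0 ∧
    ∑ p : Fin d → Fin (2 ^ (n + 2)), Real.sin (th m p) = 0 := by
  have h := Esum m hm hne
  constructor
  · have h1 := congrArg Complex.re h
    rw [Complex.re_sum] at h1
    simpa only [Complex.exp_ofReal_mul_I_re, Complex.zero_re] using h1
  · have h1 := congrArg Complex.im h
    rw [Complex.im_sum] at h1
    simpa only [Complex.exp_ofReal_mul_I_im, Complex.zero_im] using h1

theorem trig2 {d n : ℕ} (hn : 1 ≤ n) {k l : Fin d → ℤ} (hk : k ∈ layer d n) (hl : l ∈ layer d n) :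
    ∑ p : Fin d → Fin (2 ^ (n + 2)), Real.cos (th k p - th l p)
      = (if k = l then (Fintype.card (Fin d → Fin (2 ^ (n + 2))) : ℝ) else 0) ∧
    ∑ p : Fin d → Fin (2 ^ (n + 2)), Real.sin (th k p - th l p) = 0 := by
  by_cases h : k = l
  · subst h
    simp
  · rw [if_neg h]
    have h1 : ∀ j, |(k - l) j| < 2 ^ (n + 2) := by
      intro j
      have h2 := (layer_facts hk hn).2 j
      have h3 := (layer_facts hl hn).2 j
      rw [abs_lt] at h2 h3 ⊢
      have h4 : (2 : ℤ) ^ (n + 2) = 4 * 2 ^ n := by ring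
      have h5 : (0 : ℤ) < 2 ^ n := by positivity
      simp only [Pi.sub_apply]
      constructor <;> linarith
    have h2 := trig0 (n := n) h1 (sub_ne_zero.2 h)
    simpa only [th_sub] using h2

section tbv
variable {d n : ℕ} (k : layer d n) (p : Fin d → Fin (2 ^ (n + 2)))
theorem tb00 : tb (k, 0) (p, 0) = Real.sqrt 2 * Real.cos (th k.1 p) := by simp [tb]
theorem tb01 : tb (k, 0) (p, 1) = Real.sqrt 2 * Real.sin (th k.1 p) := by simp [tb]
theorem tb10 : tb (k, 1) (p, 0) = Real.sqrt 2 * (- Real.sin (th k.1 p)) := by simp [tb]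
theorem tb11 : tb (k, 1) (p, 1) = Real.sqrt 2 * Real.cos (th k.1 p) := by simp [tb]
end tbv

theorem s2 (a b : ℝ) : Real.sqrt 2 * a * (Real.sqrt 2 * b) = 2 * (a * b) := by
  have := Real.mul_self_sqrt (show (0 : ℝ) ≤ 2 by norm_num)
  calc Real.sqrt 2 * a * (Real.sqrt 2 * b) = (Real.sqrt 2 * Real.sqrt 2) * (a * b) := by ring
    _ = 2 * (a * b) := by rw [this]

theorem tb_facts (d n : ℕ) (hd : 1 ≤ d) (hn : 1 ≤ n) :
    (∀ i : (layer d n) × Fin 2, ∑ x : Gr d n, tb i x = 0) ∧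
    (∀ i j : (layer d n) × Fin 2, ∑ x : Gr d n, tb i x * tb j x
      = if i = j then (Fintype.card (Gr d n) : ℝ) else 0) ∧
    (∀ x : Gr d n, ∑ i : (layer d n) × Fin 2, tb i x ^ 2 = Fintype.card ((layer d n) × Fin 2)) ∧
    (∀ x y : Gr d n, |∑ i : (layer d n) × Fin 2, tb i x * tb i y|
      ≤ 2 * ‖∑ k ∈ layer d n, Complex.exp (Complex.I * ((th k x.1 - th k y.1 : ℝ) : ℂ))‖) := by
  refine ⟨?_, ?_, ?_, ?_⟩
  · rintro ⟨k, e⟩
    have hk := layer_facts k.2 hn
    have h1 : ∀ j, |k.1 j| < 2 ^ (n + 2) := by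
      intro j
      refine (hk.2 j).trans ?_
      have h4 : (2 : ℤ) ^ (n + 2) = 4 * 2 ^ n := by ring
      have h5 : (0 : ℤ) < 2 ^ n := by positivity
      linarith
    obtain ⟨hc, hs⟩ := trig0 (n := n) h1 hk.1
    rw [Fintype.sum_prod_type]
    simp only [Fin.sum_univ_two]
    fin_cases e
    · show ∑ p, (tb (k, 0) (p, 0) + tb (k, 0) (p, 1)) = 0
      simp only [tb00, tb01]
      rw [Finset.sum_add_distrib, ← Finset.mul_sum, ← Finset.mul_sum, hc, hs]
      ring
    · show ∑ p, (tb (k, 1) (p, 0) + tb (k, 1) (p, 1)) = 0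
      simp only [tb10, tb11]
      rw [Finset.sum_add_distrib, ← Finset.mul_sum, ← Finset.mul_sum, Finset.sum_neg_distrib, hc, hs]
      ring
  · rintro ⟨k, e⟩ ⟨l, f⟩
    obtain ⟨hc, hs⟩ := trig2 hn k.2 l.2
    rw [Fintype.sum_prod_type]
    simp only [Fin.sum_univ_two]
    have hcard : (Fintype.card (Gr d n) : ℝ)
        = 2 * (Fintype.card (Fin d → Fin (2 ^ (n + 2))) : ℝ) := by
      rw [Fintype.card_prod, Fintype.card_fin]; push_cast; ring
    have hkl : (k.1 = l.1) ↔ k = l := Subtype.ext_iff.symm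
    fin_cases e <;> fin_cases f
    · show ∑ p, (tb (k, 0) (p, 0) * tb (l, 0) (p, 0) + tb (k, 0) (p, 1) * tb (l, 0) (p, 1)) = _
      have : ∀ p : Fin d → Fin (2 ^ (n + 2)),
          (tb (k, 0) (p, 0) * tb (l, 0) (p, 0) + tb (k, 0) (p, 1) * tb (l, 0) (p, 1))
          = 2 * Real.cos (th k.1 p - th l.1 p) := by
        intro p; rw [tb00, tb00, tb01, tb01, s2, s2, Real.cos_sub]; ring
      simp only [this]
      rw [← Finset.mul_sum, hc]
      by_cases h : k = l
      · rw [if_pos (hkl.2 h), if_pos (by rw [h]), hcard]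
      · rw [if_neg (fun h' => h (hkl.1 h')), if_neg (fun h' => h (Prod.ext_iff.1 h').1), mul_zero]
    · show ∑ p, (tb (k, 0) (p, 0) * tb (l, 1) (p, 0) + tb (k, 0) (p, 1) * tb (l, 1) (p, 1)) = _
      have : ∀ p : Fin d → Fin (2 ^ (n + 2)),
          (tb (k, 0) (p, 0) * tb (l, 1) (p, 0) + tb (k, 0) (p, 1) * tb (l, 1) (p, 1))
          = 2 * Real.sin (th k.1 p - th l.1 p) := by
        intro p; rw [tb00, tb10, tb01, tb11, s2, s2, Real.sin_sub]; ring
      simp only [this]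
      rw [← Finset.mul_sum, hs, if_neg (fun h' => by simpa using (Prod.ext_iff.1 h').2), mul_zero]
    · show ∑ p, (tb (k, 1) (p, 0) * tb (l, 0) (p, 0) + tb (k, 1) (p, 1) * tb (l, 0) (p, 1)) = _
      have : ∀ p : Fin d → Fin (2 ^ (n + 2)),
          (tb (k, 1) (p, 0) * tb (l, 0) (p, 0) + tb (k, 1) (p, 1) * tb (l, 0) (p, 1))
          = (-2) * Real.sin (th k.1 p - th l.1 p) := by
        intro p; rw [tb10, tb00, tb11, tb01, s2, s2, Real.sin_sub]; ring
      simp only [this]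
      rw [← Finset.mul_sum, hs, if_neg (fun h' => by simpa using (Prod.ext_iff.1 h').2), mul_zero]
    · show ∑ p, (tb (k, 1) (p, 0) * tb (l, 1) (p, 0) + tb (k, 1) (p, 1) * tb (l, 1) (p, 1)) = _
      have : ∀ p : Fin d → Fin (2 ^ (n + 2)),
          (tb (k, 1) (p, 0) * tb (l, 1) (p, 0) + tb (k, 1) (p, 1) * tb (l, 1) (p, 1))
          = 2 * Real.cos (th k.1 p - th l.1 p) := by
        intro p; rw [tb10, tb10, tb11, tb11, s2, s2, Real.cos_sub]; ring
      simp only [this]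
      rw [← Finset.mul_sum, hc]
      by_cases h : k = l
      · rw [if_pos (hkl.2 h), if_pos (by rw [h]), hcard]
      · rw [if_neg (fun h' => h (hkl.1 h')), if_neg (fun h' => h (Prod.ext_iff.1 h').1), mul_zero]
  · rintro ⟨p, e⟩
    rw [Fintype.sum_prod_type]
    simp only [Fin.sum_univ_two]
    have key : ∀ k : layer d n, tb (k, 0) (p, e) ^ 2 + tb (k, 1) (p, e) ^ 2 = 2 := by
      intro k
      have h1 := Real.sin_sq_add_cos_sq (th k.1 p)
      fin_cases e
      · show tb (k, 0) (p, 0) ^ 2 + tb (k, 1) (p, 0) ^ 2 = 2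
        rw [tb00, tb10, sq, sq, s2, s2]; linarith
      · show tb (k, 0) (p, 1) ^ 2 + tb (k, 1) (p, 1) ^ 2 = 2
        rw [tb01, tb11, sq, sq, s2, s2]; linarith
    simp only [key]
    rw [Finset.sum_const, Finset.card_univ, Fintype.card_prod, Fintype.card_fin, nsmul_eq_mul]
    push_cast
    ring
  · rintro ⟨p, e⟩ ⟨q, f⟩
    rw [Fintype.sum_prod_type]
    simp only [Fin.sum_univ_two]
    set S : ℂ := ∑ k ∈ layer d n, Complex.exp (Complex.I * ((th k p - th k q : ℝ) : ℂ)) with hS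
    have hre : S.re = ∑ k : layer d n, Real.cos (th k.1 p - th k.1 q) := by
      rw [hS, Complex.re_sum, ← Finset.sum_coe_sort (layer d n)]
      apply Finset.sum_congr rfl
      intro k _
      rw [mul_comm, Complex.exp_ofReal_mul_I_re]
    have him : S.im = ∑ k : layer d n, Real.sin (th k.1 p - th k.1 q) := by
      rw [hS, Complex.im_sum, ← Finset.sum_coe_sort (layer d n)]
      apply Finset.sum_congr rfl
      intro k _
      rw [mul_comm, Complex.exp_ofReal_mul_I_im]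
    have h1 : |2 * S.re| ≤ 2 * ‖S‖ := by
      rw [abs_mul, abs_two]
      exact mul_le_mul_of_nonneg_left (Complex.abs_re_le_norm S) (by norm_num)
    have h2 : |2 * S.im| ≤ 2 * ‖S‖ := by
      rw [abs_mul, abs_two]
      exact mul_le_mul_of_nonneg_left (Complex.abs_im_le_norm S) (by norm_num)
    fin_cases e <;> fin_cases f
    · show |∑ k : layer d n, (tb (k, 0) (p, 0) * tb (k, 0) (q, 0) + tb (k, 1) (p, 0) * tb (k, 1) (q, 0))| ≤ _
      have : ∑ k : layer d n, (tb (k, 0) (p, 0) * tb (k, 0) (q, 0) + tb (k, 1) (p, 0) * tb (k, 1) (q, 0))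
          = 2 * S.re := by
        rw [hre, Finset.mul_sum]
        apply Finset.sum_congr rfl
        intro k _
        rw [tb00, tb00, tb10, tb10, s2, s2, Real.cos_sub]; ring
      rw [this]; exact h1
    · show |∑ k : layer d n, (tb (k, 0) (p, 0) * tb (k, 0) (q, 1) + tb (k, 1) (p, 0) * tb (k, 1) (q, 1))| ≤ _
      have : ∑ k : layer d n, (tb (k, 0) (p, 0) * tb (k, 0) (q, 1) + tb (k, 1) (p, 0) * tb (k, 1) (q, 1))
          = -(2 * S.im) := by
        rw [him, Finset.mul_sum, ← Finset.sum_neg_distrib]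
        apply Finset.sum_congr rfl
        intro k _
        rw [tb00, tb01, tb10, tb11, s2, s2, Real.sin_sub]; ring
      rw [this, abs_neg]; exact h2
    · show |∑ k : layer d n, (tb (k, 0) (p, 1) * tb (k, 0) (q, 0) + tb (k, 1) (p, 1) * tb (k, 1) (q, 0))| ≤ _
      have : ∑ k : layer d n, (tb (k, 0) (p, 1) * tb (k, 0) (q, 0) + tb (k, 1) (p, 1) * tb (k, 1) (q, 0))
          = 2 * S.im := by
        rw [him, Finset.mul_sum]
        apply Finset.sum_congr rfl
        intro k _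
        rw [tb01, tb00, tb11, tb10, s2, s2, Real.sin_sub]; ring
      rw [this]; exact h2
    · show |∑ k : layer d n, (tb (k, 0) (p, 1) * tb (k, 0) (q, 1) + tb (k, 1) (p, 1) * tb (k, 1) (q, 1))| ≤ _
      have : ∑ k : layer d n, (tb (k, 0) (p, 1) * tb (k, 0) (q, 1) + tb (k, 1) (p, 1) * tb (k, 1) (q, 1))
          = 2 * S.re := by
        rw [hre, Finset.mul_sum]
        apply Finset.sum_congr rfl
        intro k _
        rw [tb01, tb01, tb11, tb11, s2, s2, Real.cos_sub]; ring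
      rw [this]; exact h1



end Sol_tb_facts

alias tb_facts := Sol_tb_facts.tb_facts

end HypVol
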