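import Pool.Agent.HypVol.Defs
import Pool.Agent.HypVol.L_layer_bound
import Pool.Agent.HypVol.L_pair_count
import Pool.Agent.HypVol.L_kern_sum
import Pool.Agent.HypVol.L_tb_facts
import Pool.Agent.HypVol.L_shp_lower
open MeasureTheory Real ProbabilityTheory
open scoped ENNReal BigOperators

namespace HypVol
namespace Sol_H_bound








theorem H_bound (d : ℕ) (hd : 2 ≤ d) : ∃ a C : ℝ, 0 < a ∧ 0 < C ∧ ∀ n : ℕ, 1 ≤ n →
    (∑ x : Gr d n, ∑ y : Gr d n, (1 + ∑ i : (layer d n) × Fin 2, tb i x * tb i y)^2 *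
      (Real.exp ((Real.sqrt (a * n / (2^(n+1) * shp d n)))^2 * ∑ i : (layer d n) × Fin 2, tb i x * tb i y) - 1))
        / (Fintype.card (Gr d n) : ℝ)^2 ≤ C * n * 2^n := by
  obtain ⟨a, C0, ha, hC0, hk⟩ := kern_sum d hd
  refine ⟨a, 4 ^ d * C0, ha, by positivity, fun n hn => ?_⟩
  set F : (Fin d → ℕ) → ℝ := fun T => (1 + 2 * Th d n T) ^ 2 *
    (Real.exp (a * n * Th d n T / (2 ^ n * shp d n)) - 1) with hF
  have hTh : ∀ T : Fin d → ℕ, 0 ≤ Th d n T := by
    intro T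
    unfold Th
    positivity
  have hF0 : ∀ T, 0 ≤ F T := by
    intro T
    have h1 := hTh T
    have h2 : 0 ≤ a * n * Th d n T / (2 ^ n * shp d n) := by positivity
    have h3 : 0 ≤ Real.exp (a * n * Th d n T / (2 ^ n * shp d n)) - 1 := by
      have := Real.one_le_exp h2
      linarith
    simp only [hF]
    positivity
  obtain ⟨-, -, -, htb⟩ := tb_facts d n (by omega) hn
  have hs : (Real.sqrt (a * n / (2 ^ (n + 1) * shp d n))) ^ 2 = a * n / (2 ^ (n + 1) * shp d n) :=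
    Real.sq_sqrt (by positivity)
  have hpt : ∀ x y : Gr d n, (1 + ∑ i : (layer d n) × Fin 2, tb i x * tb i y) ^ 2 *
      (Real.exp ((Real.sqrt (a * n / (2 ^ (n + 1) * shp d n))) ^ 2 *
        ∑ i : (layer d n) × Fin 2, tb i x * tb i y) - 1) ≤
      F (fun j => T1 n (x.1 j) (y.1 j)) := by
    intro x y
    set D := ∑ i : (layer d n) × Fin 2, tb i x * tb i y with hD
    set θ := Th d n (fun j => T1 n (x.1 j) (y.1 j)) with hθ
    have hDb : |D| ≤ 2 * θ := (htb x y).trans (by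
      have := layer_bound d n x.1 y.1
      linarith)
    have hθ0 : 0 ≤ θ := hTh _
    have hF' : F (fun j => T1 n (x.1 j) (y.1 j)) =
        (1 + 2 * θ) ^ 2 * (Real.exp (a * n / (2 ^ (n + 1) * shp d n) * (2 * θ)) - 1) := by
      simp only [hF, ← hθ]
      congr 3
      rw [pow_succ]
      by_cases h0 : (shp d n : ℝ) = 0
      · rw [h0]; simp
      · field_simp
    rw [hF', hs]
    have hc : 0 ≤ a * n / (2 ^ (n + 1) * shp d n) := by positivity
    have hR : 0 ≤ Real.exp (a * n / (2 ^ (n + 1) * shp d n) * (2 * θ)) - 1 := by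
      have := Real.one_le_exp (show 0 ≤ a * n / (2 ^ (n + 1) * shp d n) * (2 * θ) by positivity)
      linarith
    rcases le_or_gt 0 D with h | h
    · have hD2 : D ≤ 2 * θ := (le_abs_self D).trans hDb
      have h1 : (1 + D) ^ 2 ≤ (1 + 2 * θ) ^ 2 := by gcongr
      have h2 : Real.exp (a * n / (2 ^ (n + 1) * shp d n) * D) ≤
          Real.exp (a * n / (2 ^ (n + 1) * shp d n) * (2 * θ)) :=
        Real.exp_le_exp.2 (mul_le_mul_of_nonneg_left hD2 hc)
      have h3 : 0 ≤ Real.exp (a * n / (2 ^ (n + 1) * shp d n) * D) - 1 := by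
        have := Real.one_le_exp (mul_nonneg hc h)
        linarith
      exact mul_le_mul h1 (by linarith) h3 (by positivity)
    · have h1 : Real.exp (a * n / (2 ^ (n + 1) * shp d n) * D) ≤ 1 :=
        Real.exp_le_one_iff.2 (mul_nonpos_of_nonneg_of_nonpos hc h.le)
      have h2 : (1 + D) ^ 2 * (Real.exp (a * n / (2 ^ (n + 1) * shp d n) * D) - 1) ≤ 0 :=
        mul_nonpos_of_nonneg_of_nonpos (sq_nonneg _) (by linarith)
      exact h2.trans (mul_nonneg (sq_nonneg _) hR)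
  have hsum : (∑ x : Gr d n, ∑ y : Gr d n, F (fun j => T1 n (x.1 j) (y.1 j))) =
      4 * ∑ x : Fin d → Fin (2 ^ (n + 2)), ∑ y : Fin d → Fin (2 ^ (n + 2)),
        F (fun j => T1 n (x j) (y j)) := by
    rw [Fintype.sum_prod_type]
    simp_rw [Fintype.sum_prod_type, Finset.sum_const, Finset.card_univ, Fintype.card_fin,
      nsmul_eq_mul, ← Finset.mul_sum]
    push_cast
    ring
  have hcard : (Fintype.card (Gr d n) : ℝ) ^ 2 = 4 * ((2 : ℝ) ^ (n + 2)) ^ (2 * d) := by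
    have : Fintype.card (Gr d n) = (2 ^ (n + 2)) ^ d * 2 := by
      simp [Gr, Fintype.card_prod, Fintype.card_pi]
    rw [this]
    push_cast
    rw [mul_pow, ← pow_mul, ← pow_mul, ← pow_mul]
    rw [mul_comm d 2]
    norm_num
    ring
  rw [hcard, div_le_iff₀ (by positivity)]
  calc (∑ x : Gr d n, ∑ y : Gr d n, (1 + ∑ i : (layer d n) × Fin 2, tb i x * tb i y) ^ 2 *
      (Real.exp ((Real.sqrt (a * n / (2 ^ (n + 1) * shp d n))) ^ 2 *
        ∑ i : (layer d n) × Fin 2, tb i x * tb i y) - 1))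
      ≤ ∑ x : Gr d n, ∑ y : Gr d n, F (fun j => T1 n (x.1 j) (y.1 j)) :=
        Finset.sum_le_sum fun x _ => Finset.sum_le_sum fun y _ => hpt x y
    _ = 4 * ∑ x : Fin d → Fin (2 ^ (n + 2)), ∑ y : Fin d → Fin (2 ^ (n + 2)),
        F (fun j => T1 n (x j) (y j)) := hsum
    _ ≤ 4 * (((2:ℝ)^(n+2))^(2*d) * 4^d *
        ∑ T : Fin d → Fin (n+3), (1/2)^(∑ j, ((T j : Fin (n+3)) : ℕ)) * F (fun j => T j)) := by
        have := pair_count d n F hF0
        linarith
    _ ≤ 4 * (((2:ℝ)^(n+2))^(2*d) * 4^d * (C0 * n * 2 ^ n)) := by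
        have := hk n hn
        gcongr
    _ = 4 ^ d * C0 * n * 2 ^ n * (4 * ((2 : ℝ) ^ (n + 2)) ^ (2 * d)) := by ring


end Sol_H_bound

alias H_bound := Sol_H_bound.H_bound

end HypVol
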