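import Pool.Agent.HypVol.Defs
open MeasureTheory Real ProbabilityTheory
open scoped ENNReal BigOperators

namespace HypVol
namespace Sol_Fm_contDiff



theorem Fm_contDiff {X ι : Type} [Fintype X] [Nonempty X] [Fintype ι] (b : ι → X → ℝ) :
    ContDiff ℝ 1 (Fm b) := by
  have hex : ∀ x, ContDiff ℝ 1 (fun u : ι → ℝ => ex b u x) := by
    intro x
    unfold ex
    apply ContDiff.exp
    apply ContDiff.sum
    intro i _
    exact (contDiff_apply ℝ ℝ i).mul contDiff_const
  have hZ : ContDiff ℝ 1 (fun u : ι → ℝ => Zf b u) := by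
    unfold Zf
    exact ContDiff.sum fun x _ => hex x
  have hZ0 : ∀ u : ι → ℝ, Zf b u ≠ 0 := by
    intro u
    have : 0 < Zf b u := by
      unfold Zf ex
      exact Finset.sum_pos (fun x _ => Real.exp_pos _) Finset.univ_nonempty
    exact this.ne'
  rw [contDiff_pi]
  intro i
  unfold Fm
  exact (ContDiff.sum fun x _ => (hex x).mul contDiff_const).div hZ hZ0


end Sol_Fm_contDiff

alias Fm_contDiff := Sol_Fm_contDiff.Fm_contDiff

end HypVol
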