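import Pool.Agent.HypVol.Defs
import Pool.Agent.HypVol.L_Fm_contDiff
open MeasureTheory Real ProbabilityTheory
open scoped ENNReal BigOperators

namespace HypVol
namespace Sol_Fm_det




/-- the linear form `u ↦ ∑ u i * b i x` -/
noncomputable def fdL {X ι : Type} [Fintype ι] (b : ι → X → ℝ) (x : X) : (ι → ℝ) →L[ℝ] ℝ :=
  ∑ k, (b k x) • (ContinuousLinearMap.proj k : (ι → ℝ) →L[ℝ] ℝ)

theorem fdL_apply {X ι : Type} [Fintype ι] (b : ι → X → ℝ) (x : X) (u : ι → ℝ) :
    fdL b x u = ∑ k, u k * b k x := by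
  unfold fdL
  rw [sum_apply]
  refine Finset.sum_congr rfl fun k _ => ?_
  rw [smul_apply, ContinuousLinearMap.proj_apply, smul_eq_mul, mul_comm]

theorem fdL_single {X ι : Type} [Fintype ι] [DecidableEq ι] (b : ι → X → ℝ) (x : X) (j : ι) :
    fdL b x (Pi.single j 1) = b j x := by
  rw [fdL_apply, Finset.sum_eq_single j]
  · simp
  · intro k _ hk
    rw [Pi.single_eq_of_ne hk, zero_mul]
  · intro h; exact absurd (Finset.mem_univ _) h

theorem ex_fd {X ι : Type} [Fintype ι] (b : ι → X → ℝ) (x : X) (u : ι → ℝ) :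
    HasFDerivAt (fun v => ex b v x) (ex b u x • fdL b x) u := by
  have h1 : HasFDerivAt (fun v : ι → ℝ => ∑ i, v i * b i x) (fdL b x) u := by
    have h2 := (fdL b x).hasFDerivAt (x := u)
    have h3 : (fun v : ι → ℝ => ∑ i, v i * b i x) = fdL b x := by
      funext v
      rw [fdL_apply]
    rw [h3]
    exact h2
  exact h1.exp

theorem Zf_pos {X ι : Type} [Fintype X] [Nonempty X] [Fintype ι] (b : ι → X → ℝ) (u : ι → ℝ) :
    0 < Zf b u := by
  unfold Zf
  exact Finset.sum_pos (fun x _ => Real.exp_pos _) Finset.univ_nonempty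

theorem Fm_entry {X ι : Type} [Fintype X] [Nonempty X] [Fintype ι] [DecidableEq ι]
    (b : ι → X → ℝ) (u : ι → ℝ) (i j : ι) :
    fderiv ℝ (Fm b) u (Pi.single j 1) i =
      (∑ x, ex b u x * (b i x * b j x)) / Zf b u -
        ((∑ x, ex b u x * b i x) / Zf b u) * ((∑ x, ex b u x * b j x) / Zf b u) := by
  have hZ := Zf_pos b u
  have hdiff : DifferentiableAt ℝ (Fm b) u := (Fm_contDiff b).differentiable (by simp) u
  have hN : HasFDerivAt (fun v => ∑ x, ex b v x * b i x)
      (∑ x, (b i x) • (ex b u x • fdL b x)) u := by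
    refine HasFDerivAt.fun_sum fun x _ => ?_
    exact (ex_fd b x u).mul_const (b i x)
  have hZd : HasFDerivAt (fun v => Zf b v) (∑ x, (ex b u x • fdL b x)) u := by
    unfold Zf
    exact HasFDerivAt.fun_sum fun x _ => ex_fd b x u
  have hcomp : HasFDerivAt (fun v => Fm b v i)
      ((ContinuousLinearMap.proj i : (ι → ℝ) →L[ℝ] ℝ).comp (fderiv ℝ (Fm b) u)) u :=
    ((ContinuousLinearMap.proj i : (ι → ℝ) →L[ℝ] ℝ).hasFDerivAt).comp u hdiff.hasFDerivAt
  have hprod : HasFDerivAt (fun v => Fm b v i * Zf b v)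
      (Fm b u i • (∑ x, (ex b u x • fdL b x)) + Zf b u •
        ((ContinuousLinearMap.proj i : (ι → ℝ) →L[ℝ] ℝ).comp (fderiv ℝ (Fm b) u))) u :=
    hcomp.mul hZd
  have heq : (fun v => Fm b v i * Zf b v) = fun v => ∑ x, ex b v x * b i x := by
    funext v
    unfold Fm
    rw [div_mul_cancel₀ _ (Zf_pos b v).ne']
  rw [heq] at hprod
  have huniq := hprod.unique hN
  have h1 := DFunLike.congr_fun huniq (Pi.single j 1)
  simp only [add_apply, smul_apply, ContinuousLinearMap.comp_apply,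
    ContinuousLinearMap.proj_apply, sum_apply, fdL_single, smul_eq_mul] at h1
  have h2 : ∑ x, b i x * (ex b u x * b j x) = ∑ x, ex b u x * (b i x * b j x) :=
    Finset.sum_congr rfl fun x _ => by ring
  rw [h2] at h1
  have h3 : Fm b u i = (∑ x, ex b u x * b i x) / Zf b u := rfl
  rw [h3] at h1
  field_simp
  field_simp at h1
  linarith

theorem Fm_det {X ι : Type} [Fintype X] [Nonempty X] [Fintype ι] [DecidableEq ι] (b : ι → X → ℝ)
    (u : ι → ℝ) : (fderiv ℝ (Fm b) u).det = (Gp b u).det := by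
  have hZ := Zf_pos b u
  have h1 : (fderiv ℝ (Fm b) u).det =
      (LinearMap.toMatrix' ((fderiv ℝ (Fm b) u : (ι → ℝ) →L[ℝ] (ι → ℝ)) :
        (ι → ℝ) →ₗ[ℝ] (ι → ℝ))).det := by
    rw [LinearMap.det_toMatrix']
  rw [h1, ← Matrix.det_submatrix_equiv_self (Equiv.optionEquivSumPUnit.{0} ι).symm (Gp b u)]
  have h2 : (Gp b u).submatrix (Equiv.optionEquivSumPUnit.{0} ι).symm (Equiv.optionEquivSumPUnit.{0} ι).symm =
      Matrix.fromBlocks (Matrix.of fun i j => (∑ x, ex b u x * (b i x * b j x)) / Zf b u)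
        (Matrix.of fun i (_ : PUnit.{1}) => (∑ x, ex b u x * b i x) / Zf b u)
        (Matrix.of fun (_ : PUnit.{1}) j => (∑ x, ex b u x * b j x) / Zf b u) 1 := by
    ext (i | i) (j | j)
    · rfl
    · simp [Gp, bt]
    · simp [Gp, bt]
    · simp only [Gp, bt, Matrix.submatrix_apply, Equiv.optionEquivSumPUnit_symm_inr,
        Matrix.fromBlocks_apply₂₂]
      have : (∑ x, ex b u x * (1 * 1)) / Zf b u = 1 := by
        simp only [mul_one]
        exact div_self hZ.ne'
      rw [this]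
      simp
  rw [h2, Matrix.det_fromBlocks_one₂₂]
  congr 1
  ext i j
  rw [LinearMap.toMatrix'_apply]
  simp only [ContinuousLinearMap.coe_coe, Matrix.sub_apply, Matrix.mul_apply, Matrix.of_apply,
    Finset.univ_unique, Finset.sum_singleton]
  have h3 := Fm_entry b u i j
  exact h3


end Sol_Fm_det

alias Fm_det := Sol_Fm_det.Fm_det

end HypVol
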