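import Pool.Agent.HypVol.Defs
open MeasureTheory Real ProbabilityTheory
open scoped ENNReal BigOperators

namespace HypVol
namespace Sol_Fm_inj



theorem Fm_inj_aux_term (p q : ℝ) (hp : 0 < p) (hq : 0 < q) :
    0 ≤ (p - q) * (Real.log p - Real.log q) ∧
      ((p - q) * (Real.log p - Real.log q) = 0 → p = q) := by
  rcases lt_trichotomy p q with h | h | h
  · have h1 := Real.log_lt_log hp h
    have h2 : 0 < (p - q) * (Real.log p - Real.log q) :=
      mul_pos_of_neg_of_neg (by linarith) (by linarith)
    exact ⟨h2.le, fun h3 => absurd h3 h2.ne'⟩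
  · subst h
    simp
  · have h1 := Real.log_lt_log hq h
    have h2 : 0 < (p - q) * (Real.log p - Real.log q) :=
      mul_pos (by linarith) (by linarith)
    exact ⟨h2.le, fun h3 => absurd h3 h2.ne'⟩

theorem Fm_inj_Z {X ι : Type} [Fintype X] [Nonempty X] [Fintype ι] (b : ι → X → ℝ) (u : ι → ℝ) :
    0 < Zf b u :=
  Finset.sum_pos (fun _ _ => Real.exp_pos _) Finset.univ_nonempty

theorem Fm_inj {X ι : Type} [Fintype X] [Nonempty X] [Fintype ι] [DecidableEq ι] (b : ι → X → ℝ)
    (h0 : ∀ i, ∑ x, b i x = 0)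
    (h1 : ∀ i j, ∑ x, b i x * b j x = if i = j then (Fintype.card X : ℝ) else 0) :
    Function.Injective (Fm b) := by
  intro u v huv
  have hZu := Fm_inj_Z b u
  have hZv := Fm_inj_Z b v
  set p : X → ℝ := fun x => ex b u x / Zf b u with hp
  set q : X → ℝ := fun x => ex b v x / Zf b v with hq
  have hp0 : ∀ x, 0 < p x := fun x => div_pos (Real.exp_pos _) hZu
  have hq0 : ∀ x, 0 < q x := fun x => div_pos (Real.exp_pos _) hZv
  have hp1 : ∑ x, p x = 1 := by
    rw [hp, ← Finset.sum_div]
    exact div_self hZu.ne'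
  have hq1 : ∑ x, q x = 1 := by
    rw [hq, ← Finset.sum_div]
    exact div_self hZv.ne'
  have hF : ∀ i, ∑ x, p x * b i x = ∑ x, q x * b i x := by
    intro i
    have h2 : (∑ x, ex b u x * b i x) / Zf b u = (∑ x, ex b v x * b i x) / Zf b v := congrFun huv i
    rw [Finset.sum_div, Finset.sum_div] at h2
    calc ∑ x, p x * b i x = ∑ x, ex b u x * b i x / Zf b u :=
          Finset.sum_congr rfl fun x _ => by rw [hp]; ring
      _ = ∑ x, ex b v x * b i x / Zf b v := h2
      _ = ∑ x, q x * b i x := Finset.sum_congr rfl fun x _ => by rw [hq]; ring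
  have hD : ∑ x, (p x - q x) * ((∑ i, u i * b i x) - ∑ i, v i * b i x) = 0 := by
    calc ∑ x, (p x - q x) * ((∑ i, u i * b i x) - ∑ i, v i * b i x)
        = ∑ x, ∑ i, (u i - v i) * (p x * b i x - q x * b i x) := by
          refine Finset.sum_congr rfl fun x _ => ?_
          rw [← Finset.sum_sub_distrib, Finset.mul_sum]
          refine Finset.sum_congr rfl fun i _ => ?_
          ring
      _ = ∑ i, (u i - v i) * (∑ x, p x * b i x - ∑ x, q x * b i x) := by
          rw [Finset.sum_comm]
          refine Finset.sum_congr rfl fun i _ => ?_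
          rw [← Finset.sum_sub_distrib, Finset.mul_sum]
      _ = 0 := by
          refine Finset.sum_eq_zero fun i _ => ?_
          rw [hF i, sub_self, mul_zero]
  have hlp : ∀ x, Real.log (p x) = (∑ i, u i * b i x) - Real.log (Zf b u) := by
    intro x
    rw [hp]
    simp only
    have h2 : ex b u x ≠ 0 := (Real.exp_pos _).ne'
    rw [Real.log_div h2 hZu.ne']
    unfold ex
    rw [Real.log_exp]
  have hlq : ∀ x, Real.log (q x) = (∑ i, v i * b i x) - Real.log (Zf b v) := by
    intro x
    rw [hq]
    simp only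
    have h2 : ex b v x ≠ 0 := (Real.exp_pos _).ne'
    rw [Real.log_div h2 hZv.ne']
    unfold ex
    rw [Real.log_exp]
  have hS : ∑ x, (p x - q x) * (Real.log (p x) - Real.log (q x)) = 0 := by
    have e : ∀ x, (p x - q x) * (Real.log (p x) - Real.log (q x)) =
        (p x - q x) * ((∑ i, u i * b i x) - ∑ i, v i * b i x) -
          (p x - q x) * (Real.log (Zf b u) - Real.log (Zf b v)) := by
      intro x
      rw [hlp, hlq]
      ring
    rw [Finset.sum_congr rfl fun x _ => e x, Finset.sum_sub_distrib, hD, ← Finset.sum_mul,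
      Finset.sum_sub_distrib, hp1, hq1]
    ring
  have hall := (Finset.sum_eq_zero_iff_of_nonneg
    (fun x _ => (Fm_inj_aux_term (p x) (q x) (hp0 x) (hq0 x)).1)).1 hS
  have hpq : ∀ x, p x = q x := fun x =>
    (Fm_inj_aux_term (p x) (q x) (hp0 x) (hq0 x)).2 (hall x (Finset.mem_univ x))
  have hc : ∀ x, (∑ i, (u i - v i) * b i x) = Real.log (Zf b u) - Real.log (Zf b v) := by
    intro x
    have h2 := congrArg Real.log (hpq x)
    rw [hlp, hlq] at h2
    have h3 : (∑ i, (u i - v i) * b i x) = (∑ i, u i * b i x) - ∑ i, v i * b i x := by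
      rw [← Finset.sum_sub_distrib]
      exact Finset.sum_congr rfl fun i _ => by ring
    rw [h3]
    linarith
  funext j
  have h2 : ∑ x, (∑ i, (u i - v i) * b i x) * b j x = 0 := by
    simp only [hc]
    rw [← Finset.mul_sum, h0 j, mul_zero]
  have h3 : ∑ x, (∑ i, (u i - v i) * b i x) * b j x = (u j - v j) * Fintype.card X := by
    calc ∑ x, (∑ i, (u i - v i) * b i x) * b j x
        = ∑ x, ∑ i, (u i - v i) * (b i x * b j x) := by
          refine Finset.sum_congr rfl fun x _ => ?_
          rw [Finset.sum_mul]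
          exact Finset.sum_congr rfl fun i _ => by ring
      _ = ∑ i, (u i - v i) * ∑ x, b i x * b j x := by
          rw [Finset.sum_comm]
          exact Finset.sum_congr rfl fun i _ => by rw [Finset.mul_sum]
      _ = ∑ i, (u i - v i) * (if i = j then (Fintype.card X : ℝ) else 0) :=
          Finset.sum_congr rfl fun i _ => by rw [h1]
      _ = (u j - v j) * Fintype.card X := by
          simp
  rw [h2] at h3
  have hX : (Fintype.card X : ℝ) ≠ 0 := by
    exact_mod_cast Fintype.card_ne_zero
  have h4 := (mul_eq_zero.1 h3.symm).resolve_right hX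
  linarith


end Sol_Fm_inj

alias Fm_inj := Sol_Fm_inj.Fm_inj

end HypVol
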