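import Pool.Agent.HypVol.Defs
open MeasureTheory Real ProbabilityTheory
open scoped ENNReal BigOperators

namespace HypVol
namespace Sol_gam_mgf



theorem gam_mgf {ι : Type} [Fintype ι] (s : ℝ) (c : ι → ℝ) :
    Integrable (fun u => Real.exp (∑ i, u i * c i)) (gam ι s) ∧
    ∫ u, Real.exp (∑ i, u i * c i) ∂(gam ι s) = Real.exp (s^2 * (∑ i, c i ^ 2) / 2) := by
  have hfun : (fun u : ι → ℝ => Real.exp (∑ i, u i * c i)) = fun u => ∏ i, Real.exp (c i * u i) := by
    funext u
    rw [Real.exp_sum]
    exact Finset.prod_congr rfl fun i _ => by rw [mul_comm]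
  have hint : ∀ i, Integrable (fun x : ℝ => Real.exp (c i * x)) (gaussianReal 0 (Real.toNNReal (s^2))) :=
    fun i => integrable_exp_mul_gaussianReal (c i)
  constructor
  · rw [hfun]
    exact Integrable.fintype_prod (f := fun i x => Real.exp (c i * x)) hint
  · rw [hfun]
    unfold gam
    rw [integral_fintype_prod_eq_prod (fun i x => Real.exp (c i * x))]
    have h1 : ∀ i, ∫ x, Real.exp (c i * x) ∂(gaussianReal 0 (Real.toNNReal (s^2)))
        = Real.exp (s ^ 2 * (c i) ^ 2 / 2) := by
      intro i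
      have h2 := congrFun (mgf_id_gaussianReal (μ := 0) (v := Real.toNNReal (s^2))) (c i)
      rw [mgf] at h2
      simp only [id_eq] at h2
      rw [h2, Real.coe_toNNReal _ (sq_nonneg s)]
      congr 1
      ring
    rw [Finset.prod_congr rfl (fun i _ => h1 i), ← Real.exp_sum]
    congr 1
    rw [Finset.mul_sum, Finset.sum_div]


end Sol_gam_mgf

alias gam_mgf := Sol_gam_mgf.gam_mgf

end HypVol
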