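import Pool.Agent.HypVol.Defs
open MeasureTheory Real ProbabilityTheory
open scoped ENNReal BigOperators

namespace HypVol
namespace Sol_gam_prob



theorem gam_prob (ι : Type) [Fintype ι] (s : ℝ) : IsProbabilityMeasure (gam ι s) := by
  unfold gam
  infer_instance


end Sol_gam_prob

alias gam_prob := Sol_gam_prob.gam_prob

end HypVol
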