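import Pool.Agent.HypVol.Defs
import Pool.Agent.HypVol.L_gam_prob
import Pool.Agent.HypVol.L_gam_mgf
open MeasureTheory Real ProbabilityTheory
open scoped ENNReal BigOperators

namespace HypVol
namespace Sol_HS_int





/-- the density -/
noncomputable def Qd {X ι : Type} [Fintype ι] (b : ι → X → ℝ) (s : ℝ) (x : X) (u : ι → ℝ) : ℝ :=
  Real.exp (-(s^2 * Fintype.card ι / 2)) * Real.exp (∑ i, u i * b i x)

theorem bt_orth {X ι : Type} [Fintype X] [Fintype ι] [DecidableEq ι] (b : ι → X → ℝ)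
    (h0 : ∀ i, ∑ x, b i x = 0)
    (h1 : ∀ i j, ∑ x, b i x * b j x = if i = j then (Fintype.card X : ℝ) else 0) (o o' : Option ι) :
    ∑ x, bt b o x * bt b o' x = (Fintype.card X : ℝ) * (1 : Matrix (Option ι) (Option ι) ℝ) o o' := by
  rw [Matrix.one_apply]
  cases o with
  | none =>
    cases o' with
    | none => simp [bt]
    | some j => simp [bt, h0]
  | some i =>
    cases o' with
    | none => simp [bt, h0]
    | some j =>
      simp only [bt, h1, Option.some.injEq]
      split_ifs <;> simp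

theorem HS_eq {X ι : Type} [Fintype X] [Nonempty X] [Fintype ι] [DecidableEq ι] (b : ι → X → ℝ)
    (h0 : ∀ i, ∑ x, b i x = 0)
    (h1 : ∀ i j, ∑ x, b i x * b j x = if i = j then (Fintype.card X : ℝ) else 0) (s : ℝ)
    (u : ι → ℝ) :
    HS b s u = (∑ x, ∑ y, (1 + ∑ i, b i x * b i y)^2 * ((Qd b s x u - 1) * (Qd b s y u - 1)))
      / (Fintype.card X : ℝ)^2 := by
  have hM : (Fintype.card X : ℝ) ≠ 0 := by
    exact_mod_cast Fintype.card_ne_zero
  have hG : ∀ o o', Gt b s u o o' - (1 : Matrix (Option ι) (Option ι) ℝ) o o' =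
      (∑ x, (Qd b s x u - 1) * (bt b o x * bt b o' x)) / (Fintype.card X : ℝ) := by
    intro o o'
    have e := bt_orth b h0 h1 o o'
    simp_rw [sub_mul, one_mul]
    rw [Finset.sum_sub_distrib, e, sub_div, mul_div_cancel_left₀ _ hM]
    rfl
  have hS : ∀ x y, ∑ o, ∑ o', (bt b o x * bt b o' x) * (bt b o y * bt b o' y) =
      (1 + ∑ i, b i x * b i y)^2 := by
    intro x y
    have e : ∑ o, bt b o x * bt b o y = 1 + ∑ i, b i x * b i y := by
      rw [Fintype.sum_option]; simp [bt]
    rw [← e, sq, Finset.sum_mul_sum]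
    refine Finset.sum_congr rfl fun o _ => Finset.sum_congr rfl fun o' _ => ?_
    ring
  unfold HS
  simp_rw [hG, div_pow]
  simp_rw [← Finset.sum_div]
  congr 1
  have e1 : ∀ o o', (∑ x, (Qd b s x u - 1) * (bt b o x * bt b o' x))^2 =
      ∑ x, ∑ y, ((Qd b s x u - 1) * (Qd b s y u - 1)) *
        ((bt b o x * bt b o' x) * (bt b o y * bt b o' y)) := by
    intro o o'
    rw [sq, Finset.sum_mul_sum]
    refine Finset.sum_congr rfl fun x _ => Finset.sum_congr rfl fun y _ => ?_
    ring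
  simp_rw [e1]
  calc ∑ o, ∑ o', ∑ x, ∑ y, ((Qd b s x u - 1) * (Qd b s y u - 1)) *
        ((bt b o x * bt b o' x) * (bt b o y * bt b o' y))
      = ∑ o, ∑ x, ∑ y, ∑ o', ((Qd b s x u - 1) * (Qd b s y u - 1)) *
        ((bt b o x * bt b o' x) * (bt b o y * bt b o' y)) := by
        refine Finset.sum_congr rfl fun o _ => ?_
        rw [Finset.sum_comm]
        refine Finset.sum_congr rfl fun x _ => ?_
        rw [Finset.sum_comm]
    _ = ∑ x, ∑ y, ∑ o, ∑ o', ((Qd b s x u - 1) * (Qd b s y u - 1)) *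
        ((bt b o x * bt b o' x) * (bt b o y * bt b o' y)) := by
        rw [Finset.sum_comm]
        refine Finset.sum_congr rfl fun x _ => ?_
        rw [Finset.sum_comm]
    _ = _ := by
        refine Finset.sum_congr rfl fun x _ => Finset.sum_congr rfl fun y _ => ?_
        simp_rw [← Finset.mul_sum]
        rw [hS, mul_comm]

theorem HS_int {X ι : Type} [Fintype X] [Nonempty X] [Fintype ι] [DecidableEq ι] (b : ι → X → ℝ)
    (h0 : ∀ i, ∑ x, b i x = 0)
    (h1 : ∀ i j, ∑ x, b i x * b j x = if i = j then (Fintype.card X : ℝ) else 0)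
    (h2 : ∀ x, ∑ i, b i x ^ 2 = Fintype.card ι) (s : ℝ) :
    Integrable (HS b s) (gam ι s) ∧ ∫ u, HS b s u ∂(gam ι s)
      = (∑ x, ∑ y, (1 + ∑ i, b i x * b i y)^2 * (Real.exp (s^2 * ∑ i, b i x * b i y) - 1))
        / (Fintype.card X : ℝ)^2 := by
  have hQ1 : ∀ x, Integrable (fun u => Qd b s x u) (gam ι s) ∧ ∫ u, Qd b s x u ∂(gam ι s) = 1 := by
    intro x
    obtain ⟨hi, he⟩ := gam_mgf (ι := ι) s (fun i => b i x)
    refine ⟨hi.const_mul _, ?_⟩
    unfold Qd
    rw [integral_const_mul, he, h2 x, ← Real.exp_add]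
    rw [neg_add_cancel, Real.exp_zero]
  have hQ2 : ∀ x y, Integrable (fun u => Qd b s x u * Qd b s y u) (gam ι s) ∧
      ∫ u, Qd b s x u * Qd b s y u ∂(gam ι s) = Real.exp (s^2 * ∑ i, b i x * b i y) := by
    intro x y
    obtain ⟨hi, he⟩ := gam_mgf (ι := ι) s (fun i => b i x + b i y)
    have hf : (fun u : ι → ℝ => Qd b s x u * Qd b s y u) =
        fun u => Real.exp (-(s^2 * Fintype.card ι)) * Real.exp (∑ i, u i * (b i x + b i y)) := by
      funext u
      unfold Qd
      simp only [mul_add, Finset.sum_add_distrib]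
      rw [← Real.exp_add, ← Real.exp_add, ← Real.exp_add, ← Real.exp_add]
      congr 1
      ring
    rw [hf]
    refine ⟨hi.const_mul _, ?_⟩
    rw [integral_const_mul, he, ← Real.exp_add]
    congr 1
    have e : ∑ i, (b i x + b i y)^2 = Fintype.card ι + Fintype.card ι + 2 * ∑ i, b i x * b i y := by
      rw [← h2 x]
      nth_rw 2 [h2 x]
      rw [← h2 y, Finset.mul_sum, ← Finset.sum_add_distrib, ← Finset.sum_add_distrib]
      refine Finset.sum_congr rfl fun i _ => ?_
      ring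
    rw [e]
    ring
  have := gam_prob ι s
  have hf : (HS b s) = fun u => (∑ x, ∑ y, (1 + ∑ i, b i x * b i y)^2 *
      ((Qd b s x u - 1) * (Qd b s y u - 1))) / (Fintype.card X : ℝ)^2 := by
    funext u; exact HS_eq b h0 h1 s u
  have hP : ∀ x y, Integrable (fun u => (Qd b s x u - 1) * (Qd b s y u - 1)) (gam ι s) ∧
      ∫ u, (Qd b s x u - 1) * (Qd b s y u - 1) ∂(gam ι s) =
        Real.exp (s^2 * ∑ i, b i x * b i y) - 1 := by
    intro x y
    have e : (fun u : ι → ℝ => (Qd b s x u - 1) * (Qd b s y u - 1)) =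
        fun u => (Qd b s x u * Qd b s y u - Qd b s x u) - (Qd b s y u - 1) := by
      funext u; ring
    have i1 := (hQ2 x y).1.sub (hQ1 x).1
    have i2 := (hQ1 y).1.sub (integrable_const (μ := gam ι s) (1 : ℝ))
    rw [e]
    refine ⟨i1.sub i2, ?_⟩
    have a1 := integral_sub i1 i2
    have a2 := integral_sub (hQ2 x y).1 (hQ1 x).1
    have a3 := integral_sub (hQ1 y).1 (integrable_const (μ := gam ι s) (1 : ℝ))
    simp only [Pi.sub_apply] at a1 a2 a3
    rw [a1, a2, a3, (hQ2 x y).2, (hQ1 x).2, (hQ1 y).2]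
    simp
  have hI : ∀ x y, Integrable (fun u => (1 + ∑ i, b i x * b i y)^2 *
      ((Qd b s x u - 1) * (Qd b s y u - 1))) (gam ι s) := fun x y => (hP x y).1.const_mul _
  rw [hf]
  refine ⟨(integrable_finsetSum _ fun x _ => integrable_finsetSum _ fun y _ => hI x y).div_const _, ?_⟩
  rw [integral_div, integral_finsetSum _ (fun x _ => integrable_finsetSum _ fun y _ => hI x y)]
  congr 1
  refine Finset.sum_congr rfl fun x _ => ?_
  rw [integral_finsetSum _ (fun y _ => hI x y)]
  refine Finset.sum_congr rfl fun y _ => ?_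
  rw [integral_const_mul, (hP x y).2]


end Sol_HS_int

alias HS_int := Sol_HS_int.HS_int

end HypVol
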