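import Pool.Agent.HypVol.Defs
import Pool.Agent.HypVol.L_gam_prob
import Pool.Agent.HypVol.L_gam_mgf
open MeasureTheory Real ProbabilityTheory
open scoped ENNReal BigOperators

namespace HypVol
namespace Sol_Z_int





theorem Z_int {X ι : Type} [Fintype X] [Nonempty X] [Fintype ι] [DecidableEq ι] (b : ι → X → ℝ)
    (h2 : ∀ x, ∑ i, b i x ^ 2 = Fintype.card ι) (s : ℝ) :
    Integrable (fun u => Real.log (Zf b u / Fintype.card X)) (gam ι s) ∧
    ∫ u, Real.log (Zf b u / Fintype.card X) ∂(gam ι s) ≤ s^2 * Fintype.card ι / 2 := by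
  have hprob := gam_prob ι s
  have hX : (0 : ℝ) < Fintype.card X := by exact_mod_cast Fintype.card_pos
  have hexp : ∀ x, Integrable (fun u : ι → ℝ => ex b u x) (gam ι s) := fun x =>
    (gam_mgf s (fun i => b i x)).1
  have hexpv : ∀ x, ∫ u, ex b u x ∂(gam ι s) = Real.exp (s^2 * Fintype.card ι / 2) := by
    intro x
    have h := (gam_mgf s (fun i => b i x)).2
    rw [h2 x] at h
    exact h
  have hWi : Integrable (fun u : ι → ℝ => Zf b u / Fintype.card X) (gam ι s) := by
    apply Integrable.div_const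
    unfold Zf
    exact integrable_finsetSum _ fun x _ => hexp x
  have hWv : ∫ u, Zf b u / Fintype.card X ∂(gam ι s) = Real.exp (s^2 * Fintype.card ι / 2) := by
    rw [integral_div]
    unfold Zf
    rw [integral_finsetSum _ fun x _ => hexp x, Finset.sum_congr rfl fun x _ => hexpv x,
      Finset.sum_const, Finset.card_univ, nsmul_eq_mul]
    field_simp
  have hZpos : ∀ u : ι → ℝ, 0 < Zf b u := fun u =>
    Finset.sum_pos (fun x _ => Real.exp_pos _) Finset.univ_nonempty
  have hWpos : ∀ u : ι → ℝ, 0 < Zf b u / Fintype.card X := fun u => div_pos (hZpos u) hX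
  have hWc : Continuous (fun u : ι → ℝ => Zf b u / Fintype.card X) := by
    unfold Zf ex
    fun_prop
  obtain ⟨x0⟩ := ‹Nonempty X›
  have hinvi : Integrable (fun u : ι → ℝ => (Fintype.card X : ℝ) *
      Real.exp (∑ i, u i * (-b i x0))) (gam ι s) :=
    (gam_mgf s (fun i => -b i x0)).1.const_mul _
  have hinv : ∀ u : ι → ℝ, (Zf b u / Fintype.card X)⁻¹ ≤ (Fintype.card X : ℝ) *
      Real.exp (∑ i, u i * (-b i x0)) := by
    intro u
    rw [inv_div, div_eq_mul_inv]
    apply mul_le_mul_of_nonneg_left _ hX.le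
    have h3 : Real.exp (∑ i, u i * (-b i x0)) = (ex b u x0)⁻¹ := by
      unfold ex
      rw [← Real.exp_neg, ← Finset.sum_neg_distrib]
      congr 1
      exact Finset.sum_congr rfl fun i _ => by ring
    rw [h3]
    apply inv_anti₀ (Real.exp_pos _)
    exact Finset.single_le_sum (f := fun x => ex b u x) (fun x _ => (Real.exp_pos _).le)
      (Finset.mem_univ x0)
  have hlogi : Integrable (fun u : ι → ℝ => Real.log (Zf b u / Fintype.card X)) (gam ι s) := by
    refine (hWi.add hinvi).mono'
      (hWc.log (fun u => (hWpos u).ne')).aestronglyMeasurable (Filter.Eventually.of_forall ?_)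
    intro u
    have h3 := Real.log_le_sub_one_of_pos (hWpos u)
    have h4 := Real.log_le_sub_one_of_pos (inv_pos.mpr (hWpos u))
    rw [Real.log_inv] at h4
    have h5 := hinv u
    have h6 : 0 < (Zf b u / Fintype.card X)⁻¹ := inv_pos.mpr (hWpos u)
    have h7 := hWpos u
    rw [Real.norm_eq_abs, abs_le]
    simp only [Pi.add_apply]
    constructor <;> linarith
  refine ⟨hlogi, ?_⟩
  have hbd : ∀ u : ι → ℝ, Real.log (Zf b u / Fintype.card X) ≤
      (Zf b u / Fintype.card X) / Real.exp (s^2 * Fintype.card ι / 2) +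
        (s^2 * Fintype.card ι / 2 - 1) := by
    intro u
    have h3 := Real.log_le_sub_one_of_pos
      (div_pos (hWpos u) (Real.exp_pos (s^2 * Fintype.card ι / 2)))
    rw [Real.log_div (hWpos u).ne' (Real.exp_pos _).ne', Real.log_exp] at h3
    linarith
  have hmono := integral_mono hlogi ((hWi.div_const _).add (integrable_const
    (s^2 * (Fintype.card ι : ℝ) / 2 - 1))) hbd
  refine hmono.trans (le_of_eq ?_)
  have h8 := integral_add (μ := gam ι s) (hWi.div_const (Real.exp (s^2 * Fintype.card ι / 2)))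
    (integrable_const (s^2 * (Fintype.card ι : ℝ) / 2 - 1))
  refine h8.trans ?_
  rw [integral_div, hWv, integral_const, div_self (Real.exp_pos _).ne']
  simp


end Sol_Z_int

alias Z_int := Sol_Z_int.Z_int

end HypVol
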