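import Pool.Agent.HypVol.Defs
open MeasureTheory Real ProbabilityTheory
open scoped ENNReal BigOperators

namespace HypVol
namespace Sol_Gt_lower



private theorem Gt_lower_key {X O : Type} [Fintype X] [Fintype O] (B : O → X → ℝ) (v : O → ℝ) (c : ℝ) (w : X → ℝ) :
    ∑ o, ∑ o', v o * ((∑ x, w x * (B o x * B o' x)) / c) * v o' =
      (∑ x, w x * (∑ o, v o * B o x) ^ 2) / c := by
  have h1 : ∀ o o', v o * ((∑ x, w x * (B o x * B o' x)) / c) * v o' =
      ∑ x, (w x * ((v o * B o x) * (v o' * B o' x))) / c := by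
    intro o o'
    rw [← Finset.sum_div, mul_div_assoc', div_mul_eq_mul_div, Finset.mul_sum, Finset.sum_mul]
    congr 1
    refine Finset.sum_congr rfl fun x _ => ?_
    ring
  rw [Finset.sum_congr rfl fun o _ => Finset.sum_congr rfl fun o' _ => h1 o o']
  rw [Finset.sum_congr rfl fun o _ => Finset.sum_comm, Finset.sum_comm, Finset.sum_div]
  refine Finset.sum_congr rfl fun x _ => ?_
  rw [sq, Finset.sum_mul_sum, Finset.mul_sum, Finset.sum_div]
  refine Finset.sum_congr rfl fun o _ => ?_
  rw [Finset.mul_sum, Finset.sum_div]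

theorem Gt_lower {X ι : Type} [Fintype X] [Nonempty X] [Fintype ι] [DecidableEq ι] (b : ι → X → ℝ)
    (h0 : ∀ i, ∑ x, b i x = 0)
    (h1 : ∀ i j, ∑ x, b i x * b j x = if i = j then (Fintype.card X : ℝ) else 0)
    (s : ℝ) (u : ι → ℝ) (l : ℝ)
    (hl : ∀ x, s^2 * Fintype.card ι / 2 + |∑ i, u i * b i x| ≤ l) (v : Option ι → ℝ) :
    Real.exp (-l) * ∑ o, v o ^ 2 ≤ ∑ o, ∑ o', v o * Gt b s u o o' * v o' := by
  have hX : (0 : ℝ) < Fintype.card X := by exact_mod_cast Fintype.card_pos
  have horth : ∀ o o' : Option ι, ∑ x, bt b o x * bt b o' x = if o = o' then (Fintype.card X : ℝ) else 0 := by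
    intro o o'
    cases o with
    | none =>
      cases o' with
      | none => simp [bt]
      | some j => simp [bt, h0]
    | some i =>
      cases o' with
      | none => simp [bt, h0]
      | some j => simp [bt, h1]
  have e1 : ∑ o, ∑ o', v o * Gt b s u o o' * v o' =
      (∑ x, (Real.exp (-(s^2 * Fintype.card ι / 2)) * ex b u x) * (∑ o, v o * bt b o x) ^ 2) / Fintype.card X := by
    rw [← Gt_lower_key]
    rfl
  have e2 : ∑ o, v o ^ 2 = (∑ x, (1 : ℝ) * (∑ o, v o * bt b o x) ^ 2) / Fintype.card X := by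
    rw [← Gt_lower_key]
    refine Finset.sum_congr rfl fun o _ => ?_
    rw [Finset.sum_eq_single o]
    · simp only [one_mul]
      rw [horth, if_pos rfl, div_self hX.ne']
      ring
    · intro o' _ ho'
      simp only [one_mul]
      rw [horth, if_neg (Ne.symm ho')]
      simp
    · intro h
      exact absurd (Finset.mem_univ _) h
  rw [e1, e2, ← mul_div_assoc, Finset.mul_sum]
  refine div_le_div_of_nonneg_right ?_ hX.le
  refine Finset.sum_le_sum fun x _ => ?_
  rw [one_mul]
  refine mul_le_mul_of_nonneg_right ?_ (sq_nonneg _)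
  rw [ex, ← Real.exp_add]
  refine Real.exp_le_exp.mpr ?_
  have h2 := hl x
  have h3 := neg_abs_le (∑ i, u i * b i x)
  linarith


end Sol_Gt_lower

alias Gt_lower := Sol_Gt_lower.Gt_lower

end HypVol
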