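import Pool.Agent.HypVol.Defs
import Pool.Agent.BSheet.L_logdet

namespace HypVol

alias logdet := BSheet.logdet

end HypVol
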