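import Pool.Agent.HypVol.Defs
import Pool.Agent.HypVol.L_logdet
import Pool.Agent.HypVol.L_Gt_lower
open MeasureTheory Real ProbabilityTheory
open scoped ENNReal BigOperators

namespace HypVol
namespace Sol_logdet_Gp





theorem Zf_pos' {X ι : Type} [Fintype X] [Nonempty X] [Fintype ι] (b : ι → X → ℝ) (u : ι → ℝ) :
    0 < Zf b u := by
  unfold Zf ex
  exact Finset.sum_pos (fun x _ => Real.exp_pos _) Finset.univ_nonempty

theorem Gp_eq' {X ι : Type} [Fintype X] [Nonempty X] [Fintype ι] (b : ι → X → ℝ)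
    (s : ℝ) (u : ι → ℝ) :
    Gp b u = (Real.exp (s^2 * Fintype.card ι / 2) * Fintype.card X / Zf b u) • Gt b s u := by
  have hZ := Zf_pos' b u
  have hX : (0 : ℝ) < Fintype.card X := by exact_mod_cast Fintype.card_pos
  ext o o'
  simp only [Matrix.smul_apply, smul_eq_mul]
  unfold Gp Gt
  have h1 : ∑ x, Real.exp (-(s^2 * Fintype.card ι / 2)) * ex b u x * (bt b o x * bt b o' x) =
      Real.exp (-(s^2 * Fintype.card ι / 2)) * ∑ x, ex b u x * (bt b o x * bt b o' x) := by
    rw [Finset.mul_sum]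
    exact Finset.sum_congr rfl fun x _ => by ring
  have h2 : Real.exp (s^2 * Fintype.card ι / 2) * Real.exp (-(s^2 * Fintype.card ι / 2)) = 1 := by
    rw [← Real.exp_add, add_neg_cancel, Real.exp_zero]
  show (∑ x, ex b u x * (bt b o x * bt b o' x)) / Zf b u = _ *
    ((∑ x, Real.exp (-(s^2 * Fintype.card ι / 2)) * ex b u x * (bt b o x * bt b o' x)) /
      Fintype.card X)
  rw [h1]
  have h3 : ∀ E E' S Z Y : ℝ, Z ≠ 0 → Y ≠ 0 → E * Y / Z * (E' * S / Y) = (E * E') * S / Z := by
    intro E E' S Z Y hZ hY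
    field_simp
  rw [h3 _ _ _ _ _ hZ.ne' hX.ne', h2, one_mul]

theorem Gt_symm' {X ι : Type} [Fintype X] [Fintype ι] (b : ι → X → ℝ)
    (s : ℝ) (u : ι → ℝ) : (Gt b s u).IsSymm := by
  ext o o'
  simp only [Matrix.transpose_apply]
  unfold Gt
  congr 1
  exact Finset.sum_congr rfl fun x _ => by ring

theorem logdet_Gp {X ι : Type} [Fintype X] [Nonempty X] [Fintype ι] [DecidableEq ι] (b : ι → X → ℝ)
    (h0 : ∀ i, ∑ x, b i x = 0)
    (h1 : ∀ i j, ∑ x, b i x * b j x = if i = j then (Fintype.card X : ℝ) else 0)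
    (s : ℝ) (u : ι → ℝ) (Λ : ℝ) (hΛ : 1 ≤ Λ) :
    0 < (Gp b u).det ∧
    ((Fintype.card ι : ℝ) + 1) * (s^2 * Fintype.card ι / 2 - Real.log (Zf b u / Fintype.card X))
      - ((Fintype.card ι : ℝ) + 1) * Real.log 2 - 4 * Λ * HS b s u
      - ((Fintype.card ι : ℝ) + 1) * (Λ * ∑ x, Real.exp (s^2 * Fintype.card ι / 2
          + |∑ i, u i * b i x| - Λ)) ≤ Real.log (Gp b u).det := by
  classical
  have hZ := Zf_pos' b u
  have hX : (0 : ℝ) < Fintype.card X := by exact_mod_cast Fintype.card_pos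
  obtain ⟨x₀, hx₀⟩ := Finite.exists_max (fun x => |∑ i, u i * b i x|)
  obtain ⟨l, hl⟩ : ∃ l : ℝ, l = s^2 * Fintype.card ι / 2 + |∑ i, u i * b i x₀| := ⟨_, rfl⟩
  have hl0 : 0 ≤ l := by rw [hl]; positivity
  have hlx : ∀ x, s^2 * Fintype.card ι / 2 + |∑ i, u i * b i x| ≤ l := by
    intro x; rw [hl]; linarith [hx₀ x]
  have hlow := Gt_lower b h0 h1 s u l hlx
  have hcard : (Fintype.card (Option ι) : ℝ) = (Fintype.card ι : ℝ) + 1 := by
    rw [Fintype.card_option]; push_cast; ring
  have hsum0 : 0 ≤ ∑ x, Real.exp (s^2 * Fintype.card ι / 2 + |∑ i, u i * b i x| - Λ) :=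
    Finset.sum_nonneg fun x _ => (Real.exp_pos _).le
  have hHS0 : 0 ≤ HS b s u := by
    unfold HS
    exact Finset.sum_nonneg fun o _ => Finset.sum_nonneg fun o' _ => sq_nonneg _
  have hN0 : (0 : ℝ) ≤ Fintype.card ι := by positivity
  have hel : Real.exp (-l) ≤ 1 := by
    rw [Real.exp_le_one_iff]; linarith
  have hlogl : Real.log (1 / Real.exp (-l)) = l := by
    rw [one_div, ← Real.exp_neg, neg_neg, Real.log_exp]
  -- the two cases
  have key : 0 < (Gt b s u).det ∧
      -((Fintype.card ι : ℝ) + 1) * Real.log 2 - 4 * Λ * HS b s u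
      - ((Fintype.card ι : ℝ) + 1) * (Λ * ∑ x, Real.exp (s^2 * Fintype.card ι / 2
          + |∑ i, u i * b i x| - Λ)) ≤ Real.log (Gt b s u).det := by
    rcases le_total l Λ with hcase | hcase
    · obtain ⟨hd, hle⟩ := logdet (Gt b s u) (1 : Matrix (Option ι) (Option ι) ℝ) (Gt_symm' b s u)
        1 (Real.exp (-l)) one_pos le_rfl (Real.exp_pos _) hel hlow (by
          intro v
          rw [one_mul]
          apply le_of_eq
          refine Finset.sum_congr rfl fun o _ => ?_
          rw [Finset.sum_eq_single o]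
          · rw [Matrix.one_apply_eq]; ring
          · intro o' _ ho'
            rw [Matrix.one_apply_ne (Ne.symm ho')]; ring
          · intro h; exact absurd (Finset.mem_univ o) h)
      refine ⟨hd, ?_⟩
      rw [hcard, hlogl] at hle
      have h3 : (∑ i, ∑ j, (Gt b s u i j - (1 : Matrix (Option ι) (Option ι) ℝ) i j)^2) =
          HS b s u := rfl
      rw [h3] at hle
      have h4 : l * (4 / 1 ^ 2) * HS b s u ≤ 4 * Λ * HS b s u := by
        apply mul_le_mul_of_nonneg_right _ hHS0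
        linarith
      have h5 : 0 ≤ ((Fintype.card ι : ℝ) + 1) * (Λ * ∑ x, Real.exp (s^2 * Fintype.card ι / 2
          + |∑ i, u i * b i x| - Λ)) := by positivity
      have h6 : Real.log (2 / 1) = Real.log 2 := by rw [div_one]
      rw [h6] at hle
      linarith
    · obtain ⟨hd, hle⟩ := logdet (Gt b s u) (Gt b s u) (Gt_symm' b s u)
        (Real.exp (-l)) (Real.exp (-l)) (Real.exp_pos _) hel (Real.exp_pos _) hel hlow hlow
      refine ⟨hd, ?_⟩
      rw [hcard] at hle
      simp only [sub_self, ne_eq, OfNat.ofNat_ne_zero, not_false_eq_true, zero_pow,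
        Finset.sum_const_zero, mul_zero, sub_zero] at hle
      have h3 : Real.log (2 / Real.exp (-l)) = Real.log 2 + l := by
        rw [Real.log_div two_ne_zero (Real.exp_pos _).ne', Real.log_exp]; ring
      rw [h3] at hle
      have h4 : Real.exp (l - Λ) ≤ ∑ x, Real.exp (s^2 * Fintype.card ι / 2
          + |∑ i, u i * b i x| - Λ) := by
        have := Finset.single_le_sum (f := fun x => Real.exp (s^2 * Fintype.card ι / 2
          + |∑ i, u i * b i x| - Λ)) (fun x _ => (Real.exp_pos _).le) (Finset.mem_univ x₀)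
        rw [hl]
        exact this
      have h5 : l ≤ Λ * ∑ x, Real.exp (s^2 * Fintype.card ι / 2
          + |∑ i, u i * b i x| - Λ) := by
        have h6 : (l - Λ) + 1 ≤ Real.exp (l - Λ) := Real.add_one_le_exp _
        have h7 : Λ * ((l - Λ) + 1) ≤ Λ * ∑ x, Real.exp (s^2 * Fintype.card ι / 2
          + |∑ i, u i * b i x| - Λ) := by
          apply mul_le_mul_of_nonneg_left (h6.trans h4); linarith
        nlinarith
      have h8 : ((Fintype.card ι : ℝ) + 1) * l ≤ ((Fintype.card ι : ℝ) + 1) *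
          (Λ * ∑ x, Real.exp (s^2 * Fintype.card ι / 2 + |∑ i, u i * b i x| - Λ)) :=
        mul_le_mul_of_nonneg_left h5 (by positivity)
      have h9 : 0 ≤ 4 * Λ * HS b s u := by positivity
      linarith
  obtain ⟨hd, hle⟩ := key
  have hc : 0 < Real.exp (s^2 * Fintype.card ι / 2) * Fintype.card X / Zf b u := by positivity
  rw [Gp_eq' b s u, Matrix.det_smul]
  refine ⟨by positivity, ?_⟩
  rw [Real.log_mul (pow_pos hc _).ne' hd.ne', Real.log_pow, hcard]
  have hlc : Real.log (Real.exp (s^2 * Fintype.card ι / 2) * Fintype.card X / Zf b u) =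
      s^2 * Fintype.card ι / 2 - Real.log (Zf b u / Fintype.card X) := by
    rw [Real.log_div (by positivity) hZ.ne', Real.log_mul (Real.exp_pos _).ne' hX.ne',
      Real.log_exp, Real.log_div hZ.ne' hX.ne']
    ring
  rw [hlc]
  linarith


end Sol_logdet_Gp

alias logdet_Gp := Sol_logdet_Gp.logdet_Gp

end HypVol
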