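import Pool.Agent.HypVol.Defs
import Pool.Agent.HypVol.L_gam_prob
import Pool.Agent.HypVol.L_gam_mgf
open MeasureTheory Real ProbabilityTheory
open scoped ENNReal BigOperators

namespace HypVol
namespace Sol_tail_int





theorem abs_piece {ι : Type} [Fintype ι] (s : ℝ) (c : ι → ℝ) :
    Integrable (fun u : ι → ℝ => Real.exp |∑ i, u i * c i|) (gam ι s) ∧
    ∫ u, Real.exp |∑ i, u i * c i| ∂(gam ι s) ≤ 2 * Real.exp (s^2 * (∑ i, c i ^ 2) / 2) := by
  obtain ⟨i1, e1⟩ := gam_mgf s c
  obtain ⟨i2, e2⟩ := gam_mgf s (fun i => - c i)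
  have hle : ∀ t : ℝ, Real.exp |t| ≤ Real.exp t + Real.exp (-t) := by
    intro t
    rcases abs_cases t with h | h
    · rw [h.1]
      have := Real.exp_pos (-t)
      linarith
    · rw [h.1]
      have := Real.exp_pos t
      linarith
  have hneg : ∀ u : ι → ℝ, ∑ i, u i * (- c i) = -∑ i, u i * c i := by
    intro u
    rw [← Finset.sum_neg_distrib]
    exact Finset.sum_congr rfl fun i _ => by ring
  simp only [hneg] at i2 e2
  have hmeas : AEStronglyMeasurable (fun u : ι → ℝ => Real.exp |∑ i, u i * c i|) (gam ι s) := by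
    apply Continuous.aestronglyMeasurable
    fun_prop
  have hint : Integrable (fun u : ι → ℝ => Real.exp |∑ i, u i * c i|) (gam ι s) := by
    refine Integrable.mono' (i1.add i2) hmeas (Filter.Eventually.of_forall fun u => ?_)
    rw [Real.norm_of_nonneg (Real.exp_pos _).le]
    exact hle _
  refine ⟨hint, ?_⟩
  have h1 : ∫ u, Real.exp |∑ i, u i * c i| ∂(gam ι s) ≤
      ∫ u, (Real.exp (∑ i, u i * c i) + Real.exp (-∑ i, u i * c i)) ∂(gam ι s) :=
    integral_mono hint (i1.add i2) (fun u => hle _)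
  rw [integral_add i1 i2, e1, e2] at h1
  have hsq : ∑ i, (-c i) ^ 2 = ∑ i, c i ^ 2 := Finset.sum_congr rfl fun i _ => by ring
  rw [hsq] at h1
  linarith

theorem tail_int {X ι : Type} [Fintype X] [Nonempty X] [Fintype ι] [DecidableEq ι] (b : ι → X → ℝ)
    (h2 : ∀ x, ∑ i, b i x ^ 2 = Fintype.card ι) (s Λ : ℝ)
    (hΛ : Λ = 2 * (s^2 * Fintype.card ι + Real.log (2 * Fintype.card X) + 1)) :
    Integrable (fun u => Λ * ∑ x, Real.exp (s^2 * Fintype.card ι / 2 + |∑ i, u i * b i x| - Λ)) (gam ι s) ∧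
    ∫ u, Λ * ∑ x, Real.exp (s^2 * Fintype.card ι / 2 + |∑ i, u i * b i x| - Λ) ∂(gam ι s) ≤ 1 := by
  set N : ℝ := (Fintype.card ι : ℝ) with hN
  have hN0 : 0 ≤ N := by positivity
  have hX : (1:ℝ) ≤ (Fintype.card X : ℝ) := by
    exact_mod_cast Fintype.card_pos
  have hlog : 0 ≤ Real.log (2 * Fintype.card X) := Real.log_nonneg (by linarith)
  have hs0 : 0 ≤ s^2 * N := by positivity
  have hΛ0 : 0 ≤ Λ := by rw [hΛ]; linarith
  have hsplit : ∀ (u : ι → ℝ) (x : X), Real.exp (s^2 * N / 2 + |∑ i, u i * b i x| - Λ) =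
      Real.exp (s^2 * N / 2 - Λ) * Real.exp |∑ i, u i * b i x| := by
    intro u x
    rw [← Real.exp_add]
    congr 1
    ring
  simp only [hsplit]
  have hi : ∀ x : X, Integrable (fun u : ι → ℝ => Real.exp (s^2 * N / 2 - Λ) *
      Real.exp |∑ i, u i * b i x|) (gam ι s) := fun x =>
    (abs_piece s (fun i => b i x)).1.const_mul _
  refine ⟨(integrable_finset_sum _ fun x _ => hi x).const_mul _, ?_⟩
  rw [integral_const_mul, integral_finset_sum _ (fun x _ => hi x)]
  have hx : ∀ x : X, ∫ u, Real.exp (s^2 * N / 2 - Λ) * Real.exp |∑ i, u i * b i x| ∂(gam ι s) ≤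
      Real.exp (s^2 * N / 2 - Λ) * (2 * Real.exp (s^2 * N / 2)) := by
    intro x
    rw [integral_const_mul]
    have := (abs_piece s (fun i => b i x)).2
    rw [h2 x] at this
    exact mul_le_mul_of_nonneg_left this (Real.exp_pos _).le
  have hsum : ∑ x : X, ∫ u, Real.exp (s^2 * N / 2 - Λ) * Real.exp |∑ i, u i * b i x| ∂(gam ι s) ≤
      (Fintype.card X : ℝ) * (Real.exp (s^2 * N / 2 - Λ) * (2 * Real.exp (s^2 * N / 2))) := by
    refine (Finset.sum_le_sum fun x _ => hx x).trans ?_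
    rw [Finset.sum_const, Finset.card_univ, nsmul_eq_mul]
  have hcalc : (Fintype.card X : ℝ) * (Real.exp (s^2 * N / 2 - Λ) * (2 * Real.exp (s^2 * N / 2))) =
      Real.exp (-1 - Λ / 2) := by
    have h2X : (0:ℝ) < 2 * Fintype.card X := by linarith
    have e1 : Real.exp (s^2 * N / 2 - Λ) * Real.exp (s^2 * N / 2) = Real.exp (s^2 * N - Λ) := by
      rw [← Real.exp_add]
      congr 1
      ring
    have e2 : (2 * (Fintype.card X : ℝ)) = Real.exp (Real.log (2 * Fintype.card X)) :=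
      (Real.exp_log h2X).symm
    calc (Fintype.card X : ℝ) * (Real.exp (s^2 * N / 2 - Λ) * (2 * Real.exp (s^2 * N / 2)))
        = (2 * (Fintype.card X : ℝ)) * (Real.exp (s^2 * N / 2 - Λ) * Real.exp (s^2 * N / 2)) := by
          ring
      _ = Real.exp (Real.log (2 * Fintype.card X)) * Real.exp (s^2 * N - Λ) := by
          rw [e1, ← e2]
      _ = Real.exp (-1 - Λ / 2) := by
          rw [← Real.exp_add]
          congr 1
          rw [hΛ]
          ring
  rw [hcalc] at hsum
  have hfin : Λ * Real.exp (-1 - Λ / 2) ≤ 1 := by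
    have e3 : Real.exp (-1 - Λ / 2) = Real.exp (-1) * Real.exp (-(Λ / 2)) := by
      rw [← Real.exp_add]
      congr 1
    have h4 : Λ / 2 * Real.exp (-(Λ / 2)) ≤ 1 := by
      have h5 : Λ / 2 ≤ Real.exp (Λ / 2) := by
        have := Real.add_one_le_exp (Λ / 2)
        linarith
      have h6 := mul_le_mul_of_nonneg_right h5 (Real.exp_pos (-(Λ / 2))).le
      rw [← Real.exp_add, add_neg_cancel, Real.exp_zero] at h6
      exact h6
    have h7 : 2 * Real.exp (-1) ≤ 1 := by
      have h8 : (2:ℝ) ≤ Real.exp 1 := by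
        have := Real.add_one_le_exp (1:ℝ)
        linarith
      have h9 := mul_le_mul_of_nonneg_right h8 (Real.exp_pos (-1)).le
      rw [← Real.exp_add, add_neg_cancel, Real.exp_zero] at h9
      exact h9
    have h10 : 0 ≤ Λ / 2 * Real.exp (-(Λ / 2)) := by positivity
    rw [e3]
    calc Λ * (Real.exp (-1) * Real.exp (-(Λ / 2)))
        = (2 * Real.exp (-1)) * (Λ / 2 * Real.exp (-(Λ / 2))) := by ring
      _ ≤ 1 * 1 := mul_le_mul h7 h4 h10 (by norm_num)
      _ = 1 := by norm_num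
  exact (mul_le_mul_of_nonneg_left hsum hΛ0).trans hfin


end Sol_tail_int

alias tail_int := Sol_tail_int.tail_int

end HypVol
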