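import Pool.Agent.HypVol.Defs
open MeasureTheory Real ProbabilityTheory
open scoped ENNReal BigOperators

namespace HypVol
namespace Sol_vol_range



theorem vr_one (s : ℝ) (hs : 0 < s) (A : Set ℝ) :
    ENNReal.ofReal (Real.sqrt (2 * π * s ^ 2)) * gaussianReal 0 (Real.toNNReal (s ^ 2)) A ≤
      volume A := by
  have hs2 : 0 < s ^ 2 := by positivity
  have hv : Real.toNNReal (s ^ 2) ≠ 0 := by
    rw [Ne, Real.toNNReal_eq_zero, not_le]
    exact hs2
  have hvc : ((Real.toNNReal (s ^ 2) : NNReal) : ℝ) = s ^ 2 := Real.coe_toNNReal _ hs2.le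
  have hpos : 0 < Real.sqrt (2 * π * s ^ 2) := Real.sqrt_pos.2 (by positivity)
  rw [gaussianReal_apply 0 hv]
  have h1 : ∀ x : ℝ, ENNReal.ofReal (Real.sqrt (2 * π * s ^ 2)) *
      gaussianPDF 0 (Real.toNNReal (s ^ 2)) x ≤ 1 := by
    intro x
    unfold gaussianPDF gaussianPDFReal
    rw [hvc, ← ENNReal.ofReal_mul hpos.le, ← mul_assoc, mul_inv_cancel₀ hpos.ne', one_mul,
      ENNReal.ofReal_le_one, Real.exp_le_one_iff]
    have h2 : 0 ≤ (x - 0) ^ 2 / (2 * s ^ 2) := by positivity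
    rw [neg_div]
    linarith
  calc ENNReal.ofReal (Real.sqrt (2 * π * s ^ 2)) *
        ∫⁻ x in A, gaussianPDF 0 (Real.toNNReal (s ^ 2)) x
      = ∫⁻ x in A, ENNReal.ofReal (Real.sqrt (2 * π * s ^ 2)) *
        gaussianPDF 0 (Real.toNNReal (s ^ 2)) x :=
        (lintegral_const_mul _ (measurable_gaussianPDF _ _)).symm
    _ ≤ ∫⁻ _ in A, 1 := lintegral_mono (fun x => h1 x)
    _ = volume A := by rw [lintegral_const, Measure.restrict_apply_univ, one_mul]

theorem vr_gam {ι : Type} [Fintype ι] (s : ℝ) (hs : 0 < s) :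
    (ENNReal.ofReal (Real.sqrt (2 * π * s ^ 2)) ^ Fintype.card ι) • gam ι s ≤
      (volume : Measure (ι → ℝ)) := by
  have hle : ((ENNReal.ofReal (Real.sqrt (2 * π * s ^ 2)) ^ Fintype.card ι) •
      gam ι s).toOuterMeasure ≤
      OuterMeasure.pi (fun _ : ι => (volume : Measure ℝ).toOuterMeasure) := by
    rw [OuterMeasure.le_pi]
    intro A _
    show (ENNReal.ofReal (Real.sqrt (2 * π * s ^ 2)) ^ Fintype.card ι) *
      gam ι s (Set.pi Set.univ A) ≤ ∏ i, volume (A i)
    unfold gam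
    rw [Measure.pi_pi, ← Finset.card_univ, ← Finset.prod_const, ← Finset.prod_mul_distrib]
    exact Finset.prod_le_prod' (fun i _ => vr_one s hs (A i))
  rw [Measure.le_iff]
  intro A hA
  have h1 := hle A
  rw [volume_pi, Measure.pi_def, toMeasure_apply _ _ hA]
  exact h1

theorem vr_jensen {α : Type} [MeasurableSpace α] (μ : Measure α) [IsProbabilityMeasure μ]
    (g : α → ℝ) (hg : Integrable g μ) :
    ENNReal.ofReal (Real.exp (∫ u, g u ∂μ)) ≤ ∫⁻ u, ENNReal.ofReal (Real.exp (g u)) ∂μ := by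
  set m := ∫ u, g u ∂μ with hm
  have hint : Integrable (fun u => Real.exp m * (1 + (g u - m))) μ :=
    ((integrable_const (1 : ℝ)).add (hg.sub (integrable_const m))).const_mul _
  have h1 : ∫ u, Real.exp m * (1 + (g u - m)) ∂μ = Real.exp m := by
    have h2 : ∫ u, (1 + (g u - m)) ∂μ = ∫ _, (1 : ℝ) ∂μ + ∫ u, (g u - m) ∂μ :=
      integral_add (integrable_const _) (hg.sub (integrable_const m))
    have h3 : ∫ u, (g u - m) ∂μ = ∫ u, g u ∂μ - ∫ _, m ∂μ :=
      integral_sub hg (integrable_const m)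
    rw [integral_const_mul, h2, h3, integral_const, integral_const, ← hm]
    simp
  have h2 : ENNReal.ofReal (∫ u, Real.exp m * (1 + (g u - m)) ∂μ) ≤
      ∫⁻ u, ENNReal.ofReal (Real.exp m * (1 + (g u - m))) ∂μ := by
    rw [integral_eq_lintegral_pos_part_sub_lintegral_neg_part hint]
    refine (ENNReal.ofReal_le_ofReal (sub_le_self _ ENNReal.toReal_nonneg)).trans ?_
    exact ENNReal.ofReal_toReal_le
  rw [h1] at h2
  refine h2.trans (lintegral_mono (fun u => ENNReal.ofReal_le_ofReal ?_))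
  have h3 : Real.exp (g u) = Real.exp m * Real.exp (g u - m) := by
    rw [← Real.exp_add]
    congr 1
    ring
  rw [h3]
  refine mul_le_mul_of_nonneg_left ?_ (Real.exp_pos _).le
  have := Real.add_one_le_exp (g u - m)
  linarith

theorem vol_range {ι : Type} [Fintype ι] [DecidableEq ι] (F : (ι → ℝ) → (ι → ℝ)) (hF : ContDiff ℝ 1 F)
    (inj : Function.Injective F) (hdet : ∀ u, 0 < (fderiv ℝ F u).det) (s : ℝ) (hs : 0 < s)
    (g : (ι → ℝ) → ℝ) (hg : Integrable g (gam ι s)) (hle : ∀ u, g u ≤ Real.log ((fderiv ℝ F u).det)) :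
    ENNReal.ofReal (Real.exp ((Fintype.card ι : ℝ) / 2 * Real.log (2 * π * s^2) + ∫ u, g u ∂(gam ι s)))
      ≤ volume (Set.range F) := by
  have hpos : 0 < 2 * π * s ^ 2 := by positivity
  have hprob : IsProbabilityMeasure (gam ι s) := by
    unfold gam
    infer_instance
  have hvol : ∫⁻ u, ENNReal.ofReal ((fderiv ℝ F u).det) = volume (Set.range F) := by
    have h1 := lintegral_abs_det_fderiv_eq_addHaar_image (volume : Measure (ι → ℝ))
      (s := Set.univ) (f := F) (f' := fun u => fderiv ℝ F u) MeasurableSet.univ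
      (fun x _ => ((hF.differentiable (by simp)) x).hasFDerivAt.hasFDerivWithinAt)
      inj.injOn
    rw [Set.image_univ, Measure.restrict_univ] at h1
    rw [← h1]
    refine lintegral_congr (fun u => ?_)
    rw [abs_of_pos (hdet u)]
  have hc : ENNReal.ofReal (Real.sqrt (2 * π * s ^ 2)) ^ Fintype.card ι =
      ENNReal.ofReal (Real.exp ((Fintype.card ι : ℝ) / 2 * Real.log (2 * π * s ^ 2))) := by
    rw [← ENNReal.ofReal_pow (Real.sqrt_nonneg _)]
    congr 1
    have h1 : Real.sqrt (2 * π * s ^ 2) = Real.exp (1 / 2 * Real.log (2 * π * s ^ 2)) := by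
      rw [Real.sqrt_eq_rpow, Real.rpow_def_of_pos hpos]
      congr 1
      ring
    rw [h1, ← Real.exp_nat_mul]
    congr 1
    ring
  rw [Real.exp_add, ENNReal.ofReal_mul (Real.exp_pos _).le, ← hc, ← hvol]
  calc ENNReal.ofReal (Real.sqrt (2 * π * s ^ 2)) ^ Fintype.card ι *
        ENNReal.ofReal (Real.exp (∫ u, g u ∂(gam ι s)))
      ≤ ENNReal.ofReal (Real.sqrt (2 * π * s ^ 2)) ^ Fintype.card ι *
        ∫⁻ u, ENNReal.ofReal (Real.exp (g u)) ∂(gam ι s) := by
        gcongr
        exact vr_jensen (gam ι s) g hg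
    _ = ∫⁻ u, ENNReal.ofReal (Real.exp (g u))
        ∂((ENNReal.ofReal (Real.sqrt (2 * π * s ^ 2)) ^ Fintype.card ι) • gam ι s) := by
        rw [lintegral_smul_measure, smul_eq_mul]
    _ ≤ ∫⁻ u, ENNReal.ofReal ((fderiv ℝ F u).det) := by
        refine lintegral_mono' (vr_gam s hs) (fun u => ENNReal.ofReal_le_ofReal ?_)
        have h1 := Real.exp_le_exp.2 (hle u)
        rwa [Real.exp_log (hdet u)] at h1



end Sol_vol_range

alias vol_range := Sol_vol_range.vol_range

end HypVol
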