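import Pool.Agent.HypVol.Defs
import Pool.Agent.HypVol.L_vol_range
import Pool.Agent.HypVol.L_Fm_contDiff
import Pool.Agent.HypVol.L_Fm_det
import Pool.Agent.HypVol.L_Fm_inj
import Pool.Agent.HypVol.L_logdet_Gp
import Pool.Agent.HypVol.L_gam_prob
import Pool.Agent.HypVol.L_HS_int
import Pool.Agent.HypVol.L_Z_int
import Pool.Agent.HypVol.L_tail_int
open MeasureTheory Real ProbabilityTheory
open scoped ENNReal BigOperators

namespace HypVol
namespace Sol_gibbs_volume












theorem h396_comb {Ω : Type} [MeasurableSpace Ω] (μ : Measure Ω) [IsProbabilityMeasure μ]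
    (Z S T : Ω → ℝ) (hZ : Integrable Z μ) (hS : Integrable S μ) (hT : Integrable T μ)
    (n c d e : ℝ) :
    Integrable (fun u => n * (c - Z u) - d - e * S u - n * T u) μ ∧
    ∫ u, (n * (c - Z u) - d - e * S u - n * T u) ∂μ =
      n * (c - ∫ u, Z u ∂μ) - d - e * ∫ u, S u ∂μ - n * ∫ u, T u ∂μ := by
  have hA : Integrable (fun u => n * (c - Z u)) μ := ((integrable_const c).sub hZ).const_mul n
  have hAB : Integrable (fun u => n * (c - Z u) - d) μ := hA.sub (integrable_const d)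
  have hABC : Integrable (fun u => n * (c - Z u) - d - e * S u) μ := hAB.sub (hS.const_mul e)
  refine ⟨hABC.sub (hT.const_mul n), ?_⟩
  rw [integral_sub hABC (hT.const_mul n), integral_sub hAB (hS.const_mul e),
    integral_sub hA (integrable_const d), integral_const_mul, integral_const_mul,
    integral_const_mul, integral_sub (integrable_const c) hZ, integral_const, integral_const]
  simp

theorem gibbs_volume {X ι : Type} [Fintype X] [Nonempty X] [Fintype ι] [DecidableEq ι] (b : ι → X → ℝ)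
    (h0 : ∀ i, ∑ x, b i x = 0)
    (h1 : ∀ i j, ∑ x, b i x * b j x = if i = j then (Fintype.card X : ℝ) else 0)
    (h2 : ∀ x, ∑ i, b i x ^ 2 = Fintype.card ι) (s : ℝ) (hs : 0 < s) (H : ℝ)
    (hH : (∑ x, ∑ y, (1 + ∑ i, b i x * b i y)^2 * (Real.exp (s^2 * ∑ i, b i x * b i y) - 1))
        / (Fintype.card X : ℝ)^2 ≤ H) :
    ENNReal.ofReal (Real.exp ((Fintype.card ι : ℝ) / 2 * Real.log (2 * π * s^2)
      - ((Fintype.card ι : ℝ) + 1) * (1 + Real.log 2)
      - 8 * (s^2 * Fintype.card ι + Real.log (2 * Fintype.card X) + 1) * H))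
    ≤ volume {y : ι → ℝ | ∃ w : X → ℝ, (∀ x, 0 ≤ w x) ∧ ∑ x, w x = 1 ∧ ∀ i, y i = ∑ x, w x * b i x} := by
  haveI := gam_prob ι s
  obtain ⟨Λ, hΛ⟩ : ∃ Λ : ℝ, Λ = 2 * (s^2 * Fintype.card ι + Real.log (2 * Fintype.card X) + 1) :=
    ⟨_, rfl⟩
  have hcX : (1 : ℝ) ≤ Fintype.card X := by exact_mod_cast Fintype.card_pos
  have hlog : 0 ≤ Real.log (2 * Fintype.card X) := Real.log_nonneg (by linarith)
  have hN : (0 : ℝ) ≤ Fintype.card ι := Nat.cast_nonneg _
  have hsN : 0 ≤ s^2 * Fintype.card ι := by positivity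
  have hΛ1 : 1 ≤ Λ := by rw [hΛ]; linarith
  obtain ⟨hSi, hSe⟩ := HS_int b h0 h1 h2 s
  obtain ⟨hZi, hZe⟩ := Z_int b h2 s
  obtain ⟨hTi, hTe⟩ := tail_int b h2 s Λ hΛ
  rw [← hSe] at hH
  have hZpos : ∀ u, 0 < Zf b u := by
    intro u
    unfold Zf
    exact Finset.sum_pos (fun x _ => Real.exp_pos _) Finset.univ_nonempty
  obtain ⟨hG1, hG2⟩ := h396_comb (gam ι s) (fun u => Real.log (Zf b u / Fintype.card X)) (HS b s)
    (fun u => Λ * ∑ x, Real.exp (s^2 * Fintype.card ι / 2 + |∑ i, u i * b i x| - Λ)) hZi hSi hTi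
    ((Fintype.card ι : ℝ) + 1) (s^2 * Fintype.card ι / 2) (((Fintype.card ι : ℝ) + 1) * Real.log 2)
    (4 * Λ)
  have hvol := vol_range (Fm b) (Fm_contDiff b) (Fm_inj b h0 h1)
    (fun u => by rw [Fm_det]; exact (logdet_Gp b h0 h1 s u Λ hΛ1).1) s hs
    (fun u => ((Fintype.card ι : ℝ) + 1) *
      (s^2 * Fintype.card ι / 2 - Real.log (Zf b u / Fintype.card X))
      - ((Fintype.card ι : ℝ) + 1) * Real.log 2 - 4 * Λ * HS b s u
      - ((Fintype.card ι : ℝ) + 1) * (Λ * ∑ x, Real.exp (s^2 * Fintype.card ι / 2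
          + |∑ i, u i * b i x| - Λ)))
    hG1
    (fun u => by rw [Fm_det]; exact (logdet_Gp b h0 h1 s u Λ hΛ1).2)
  rw [hG2] at hvol
  refine le_trans (ENNReal.ofReal_le_ofReal (Real.exp_le_exp.2 ?_)) (hvol.trans (measure_mono ?_))
  · have k1 : 0 ≤ ((Fintype.card ι : ℝ) + 1) * (s^2 * Fintype.card ι / 2 -
        ∫ u, Real.log (Zf b u / Fintype.card X) ∂(gam ι s)) := by
      apply mul_nonneg (by linarith)
      linarith
    have k2 : 4 * Λ * ∫ u, HS b s u ∂(gam ι s) ≤ 4 * Λ * H :=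
      mul_le_mul_of_nonneg_left hH (by linarith)
    have k3 : ((Fintype.card ι : ℝ) + 1) * ∫ u, (Λ * ∑ x, Real.exp (s^2 * Fintype.card ι / 2
          + |∑ i, u i * b i x| - Λ)) ∂(gam ι s) ≤ ((Fintype.card ι : ℝ) + 1) * 1 :=
      mul_le_mul_of_nonneg_left hTe (by linarith)
    have k4 : 4 * Λ * H = 8 * (s^2 * Fintype.card ι + Real.log (2 * Fintype.card X) + 1) * H := by
      rw [hΛ]; ring
    rw [← k4]
    have k5 : ((Fintype.card ι : ℝ) + 1) * (1 + Real.log 2) =
      ((Fintype.card ι : ℝ) + 1) * 1 + ((Fintype.card ι : ℝ) + 1) * Real.log 2 := by ring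
    rw [k5]
    linarith
  · rintro y ⟨u, rfl⟩
    refine ⟨fun x => ex b u x / Zf b u, fun x => ?_, ?_, fun i => ?_⟩
    · exact div_nonneg (Real.exp_pos _).le (hZpos u).le
    · rw [← Finset.sum_div]
      exact div_self (hZpos u).ne'
    · unfold Fm
      rw [Finset.sum_div]
      apply Finset.sum_congr rfl
      intro x _
      ring


end Sol_gibbs_volume

alias gibbs_volume := Sol_gibbs_volume.gibbs_volume

end HypVol
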