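import Pool.Agent.HypVol.Defs
import Pool.Agent.HypVol.L_mem_layer
import Pool.Agent.HypVol.L_TP_prob
import Pool.Agent.HypVol.L_fc_poly
open MeasureTheory Real ProbabilityTheory
open scoped ENNReal BigOperators

namespace HypVol
namespace Sol_perp_conv






noncomputable def tau : Measure ℝ := ENNReal.ofReal (2 * π)⁻¹ • volume.restrict (Set.Ico 0 (2 * π))

instance tau_fin : IsFiniteMeasure tau := by
  unfold tau
  have : IsFiniteMeasure (volume.restrict (Set.Ico 0 (2 * π))) := ⟨by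
    rw [Measure.restrict_apply_univ, Real.volume_Ico]; exact ENNReal.ofReal_lt_top⟩
  exact Measure.smul_finite _ ENNReal.ofReal_ne_top

/-- one dimensional cell -/
noncomputable def cl (n a : ℕ) : Set ℝ := Set.Ico (2 * π * a / 2 ^ (n + 2)) (2 * π * (a + 1) / 2 ^ (n + 2))

theorem cl_sub (n a : ℕ) (ha : a < 2 ^ (n + 2)) : cl n a ⊆ Set.Ico 0 (2 * π) := by
  intro t ht
  obtain ⟨h1, h2⟩ := ht
  have hQ : (0 : ℝ) < 2 ^ (n + 2) := by positivity
  have ha' : ((a : ℝ) + 1) ≤ 2 ^ (n + 2) := by exact_mod_cast ha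
  refine ⟨le_trans (by positivity) h1, lt_of_lt_of_le h2 ?_⟩
  rw [div_le_iff₀ hQ]
  exact mul_le_mul_of_nonneg_left ha' (by positivity)

theorem int_tau {E : Type} [NormedAddCommGroup E] [NormedSpace ℝ E] (n a : ℕ) (ha : a < 2 ^ (n + 2)) (f : ℝ → E) :
    ∫ t, (cl n a).indicator f t ∂tau = (2 * π)⁻¹ • ∫ t in (2 * π * a / 2 ^ (n + 2))..(2 * π * (a + 1) / 2 ^ (n + 2)), f t := by
  have hm : MeasurableSet (cl n a) := measurableSet_Ico
  have hQ : (0 : ℝ) < 2 ^ (n + 2) := by positivity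
  have hle : (2 * π * a / 2 ^ (n + 2)) ≤ (2 * π * (a + 1) / 2 ^ (n + 2)) := by
    apply div_le_div_of_nonneg_right _ hQ.le
    apply mul_le_mul_of_nonneg_left _ (by positivity)
    linarith
  unfold tau
  rw [integral_smul_measure, ENNReal.toReal_ofReal (by positivity), integral_indicator hm,
    Measure.restrict_restrict hm, Set.inter_eq_left.mpr (cl_sub n a ha),
    intervalIntegral.integral_of_le hle, ← integral_Ico_eq_integral_Ioc]
  rfl

/-- average of `exp(-ikt)` over the first cell -/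
noncomputable def mu (n : ℕ) (k : ℤ) : ℂ :=
  (2 ^ (n + 2) / (2 * π) : ℝ) • ∫ t in (0:ℝ)..(2 * π / 2 ^ (n + 2)), Complex.exp (-(Complex.I * ((k * t : ℝ) : ℂ)))

theorem int_cell (n a : ℕ) (ha : a < 2 ^ (n + 2)) (k : ℤ) :
    ∫ t, (cl n a).indicator (fun t => Complex.exp (-(Complex.I * ((k * t : ℝ) : ℂ)))) t ∂tau =
      Complex.exp (-(Complex.I * ((k * (2 * π * a / 2 ^ (n + 2)) : ℝ) : ℂ))) * mu n k * (2 ^ (n + 2) : ℝ)⁻¹ := by
  rw [int_tau n a ha]
  have e1 : (2 * π * (a : ℝ) / 2 ^ (n + 2)) = 0 + 2 * π * a / 2 ^ (n + 2) := by ring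
  have e2 : (2 * π * ((a : ℝ) + 1) / 2 ^ (n + 2)) = 2 * π / 2 ^ (n + 2) + 2 * π * a / 2 ^ (n + 2) := by ring
  have e3 : ∫ t in (2 * π * (a : ℝ) / 2 ^ (n + 2))..(2 * π * ((a : ℝ) + 1) / 2 ^ (n + 2)),
      Complex.exp (-(Complex.I * ((k * t : ℝ) : ℂ))) =
      Complex.exp (-(Complex.I * ((k * (2 * π * a / 2 ^ (n + 2)) : ℝ) : ℂ))) *
      ∫ t in (0:ℝ)..(2 * π / 2 ^ (n + 2)), Complex.exp (-(Complex.I * ((k * t : ℝ) : ℂ))) := by
    rw [e2]
    nth_rewrite 1 [e1]
    rw [← intervalIntegral.integral_comp_add_right (fun t => Complex.exp (-(Complex.I * ((k * t : ℝ) : ℂ)))) (2 * π * a / 2 ^ (n + 2)),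
      ← intervalIntegral.integral_const_mul]
    congr 1
    ext t
    rw [← Complex.exp_add]
    congr 1
    push_cast
    ring
  rw [e3, mu]
  have hπ : (π : ℂ) ≠ 0 := by exact_mod_cast Real.pi_ne_zero
  have h2 : (2 : ℂ) ^ (n + 2) ≠ 0 := pow_ne_zero _ two_ne_zero
  simp only [Complex.real_smul]
  push_cast
  field_simp

theorem int_one (n a : ℕ) (ha : a < 2 ^ (n + 2)) :
    ∫ t, (cl n a).indicator (fun _ => (1 : ℝ)) t ∂tau = (2 ^ (n + 2) : ℝ)⁻¹ := by
  rw [int_tau n a ha, intervalIntegral.integral_const]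
  have hπ := Real.pi_ne_zero
  simp only [smul_eq_mul]
  field_simp
  ring

theorem mu_lower (n : ℕ) (k : ℤ) (hk : |k| < 2 ^ n) : 1 / 2 ≤ ‖mu n k‖ := by
  set Q : ℝ := 2 ^ (n + 2) with hQ
  have hQpos : 0 < Q := by rw [hQ]; positivity
  have hkR : |(k : ℝ)| * 4 ≤ Q := by
    have h1 : ((|k| : ℤ) : ℝ) < ((2 ^ n : ℤ) : ℝ) := by exact_mod_cast hk
    rw [Int.cast_abs] at h1
    push_cast at h1
    rw [hQ, pow_add]; linarith
  set α : ℝ := k * π / Q with hα
  have h0 : ‖mu n k‖ = ‖Complex.exp (Complex.I * (α : ℂ)) * mu n k‖ := by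
    rw [norm_mul]
    have : ‖Complex.exp (Complex.I * (α : ℂ))‖ = 1 := by
      rw [mul_comm]; exact Complex.norm_exp_ofReal_mul_I α
    rw [this, one_mul]
  rw [h0]
  refine le_trans ?_ (Complex.re_le_norm _)
  have h1 : Complex.exp (Complex.I * (α : ℂ)) * mu n k =
      (Q / (2 * π) : ℝ) • ∫ t in (0:ℝ)..(2 * π / Q), Complex.exp (Complex.I * ((α - k * t : ℝ) : ℂ)) := by
    rw [mu, mul_smul_comm, ← intervalIntegral.integral_const_mul]
    congr 2
    ext t
    rw [← Complex.exp_add]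
    congr 1
    push_cast
    ring
  rw [h1, Complex.smul_re]
  have hcont : Continuous (fun t : ℝ => Complex.exp (Complex.I * ((α - k * t : ℝ) : ℂ))) := by fun_prop
  have h2 : (∫ t in (0:ℝ)..(2 * π / Q), Complex.exp (Complex.I * ((α - k * t : ℝ) : ℂ))).re =
      ∫ t in (0:ℝ)..(2 * π / Q), Real.cos (α - k * t) := by
    have h3 := (Complex.reCLM.intervalIntegral_comp_comm (hcont.intervalIntegrable (μ := volume) 0 (2 * π / Q)))
    rw [Complex.reCLM_apply] at h3
    rw [← h3]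
    congr 1
    ext t
    rw [Complex.reCLM_apply, mul_comm, Complex.exp_ofReal_mul_I_re]
  rw [h2]
  have hlen : 0 ≤ 2 * π / Q := by positivity
  have h4 : ∫ t in (0:ℝ)..(2 * π / Q), (1 / 2 : ℝ) ≤ ∫ t in (0:ℝ)..(2 * π / Q), Real.cos (α - k * t) := by
    apply intervalIntegral.integral_mono_on hlen
    · exact intervalIntegrable_const
    · exact (by fun_prop : Continuous (fun t : ℝ => Real.cos (α - k * t))).intervalIntegrable _ _
    · intro t ht
      have habs : |α - k * t| ≤ π / 3 := by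
        have e : α - k * t = k * (π / Q - t) := by rw [hα]; ring
        rw [e, abs_mul]
        have h5 : |π / Q - t| ≤ π / Q := by
          rw [abs_le]
          have : 2 * π / Q = π / Q + π / Q := by ring
          constructor <;> linarith [ht.1, ht.2]
        calc |(k : ℝ)| * |π / Q - t| ≤ |(k : ℝ)| * (π / Q) := mul_le_mul_of_nonneg_left h5 (abs_nonneg _)
          _ = (|(k : ℝ)| * 4) * π / (4 * Q) := by field_simp
          _ ≤ Q * π / (4 * Q) := by gcongr
          _ = π / 4 := by field_simp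
          _ ≤ π / 3 := by linarith [Real.pi_pos]
      rw [← Real.cos_pi_div_three, ← Real.cos_abs (α - k * t)]
      apply Real.cos_le_cos_of_nonneg_of_le_pi (abs_nonneg _) _ habs
      linarith [Real.pi_pos]
  rw [intervalIntegral.integral_const] at h4
  calc (1 / 2 : ℝ) = (Q / (2 * π)) • ((2 * π / Q - 0) • (1 / 2 : ℝ)) := by
        simp only [smul_eq_mul]; field_simp; ring
    _ ≤ _ := by
        simp only [smul_eq_mul] at h4 ⊢
        exact mul_le_mul_of_nonneg_left h4 (by positivity)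


theorem TP_eq (d : ℕ) : TP d = Measure.pi (fun _ : Fin d => tau) := rfl

/-- complex weight of a grid point -/
noncomputable def cw {d n : ℕ} (w : Gr d n → ℝ) (x : Fin d → Fin (2^(n+2))) : ℂ :=
  (w (x, 0) : ℂ) + (w (x, 1) : ℂ) * Complex.I

noncomputable def cellC {d n : ℕ} (x : Fin d → Fin (2^(n+2))) (t : Fin d → ℝ) : ℂ :=
  ∏ j, (cl n (x j)).indicator (fun _ => (1 : ℂ)) (t j)

noncomputable def cellR {d n : ℕ} (x : Fin d → Fin (2^(n+2))) (t : Fin d → ℝ) : ℝ :=
  ∏ j, (cl n (x j)).indicator (fun _ => (1 : ℝ)) (t j)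

theorem norm_cellC {d n : ℕ} (x : Fin d → Fin (2^(n+2))) (t : Fin d → ℝ) : ‖cellC x t‖ = cellR x t := by
  unfold cellC cellR
  rw [norm_prod]
  apply Finset.prod_congr rfl
  intro j _
  by_cases h : t j ∈ cl n (x j)
  · rw [Set.indicator_of_mem h, Set.indicator_of_mem h]; simp
  · rw [Set.indicator_of_notMem h, Set.indicator_of_notMem h]; simp

theorem int_cellR {d n : ℕ} (x : Fin d → Fin (2^(n+2))) :
    Integrable (cellR x) (TP d) ∧ ∫ t, cellR x t ∂(TP d) = ((2 ^ (n + 2) : ℝ)⁻¹) ^ d := by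
  rw [TP_eq]
  have h1 : ∀ j, Integrable ((cl n (x j)).indicator (fun _ => (1 : ℝ))) tau := fun j =>
    (integrable_const (1 : ℝ)).indicator measurableSet_Ico
  constructor
  · exact Integrable.fintype_prod h1
  · unfold cellR
    rw [integral_fintype_prod_eq_prod (𝕜 := ℝ) (fun j => (cl n (x j)).indicator (fun _ => (1 : ℝ)))]
    rw [Finset.prod_congr rfl (fun j _ => int_one n (x j) (x j).2), Finset.prod_const, Finset.card_univ,
      Fintype.card_fin]

theorem int_cellC {d n : ℕ} (x : Fin d → Fin (2^(n+2))) (k : Fin d → ℤ) :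
    Integrable (fun t => cellC x t * Complex.exp (-(Complex.I * ((∑ j, (k j : ℝ) * t j : ℝ) : ℂ)))) (TP d) ∧
    ∫ t, cellC x t * Complex.exp (-(Complex.I * ((∑ j, (k j : ℝ) * t j : ℝ) : ℂ))) ∂(TP d) =
      (∏ j, mu n (k j)) * Complex.exp (-(Complex.I * ((th (n := n) k x : ℝ) : ℂ))) * (((2 ^ (n + 2) : ℝ)⁻¹) ^ d : ℝ) := by
  have h0 : (fun t : Fin d → ℝ => cellC x t * Complex.exp (-(Complex.I * ((∑ j, (k j : ℝ) * t j : ℝ) : ℂ)))) =
      fun t => ∏ j, (cl n (x j)).indicator (fun s => Complex.exp (-(Complex.I * ((k j * s : ℝ) : ℂ)))) (t j) := by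
    ext t
    have h1 : Complex.exp (-(Complex.I * ((∑ j, (k j : ℝ) * t j : ℝ) : ℂ))) =
        ∏ j, Complex.exp (-(Complex.I * ((k j * t j : ℝ) : ℂ))) := by
      rw [← Complex.exp_sum]
      congr 1
      rw [Finset.sum_neg_distrib, ← Finset.mul_sum]
      push_cast
      rfl
    rw [h1, cellC, ← Finset.prod_mul_distrib]
    apply Finset.prod_congr rfl
    intro j _
    by_cases h : t j ∈ cl n (x j)
    · rw [Set.indicator_of_mem h, Set.indicator_of_mem h, one_mul]
    · rw [Set.indicator_of_notMem h, Set.indicator_of_notMem h, zero_mul]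
  rw [h0, TP_eq]
  constructor
  · apply Integrable.fintype_prod
    intro j
    apply Integrable.indicator _ measurableSet_Ico
    apply Integrable.of_bound (C := 1)
    · exact (by fun_prop : Continuous (fun s : ℝ => Complex.exp (-(Complex.I * ((k j * s : ℝ) : ℂ))))).aestronglyMeasurable
    · refine Filter.Eventually.of_forall (fun s => ?_)
      have : -(Complex.I * ((k j * s : ℝ) : ℂ)) = ((-(k j * s) : ℝ) : ℂ) * Complex.I := by push_cast; ring
      rw [this, Complex.norm_exp_ofReal_mul_I]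
  · rw [integral_fintype_prod_eq_prod (𝕜 := ℂ)
      (fun j => (cl n (x j)).indicator (fun s => Complex.exp (-(Complex.I * ((k j * s : ℝ) : ℂ)))))]
    rw [Finset.prod_congr rfl (fun j _ => int_cell n (x j) (x j).2 (k j))]
    rw [Finset.prod_mul_distrib, Finset.prod_mul_distrib, ← Complex.exp_sum, Finset.prod_const, Finset.card_univ,
      Fintype.card_fin]
    have h2 : ∑ j, -(Complex.I * (((k j : ℝ) * (2 * π * ((x j : ℕ) : ℝ) / 2 ^ (n + 2)) : ℝ) : ℂ)) =
        -(Complex.I * ((th (n := n) k x : ℝ) : ℂ)) := by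
      rw [Finset.sum_neg_distrib, ← Finset.mul_sum, ← Complex.ofReal_sum]
      congr 3
      unfold th
      rw [Finset.mul_sum, Finset.sum_div]
      apply Finset.sum_congr rfl
      intro j _
      ring
    rw [h2]
    push_cast
    ring

theorem prod_mu_lower {d n : ℕ} (k : Fin d → ℤ) (hk : ∀ j, |k j| < 2 ^ n) :
    (1 / 2 : ℝ) ^ d ≤ ‖∏ j, mu n (k j)‖ := by
  rw [norm_prod]
  calc (1 / 2 : ℝ) ^ d = ∏ _j : Fin d, (1 / 2 : ℝ) := by simp
    _ ≤ _ := Finset.prod_le_prod (fun _ _ => by norm_num) (fun j _ => mu_lower n (k j) (hk j))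

theorem layer_abs {d n : ℕ} (k : layer d n) (j : Fin d) : |k.1 j| < 2 ^ n := by
  classical
  have h := k.2
  unfold layer at h
  have h1 := Fintype.mem_piFinset.mp (Finset.mem_of_mem_filter _ h)
  have := Finset.mem_Ioo.mp (h1 j)
  rw [abs_lt]; exact this

/-- the step function -/
noncomputable def hst {d n : ℕ} (w : Gr d n → ℝ) (t : Fin d → ℝ) : ℂ :=
  ∑ x, cw w x * ((2 ^ (n + 2) : ℝ) ^ d : ℝ) * cellC x t

theorem cellC_int {d n : ℕ} (x : Fin d → Fin (2^(n+2))) : Integrable (cellC x) (TP d) := by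
  have := (int_cellC x (fun _ => 0)).1
  simpa using this

theorem hst_int {d n : ℕ} (w : Gr d n → ℝ) : Integrable (hst w) (TP d) := by
  unfold hst
  apply integrable_finsetSum
  intro x _
  exact (cellC_int x).const_mul _

theorem hst_fc {d n : ℕ} (w : Gr d n → ℝ) (k : Fin d → ℤ) :
    Integrable (fun t => hst w t * Complex.exp (-(Complex.I * ((∑ j, (k j : ℝ) * t j : ℝ) : ℂ)))) (TP d) ∧
    fc (hst w) k = (∏ j, mu n (k j)) * ∑ x, cw w x * Complex.exp (-(Complex.I * ((th (n := n) k x : ℝ) : ℂ))) := by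
  have e : (fun t => hst w t * Complex.exp (-(Complex.I * ((∑ j, (k j : ℝ) * t j : ℝ) : ℂ)))) =
      fun t => ∑ x, (cw w x * ((2 ^ (n + 2) : ℝ) ^ d : ℝ)) * (cellC x t *
        Complex.exp (-(Complex.I * ((∑ j, (k j : ℝ) * t j : ℝ) : ℂ)))) := by
    ext t
    rw [hst, Finset.sum_mul]
    apply Finset.sum_congr rfl
    intro x _
    ring
  have hint : ∀ x ∈ (Finset.univ : Finset (Fin d → Fin (2^(n+2)))), Integrable (fun t =>
      (cw w x * ((2 ^ (n + 2) : ℝ) ^ d : ℝ)) * (cellC x t *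
        Complex.exp (-(Complex.I * ((∑ j, (k j : ℝ) * t j : ℝ) : ℂ))))) (TP d) := fun x _ =>
    (int_cellC x k).1.const_mul _
  constructor
  · rw [e]
    exact integrable_finsetSum _ hint
  · unfold fc
    rw [e, integral_finsetSum _ hint, Finset.mul_sum]
    apply Finset.sum_congr rfl
    intro x _
    rw [integral_const_mul, (int_cellC x k).2]
    have h2 : ((2 : ℂ) ^ (n + 2)) ^ d ≠ 0 := pow_ne_zero _ (pow_ne_zero _ two_ne_zero)
    push_cast
    rw [inv_pow]
    field_simp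

theorem hst_norm {d n : ℕ} (w : Gr d n → ℝ) (hw : ∀ x, 0 ≤ w x) (hs : ∑ x, w x = 1) :
    ∫ t, ‖hst w t‖ ∂(TP d) ≤ 1 := by
  have h1 : ∀ t, ‖hst w t‖ ≤ ∑ x, (‖cw w x‖ * (2 ^ (n + 2) : ℝ) ^ d) * cellR x t := by
    intro t
    unfold hst
    refine (norm_sum_le _ _).trans (le_of_eq ?_)
    apply Finset.sum_congr rfl
    intro x _
    rw [norm_mul, norm_mul, norm_cellC, Complex.norm_real, Real.norm_eq_abs, abs_of_pos (by positivity)]
  have hint : ∀ x ∈ (Finset.univ : Finset (Fin d → Fin (2^(n+2)))), Integrable (fun t =>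
      (‖cw w x‖ * (2 ^ (n + 2) : ℝ) ^ d) * cellR x t) (TP d) := fun x _ =>
    (int_cellR x).1.const_mul _
  calc ∫ t, ‖hst w t‖ ∂(TP d) ≤ ∫ t, ∑ x, (‖cw w x‖ * (2 ^ (n + 2) : ℝ) ^ d) * cellR x t ∂(TP d) :=
        integral_mono (hst_int w).norm (integrable_finsetSum _ hint) h1
    _ = ∑ x, ‖cw w x‖ := by
        rw [integral_finsetSum _ hint]
        apply Finset.sum_congr rfl
        intro x _
        rw [integral_const_mul, (int_cellR x).2, inv_pow]
        have : ((2 : ℝ) ^ (n + 2)) ^ d ≠ 0 := by positivity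
        field_simp
    _ ≤ ∑ x, (w (x, 0) + w (x, 1)) := by
        apply Finset.sum_le_sum
        intro x _
        unfold cw
        refine (norm_add_le _ _).trans ?_
        rw [norm_mul, Complex.norm_I, mul_one, Complex.norm_real, Complex.norm_real, Real.norm_eq_abs,
          Real.norm_eq_abs, abs_of_nonneg (hw _), abs_of_nonneg (hw _)]
    _ = 1 := by
        rw [← hs, Fintype.sum_prod_type]
        apply Finset.sum_congr rfl
        intro x _
        rw [Fin.sum_univ_two]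

theorem poly_cont {d n : ℕ} (a : (layer d n) × Fin 2 → ℝ) : Continuous (poly a) := by
  unfold poly
  fun_prop

theorem poly_bound {d n : ℕ} (a : (layer d n) × Fin 2 → ℝ) (x : Fin d → ℝ) :
    ‖poly a x‖ ≤ ∑ k : layer d n, ‖(a (k, 0) : ℂ) + (a (k, 1) : ℂ) * Complex.I‖ := by
  unfold poly
  refine (norm_sum_le _ _).trans (le_of_eq ?_)
  apply Finset.sum_congr rfl
  intro k _
  rw [norm_mul, mul_comm Complex.I, Complex.norm_exp_ofReal_mul_I, mul_one]

/-- the key inclusion -/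
theorem mem_bperp {d n : ℕ} (w : Gr d n → ℝ) (hw : ∀ x, 0 ≤ w x) (hs : ∑ x, w x = 1)
    (a : (layer d n) × Fin 2 → ℝ)
    (ha : ∀ k : layer d n, (a (k, 0) : ℂ) + (a (k, 1) : ℂ) * Complex.I =
      (∏ j, mu n (k.1 j)) * ∑ x, cw w x * Complex.exp (-(Complex.I * ((th (n := n) k.1 x : ℝ) : ℂ)))) :
    a ∈ bperp d n := by
  have := TP_prob d
  show Eperp a ≤ 1
  have hpint : Integrable (poly a) (TP d) :=
    Integrable.of_bound (poly_cont a).aestronglyMeasurable _ (Filter.Eventually.of_forall (poly_bound a))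
  refine le_trans (csInf_le ⟨0, ?_⟩ ⟨fun t => poly a t - hst w t, hpint.sub (hst_int w), ?_, rfl⟩) ?_
  · rintro r ⟨g, _, _, rfl⟩
    exact integral_nonneg (fun _ => norm_nonneg _)
  · intro k hk
    have h1 := fc_poly a ⟨k, hk⟩
    have h2 := (hst_fc w k).2
    have hpi : Integrable (fun t => poly a t * Complex.exp (-(Complex.I * ((∑ j, (k j : ℝ) * t j : ℝ) : ℂ)))) (TP d) := by
      apply Integrable.of_bound (C := ∑ k : layer d n, ‖(a (k, 0) : ℂ) + (a (k, 1) : ℂ) * Complex.I‖)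
      · exact ((poly_cont a).mul (by fun_prop)).aestronglyMeasurable
      · refine Filter.Eventually.of_forall (fun t => ?_)
        rw [norm_mul]
        have : -(Complex.I * ((∑ j, (k j : ℝ) * t j : ℝ) : ℂ)) = ((-(∑ j, (k j : ℝ) * t j) : ℝ) : ℂ) * Complex.I := by
          push_cast; ring
        rw [this, Complex.norm_exp_ofReal_mul_I, mul_one]
        exact poly_bound a t
    have h3 : fc (fun t => poly a t - hst w t) k = fc (poly a) k - fc (hst w) k := by
      unfold fc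
      rw [← integral_sub hpi (hst_fc w k).1]
      congr 1
      ext t
      ring
    rw [h3, h2]
    have h4 : fc (poly a) k = _ := h1
    rw [h4, ha ⟨k, hk⟩, sub_self]
  · have : (fun t => ‖poly a t - (poly a t - hst w t)‖) = fun t => ‖hst w t‖ := by
      ext t; congr 1; ring
    rw [this]
    exact hst_norm w hw hs

/-- the block matrix -/
noncomputable def BM {L : Type} (z : L → ℂ) (k : L) : Matrix (Fin 2) (Fin 2) ℝ :=
  !![(z k).re, -(z k).im; (z k).im, (z k).re]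

noncomputable def MM {L : Type} [DecidableEq L] (z : L → ℂ) : Matrix (L × Fin 2) (L × Fin 2) ℝ :=
  (Matrix.blockDiagonal (BM z)).submatrix (Equiv.prodComm L (Fin 2)) (Equiv.prodComm L (Fin 2))

theorem det_MM {L : Type} [Fintype L] [DecidableEq L] (z : L → ℂ) : (MM z).det = ∏ k, ‖z k‖ ^ 2 := by
  unfold MM
  rw [Matrix.det_submatrix_equiv_self, Matrix.det_blockDiagonal]
  apply Finset.prod_congr rfl
  intro k _
  unfold BM
  rw [Matrix.det_fin_two_of, ← Complex.normSq_eq_norm_sq, Complex.normSq_apply]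
  ring

theorem MM_apply {L : Type} [Fintype L] [DecidableEq L] (z : L → ℂ) (y : L × Fin 2 → ℝ) (k : L) :
    ((Matrix.mulVec (MM z) y (k, 0) : ℝ) : ℂ) + ((Matrix.mulVec (MM z) y (k, 1) : ℝ) : ℂ) * Complex.I =
      z k * ((y (k, 0) : ℂ) + (y (k, 1) : ℂ) * Complex.I) := by
  have h : ∀ i : Fin 2, Matrix.mulVec (MM z) y (k, i) = BM z k i 0 * y (k, 0) + BM z k i 1 * y (k, 1) := by
    intro i
    unfold Matrix.mulVec dotProduct
    rw [Fintype.sum_prod_type]
    rw [Finset.sum_eq_single k]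
    · rw [Fin.sum_univ_two]
      simp [MM, Matrix.submatrix_apply, Matrix.blockDiagonal_apply]
    · intro b _ hb
      apply Finset.sum_eq_zero
      intro i' _
      simp [MM, Matrix.submatrix_apply, Matrix.blockDiagonal_apply, Ne.symm hb]
    · intro h; exact absurd (Finset.mem_univ _) h
  rw [h 0, h 1]
  apply Complex.ext
  · simp [BM]; ring
  · simp [BM]; ring


theorem y_complex {d n : ℕ} (w : Gr d n → ℝ) (y : (layer d n) × Fin 2 → ℝ)
    (hy : ∀ i, y i = ∑ x, w x * tb i x) (k : layer d n) :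
    (y (k, 0) : ℂ) + (y (k, 1) : ℂ) * Complex.I =
      (Real.sqrt 2 : ℂ) * ∑ x, cw w x * Complex.exp (-(Complex.I * ((th (n := n) k.1 x : ℝ) : ℂ))) := by
  have h0 : y (k, 0) = ∑ x : Fin d → Fin (2^(n+2)), Real.sqrt 2 * (w (x, 0) * Real.cos (th k.1 x) + w (x, 1) * Real.sin (th k.1 x)) := by
    rw [hy, Fintype.sum_prod_type]
    apply Finset.sum_congr rfl
    intro x _
    rw [Fin.sum_univ_two]
    simp [tb]
    ring
  have h1 : y (k, 1) = ∑ x : Fin d → Fin (2^(n+2)), Real.sqrt 2 * (- w (x, 0) * Real.sin (th k.1 x) + w (x, 1) * Real.cos (th k.1 x)) := by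
    rw [hy, Fintype.sum_prod_type]
    apply Finset.sum_congr rfl
    intro x _
    rw [Fin.sum_univ_two]
    simp [tb]
    ring
  rw [h0, h1, Finset.mul_sum, Complex.ofReal_sum, Complex.ofReal_sum, Finset.sum_mul, ← Finset.sum_add_distrib]
  apply Finset.sum_congr rfl
  intro x _
  have he : Complex.exp (-(Complex.I * ((th (n := n) k.1 x : ℝ) : ℂ))) =
      (Real.cos (th k.1 x) : ℂ) - (Real.sin (th k.1 x) : ℂ) * Complex.I := by
    have : -(Complex.I * ((th (n := n) k.1 x : ℝ) : ℂ)) = ((-(th k.1 x) : ℝ) : ℂ) * Complex.I := by push_cast; ring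
    rw [this, Complex.exp_mul_I, ← Complex.ofReal_cos, ← Complex.ofReal_sin, Real.cos_neg, Real.sin_neg]
    push_cast; ring
  rw [he, cw]
  push_cast
  linear_combination (Real.sqrt 2 : ℂ) * (w (x, 1) : ℂ) * (Complex.sin ((th (n := n) k.1 x : ℝ) : ℂ)) * (Complex.I_mul_I)

theorem perp_conv (d n : ℕ) (hn : 1 ≤ n) :
    volume {y : (layer d n) × Fin 2 → ℝ | ∃ w : Gr d n → ℝ, (∀ x, 0 ≤ w x) ∧ ∑ x, w x = 1 ∧
      ∀ i, y i = ∑ x, w x * tb i x}
    ≤ ENNReal.ofReal ((2 * 2^d)^(2 * (layer d n).card)) * volume (bperp d n) := by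
  set S : Set ((layer d n) × Fin 2 → ℝ) := {y | ∃ w : Gr d n → ℝ, (∀ x, 0 ≤ w x) ∧ ∑ x, w x = 1 ∧
      ∀ i, y i = ∑ x, w x * tb i x} with hS
  obtain ⟨z, hz⟩ : ∃ z : layer d n → ℂ, z = fun k => (∏ j, mu n (k.1 j)) / (Real.sqrt 2 : ℂ) := ⟨_, rfl⟩
  have hs2 : (Real.sqrt 2 : ℂ) ≠ 0 := by
    have : Real.sqrt 2 ≠ 0 := by positivity
    exact_mod_cast this
  have himg : (Matrix.toLin' (MM z)) '' S ⊆ bperp d n := by
    rintro a ⟨y, ⟨w, hw, hs, hy⟩, rfl⟩
    apply mem_bperp w hw hs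
    intro k
    rw [Matrix.toLin'_apply, MM_apply, y_complex w y hy k, hz]
    field_simp
  have h1 := MeasureTheory.Measure.addHaar_image_linearMap (volume : Measure ((layer d n) × Fin 2 → ℝ))
    (Matrix.toLin' (MM z)) S
  rw [LinearMap.det_toLin', det_MM] at h1
  have h2 : ENNReal.ofReal |∏ k, ‖z k‖ ^ 2| * volume S ≤ volume (bperp d n) := by
    rw [← h1]; exact measure_mono himg
  obtain ⟨C, hC⟩ : ∃ C : ℝ, C = (2 * 2^d)^(2 * (layer d n).card) := ⟨_, rfl⟩
  have hCpos : 0 ≤ C := by rw [hC]; positivity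
  have h3 : 1 ≤ C * |∏ k, ‖z k‖ ^ 2| := by
    rw [abs_of_nonneg (Finset.prod_nonneg (fun _ _ => by positivity)), hC, pow_mul]
    have h4 : (((2 : ℝ) * 2 ^ d) ^ 2) ^ (layer d n).card = ∏ _k : layer d n, ((2 : ℝ) * 2 ^ d) ^ 2 := by
      rw [Finset.prod_const, Finset.card_univ, Fintype.card_coe]
    rw [h4, ← Finset.prod_mul_distrib]
    have h5 : ∀ k ∈ (Finset.univ : Finset (layer d n)), (1 : ℝ) ≤ ((2 : ℝ) * 2 ^ d) ^ 2 * ‖z k‖ ^ 2 := by
      intro k _
      have h6 := prod_mu_lower (n := n) k.1 (layer_abs k)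
      have h7 : ‖z k‖ = ‖∏ j, mu n (k.1 j)‖ / Real.sqrt 2 := by
        rw [hz, norm_div, Complex.norm_real, Real.norm_eq_abs, abs_of_nonneg (Real.sqrt_nonneg _)]
      rw [h7, div_pow, Real.sq_sqrt (by norm_num)]
      have h8 : ((1 / 2 : ℝ) ^ d) ^ 2 ≤ ‖∏ j, mu n (k.1 j)‖ ^ 2 := pow_le_pow_left₀ (by positivity) h6 2
      calc (1 : ℝ) ≤ ((2 : ℝ) * 2 ^ d) ^ 2 * (((1 / 2 : ℝ) ^ d) ^ 2 / 2) := by
            have h9 : (2 : ℝ) ^ d * (1 / 2 : ℝ) ^ d = 1 := by
              rw [← mul_pow]; norm_num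
            have : ((2 : ℝ) * 2 ^ d) ^ 2 * (((1 / 2 : ℝ) ^ d) ^ 2 / 2) = 2 * ((2 : ℝ) ^ d * (1 / 2 : ℝ) ^ d) ^ 2 := by ring
            rw [this, h9]; norm_num
        _ ≤ _ := by gcongr
    calc (1 : ℝ) = ∏ _k : layer d n, (1 : ℝ) := by simp
      _ ≤ _ := Finset.prod_le_prod (fun _ _ => zero_le_one) h5
  calc volume S = 1 * volume S := (one_mul _).symm
    _ ≤ ENNReal.ofReal (C * |∏ k, ‖z k‖ ^ 2|) * volume S := by
        gcongr
        rw [← ENNReal.ofReal_one]
        exact ENNReal.ofReal_le_ofReal h3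
    _ = ENNReal.ofReal C * (ENNReal.ofReal |∏ k, ‖z k‖ ^ 2| * volume S) := by
        rw [ENNReal.ofReal_mul hCpos, mul_assoc]
    _ ≤ ENNReal.ofReal C * volume (bperp d n) := by gcongr
    _ = _ := by rw [hC]


end Sol_perp_conv

alias perp_conv := Sol_perp_conv.perp_conv

end HypVol
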