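import Pool.Agent.HypVol.Defs
open MeasureTheory Real ProbabilityTheory
open scoped ENNReal BigOperators

namespace HypVol
namespace Sol_shp_upper



theorem shp_upper (d : ℕ) (hd : 1 ≤ d) : ∃ C : ℝ, 0 < C ∧ ∀ n : ℕ, 1 ≤ n →
    (shp d n : ℝ) ≤ C * (n:ℝ)^(d-1) := by
  obtain ⟨e, rfl⟩ : ∃ e, d = e + 1 := ⟨d - 1, by omega⟩
  refine ⟨2 ^ e, by positivity, fun n hn => ?_⟩
  have h1 : shp (e + 1) n ≤ (n + 1) ^ e := by
    have h2 : (Sh (e + 1) n).card ≤ (Finset.univ : Finset (Fin e → Fin (n + 1))).card := by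
      refine Finset.card_le_card_of_injOn (fun s => fun j : Fin e => s j.succ)
        (fun _ _ => Finset.mem_coe.2 (Finset.mem_univ _)) ?_
      intro s hs s' hs' hss
      have hs1 : ∑ j, ((s j : Fin (n + 1)) : ℕ) = n := (Finset.mem_filter.1 (Finset.mem_coe.1 hs)).2
      have hs1' : ∑ j, ((s' j : Fin (n + 1)) : ℕ) = n :=
        (Finset.mem_filter.1 (Finset.mem_coe.1 hs')).2
      have htail : ∀ j : Fin e, s j.succ = s' j.succ := fun j => congrFun hss j
      rw [Fin.sum_univ_succ] at hs1 hs1'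
      have h3 : ∑ j : Fin e, ((s j.succ : Fin (n + 1)) : ℕ) =
          ∑ j : Fin e, ((s' j.succ : Fin (n + 1)) : ℕ) :=
        Finset.sum_congr rfl fun j _ => by rw [htail j]
      have h0 : s 0 = s' 0 := Fin.ext (by omega)
      funext j
      refine Fin.cases h0 (fun j => htail j) j
    rw [Finset.card_univ, Fintype.card_fun, Fintype.card_fin, Fintype.card_fin] at h2
    exact h2
  have h2 : ((n : ℝ) + 1) ^ e ≤ (2 * (n : ℝ)) ^ e := by
    have hn' : (1 : ℝ) ≤ n := by exact_mod_cast hn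
    exact pow_le_pow_left₀ (by positivity) (by linarith) e
  have h3 : (shp (e + 1) n : ℝ) ≤ ((n : ℝ) + 1) ^ e := by exact_mod_cast h1
  rw [Nat.add_sub_cancel, ← mul_pow]
  exact h3.trans h2


end Sol_shp_upper

alias shp_upper := Sol_shp_upper.shp_upper

end HypVol
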