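import Pool.Agent.HypVol.Defs
import Pool.Agent.HypVol.L_card_layer
import Pool.Agent.HypVol.L_shp_lower
import Pool.Agent.HypVol.L_shp_upper
import Pool.Agent.HypVol.L_tb_facts
import Pool.Agent.HypVol.L_H_bound
import Pool.Agent.HypVol.L_gibbs_volume
import Pool.Agent.HypVol.L_perp_conv
open MeasureTheory Real ProbabilityTheory
open scoped ENNReal BigOperators

namespace HypVol
namespace Sol_perp_lower










theorem perp_lower_real (d n : ℕ) (hd : 3 ≤ d) (hn : 1 ≤ n) (a C c1 C2 S N X : ℝ) (ha : 0 < a)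
    (hC : 0 < C) (hc1 : 0 < c1) (hC2 : 0 < C2) (hS1 : c1 * (n : ℝ) ^ (d - 1) ≤ S)
    (hS2 : S ≤ C2 * (n : ℝ) ^ (d - 1)) (hN : N = 2 ^ (n + 1) * S) (hN1 : 1 ≤ N)
    (hX : X = (2 ^ (n + 2)) ^ d * 2) :
    N * Real.log ((Real.sqrt (π * a / C2) * Real.exp (-(2 * (1 + Real.log 2) +
      8 * C * (a + 2 * Real.log 2 + 3 * d * Real.log 2 + 1) / (2 * c1)))) *
        (Real.sqrt (2 ^ n * (n : ℝ) ^ (d - 2)))⁻¹) ≤
      N / 2 * Real.log (2 * π * (a * n / N)) - (N + 1) * (1 + Real.log 2) -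
        8 * (a * n / N * N + Real.log (2 * X) + 1) * (C * n * 2 ^ n) := by
  have hn' : (1 : ℝ) ≤ n := by exact_mod_cast hn
  have hn0 : (0 : ℝ) < n := by linarith
  have hl2 : 0 < Real.log 2 := Real.log_pos (by norm_num)
  have hN0 : 0 < N := by linarith
  set C'' : ℝ := 2 * (1 + Real.log 2) +
      8 * C * (a + 2 * Real.log 2 + 3 * d * Real.log 2 + 1) / (2 * c1) with hC''
  have hW : (0 : ℝ) < 2 ^ n * (n : ℝ) ^ (d - 2) := by positivity
  have hV : 0 < π * a / C2 := by positivity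
  have s1 : Real.log ((Real.sqrt (π * a / C2) * Real.exp (-C'')) *
        (Real.sqrt (2 ^ n * (n : ℝ) ^ (d - 2)))⁻¹) =
      (Real.log (π * a / C2) - Real.log (2 ^ n * (n : ℝ) ^ (d - 2))) / 2 - C'' := by
    rw [Real.log_mul (by positivity) (by positivity), Real.log_mul (by positivity) (by positivity),
      Real.log_inv, Real.log_sqrt hV.le, Real.log_sqrt hW.le, Real.log_exp]
    ring
  have hpow : (n : ℝ) ^ (d - 1) = n * (n : ℝ) ^ (d - 2) := by
    rw [← pow_succ']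
    congr 1
    omega
  have s2 : Real.log (π * a / C2) - Real.log (2 ^ n * (n : ℝ) ^ (d - 2)) ≤
      Real.log (2 * π * (a * n / N)) := by
    rw [← Real.log_div hV.ne' hW.ne']
    apply Real.log_le_log (by positivity)
    have hNle : N ≤ 2 * C2 * n * (2 ^ n * (n : ℝ) ^ (d - 2)) := by
      rw [hN]
      calc (2 : ℝ) ^ (n + 1) * S ≤ 2 ^ (n + 1) * (C2 * (n : ℝ) ^ (d - 1)) :=
            mul_le_mul_of_nonneg_left hS2 (by positivity)
        _ = 2 * C2 * n * (2 ^ n * (n : ℝ) ^ (d - 2)) := by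
            rw [hpow, pow_succ]
            ring
    rw [div_div, mul_div_assoc', div_le_div_iff₀ (by positivity) hN0]
    calc π * a * N ≤ π * a * (2 * C2 * n * (2 ^ n * (n : ℝ) ^ (d - 2))) :=
          mul_le_mul_of_nonneg_left hNle (by positivity)
      _ = 2 * π * (a * n) * (C2 * (2 ^ n * (n : ℝ) ^ (d - 2))) := by ring
  have s3 : (N + 1) * (1 + Real.log 2) ≤ N * (2 * (1 + Real.log 2)) := by
    nlinarith
  have hnsq : (n : ℝ) ^ 2 ≤ (n : ℝ) ^ (d - 1) := pow_le_pow_right₀ hn' (by omega)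
  have s4a : (n : ℝ) ^ 2 * 2 ^ n * (2 * c1) ≤ N := by
    rw [hN]
    calc (n : ℝ) ^ 2 * 2 ^ n * (2 * c1) = 2 ^ (n + 1) * (c1 * (n : ℝ) ^ 2) := by
          rw [pow_succ]
          ring
      _ ≤ 2 ^ (n + 1) * (c1 * (n : ℝ) ^ (d - 1)) :=
          mul_le_mul_of_nonneg_left (mul_le_mul_of_nonneg_left hnsq hc1.le) (by positivity)
      _ ≤ 2 ^ (n + 1) * S := mul_le_mul_of_nonneg_left hS1 (by positivity)
  have hlX : Real.log (2 * X) = 2 * Real.log 2 + d * ((n + 2) * Real.log 2) := by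
    have e : 2 * X = 2 ^ (2 : ℕ) * (2 ^ (n + 2)) ^ d := by
      rw [hX]
      ring
    rw [e, Real.log_mul (by positivity) (by positivity), Real.log_pow, Real.log_pow, Real.log_pow]
    push_cast
    ring
  have hdiv : a * n / N * N = a * n := by
    field_simp
  have s4b : a * n / N * N + Real.log (2 * X) + 1 ≤
      (a + 2 * Real.log 2 + 3 * d * Real.log 2 + 1) * n := by
    rw [hlX, hdiv]
    have hd0 : (0 : ℝ) ≤ d := Nat.cast_nonneg d
    have k1 : 2 * Real.log 2 ≤ 2 * Real.log 2 * n := by nlinarith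
    have k2 : (d : ℝ) * ((n + 2) * Real.log 2) ≤ 3 * d * Real.log 2 * n := by
      have k3 : ((n : ℝ) + 2) * Real.log 2 ≤ 3 * n * Real.log 2 :=
        mul_le_mul_of_nonneg_right (by linarith) hl2.le
      calc (d : ℝ) * ((n + 2) * Real.log 2) ≤ d * (3 * n * Real.log 2) :=
            mul_le_mul_of_nonneg_left k3 hd0
        _ = 3 * d * Real.log 2 * n := by ring
    nlinarith
  have hK0 : 0 < a + 2 * Real.log 2 + 3 * d * Real.log 2 + 1 := by positivity
  have s4 : 8 * (a * n / N * N + Real.log (2 * X) + 1) * (C * n * 2 ^ n) ≤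
      N * (8 * C * (a + 2 * Real.log 2 + 3 * d * Real.log 2 + 1) / (2 * c1)) := by
    calc 8 * (a * n / N * N + Real.log (2 * X) + 1) * (C * n * 2 ^ n)
        ≤ 8 * ((a + 2 * Real.log 2 + 3 * d * Real.log 2 + 1) * n) * (C * n * 2 ^ n) := by
          apply mul_le_mul_of_nonneg_right _ (by positivity)
          linarith
      _ = 8 * C * (a + 2 * Real.log 2 + 3 * d * Real.log 2 + 1) * ((n : ℝ) ^ 2 * 2 ^ n) := by ring
      _ ≤ 8 * C * (a + 2 * Real.log 2 + 3 * d * Real.log 2 + 1) * (N / (2 * c1)) := by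
          apply mul_le_mul_of_nonneg_left _ (by positivity)
          rw [le_div_iff₀ (by positivity)]
          exact s4a
      _ = N * (8 * C * (a + 2 * Real.log 2 + 3 * d * Real.log 2 + 1) / (2 * c1)) := by ring
  rw [s1]
  have s5 : N * ((Real.log (π * a / C2) - Real.log (2 ^ n * (n : ℝ) ^ (d - 2))) / 2) ≤
      N / 2 * Real.log (2 * π * (a * n / N)) := by
    calc N * ((Real.log (π * a / C2) - Real.log (2 ^ n * (n : ℝ) ^ (d - 2))) / 2)
        = N / 2 * (Real.log (π * a / C2) - Real.log (2 ^ n * (n : ℝ) ^ (d - 2))) := by ring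
      _ ≤ N / 2 * Real.log (2 * π * (a * n / N)) :=
          mul_le_mul_of_nonneg_left s2 (by positivity)
  have s6 : N * C'' = N * (2 * (1 + Real.log 2)) +
      N * (8 * C * (a + 2 * Real.log 2 + 3 * d * Real.log 2 + 1) / (2 * c1)) := by
    rw [hC'']
    ring
  rw [mul_sub, s6]
  linarith

theorem perp_lower (d : ℕ) (hd : 3 ≤ d) : ∃ c : ℝ, 0 < c ∧ ∀ n : ℕ, 1 ≤ n →
    ENNReal.ofReal ((c * (Real.sqrt (2^n * (n:ℝ)^(d-2)))⁻¹)^(2 * (layer d n).card)) ≤ volume (bperp d n) := by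
  obtain ⟨c1, hc1, h1⟩ := shp_lower d (by omega)
  obtain ⟨C2, hC2, h2⟩ := shp_upper d (by omega)
  obtain ⟨a, C, ha, hC, hH⟩ := H_bound d (by omega)
  set c0 : ℝ := Real.sqrt (π * a / C2) * Real.exp (-(2 * (1 + Real.log 2) +
      8 * C * (a + 2 * Real.log 2 + 3 * d * Real.log 2 + 1) / (2 * c1))) with hc0
  have hc0p : 0 < c0 := by positivity
  refine ⟨c0 / (2 * 2 ^ d), by positivity, fun n hn => ?_⟩
  have hn' : (1 : ℝ) ≤ n := by exact_mod_cast hn
  have hn0 : (0 : ℝ) < n := by linarith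
  have hS1 := h1 n hn
  have hS2 := h2 n hn
  have hS0 : (0 : ℝ) < shp d n := lt_of_lt_of_le (by positivity) hS1
  have hSn : 1 ≤ shp d n := by
    have : 0 < shp d n := by exact_mod_cast hS0
    exact this
  have hcard : ((Fintype.card ((layer d n) × Fin 2) : ℕ) : ℝ) = 2 ^ (n + 1) * (shp d n : ℝ) := by
    rw [Fintype.card_prod, Fintype.card_coe, Fintype.card_fin, card_layer]
    push_cast
    ring
  have hcard2 : ((2 * (layer d n).card : ℕ) : ℝ) = 2 ^ (n + 1) * (shp d n : ℝ) := by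
    rw [card_layer]
    push_cast
    ring
  have hcardX : ((Fintype.card (Gr d n) : ℕ) : ℝ) = (2 ^ (n + 2)) ^ d * 2 := by
    simp [Gr]
  have hN1 : (1 : ℝ) ≤ 2 ^ (n + 1) * (shp d n : ℝ) := by
    have h3 : (1 : ℝ) ≤ 2 ^ (n + 1) := one_le_pow₀ (by norm_num)
    have h4 : (1 : ℝ) ≤ shp d n := by exact_mod_cast hSn
    nlinarith
  have hNp : (0 : ℝ) < 2 ^ (n + 1) * (shp d n : ℝ) := by linarith
  have hs : 0 < Real.sqrt (a * n / (2 ^ (n + 1) * shp d n)) := Real.sqrt_pos.2 (by positivity)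
  obtain ⟨t1, t2, t3, _⟩ := tb_facts d n (by omega) hn
  have hg := gibbs_volume (tb (d := d) (n := n)) t1 t2 t3
    (Real.sqrt (a * n / (2 ^ (n + 1) * shp d n))) hs (C * n * 2 ^ n) (hH n hn)
  have hp := hg.trans (perp_conv d n hn)
  rw [hcard, Real.sq_sqrt (by positivity : (0:ℝ) ≤ a * n / (2 ^ (n + 1) * shp d n))] at hp
  have hreal := perp_lower_real d n hd hn a C c1 C2 (shp d n) (2 ^ (n + 1) * shp d n)
    (Fintype.card (Gr d n)) ha hC hc1 hC2 hS1 hS2 rfl hN1 hcardX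
  rw [← hc0] at hreal
  set L : ℝ := (2 ^ (n + 1) * (shp d n : ℝ)) / 2 *
      Real.log (2 * π * (a * n / (2 ^ (n + 1) * shp d n))) -
      ((2 ^ (n + 1) * (shp d n : ℝ)) + 1) * (1 + Real.log 2) -
      8 * (a * n / (2 ^ (n + 1) * shp d n) * (2 ^ (n + 1) * (shp d n : ℝ)) +
        Real.log (2 * Fintype.card (Gr d n)) + 1) * (C * n * 2 ^ n) with hL
  set w : ℝ := (Real.sqrt (2 ^ n * (n : ℝ) ^ (d - 2)))⁻¹ with hw
  have hwp : 0 < w := by positivity
  have hP : (0 : ℝ) < (2 * 2 ^ d) ^ (2 * (layer d n).card) := by positivity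
  have hmain : (c0 / (2 * 2 ^ d) * w) ^ (2 * (layer d n).card) *
      (2 * 2 ^ d) ^ (2 * (layer d n).card) ≤ Real.exp L := by
    rw [← mul_pow]
    have e1 : c0 / (2 * 2 ^ d) * w * (2 * 2 ^ d) = c0 * w := by
      field_simp
    rw [e1]
    have e2 : (c0 * w) ^ (2 * (layer d n).card) =
        Real.exp ((2 ^ (n + 1) * (shp d n : ℝ)) * Real.log (c0 * w)) := by
      rw [← hcard2, Real.exp_nat_mul, Real.exp_log (by positivity)]
    rw [e2]
    exact Real.exp_le_exp.2 hreal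
  have h5 : ENNReal.ofReal ((c0 / (2 * 2 ^ d) * w) ^ (2 * (layer d n).card)) *
      ENNReal.ofReal ((2 * 2 ^ d) ^ (2 * (layer d n).card)) ≤
      volume (bperp d n) * ENNReal.ofReal ((2 * 2 ^ d) ^ (2 * (layer d n).card)) := by
    rw [← ENNReal.ofReal_mul (by positivity)]
    refine (ENNReal.ofReal_le_ofReal hmain).trans (hp.trans (le_of_eq ?_))
    rw [mul_comm]
  exact (ENNReal.mul_le_mul_iff_left (ENNReal.ofReal_pos.2 hP).ne' ENNReal.ofReal_ne_top).1 h5


end Sol_perp_lower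

alias perp_lower := Sol_perp_lower.perp_lower

end HypVol
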