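import Pool.Agent.HypVol.Defs
open MeasureTheory Real ProbabilityTheory
open scoped ENNReal BigOperators

namespace HypVol
namespace Sol_ess_sup



theorem esp_cont {d n : ℕ} (a : (layer d n) × Fin 2 → ℝ) : Continuous (poly a) := by
  unfold poly
  fun_prop

theorem esp_per {d n : ℕ} (a : (layer d n) × Fin 2 → ℝ) (x : Fin d → ℝ) (m : Fin d → ℤ) :
    poly a (fun j => x j - (m j : ℝ) * (2 * π)) = poly a x := by
  unfold poly
  apply Finset.sum_congr rfl
  intro k _
  congr 1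
  have e : Complex.I * ((∑ j, (k.1 j : ℝ) * (x j - (m j : ℝ) * (2 * π)) : ℝ) : ℂ) =
      Complex.I * ((∑ j, (k.1 j : ℝ) * x j : ℝ) : ℂ) -
        ((∑ j, k.1 j * m j : ℤ) : ℂ) * (2 * π * Complex.I) := by
    push_cast
    rw [Finset.sum_mul, Finset.mul_sum, Finset.mul_sum, ← Finset.sum_sub_distrib]
    apply Finset.sum_congr rfl
    intro j _
    ring
  rw [e]
  exact Complex.exp_periodic.sub_int_mul_eq _

theorem esp_pos {d : ℕ} (U : Set (Fin d → ℝ)) (hU : IsOpen U) (x : Fin d → ℝ) (hx : x ∈ U)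
    (hx0 : ∀ j, x j ∈ Set.Ico 0 (2 * π)) : 0 < TP d U := by
  obtain ⟨ε, hε, hb⟩ := Metric.isOpen_iff.1 hU x hx
  have hsub : Set.pi Set.univ (fun j => Set.Ico (x j) (min (x j + ε / 2) (2 * π))) ⊆ U := by
    intro y hy
    apply hb
    rw [Metric.mem_ball]
    refine lt_of_le_of_lt ((dist_pi_le_iff (by positivity : (0:ℝ) ≤ ε / 2)).2 (fun j => ?_))
      (by linarith)
    have h1 := hy j (Set.mem_univ j)
    rw [Real.dist_eq, abs_le]
    have h2 := h1.1
    have h3 := h1.2.trans_le (min_le_left _ _)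
    constructor <;> linarith
  refine lt_of_lt_of_le ?_ (measure_mono hsub)
  unfold TP
  have : IsFiniteMeasure (ENNReal.ofReal (2 * π)⁻¹ • (volume : Measure ℝ).restrict
      (Set.Ico 0 (2 * π))) := Measure.smul_finite _ ENNReal.ofReal_ne_top
  rw [Measure.pi_pi]
  rw [pos_iff_ne_zero, Finset.prod_ne_zero_iff]
  intro j _
  have hxj := hx0 j
  have hin : Set.Ico (x j) (min (x j + ε / 2) (2 * π)) ∩ Set.Ico 0 (2 * π) =
      Set.Ico (x j) (min (x j + ε / 2) (2 * π)) :=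
    Set.inter_eq_left.2 (fun t ht => ⟨hxj.1.trans ht.1, ht.2.trans_le (min_le_right _ _)⟩)
  rw [Measure.smul_apply, smul_eq_mul, Measure.restrict_apply measurableSet_Ico, hin,
    Real.volume_Ico]
  apply mul_ne_zero
  · rw [ENNReal.ofReal_ne_zero_iff]
    positivity
  · rw [ENNReal.ofReal_ne_zero_iff, sub_pos, lt_min_iff]
    exact ⟨by linarith, hxj.2⟩

theorem ess_sup_poly {d n : ℕ} (a : (layer d n) × Fin 2 → ℝ) (δ : ℝ) (hδ : 0 ≤ δ)
    (h : eLpNorm (poly a) ⊤ (TP d) ≤ ENNReal.ofReal δ) (x : Fin d → ℝ) : ‖poly a x‖ ≤ δ := by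
  have hae : ∀ᵐ x ∂(TP d), ‖poly a x‖ ≤ δ := by
    rw [eLpNorm_exponent_top] at h
    filter_upwards [enorm_ae_le_eLpNormEssSup (poly a) (TP d)] with y hy
    have h2 := hy.trans h
    rw [← ofReal_norm] at h2
    exact (ENNReal.ofReal_le_ofReal_iff hδ).1 h2
  by_contra hcon
  push Not at hcon
  have hU : IsOpen {y : Fin d → ℝ | δ < ‖poly a y‖} :=
    isOpen_lt continuous_const (esp_cont a).norm
  have hpos := esp_pos _ hU (fun j => x j - (toIcoDiv Real.two_pi_pos 0 (x j) : ℝ) * (2 * π))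
    (by
      show δ < ‖poly a _‖
      rw [esp_per]
      exact hcon)
    (fun j => by
      have h1 := toIcoMod_mem_Ico Real.two_pi_pos 0 (x j)
      rw [zero_add] at h1
      have h2 : x j - (toIcoDiv Real.two_pi_pos 0 (x j) : ℝ) * (2 * π) =
          toIcoMod Real.two_pi_pos 0 (x j) := by
        rw [toIcoMod, zsmul_eq_mul]
      show x j - (toIcoDiv Real.two_pi_pos 0 (x j) : ℝ) * (2 * π) ∈ _
      rw [h2]
      exact h1)
  have hz : TP d {y : Fin d → ℝ | δ < ‖poly a y‖} = 0 := by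
    rw [ae_iff] at hae
    simpa only [not_le] using hae
  exact absurd hz hpos.ne'


end Sol_ess_sup

alias ess_sup_poly := Sol_ess_sup.ess_sup_poly

end HypVol
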