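import Pool.Agent.HypVol.Defs
import Pool.Agent.HypVol.L_santalo
import Pool.Agent.HypVol.L_gibbs_volume
open MeasureTheory Real ProbabilityTheory
open scoped ENNReal BigOperators

namespace HypVol
namespace Sol_gibbs_polar





theorem gibbs_polar {X ι : Type} [Fintype X] [Nonempty X] [Fintype ι] [DecidableEq ι] (b : ι → X → ℝ)
    (hN : 0 < Fintype.card ι)
    (h0 : ∀ i, ∑ x, b i x = 0)
    (h1 : ∀ i j, ∑ x, b i x * b j x = if i = j then (Fintype.card X : ℝ) else 0)
    (h2 : ∀ x, ∑ i, b i x ^ 2 = Fintype.card ι) (s : ℝ) (hs : 0 < s) (H : ℝ)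
    (hH : (∑ x, ∑ y, (1 + ∑ i, b i x * b i y)^2 * (Real.exp (s^2 * ∑ i, b i x * b i y) - 1))
        / (Fintype.card X : ℝ)^2 ≤ H) :
    volume {a : ι → ℝ | ∀ x, |∑ i, a i * b i x| ≤ 1} ≤
    ENNReal.ofReal ((2 * π * Real.exp 1 / Fintype.card ι)^(Fintype.card ι)
      * Real.exp (-((Fintype.card ι : ℝ) / 2 * Real.log (2 * π * s^2)
      - ((Fintype.card ι : ℝ) + 1) * (1 + Real.log 2)
      - 8 * (s^2 * Fintype.card ι + Real.log (2 * Fintype.card X) + 1) * H))) := by
  have hX : (0 : ℝ) < Fintype.card X := by exact_mod_cast Fintype.card_pos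
  set K : Set (ι → ℝ) := {a : ι → ℝ | ∀ x, |∑ i, a i * b i x| ≤ 1} with hKdef
  set W : Set (ι → ℝ) := {y : ι → ℝ | ∃ w : X → ℝ, (∀ x, 0 ≤ w x) ∧ ∑ x, w x = 1 ∧
    ∀ i, y i = ∑ x, w x * b i x} with hWdef
  have hvol := gibbs_volume b h0 h1 h2 s hs H hH
  -- K is compact
  have hKc : IsCompact K := by
    have hcl : IsClosed K := by
      have : K = ⋂ x, {a : ι → ℝ | |∑ i, a i * b i x| ≤ 1} := by
        ext a; simp [hKdef]
      rw [this]
      refine isClosed_iInter fun x => isClosed_le ?_ continuous_const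
      fun_prop
    refine IsCompact.of_isClosed_subset (isCompact_univ_pi
      (fun i : ι => isCompact_Icc (a := -(∑ x, |b i x|)) (b := ∑ x, |b i x|))) hcl ?_
    intro a ha i _
    have e1 : ∑ x, (∑ j, a j * b j x) * b i x = a i * Fintype.card X := by
      have : ∀ x, (∑ j, a j * b j x) * b i x = ∑ j, a j * (b j x * b i x) := by
        intro x
        rw [Finset.sum_mul]
        exact Finset.sum_congr rfl fun j _ => by ring
      simp_rw [this]
      rw [Finset.sum_comm]
      simp_rw [← Finset.mul_sum, h1]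
      simp
    have e2 : |a i * Fintype.card X| ≤ ∑ x, |b i x| := by
      rw [← e1]
      refine (Finset.abs_sum_le_sum_abs _ _).trans (Finset.sum_le_sum fun x _ => ?_)
      rw [abs_mul]
      exact mul_le_of_le_one_left (abs_nonneg _) (ha x)
    have hX1 : (1 : ℝ) ≤ Fintype.card X := by exact_mod_cast Fintype.card_pos (α := X)
    have e3 : |a i| ≤ ∑ x, |b i x| := by
      refine le_trans ?_ e2
      rw [abs_mul, abs_of_pos hX]
      exact le_mul_of_one_le_right (abs_nonneg _) hX1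
    exact abs_le.1 e3
  have sK : ∀ x ∈ K, -x ∈ K := by
    intro a ha x
    have e : ∑ i, (-a) i * b i x = -∑ i, a i * b i x := by
      rw [← Finset.sum_neg_distrib]
      exact Finset.sum_congr rfl fun i _ => by simp
    rw [e, abs_neg]
    exact ha x
  have hWc : IsCompact W := by
    have : W = (fun w : X → ℝ => fun i => ∑ x, w x * b i x) '' stdSimplex ℝ X := by
      ext y
      constructor
      · rintro ⟨w, w0, w1, hy⟩
        exact ⟨w, ⟨w0, w1⟩, (funext hy).symm⟩
      · rintro ⟨w, ⟨w0, w1⟩, rfl⟩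
        exact ⟨w, w0, w1, fun i => rfl⟩
    rw [this]
    refine (isCompact_stdSimplex ℝ X).image ?_
    fun_prop
  have hLc : IsCompact (W ∪ (fun y => -y) '' W) := hWc.union (hWc.image continuous_neg)
  have sL : ∀ x ∈ W ∪ (fun y => -y) '' W, -x ∈ W ∪ (fun y => -y) '' W := by
    rintro y (hy | ⟨y', hy', rfl⟩)
    · exact Or.inr ⟨y, hy, rfl⟩
    · left
      simpa using hy'
  have hpair : ∀ a ∈ K, ∀ y ∈ W, |∑ j, a j * y j| ≤ 1 := by
    rintro a ha y ⟨w, w0, w1, hy⟩
    have e : ∑ j, a j * y j = ∑ x, w x * ∑ i, a i * b i x := by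
      simp_rw [hy, Finset.mul_sum]
      rw [Finset.sum_comm]
      exact Finset.sum_congr rfl fun x _ => Finset.sum_congr rfl fun i _ => by ring
    rw [e, ← w1]
    refine (Finset.abs_sum_le_sum_abs _ _).trans (Finset.sum_le_sum fun x _ => ?_)
    rw [abs_mul, abs_of_nonneg (w0 x)]
    exact mul_le_of_le_one_right (w0 x) (ha x)
  have hp : ∀ x ∈ K, ∀ y ∈ W ∪ (fun y => -y) '' W, ∑ j, x j * y j ≤ 1 := by
    rintro a ha y (hy | ⟨y', hy', rfl⟩)
    · exact (abs_le.1 (hpair a ha y hy)).2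
    · have e : ∑ j, a j * (-y') j = -∑ j, a j * y' j := by
        rw [← Finset.sum_neg_distrib]
        exact Finset.sum_congr rfl fun i _ => by simp
      show ∑ j, a j * (-y') j ≤ 1
      rw [e]
      have := (abs_le.1 (hpair a ha y' hy')).1
      linarith
  have hsan := santalo hN K _ hKc hLc sK sL hp
  have hvol2 := hvol.trans (measure_mono (Set.subset_union_left (t := (fun y => -y) '' W)))
  rw [Real.exp_neg, ← div_eq_mul_inv, ENNReal.ofReal_div_of_pos (Real.exp_pos _)]
  rw [ENNReal.le_div_iff_mul_le (Or.inl (by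
    rw [Ne, ENNReal.ofReal_eq_zero, not_le]; exact Real.exp_pos _)) (Or.inl ENNReal.ofReal_ne_top)]
  exact (mul_le_mul_right hvol2 _).trans hsan


end Sol_gibbs_polar

alias gibbs_polar := Sol_gibbs_polar.gibbs_polar

end HypVol
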