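import Pool.Agent.HypVol.Defs
import Pool.Agent.HypVol.L_card_layer
import Pool.Agent.HypVol.L_shp_lower
import Pool.Agent.HypVol.L_shp_upper
import Pool.Agent.HypVol.L_tb_facts
import Pool.Agent.HypVol.L_H_bound
import Pool.Agent.HypVol.L_gibbs_polar
open MeasureTheory Real ProbabilityTheory
open scoped ENNReal BigOperators

namespace HypVol
namespace Sol_vol_upper









theorem vol_upper_real (N : ℕ) (hN : 1 ≤ N) (n : ℝ) (hn : 0 < n) (a c0 K1 q R : ℝ) (ha : 0 < a)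
    (hc0 : 0 < c0) (hq : 0 < q) (hqN : 2 * c0 * q ≤ N * n) (s : ℝ) (hs : s^2 = a * n / N)
    (hR : ((N:ℝ)+1) * (1 + Real.log 2) + R ≤ K1 * N) :
    (Real.sqrt 2)^N * ((2 * π * Real.exp 1 / N)^N *
      Real.exp (-((N:ℝ)/2 * Real.log (2 * π * s^2) - ((N:ℝ)+1) * (1 + Real.log 2) - R))) ≤
    ((Real.sqrt 2 * (2 * π * Real.exp 1) * Real.exp K1 * (Real.sqrt (2 * π * a))⁻¹ *
      (Real.sqrt (2 * c0))⁻¹) * (Real.sqrt q)⁻¹)^N := by
  have hN0 : (0:ℝ) < N := by exact_mod_cast hN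
  have hy : 0 < 2 * π * s^2 := by
    rw [hs]
    positivity
  have hinv : (Real.sqrt (2 * π * s^2))⁻¹ = Real.exp (-(Real.log (2 * π * s^2) / 2)) := by
    rw [← Real.log_sqrt hy.le, Real.exp_neg, Real.exp_log (Real.sqrt_pos.2 hy)]
  have hexp : Real.exp (-((N:ℝ)/2 * Real.log (2 * π * s^2) - ((N:ℝ)+1) * (1 + Real.log 2) - R)) ≤
      ((Real.sqrt (2 * π * s^2))⁻¹ * Real.exp K1)^N := by
    rw [hinv, ← Real.exp_add, ← Real.exp_nat_mul]
    apply Real.exp_le_exp.2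
    nlinarith
  have h1 : (N:ℝ)⁻¹ * (Real.sqrt (2 * π * s^2))⁻¹ =
      (Real.sqrt (2 * π * a))⁻¹ * (Real.sqrt (N * n))⁻¹ := by
    rw [← mul_inv, ← mul_inv]
    congr 1
    have e1 : (N:ℝ) * Real.sqrt (2 * π * s^2) = Real.sqrt ((N:ℝ)^2 * (2 * π * s^2)) := by
      rw [Real.sqrt_mul (by positivity : (0:ℝ) ≤ (N:ℝ)^2), Real.sqrt_sq hN0.le]
    rw [e1, ← Real.sqrt_mul (by positivity), hs]
    congr 1
    field_simp
  have h2 : (Real.sqrt (N * n))⁻¹ ≤ (Real.sqrt (2 * c0))⁻¹ * (Real.sqrt q)⁻¹ := by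
    rw [← mul_inv, ← Real.sqrt_mul (by positivity)]
    apply inv_anti₀ (Real.sqrt_pos.2 (by positivity))
    exact Real.sqrt_le_sqrt hqN
  have hbase : Real.sqrt 2 * (2 * π * Real.exp 1 / N) *
      ((Real.sqrt (2 * π * s^2))⁻¹ * Real.exp K1) ≤
      (Real.sqrt 2 * (2 * π * Real.exp 1) * Real.exp K1 * (Real.sqrt (2 * π * a))⁻¹ *
      (Real.sqrt (2 * c0))⁻¹) * (Real.sqrt q)⁻¹ := by
    have e1 : Real.sqrt 2 * (2 * π * Real.exp 1 / N) *
      ((Real.sqrt (2 * π * s^2))⁻¹ * Real.exp K1) =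
      Real.sqrt 2 * (2 * π * Real.exp 1) * Real.exp K1 *
        ((N:ℝ)⁻¹ * (Real.sqrt (2 * π * s^2))⁻¹) := by
      rw [div_eq_mul_inv]
      ring
    rw [e1, h1]
    calc Real.sqrt 2 * (2 * π * Real.exp 1) * Real.exp K1 *
          ((Real.sqrt (2 * π * a))⁻¹ * (Real.sqrt (N * n))⁻¹)
        ≤ Real.sqrt 2 * (2 * π * Real.exp 1) * Real.exp K1 *
          ((Real.sqrt (2 * π * a))⁻¹ * ((Real.sqrt (2 * c0))⁻¹ * (Real.sqrt q)⁻¹)) := by
          gcongr
      _ = _ := by ring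
  calc (Real.sqrt 2)^N * ((2 * π * Real.exp 1 / N)^N *
      Real.exp (-((N:ℝ)/2 * Real.log (2 * π * s^2) - ((N:ℝ)+1) * (1 + Real.log 2) - R)))
      ≤ (Real.sqrt 2)^N * ((2 * π * Real.exp 1 / N)^N *
        ((Real.sqrt (2 * π * s^2))⁻¹ * Real.exp K1)^N) := by
        gcongr
    _ = (Real.sqrt 2 * (2 * π * Real.exp 1 / N) *
      ((Real.sqrt (2 * π * s^2))⁻¹ * Real.exp K1))^N := by
        rw [mul_pow, mul_pow]
        ring
    _ ≤ _ := pow_le_pow_left₀ (by positivity) hbase N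

theorem vol_upper_grid (d n : ℕ) (a : (layer d n) × Fin 2 → ℝ) (ha : a ∈ ball d n) (x : Gr d n) :
    |∑ i, a i * tb i x| ≤ Real.sqrt 2 := by
  obtain ⟨y, e⟩ := x
  have hb := ha (fun j => 2 * π * ((y j : ℕ) : ℝ) / 2^(n+2))
  have hth : ∀ k : Fin d → ℤ, (∑ j, (k j : ℝ) * (2 * π * ((y j : ℕ) : ℝ) / 2^(n+2))) = th k y := by
    intro k
    unfold th
    rw [Finset.mul_sum, Finset.sum_div]
    apply Finset.sum_congr rfl
    intro j _
    ring
  have hre : (poly a (fun j => 2 * π * ((y j : ℕ) : ℝ) / 2^(n+2))).re =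
      ∑ k : layer d n, (a (k, 0) * Real.cos (th k.1 y) - a (k, 1) * Real.sin (th k.1 y)) := by
    unfold poly
    rw [Complex.re_sum]
    apply Finset.sum_congr rfl
    intro k _
    rw [hth, mul_comm Complex.I, Complex.mul_re, Complex.exp_ofReal_mul_I_re,
      Complex.exp_ofReal_mul_I_im]
    simp
  have him : (poly a (fun j => 2 * π * ((y j : ℕ) : ℝ) / 2^(n+2))).im =
      ∑ k : layer d n, (a (k, 0) * Real.sin (th k.1 y) + a (k, 1) * Real.cos (th k.1 y)) := by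
    unfold poly
    rw [Complex.im_sum]
    apply Finset.sum_congr rfl
    intro k _
    rw [hth, mul_comm Complex.I, Complex.mul_im, Complex.exp_ofReal_mul_I_re,
      Complex.exp_ofReal_mul_I_im]
    simp
  have hs2 : (0:ℝ) ≤ Real.sqrt 2 := Real.sqrt_nonneg 2
  have hsum : ∑ i, a i * tb i (y, e) = ∑ k : layer d n,
      (a (k, 0) * tb (k, 0) (y, e) + a (k, 1) * tb (k, 1) (y, e)) := by
    rw [Fintype.sum_prod_type]
    apply Finset.sum_congr rfl
    intro k _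
    rw [Fin.sum_univ_two]
  rcases Fin.exists_fin_two.1 ⟨e, rfl⟩ with he | he
  · have e1 : ∑ i, a i * tb i (y, e) =
        Real.sqrt 2 * (poly a (fun j => 2 * π * ((y j : ℕ) : ℝ) / 2^(n+2))).re := by
      rw [hsum, hre, Finset.mul_sum]
      apply Finset.sum_congr rfl
      intro k _
      subst he
      simp [tb]
      ring
    rw [e1, abs_mul, abs_of_nonneg hs2]
    calc Real.sqrt 2 * |(poly a (fun j => 2 * π * ((y j : ℕ) : ℝ) / 2^(n+2))).re|
        ≤ Real.sqrt 2 * 1 := by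
          apply mul_le_mul_of_nonneg_left _ hs2
          exact (Complex.abs_re_le_norm _).trans hb
      _ = Real.sqrt 2 := mul_one _
  · have e1 : ∑ i, a i * tb i (y, e) =
        Real.sqrt 2 * (poly a (fun j => 2 * π * ((y j : ℕ) : ℝ) / 2^(n+2))).im := by
      rw [hsum, him, Finset.mul_sum]
      apply Finset.sum_congr rfl
      intro k _
      subst he
      simp [tb]
      ring
    rw [e1, abs_mul, abs_of_nonneg hs2]
    calc Real.sqrt 2 * |(poly a (fun j => 2 * π * ((y j : ℕ) : ℝ) / 2^(n+2))).im|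
        ≤ Real.sqrt 2 * 1 := by
          apply mul_le_mul_of_nonneg_left _ hs2
          exact (Complex.abs_im_le_norm _).trans hb
      _ = Real.sqrt 2 := mul_one _

open scoped Pointwise in
theorem vol_upper_ball (d n : ℕ) :
    volume (ball d n) ≤ ENNReal.ofReal ((Real.sqrt 2)^(Fintype.card ((layer d n) × Fin 2))) *
      volume {a : (layer d n) × Fin 2 → ℝ | ∀ x : Gr d n, |∑ i, a i * tb i x| ≤ 1} := by
  have hs2 : (0:ℝ) < Real.sqrt 2 := Real.sqrt_pos.2 (by norm_num)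
  have hsub : ball d n ⊆ (Real.sqrt 2) •
      {a : (layer d n) × Fin 2 → ℝ | ∀ x : Gr d n, |∑ i, a i * tb i x| ≤ 1} := by
    intro a ha
    rw [Set.mem_smul_set_iff_inv_smul_mem₀ hs2.ne']
    intro x
    have h1 := vol_upper_grid d n a ha x
    have h2 : ∑ i, ((Real.sqrt 2)⁻¹ • a) i * tb i x = (Real.sqrt 2)⁻¹ * ∑ i, a i * tb i x := by
      rw [Finset.mul_sum]
      apply Finset.sum_congr rfl
      intro i _
      rw [Pi.smul_apply, smul_eq_mul, mul_assoc]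
    rw [h2, abs_mul, abs_of_pos (inv_pos.2 hs2)]
    calc (Real.sqrt 2)⁻¹ * |∑ i, a i * tb i x| ≤ (Real.sqrt 2)⁻¹ * Real.sqrt 2 := by gcongr
      _ = 1 := inv_mul_cancel₀ hs2.ne'
  refine (measure_mono hsub).trans (le_of_eq ?_)
  rw [Measure.addHaar_smul, Module.finrank_fintype_fun_eq_card, abs_of_nonneg (by positivity)]

theorem vol_upper (d : ℕ) (hd : 3 ≤ d) : ∃ C : ℝ, 0 < C ∧ ∀ n : ℕ, 1 ≤ n →
    volume (ball d n) ≤ ENNReal.ofReal ((C * (Real.sqrt (2^n * (n:ℝ)^d))⁻¹)^(2 * (layer d n).card)) := by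
  obtain ⟨a, CH, ha, hCH, hH⟩ := H_bound d (by omega)
  obtain ⟨c0, hc0, hshp⟩ := shp_lower d (by omega)
  refine ⟨Real.sqrt 2 * (2 * π * Real.exp 1) *
    Real.exp (4 + 4 * (a + 3 + 3 * d) * CH / c0) * (Real.sqrt (2 * π * a))⁻¹ *
      (Real.sqrt (2 * c0))⁻¹, by positivity, ?_⟩
  intro n hn
  have hn1 : (1:ℝ) ≤ n := by exact_mod_cast hn
  have hn0 : (0:ℝ) < n := by linarith
  have hsp : c0 * (n:ℝ)^(d-1) ≤ shp d n := hshp n hn
  have hsp0 : (0:ℝ) < shp d n := lt_of_lt_of_le (by positivity) hsp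
  have hNcard : Fintype.card ((layer d n) × Fin 2) = 2 * (layer d n).card := by
    rw [Fintype.card_prod, Fintype.card_coe, Fintype.card_fin, mul_comm]
  have hNreal : ((Fintype.card ((layer d n) × Fin 2) : ℕ) : ℝ) = 2^(n+1) * shp d n := by
    rw [hNcard, card_layer]
    push_cast
    ring
  have hNpos : (0:ℝ) < ((Fintype.card ((layer d n) × Fin 2) : ℕ) : ℝ) := by
    rw [hNreal]
    positivity
  have hN1 : 1 ≤ Fintype.card ((layer d n) × Fin 2) := by exact_mod_cast hNpos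
  have hN1r : (1:ℝ) ≤ ((Fintype.card ((layer d n) × Fin 2) : ℕ) : ℝ) := by exact_mod_cast hN1
  have hpow : (n:ℝ)^(d-1) * n = (n:ℝ)^d := by
    rw [← pow_succ]
    congr 1
    omega
  have hpow2 : (n:ℝ)^2 ≤ (n:ℝ)^(d-1) := pow_le_pow_right₀ hn1 (by omega)
  have hqN : 2 * c0 * (2^n * (n:ℝ)^d) ≤
      ((Fintype.card ((layer d n) × Fin 2) : ℕ) : ℝ) * n := by
    rw [hNreal, ← hpow]
    calc 2 * c0 * (2^n * ((n:ℝ)^(d-1) * n)) = 2^(n+1) * (c0 * (n:ℝ)^(d-1)) * n := by ring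
      _ ≤ 2^(n+1) * (shp d n) * n := by gcongr
  have hs2 : (Real.sqrt (a * n / (2^(n+1) * shp d n)))^2 =
      a * n / ((Fintype.card ((layer d n) × Fin 2) : ℕ) : ℝ) := by
    rw [hNreal, Real.sq_sqrt (by positivity)]
  have hs0 : 0 < Real.sqrt (a * n / (2^(n+1) * shp d n)) := Real.sqrt_pos.2 (by positivity)
  obtain ⟨f0, f1, f2, _⟩ := tb_facts d n (by omega) hn
  have hX : Nonempty (Gr d n) := ⟨(fun _ => ⟨0, by positivity⟩, 0)⟩
  have hpol := gibbs_polar (X := Gr d n) (ι := (layer d n) × Fin 2) tb hN1 f0 f1 f2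
    (Real.sqrt (a * n / (2^(n+1) * shp d n))) hs0 (CH * n * 2^n) (hH n hn)
  have hlog2 : Real.log 2 ≤ 1 := by
    have := Real.log_two_lt_d9
    linarith
  have hlog20 : 0 ≤ Real.log 2 := Real.log_nonneg (by norm_num)
  have hlogX : Real.log (2 * Fintype.card (Gr d n)) ≤ 2 + ((n:ℝ) + 2) * d := by
    have e1 : (2 * Fintype.card (Gr d n) : ℝ) = 2^(2 + (n+2)*d) := by
      have : Fintype.card (Gr d n) = (2^(n+2))^d * 2 := by
        rw [Fintype.card_prod, Fintype.card_fun, Fintype.card_fin, Fintype.card_fin,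
          Fintype.card_fin]
      rw [this]
      push_cast
      rw [← pow_mul]
      ring
    rw [e1, Real.log_pow]
    push_cast
    calc (2 + ((n:ℝ)+2) * d) * Real.log 2 ≤ (2 + ((n:ℝ)+2) * d) * 1 := by gcongr
      _ = _ := mul_one _
  have hR : (((Fintype.card ((layer d n) × Fin 2) : ℕ) : ℝ) + 1) * (1 + Real.log 2) +
      8 * ((Real.sqrt (a * n / (2^(n+1) * shp d n)))^2 *
        ((Fintype.card ((layer d n) × Fin 2) : ℕ) : ℝ) +
        Real.log (2 * Fintype.card (Gr d n)) + 1) * (CH * n * 2^n) ≤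
      (4 + 4 * (a + 3 + 3 * d) * CH / c0) * ((Fintype.card ((layer d n) × Fin 2) : ℕ) : ℝ) := by
    have e1 : (Real.sqrt (a * n / (2^(n+1) * shp d n)))^2 *
        ((Fintype.card ((layer d n) × Fin 2) : ℕ) : ℝ) = a * n := by
      rw [hs2]
      field_simp
    rw [e1]
    have e2 : (((Fintype.card ((layer d n) × Fin 2) : ℕ) : ℝ) + 1) * (1 + Real.log 2) ≤
        4 * ((Fintype.card ((layer d n) × Fin 2) : ℕ) : ℝ) := by
      nlinarith
    have hd0 : (0:ℝ) ≤ d := by positivity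
    have e3 : a * n + Real.log (2 * Fintype.card (Gr d n)) + 1 ≤ (a + 3 + 3 * d) * n := by
      nlinarith
    have e4 : 2 * c0 * (2^n * (n:ℝ)^2) ≤ ((Fintype.card ((layer d n) × Fin 2) : ℕ) : ℝ) := by
      rw [hNreal]
      calc 2 * c0 * (2^n * (n:ℝ)^2) ≤ 2 * c0 * (2^n * (n:ℝ)^(d-1)) := by gcongr
        _ = 2^(n+1) * (c0 * (n:ℝ)^(d-1)) := by ring
        _ ≤ 2^(n+1) * (shp d n) := by gcongr
    have e5 : 8 * (a * n + Real.log (2 * Fintype.card (Gr d n)) + 1) * (CH * n * 2^n) ≤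
        4 * (a + 3 + 3 * d) * CH / c0 * ((Fintype.card ((layer d n) × Fin 2) : ℕ) : ℝ) := by
      calc 8 * (a * n + Real.log (2 * Fintype.card (Gr d n)) + 1) * (CH * n * 2^n)
          ≤ 8 * ((a + 3 + 3 * d) * n) * (CH * n * 2^n) := by gcongr
        _ = 4 * (a + 3 + 3 * d) * CH / c0 * (2 * c0 * (2^n * (n:ℝ)^2)) := by
            field_simp
            ring
        _ ≤ _ := by gcongr
    refine (add_le_add e2 e5).trans (le_of_eq ?_)
    ring
  have hfin := vol_upper_real (Fintype.card ((layer d n) × Fin 2)) hN1 n hn0 a c0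
    (4 + 4 * (a + 3 + 3 * d) * CH / c0) (2^n * (n:ℝ)^d) _ ha hc0 (by positivity) hqN
    (Real.sqrt (a * n / (2^(n+1) * shp d n))) hs2 hR
  rw [← hNcard]
  calc volume (ball d n) ≤ _ := vol_upper_ball d n
    _ ≤ _ := mul_le_mul_right hpol _
    _ = _ := (ENNReal.ofReal_mul (by positivity)).symm
    _ ≤ _ := ENNReal.ofReal_le_ofReal hfin


end Sol_vol_upper

alias vol_upper := Sol_vol_upper.vol_upper

end HypVol
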