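import Pool.Agent.HypVol.Defs
import Pool.Agent.HypVol.L_cover_main
import Pool.Agent.HypVol.L_ent_num
open MeasureTheory Real ProbabilityTheory
open scoped ENNReal BigOperators

namespace HypVol
namespace Sol_entropy_C





theorem entropy_lower_complex (d : ℕ) (hd : 3 ≤ d) (q r : ℝ) (hq : 1 ≤ q) (hr : 1 < r) (α : Fin d → ℝ) :
    ∃ c : ℝ, 0 < c ∧ ∀ (k : ℕ) (ε : ℝ), 2 ≤ k → 0 < ε →
      (∃ cc : Fin (2^k) → ((Fin d → ℝ) → ℂ), ∀ f ∈ MW ℂ d r (ENNReal.ofReal q) α, ∃ j,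
        eLpNorm (fun x => f x - cc j x) ⊤ (TP d) ≤ ENNReal.ofReal ε) →
      c * (k:ℝ)^(-r) * (Real.log k)^(((d:ℝ)-1) * r + 1/2) ≤ ε := by
  obtain ⟨c0, hc0, h0⟩ := cover_main d hd q r hq hr α
  obtain ⟨c, hc, h1⟩ := ent_num d hd r c0 hr hc0
  refine ⟨c, hc, fun k ε hk hε hcov => ?_⟩
  obtain ⟨n, hn, h2⟩ := h1 k hk
  exact h2.trans (h0 n k ε hn hε hcov)



end Sol_entropy_C

alias entropy_lower_complex := Sol_entropy_C.entropy_lower_complex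

end HypVol
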