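import Mathlib
open MeasureTheory Real ProbabilityTheory
open scoped ENNReal BigOperators

namespace HypVol

section gibbs
variable {X ι : Type} [Fintype X] [Fintype ι]

/-- `exp` of the function with coordinates `u` -/
noncomputable def ex (b : ι → X → ℝ) (u : ι → ℝ) (x : X) : ℝ := Real.exp (∑ i, u i * b i x)

noncomputable def Zf (b : ι → X → ℝ) (u : ι → ℝ) : ℝ := ∑ x, ex b u x

/-- coordinates of the Gibbs measure of `u` (gradient of `log Zf`) -/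
noncomputable def Fm (b : ι → X → ℝ) (u : ι → ℝ) : ι → ℝ := fun i => (∑ x, ex b u x * b i x) / Zf b u

/-- extended system: the constant 1 and the `b i` -/
def bt (b : ι → X → ℝ) : Option ι → X → ℝ := fun o x => match o with
  | none => 1
  | some i => b i x

/-- Gram matrix of the extended system under the Gibbs measure -/
noncomputable def Gp (b : ι → X → ℝ) (u : ι → ℝ) : Matrix (Option ι) (Option ι) ℝ := fun o o' =>
  (∑ x, ex b u x * (bt b o x * bt b o' x)) / Zf b u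

/-- Gram matrix under the density `ex / exp (s² N / 2)` with respect to the uniform measure -/
noncomputable def Gt (b : ι → X → ℝ) (s : ℝ) (u : ι → ℝ) : Matrix (Option ι) (Option ι) ℝ := fun o o' =>
  (∑ x, Real.exp (-(s^2 * Fintype.card ι / 2)) * ex b u x * (bt b o x * bt b o' x)) / Fintype.card X

noncomputable def HS [DecidableEq ι] (b : ι → X → ℝ) (s : ℝ) (u : ι → ℝ) : ℝ :=
  ∑ o, ∑ o', (Gt b s u o o' - (1 : Matrix (Option ι) (Option ι) ℝ) o o')^2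

/-- law of `s` times a standard Gaussian vector -/
noncomputable def gam (ι : Type) [Fintype ι] (s : ℝ) : Measure (ι → ℝ) :=
  Measure.pi (fun _ => gaussianReal 0 (Real.toNNReal (s^2)))

end gibbs

/-! ### the hyperbolic layer -/

/-- one-dimensional dyadic block: `⌊2^(s-1)⌋ ≤ |k| < 2^s` -/
def rho (s : ℕ) : Set ℤ := {k | (2:ℤ)^s / 2 ≤ |k| ∧ |k| < (2:ℤ)^s}

open Classical in
/-- the hyperbolic layer `ΔQ_n`: union of the blocks `ρ(s)` with `s_1 + ... + s_d = n`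
(every such `k` has all `|k j| < 2^n`) -/
noncomputable def layer (d n : ℕ) : Finset (Fin d → ℤ) :=
  (Fintype.piFinset (fun _ : Fin d => Finset.Ioo (-(2:ℤ)^n) ((2:ℤ)^n))).filter
    (fun k => ∃ s : Fin d → ℕ, ∑ j, s j = n ∧ ∀ j, k j ∈ rho (s j))

/-- shapes -/
def Sh (d n : ℕ) : Finset (Fin d → Fin (n+1)) := Finset.univ.filter (fun s => ∑ j, ((s j : Fin (n+1)) : ℕ) = n)

def shp (d n : ℕ) : ℕ := (Sh d n).card

/-- points of the grid, with a marker 0 (real part) or 1 (imaginary part) -/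
abbrev Gr (d n : ℕ) := (Fin d → Fin (2^(n+2))) × Fin 2

noncomputable def th {d n : ℕ} (k : Fin d → ℤ) (x : Fin d → Fin (2^(n+2))) : ℝ :=
  2 * π * (∑ j, (k j : ℝ) * ((x j : ℕ) : ℝ)) / 2^(n+2)

/-- orthonormal system on the grid: `(k,0)` and `(k,1)` are the real coordinates of the
coefficient of `exp(i<k,x>)` -/
noncomputable def tb {d n : ℕ} (β : (layer d n) × Fin 2) (x : Gr d n) : ℝ :=
  Real.sqrt 2 * (if β.2 = x.2 then Real.cos (th β.1.1 x.1)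
    else if β.2 = 0 then Real.sin (th β.1.1 x.1) else - Real.sin (th β.1.1 x.1))

/-- cyclic distance of two grid coordinates, on a dyadic scale -/
def T1 (n : ℕ) (x y : Fin (2^(n+2))) : ℕ :=
  let r := min (max (x:ℕ) y - min (x:ℕ) y) (2^(n+2) - (max (x:ℕ) y - min (x:ℕ) y))
  if r = 0 then n + 2 else n + 2 - Nat.log 2 r

noncomputable def Th (d n : ℕ) (T : Fin d → ℕ) : ℝ := ∑ s ∈ Sh d n, (2:ℝ)^(∑ j, min (s j : ℕ) (T j))

/-- trigonometric polynomial with real coordinates `a` of its coefficients -/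
noncomputable def poly {d n : ℕ} (a : (layer d n) × Fin 2 → ℝ) (x : Fin d → ℝ) : ℂ :=
  ∑ k : layer d n, ((a (k, 0) : ℂ) + (a (k, 1) : ℂ) * Complex.I) *
    Complex.exp (Complex.I * ((∑ j, (k.1 j : ℝ) * x j : ℝ) : ℂ))

/-- unit ball of the sup norm in coefficient space -/
def ball (d n : ℕ) : Set ((layer d n) × Fin 2 → ℝ) := {a | ∀ x : Fin d → ℝ, ‖poly a x‖ ≤ 1}

/-- normalised Lebesgue measure on the torus `[0,2π)^d` -/
noncomputable def TP (d : ℕ) : Measure (Fin d → ℝ) :=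
  Measure.pi (fun _ : Fin d => ENNReal.ofReal (2 * π)⁻¹ • volume.restrict (Set.Ico 0 (2 * π)))

/-- Fourier coefficient -/
noncomputable def fc {d : ℕ} (g : (Fin d → ℝ) → ℂ) (k : Fin d → ℤ) : ℂ :=
  ∫ x, g x * Complex.exp (-(Complex.I * ((∑ j, (k j : ℝ) * x j : ℝ) : ℂ))) ∂(TP d)

/-- `L_1` distance of `poly a` to the functions without spectrum in the layer -/
noncomputable def Eperp {d n : ℕ} (a : (layer d n) × Fin 2 → ℝ) : ℝ :=
  sInf {r : ℝ | ∃ g : (Fin d → ℝ) → ℂ, Integrable g (TP d) ∧ (∀ k ∈ layer d n, fc g k = 0) ∧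
    r = ∫ x, ‖poly a x - g x‖ ∂(TP d)}

def bperp (d n : ℕ) : Set ((layer d n) × Fin 2 → ℝ) := {a | Eperp a ≤ 1}

/-- Bernoulli kernel in one variable -/
noncomputable def F1 (r α x : ℝ) : ℝ :=
  1 + 2 * ∑' k : ℕ, ((k:ℝ)+1)^(-r) * Real.cos (((k:ℝ)+1) * x - α * π / 2)

noncomputable def Fr {d : ℕ} (r : ℝ) (α x : Fin d → ℝ) : ℝ := ∏ j, F1 r (α j) (x j)

/-- the class of functions with bounded mixed derivative -/
def MW (𝕜 : Type) [RCLike 𝕜] (d : ℕ) (r : ℝ) (q : ℝ≥0∞) (α : Fin d → ℝ) :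
    Set ((Fin d → ℝ) → 𝕜) :=
  {f | ∃ φ : (Fin d → ℝ) → 𝕜, MemLp φ q (TP d) ∧ eLpNorm φ q (TP d) ≤ 1 ∧
    f = fun x => ∫ y, Fr r α (x - y) • φ y ∂(TP d)}

/-- `k`-th entropy number in `L_∞`, centres in the set -/
noncomputable def entropyNum {𝕜 : Type} [RCLike 𝕜] {d : ℕ} (k : ℕ) (Θ : Set ((Fin d → ℝ) → 𝕜)) :
    ℝ≥0∞ :=
  ⨅ (ε : ℝ≥0∞) (_ : 0 < ε ∧ ∃ c : Fin (2^k) → ((Fin d → ℝ) → 𝕜), (∀ j, c j ∈ Θ) ∧
    ∀ f ∈ Θ, ∃ j, eLpNorm (fun x => f x - c j x) ⊤ (TP d) ≤ ε), ε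

/-- Fourier coefficient of the kernel `Fr r α` -/
noncomputable def Fh {d : ℕ} (r : ℝ) (α : Fin d → ℝ) (k : Fin d → ℤ) : ℂ :=
  ∏ j, (if k j = 0 then 1 else (((|(k j : ℝ)|)^(-r) : ℝ) : ℂ) *
    Complex.exp (-(Complex.I * (((SignType.sign (k j) : ℤ) : ℝ) * α j * π / 2 : ℝ))))

/-- action of the convolution with `Fr r α` on the coefficients -/
noncomputable def Mact {d n : ℕ} (r : ℝ) (α : Fin d → ℝ) (a : (layer d n) × Fin 2 → ℝ) :
    (layer d n) × Fin 2 → ℝ := fun i =>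
  if i.2 = 0 then (Fh r α i.1.1 * ((a (i.1, 0) : ℂ) + (a (i.1, 1) : ℂ) * Complex.I)).re
  else (Fh r α i.1.1 * ((a (i.1, 0) : ℂ) + (a (i.1, 1) : ℂ) * Complex.I)).im

/-- Kolmogorov width in `L_∞` of a set of functions on the torus -/
noncomputable def kolWidth {𝕜 : Type} [RCLike 𝕜] {d : ℕ} (m : ℕ) (Θ : Set ((Fin d → ℝ) → 𝕜)) :
    ℝ≥0∞ :=
  ⨅ (U : Submodule 𝕜 ((Fin d → ℝ) → 𝕜)) (_ : Module.Finite 𝕜 U ∧ Module.finrank 𝕜 U ≤ m ∧
    ∀ u ∈ U, MemLp u ⊤ (TP d)), ⨆ f ∈ Θ, ⨅ u ∈ U, eLpNorm (fun x => f x - u x) ⊤ (TP d)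

end HypVol
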