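import Pool.Agent.HypVol.Defs
open MeasureTheory Real ProbabilityTheory
open scoped ENNReal BigOperators

namespace HypVol

/-- Kolmogorov width in `L_∞` of a set of functions on the torus -/
noncomputable def kolW2 {𝕜 : Type} [RCLike 𝕜] {d : ℕ} (m : ℕ) (Θ : Set ((Fin d → ℝ) → 𝕜)) :
    ℝ≥0∞ :=
  ⨅ (U : Submodule 𝕜 ((Fin d → ℝ) → 𝕜)) (_ : Module.Finite 𝕜 U ∧ Module.finrank 𝕜 U ≤ m ∧
    ∀ u ∈ U, MemLp u ⊤ (TP d)), ⨆ f ∈ Θ, ⨅ u ∈ U, eLpNorm (fun x => f x - u x) ⊤ (TP d)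

end HypVol
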