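import Pool.Agent.HypVol.Defs
import Pool.Agent.HypVol.L_TP_prob
import Pool.Agent.HypVol.L_fc_poly
open MeasureTheory Real ProbabilityTheory
open scoped ENNReal BigOperators

namespace HypVol
namespace Sol_coef_bound





theorem coef_bound {d n : ℕ} (a : (layer d n) × Fin 2 → ℝ) (ha : a ∈ ball d n) (i : (layer d n) × Fin 2) :
    |a i| ≤ 1 := by
  obtain ⟨k, e⟩ := i
  haveI := TP_prob d
  have h1 : ‖fc (poly a) k.1‖ ≤ 1 := by
    unfold fc
    refine (norm_integral_le_of_norm_le_const (C := 1) ?_).trans ?_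
    · refine Filter.Eventually.of_forall fun x => ?_
      rw [norm_mul]
      have h2 : ‖Complex.exp (-(Complex.I * ((∑ j, (k.1 j : ℝ) * x j : ℝ) : ℂ)))‖ = 1 := by
        have h3 : -(Complex.I * ((∑ j, (k.1 j : ℝ) * x j : ℝ) : ℂ)) =
            ((-(∑ j, (k.1 j : ℝ) * x j) : ℝ) : ℂ) * Complex.I := by
          push_cast; ring
        rw [h3, Complex.norm_exp_ofReal_mul_I]
      rw [h2, mul_one]
      exact ha x
    · simp
  have h4 := fc_poly a k
  rw [h4] at h1
  have hre : ((a (k, 0) : ℂ) + (a (k, 1) : ℂ) * Complex.I).re = a (k, 0) := by simp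
  have him : ((a (k, 0) : ℂ) + (a (k, 1) : ℂ) * Complex.I).im = a (k, 1) := by simp
  have h5 := (Complex.abs_re_le_norm _).trans h1
  have h6 := (Complex.abs_im_le_norm _).trans h1
  rw [hre] at h5
  rw [him] at h6
  fin_cases e
  · exact h5
  · exact h6


end Sol_coef_bound

alias coef_bound := Sol_coef_bound.coef_bound

end HypVol
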