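import Pool.Agent.HypVol.Defs
import Pool.Agent.HypVol.L_coef_bound
open MeasureTheory Real ProbabilityTheory
open scoped ENNReal BigOperators

namespace HypVol
namespace Sol_ball_compact




theorem ball_compact (d n : ℕ) : IsCompact (ball d n) := by
  apply Metric.isCompact_of_isClosed_isBounded
  · have h : ball d n = ⋂ x : Fin d → ℝ, {a | ‖poly a x‖ ≤ 1} := by
      ext a; simp [ball]
    rw [h]
    refine isClosed_iInter fun x => ?_
    have hc : Continuous fun a : (layer d n) × Fin 2 → ℝ => poly a x := by
      unfold poly
      fun_prop
    exact isClosed_le hc.norm continuous_const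
  · refine (Metric.isBounded_closedBall (x := (0 : (layer d n) × Fin 2 → ℝ)) (r := 1)).subset ?_
    intro a ha
    rw [mem_closedBall_zero_iff, pi_norm_le_iff_of_nonneg zero_le_one]
    intro i
    rw [Real.norm_eq_abs]
    exact coef_bound a ha i


end Sol_ball_compact

alias ball_compact := Sol_ball_compact.ball_compact

end HypVol
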