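import Pool.Agent.HypVol.Defs
import Pool.Agent.HypVol.L_mem_layer
import Pool.Agent.HypVol.L_TP_prob
open MeasureTheory Real ProbabilityTheory
open scoped ENNReal BigOperators

namespace HypVol
namespace Sol_class_split






noncomputable def csA (r a : ℝ) (k : ℤ) : ℂ := if k = 0 then 1 else (((|(k : ℝ)|)^(-r) : ℝ) : ℂ) *
    Complex.exp (-(Complex.I * (((SignType.sign k : ℤ) : ℝ) * a * π / 2 : ℝ)))

theorem csA_nrmexp (t : ℝ) : ‖Complex.exp (-(Complex.I * (t : ℂ)))‖ = 1 := by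
  have : -(Complex.I * (t : ℂ)) = ((-t : ℝ) : ℂ) * Complex.I := by push_cast; ring
  rw [this]; exact Complex.norm_exp_ofReal_mul_I _

theorem csA_nrmexp' (t : ℝ) : ‖Complex.exp (Complex.I * (t : ℂ))‖ = 1 := by
  rw [mul_comm]; exact Complex.norm_exp_ofReal_mul_I _

theorem csA_norm (r a : ℝ) (k : ℤ) : ‖csA r a k‖ = if k = 0 then 1 else (|(k : ℝ)|)^(-r) := by
  unfold csA
  split_ifs with h
  · simp
  · rw [norm_mul, csA_nrmexp, mul_one, Complex.norm_real, Real.norm_of_nonneg]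
    exact Real.rpow_nonneg (abs_nonneg _) _

theorem csA_summ0 (r : ℝ) (hr : 1 < r) : Summable (fun n : ℕ => ((n : ℝ) + 1)^(-r)) := by
  have h : Summable (fun n : ℕ => (n : ℝ)^(-r)) := Real.summable_nat_rpow.2 (by linarith)
  have := (summable_nat_add_iff 1).2 h
  simpa using this

theorem csA_pos (r a : ℝ) (n : ℕ) : csA r a ((n : ℤ) + 1) = ((((n : ℝ) + 1)^(-r) : ℝ) : ℂ) *
    Complex.exp (-(Complex.I * ((a * π / 2 : ℝ) : ℂ))) := by
  have h : ((n : ℤ) + 1) ≠ 0 := by omega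
  have h1 : SignType.sign ((n : ℤ) + 1) = 1 := sign_pos (by omega)
  unfold csA
  rw [if_neg h, h1]
  have h2 : |(((n : ℤ) + 1 : ℤ) : ℝ)| = (n : ℝ) + 1 := by
    push_cast
    exact abs_of_nonneg (by positivity)
  rw [h2]
  simp

theorem csA_neg (r a : ℝ) (n : ℕ) : csA r a (-((n : ℤ) + 1)) = ((((n : ℝ) + 1)^(-r) : ℝ) : ℂ) *
    Complex.exp (Complex.I * ((a * π / 2 : ℝ) : ℂ)) := by
  have h : -((n : ℤ) + 1) ≠ 0 := by omega
  have h1 : SignType.sign (-((n : ℤ) + 1)) = -1 := sign_neg (by omega)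
  unfold csA
  rw [if_neg h, h1]
  have h2 : |((-((n : ℤ) + 1) : ℤ) : ℝ)| = (n : ℝ) + 1 := by
    push_cast
    rw [abs_neg]
    exact abs_of_nonneg (by positivity)
  rw [h2]
  congr 2
  simp
  ring

theorem csA_summ (r a : ℝ) (hr : 1 < r) : Summable (fun k : ℤ => ‖csA r a k‖) := by
  have h0 := csA_summ0 r hr
  have hn : ∀ n : ℕ, ‖csA r a ((n : ℤ) + 1)‖ = ((n : ℝ) + 1)^(-r) := by
    intro n
    rw [csA_pos, norm_mul, csA_nrmexp, mul_one, Complex.norm_real, Real.norm_of_nonneg]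
    positivity
  have hn' : ∀ n : ℕ, ‖csA r a (-((n : ℤ) + 1))‖ = ((n : ℝ) + 1)^(-r) := by
    intro n
    rw [csA_neg, norm_mul, csA_nrmexp', mul_one, Complex.norm_real, Real.norm_of_nonneg]
    positivity
  apply Summable.of_nat_of_neg_add_one
  · rw [← summable_nat_add_iff 1]
    push_cast
    simp_rw [hn]
    exact h0
  · simp_rw [hn']
    exact h0

theorem csA_F1 (r a x : ℝ) (hr : 1 < r) :
    (F1 r a x : ℂ) = ∑' k : ℤ, csA r a k * Complex.exp (Complex.I * (((k : ℝ) * x : ℝ) : ℂ)) := by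
  have hs : Summable (fun k : ℤ => csA r a k * Complex.exp (Complex.I * (((k : ℝ) * x : ℝ) : ℂ))) := by
    apply Summable.of_norm
    have : ∀ k : ℤ, ‖csA r a k * Complex.exp (Complex.I * (((k : ℝ) * x : ℝ) : ℂ))‖ = ‖csA r a k‖ := by
      intro k; rw [norm_mul, csA_nrmexp', mul_one]
    simp_rw [this]
    exact csA_summ r a hr
  have s1 : Summable (fun n : ℕ => csA r a (n : ℤ) * Complex.exp (Complex.I * ((((n : ℤ) : ℝ) * x : ℝ) : ℂ))) :=
    hs.comp_injective Nat.cast_injective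
  have s2 : Summable (fun n : ℕ => csA r a (-((n : ℤ) + 1)) * Complex.exp (Complex.I * ((((-((n : ℤ) + 1) : ℤ) : ℝ) * x : ℝ) : ℂ))) :=
    hs.comp_injective (i := fun n : ℕ => (-((n : ℤ) + 1))) (by intro m n h; simpa using h)
  have s1' : Summable (fun n : ℕ => csA r a ((n : ℤ) + 1) * Complex.exp (Complex.I * (((((n : ℤ) + 1 : ℤ) : ℝ) * x : ℝ) : ℂ))) :=
    hs.comp_injective (i := fun n : ℕ => (((n : ℤ) + 1))) (by intro m n h; simpa using h)
  rw [tsum_of_nat_of_neg_add_one s1 s2, s1.tsum_eq_zero_add]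
  have e0 : csA r a ((0 : ℕ) : ℤ) * Complex.exp (Complex.I * (((((0 : ℕ) : ℤ) : ℝ) * x : ℝ) : ℂ)) = 1 := by
    simp [csA]
  rw [e0, add_assoc]
  push_cast
  push_cast at s1' s2
  rw [← s1'.tsum_add s2]
  unfold F1
  push_cast
  congr 1
  rw [← tsum_mul_left]
  congr 1
  funext n
  rw [csA_pos, csA_neg, Complex.cos]
  have h1 : (((n : ℂ) + 1) * x - a * π / 2) * Complex.I = -(Complex.I * ((a * π / 2 : ℝ) : ℂ)) +
      Complex.I * (((n : ℂ) + 1) * x) := by push_cast; ring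
  have h2 : -(((n : ℂ) + 1) * x - a * π / 2) * Complex.I = (Complex.I * ((a * π / 2 : ℝ) : ℂ)) +
      Complex.I * (-((n : ℂ) + 1) * x) := by push_cast; ring
  rw [h1, h2, Complex.exp_add, Complex.exp_add]
  push_cast
  ring_nf

theorem csB_zero (g : Fin 0 → ℤ → ℂ) :
    Summable (fun k : Fin 0 → ℤ => ‖∏ j, g j (k j)‖) ∧
    HasSum (fun k : Fin 0 → ℤ => ∏ j, g j (k j)) (∏ j, ∑' k, g j k) := by
  have h1 : (fun k : Fin 0 → ℤ => ∏ j, g j (k j)) = fun _ => 1 := by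
    funext k; exact Fin.prod_univ_zero _
  have h2 : (fun k : Fin 0 → ℤ => ‖∏ j, g j (k j)‖) = fun _ => 1 := by
    funext k; rw [Fin.prod_univ_zero]; exact norm_one
  rw [h1, h2, Fin.prod_univ_zero]
  exact ⟨(hasSum_unique (fun _ : Fin 0 → ℤ => (1:ℝ))).summable, hasSum_unique (fun _ : Fin 0 → ℤ => (1:ℂ))⟩

theorem csB_succ (d : ℕ) (g : Fin (d+1) → ℤ → ℂ) (hg : ∀ j, Summable (fun k => ‖g j k‖))
    (h1 : Summable (fun k : Fin d → ℤ => ‖∏ j : Fin d, g j.succ (k j)‖))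
    (h2 : HasSum (fun k : Fin d → ℤ => ∏ j : Fin d, g j.succ (k j)) (∏ j : Fin d, ∑' k, g j.succ k)) :
    Summable (fun k : Fin (d+1) → ℤ => ‖∏ j, g j (k j)‖) ∧
    HasSum (fun k : Fin (d+1) → ℤ => ∏ j, g j (k j)) (∏ j, ∑' k, g j k) := by
  have he : ∀ q : ℤ × (Fin d → ℤ), ∏ j, g j (Fin.consEquiv (fun _ => ℤ) q j) =
      g 0 q.1 * ∏ j : Fin d, g j.succ (q.2 j) := by
    intro q
    rw [Fin.prod_univ_succ]
    rfl
  have hsum : Summable (fun q : ℤ × (Fin d → ℤ) => ‖g 0 q.1 * ∏ j : Fin d, g j.succ (q.2 j)‖) :=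
    Summable.mul_norm (f := g 0) (g := fun k : Fin d → ℤ => ∏ j : Fin d, g j.succ (k j)) (hg 0) h1
  constructor
  · rw [← (Fin.consEquiv (fun _ : Fin (d+1) => ℤ)).summable_iff]
    refine hsum.congr ?_
    intro q
    show _ = _
    simp only [Function.comp]
    rw [he]
  · rw [← (Fin.consEquiv (fun _ : Fin (d+1) => ℤ)).hasSum_iff]
    have : ((fun k : Fin (d+1) → ℤ => ∏ j, g j (k j)) ∘ (Fin.consEquiv (fun _ : Fin (d+1) => ℤ))) = fun q => g 0 q.1 * ∏ j : Fin d, g j.succ (q.2 j) := by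
      funext q
      simp only [Function.comp]
      rw [he]
    rw [this, Fin.prod_univ_succ]
    exact HasSum.mul (f := g 0) (g := fun k : Fin d → ℤ => ∏ j : Fin d, g j.succ (k j))
      (Summable.of_norm (f := g 0) (hg 0)).hasSum h2
      (Summable.of_norm (f := fun q : ℤ × (Fin d → ℤ) => g 0 q.1 * ∏ j : Fin d, g j.succ (q.2 j)) hsum)

theorem csB_prod : ∀ (d : ℕ) (g : Fin d → ℤ → ℂ), (∀ j, Summable (fun k => ‖g j k‖)) →
    Summable (fun k : Fin d → ℤ => ‖∏ j, g j (k j)‖) ∧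
    HasSum (fun k : Fin d → ℤ => ∏ j, g j (k j)) (∏ j, ∑' k, g j k)
  | 0, g, _ => csB_zero g
  | d+1, g, hg => by
    obtain ⟨h1, h2⟩ := csB_prod d (fun j => g j.succ) (fun j => hg j.succ)
    exact csB_succ d g hg h1 h2

noncomputable def csE {d : ℕ} (k : Fin d → ℤ) (x : Fin d → ℝ) : ℂ :=
  Complex.exp (Complex.I * ((∑ j, (k j : ℝ) * x j : ℝ) : ℂ))

theorem csE_cont {d : ℕ} (k : Fin d → ℤ) : Continuous (csE k) := by
  unfold csE
  fun_prop

theorem csE_norm {d : ℕ} (k : Fin d → ℤ) (x : Fin d → ℝ) : ‖csE k x‖ = 1 := by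
  unfold csE
  rw [mul_comm]; exact Complex.norm_exp_ofReal_mul_I _

theorem csE_conj {d : ℕ} (k : Fin d → ℤ) (x : Fin d → ℝ) :
    (starRingEnd ℂ) (csE k x) = Complex.exp (-(Complex.I * ((∑ j, (k j : ℝ) * x j : ℝ) : ℂ))) := by
  unfold csE
  rw [← Complex.exp_conj, map_mul, Complex.conj_I, Complex.conj_ofReal]
  ring_nf

theorem csE_mul {d : ℕ} (k l : Fin d → ℤ) (x : Fin d → ℝ) :
    (starRingEnd ℂ) (csE k x) * csE l x = csE (l - k) x := by
  rw [csE_conj]
  unfold csE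
  rw [← Complex.exp_add]
  congr 1
  push_cast
  simp only [Pi.sub_apply, Int.cast_sub, sub_mul, Finset.sum_sub_distrib]
  ring

theorem csE_int1 (m : ℤ) : (∫ x, Complex.exp (Complex.I * (((m : ℝ) * x : ℝ) : ℂ))
    ∂(ENNReal.ofReal (2 * π)⁻¹ • (volume.restrict (Set.Ico 0 (2 * π)) : Measure ℝ))) = if m = 0 then 1 else 0 := by
  rw [integral_smul_measure, integral_Ico_eq_integral_Ioc, ← intervalIntegral.integral_of_le (by positivity)]
  rw [ENNReal.toReal_ofReal (by positivity)]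
  split_ifs with h
  · subst h
    have hπ : (π : ℂ) ≠ 0 := by exact_mod_cast Real.pi_ne_zero
    simp
    field_simp
  · have hm : (Complex.I * (m : ℂ)) ≠ 0 := mul_ne_zero Complex.I_ne_zero (by exact_mod_cast h)
    have h1 : (∫ x in (0:ℝ)..(2*π), Complex.exp (Complex.I * (((m : ℝ) * x : ℝ) : ℂ))) =
        ∫ x in (0:ℝ)..(2*π), Complex.exp ((Complex.I * (m : ℂ)) * (x : ℂ)) := by
      congr 1
      funext x
      congr 1
      push_cast
      ring
    rw [h1, integral_exp_mul_complex hm]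
    have h2 : Complex.exp (Complex.I * (m : ℂ) * ((2 * π : ℝ) : ℂ)) = 1 := by
      have := Complex.exp_int_mul_two_pi_mul_I m
      rw [← this]
      congr 1
      push_cast
      ring
    rw [h2]
    simp

theorem csE_int {d : ℕ} (m : Fin d → ℤ) : (∫ x, csE m x ∂(TP d)) = if m = 0 then 1 else 0 := by
  have h1 : ∀ x : Fin d → ℝ, csE m x = ∏ j, Complex.exp (Complex.I * (((m j : ℝ) * x j : ℝ) : ℂ)) := by
    intro x
    unfold csE
    rw [← Complex.exp_sum]
    congr 1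
    push_cast
    rw [Finset.mul_sum]
  simp_rw [h1]
  unfold TP
  haveI : ∀ _ : Fin d, IsFiniteMeasure (ENNReal.ofReal (2 * π)⁻¹ • (volume.restrict (Set.Ico 0 (2 * π)) : Measure ℝ)) :=
    fun _ => ⟨by
      rw [Measure.smul_apply, Measure.restrict_apply_univ, Real.volume_Ico]
      exact ENNReal.mul_lt_top ENNReal.ofReal_lt_top ENNReal.ofReal_lt_top⟩
  rw [integral_fintype_prod_eq_prod (fun j (x : ℝ) => Complex.exp (Complex.I * (((m j : ℝ) * x : ℝ) : ℂ)))]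
  simp_rw [csE_int1]
  split_ifs with h
  · subst h
    simp
  · obtain ⟨j, hj⟩ := Function.ne_iff.1 h
    apply Finset.prod_eq_zero (Finset.mem_univ j)
    exact if_neg hj

theorem csE_orth {d : ℕ} (k l : Fin d → ℤ) :
    (∫ x, (starRingEnd ℂ) (csE k x) * csE l x ∂(TP d)) = if k = l then 1 else 0 := by
  simp_rw [csE_mul]
  rw [csE_int]
  by_cases h : k = l
  · rw [if_pos h, if_pos (by rw [h, sub_self])]
  · rw [if_neg h, if_neg (by intro h2; exact h (sub_eq_zero.1 h2).symm)]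

theorem csE_memLp {d : ℕ} (k : Fin d → ℤ) : MemLp (csE k) 2 (TP d) := by
  haveI := TP_prob d
  exact MemLp.of_bound (csE_cont k).aestronglyMeasurable 1 (Filter.Eventually.of_forall fun x => (csE_norm k x).le)

noncomputable def csV {d : ℕ} (k : Fin d → ℤ) : Lp ℂ 2 (TP d) := (csE_memLp k).toLp (csE k)

theorem csV_orth (d : ℕ) : Orthonormal ℂ (fun k : Fin d → ℤ => csV k) := by
  classical
  rw [orthonormal_iff_ite]
  intro k l
  rw [L2.inner_def]
  have : (∫ x, inner ℂ ((csV k : Lp ℂ 2 (TP d)) x) ((csV l : Lp ℂ 2 (TP d)) x) ∂(TP d)) =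
      ∫ x, (starRingEnd ℂ) (csE k x) * csE l x ∂(TP d) := by
    apply integral_congr_ae
    filter_upwards [(csE_memLp k).coeFn_toLp, (csE_memLp l).coeFn_toLp] with x h1 h2
    unfold csV
    rw [h1, h2, RCLike.inner_apply]
    ring
  rw [this, csE_orth]

theorem csE_bessel {d : ℕ} (φ : (Fin d → ℝ) → ℂ) (hφ : MemLp φ 2 (TP d))
    (h1 : eLpNorm φ 2 (TP d) ≤ 1) (S : Finset (Fin d → ℤ)) : ∑ k ∈ S, ‖fc φ k‖ ^ 2 ≤ 1 := by
  have h := (csV_orth d).sum_inner_products_le (hφ.toLp φ) (s := S)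
  have hn : ‖hφ.toLp φ‖ ≤ 1 := by
    rw [Lp.norm_toLp]
    exact ENNReal.toReal_le_of_le_ofReal zero_le_one (by simpa using h1)
  have hf : ∀ k : Fin d → ℤ, fc φ k = inner ℂ (csV k) (hφ.toLp φ) := by
    intro k
    rw [L2.inner_def]
    unfold fc
    apply integral_congr_ae
    filter_upwards [(csE_memLp k).coeFn_toLp, hφ.coeFn_toLp] with x h1 h2
    unfold csV
    rw [h1, h2, RCLike.inner_apply, csE_conj]
  simp_rw [hf]
  refine h.trans ?_
  calc ‖hφ.toLp φ‖ ^ 2 ≤ 1 ^ 2 := by gcongr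
    _ = 1 := one_pow 2

theorem csA_bound (r a : ℝ) (hr : 1 < r) (m : ℤ) :
    ‖csA r a m‖ ≤ (2:ℝ) ^ r * (2:ℝ) ^ (-(r * (Nat.size m.natAbs : ℝ))) := by
  rw [csA_norm]
  split_ifs with h
  · subst h
    simp only [Int.natAbs_zero, Nat.size_zero, Nat.cast_zero, mul_zero, neg_zero, Real.rpow_zero, mul_one]
    exact Real.one_le_rpow (by norm_num) (by linarith)
  · have hpos : 0 < m.natAbs := Int.natAbs_pos.2 h
    have hs : 0 < Nat.size m.natAbs := Nat.size_pos.2 hpos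
    obtain ⟨s, hs'⟩ : ∃ s, Nat.size m.natAbs = s + 1 := ⟨Nat.size m.natAbs - 1, by omega⟩
    have h1 : 2 ^ s ≤ m.natAbs := Nat.lt_size.1 (by omega)
    have h2 : |(m : ℝ)| = (m.natAbs : ℝ) := by
      rw [Nat.cast_natAbs]; push_cast; rfl
    have h3 : ((2:ℝ) ^ (s:ℝ)) ≤ (m.natAbs : ℝ) := by
      rw [Real.rpow_natCast]
      exact_mod_cast h1
    rw [h2, hs']
    calc (m.natAbs : ℝ) ^ (-r) ≤ ((2:ℝ) ^ (s:ℝ)) ^ (-r) :=
          Real.rpow_le_rpow_of_nonpos (by positivity) h3 (by linarith)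
      _ = (2:ℝ) ^ r * (2:ℝ) ^ (-(r * ((s + 1 : ℕ) : ℝ))) := by
          rw [← Real.rpow_mul (by norm_num), ← Real.rpow_add (by norm_num)]
          congr 1
          push_cast
          ring

theorem csFh_eq {d : ℕ} (r : ℝ) (α : Fin d → ℝ) (k : Fin d → ℤ) : Fh r α k = ∏ j, csA r (α j) (k j) := rfl

theorem csFh_bound {d : ℕ} (r : ℝ) (hr : 1 < r) (α : Fin d → ℝ) (n : ℕ) (k : Fin d → ℤ)
    (hk : k ∈ layer d n) : ‖Fh r α k‖ ≤ (2:ℝ) ^ (r * d) * (2:ℝ) ^ (-(r * n)) := by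
  rw [csFh_eq, norm_prod]
  rw [mem_layer_iff] at hk
  calc ∏ j, ‖csA r (α j) (k j)‖ ≤ ∏ j : Fin d, ((2:ℝ) ^ r * (2:ℝ) ^ (-(r * (Nat.size (k j).natAbs : ℝ)))) :=
        Finset.prod_le_prod (fun j _ => norm_nonneg _) (fun j _ => csA_bound r (α j) hr (k j))
    _ = (2:ℝ) ^ (r * d) * (2:ℝ) ^ (-(r * n)) := by
        rw [Finset.prod_mul_distrib, Finset.prod_const, ← Real.rpow_sum_of_pos (by norm_num : (0:ℝ) < 2)]
        rw [Finset.card_univ, Fintype.card_fin, ← Real.rpow_natCast, ← Real.rpow_mul (by norm_num)]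
        congr 2
        rw [Finset.sum_neg_distrib, ← Finset.mul_sum, ← hk]
        push_cast
        rfl

theorem csKer {d : ℕ} (r : ℝ) (hr : 1 < r) (α z : Fin d → ℝ) :
    HasSum (fun k : Fin d → ℤ => Fh r α k * csE k z) ((Fr r α z : ℝ) : ℂ) := by
  have h := (csB_prod d (fun j m => csA r (α j) m * Complex.exp (Complex.I * (((m : ℝ) * z j : ℝ) : ℂ))) ?_).2
  · have e1 : (∏ j, ∑' k, (fun j m => csA r (α j) m * Complex.exp (Complex.I * (((m : ℝ) * z j : ℝ) : ℂ))) j k) =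
        ((Fr r α z : ℝ) : ℂ) := by
      unfold Fr
      push_cast
      apply Finset.prod_congr rfl
      intro j _
      have := csA_F1 r (α j) (z j) hr
      push_cast at this
      rw [this]
    rw [e1] at h
    refine h.congr_fun ?_
    intro k
    show _ = _
    rw [Finset.prod_mul_distrib, ← csFh_eq, ← Complex.exp_sum]
    congr 1
    unfold csE
    congr 1
    push_cast
    rw [Finset.mul_sum]
  · intro j
    have : ∀ m : ℤ, ‖csA r (α j) m * Complex.exp (Complex.I * (((m : ℝ) * z j : ℝ) : ℂ))‖ = ‖csA r (α j) m‖ := by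
      intro m; rw [norm_mul, csA_nrmexp', mul_one]
    simp_rw [this]
    exact csA_summ r (α j) hr

theorem csFh_summ {d : ℕ} (r : ℝ) (hr : 1 < r) (α : Fin d → ℝ) : Summable (fun k : Fin d → ℤ => ‖Fh r α k‖) :=
  (csB_prod d (fun j m => csA r (α j) m) (fun j => csA_summ r (α j) hr)).1

theorem csKey {d : ℕ} (r : ℝ) (hr : 1 < r) (α : Fin d → ℝ) (φ : (Fin d → ℝ) → ℂ)
    (hφi : Integrable φ (TP d)) (x : Fin d → ℝ) :
    HasSum (fun k : Fin d → ℤ => Fh r α k * fc φ k * csE k x) (∫ y, Fr r α (x - y) • φ y ∂(TP d)) := by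
  have hn : ∀ (k : Fin d → ℤ) (y : Fin d → ℝ), ‖Fh r α k * csE k (x - y) * φ y‖ = ‖Fh r α k‖ * ‖φ y‖ := by
    intro k y
    rw [norm_mul, norm_mul, csE_norm, mul_one]
  have hI : ∀ k : Fin d → ℤ, Integrable (fun y => Fh r α k * csE k (x - y) * φ y) (TP d) := by
    intro k
    refine (hφi.norm.const_mul ‖Fh r α k‖).mono' ?_ (Filter.Eventually.of_forall fun y => (hn k y).le)
    refine AEStronglyMeasurable.mul ?_ hφi.1
    refine Continuous.aestronglyMeasurable ?_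
    exact continuous_const.mul ((csE_cont k).comp (continuous_const.sub continuous_id))
  have hS : Summable (fun k : Fin d → ℤ => ∫ y, ‖Fh r α k * csE k (x - y) * φ y‖ ∂(TP d)) := by
    simp_rw [hn]
    simp_rw [integral_const_mul]
    exact (csFh_summ r hr α).mul_right _
  have h := hasSum_integral_of_summable_integral_norm hI hS
  have e1 : ∀ y, (∑' k : Fin d → ℤ, Fh r α k * csE k (x - y) * φ y) = Fr r α (x - y) • φ y := by
    intro y
    rw [((csKer r hr α (x - y)).mul_right (φ y)).tsum_eq, Complex.real_smul]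
  simp_rw [e1] at h
  refine h.congr_fun ?_
  intro k
  show _ = _
  unfold fc
  rw [mul_right_comm, ← integral_const_mul]
  apply integral_congr_ae
  refine Filter.Eventually.of_forall fun y => ?_
  show _ = _
  have e2 : csE k (x - y) = csE k x * (starRingEnd ℂ) (csE k y) := by
    rw [csE_conj]
    unfold csE
    rw [← Complex.exp_add]
    congr 1
    simp only [Pi.sub_apply]
    push_cast
    simp only [mul_sub, Finset.sum_sub_distrib]
    ring
  simp only []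
  rw [e2, csE_conj]
  ring

theorem class_split (d : ℕ) (r : ℝ) (hr : 1 < r) (α : Fin d → ℝ) : ∃ C : ℝ, 0 < C ∧
    ∀ (p : ℝ≥0∞), 2 ≤ p → ∀ f ∈ MW ℂ d r p α, ∃ A : ∀ n : ℕ, (layer d n) × Fin 2 → ℝ,
      (∀ n, ∑ i, A n i ^ 2 ≤ (C * (2:ℝ)^(-(r * n)))^2) ∧ ∀ x, HasSum (fun n => poly (A n) x) (f x) := by
  haveI := TP_prob d
  refine ⟨(2:ℝ) ^ (r * d), by positivity, ?_⟩
  intro p hp f hf
  obtain ⟨φ, hφp, hφ1, rfl⟩ := hf
  have hφ2 : MemLp φ 2 (TP d) := hφp.mono_exponent hp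
  have hφ21 : eLpNorm φ 2 (TP d) ≤ 1 := (eLpNorm_le_eLpNorm_of_exponent_le hp hφp.1).trans hφ1
  have hφi : Integrable φ (TP d) := hφ2.integrable (by norm_num)
  let A : ∀ n : ℕ, (layer d n) × Fin 2 → ℝ := fun n i =>
    if i.2 = 0 then (Fh r α i.1.1 * fc φ i.1.1).re else (Fh r α i.1.1 * fc φ i.1.1).im
  have hA0 : ∀ n (k : layer d n), A n (k, 0) = (Fh r α k.1 * fc φ k.1).re := fun n k => if_pos rfl
  have hA1 : ∀ n (k : layer d n), A n (k, 1) = (Fh r α k.1 * fc φ k.1).im := fun n k => if_neg (by norm_num)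
  refine ⟨A, ?_, ?_⟩
  · intro n
    have h1 : ∑ i, A n i ^ 2 = ∑ k : layer d n, ‖Fh r α k.1 * fc φ k.1‖ ^ 2 := by
      rw [Fintype.sum_prod_type]
      apply Finset.sum_congr rfl
      intro k _
      rw [Fin.sum_univ_two, ← Complex.normSq_eq_norm_sq, Complex.normSq_apply, hA0, hA1]
      ring
    rw [h1]
    have h2 : ∀ k : layer d n, ‖Fh r α k.1 * fc φ k.1‖ ^ 2 ≤
        ((2:ℝ) ^ (r * d) * (2:ℝ) ^ (-(r * n))) ^ 2 * ‖fc φ k.1‖ ^ 2 := by
      intro k
      rw [norm_mul, mul_pow]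
      have := csFh_bound r hr α n k.1 k.2
      gcongr
    calc ∑ k : layer d n, ‖Fh r α k.1 * fc φ k.1‖ ^ 2
        ≤ ∑ k : layer d n, ((2:ℝ) ^ (r * d) * (2:ℝ) ^ (-(r * n))) ^ 2 * ‖fc φ k.1‖ ^ 2 :=
          Finset.sum_le_sum (fun k _ => h2 k)
      _ = ((2:ℝ) ^ (r * d) * (2:ℝ) ^ (-(r * n))) ^ 2 * ∑ k ∈ layer d n, ‖fc φ k‖ ^ 2 := by
          rw [← Finset.mul_sum, Finset.sum_coe_sort (layer d n) (fun k => ‖fc φ k‖ ^ 2)]
      _ ≤ ((2:ℝ) ^ (r * d) * (2:ℝ) ^ (-(r * n))) ^ 2 * 1 := by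
          have := csE_bessel φ hφ2 hφ21 (layer d n)
          gcongr
      _ = _ := mul_one _
  · intro x
    have key := csKey r hr α φ hφi x
    let e : (Σ n : ℕ, {k // k ∈ layer d n}) → (Fin d → ℤ) := fun s => s.2.1
    have hb : Function.Bijective e := by
      constructor
      · rintro ⟨n, k, hk⟩ ⟨m, l, hl⟩ h
        have h' : k = l := h
        subst h'
        have : n = m := ((mem_layer_iff d n k).1 hk).symm.trans ((mem_layer_iff d m k).1 hl)
        subst this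
        rfl
      · intro k
        exact ⟨⟨_, k, (mem_layer_iff d _ k).2 rfl⟩, rfl⟩
    have h3 := ((Equiv.ofBijective e hb).hasSum_iff).2 key
    refine HasSum.sigma h3 ?_
    intro n
    have h4 : poly (A n) x = ∑ k : {k // k ∈ layer d n}, Fh r α k.1 * fc φ k.1 * csE k.1 x := by
      unfold poly
      apply Finset.sum_congr rfl
      intro k _
      rw [hA0, hA1, Complex.re_add_im]
      rfl
    rw [h4]
    exact hasSum_fintype _


end Sol_class_split

alias class_split := Sol_class_split.class_split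

end HypVol
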