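import Pool.Agent.HypVol.Defs
open MeasureTheory Real ProbabilityTheory
open scoped ENNReal BigOperators

namespace HypVol
namespace Sol_disc_poly



/-- character -/
noncomputable def chi {d : ℕ} (k : Fin d → ℤ) (x : Fin d → ℝ) : ℂ :=
  Complex.exp (Complex.I * ((∑ j, (k j : ℝ) * x j : ℝ) : ℂ))

lemma chi_norm {d : ℕ} (k : Fin d → ℤ) (x : Fin d → ℝ) : ‖chi k x‖ = 1 := by
  unfold chi
  rw [mul_comm]
  exact Complex.norm_exp_ofReal_mul_I _

lemma chi_prod {d : ℕ} (k : Fin d → ℤ) (x : Fin d → ℝ) :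
    chi k x = ∏ j, Complex.exp (Complex.I * ((k j : ℝ) * x j : ℝ)) := by
  unfold chi
  rw [← Complex.exp_sum]
  congr 1
  push_cast
  rw [Finset.mul_sum]

lemma chi_mul_freq {d : ℕ} (k l : Fin d → ℤ) (x : Fin d → ℝ) :
    chi k x * chi l x = chi (k + l) x := by
  unfold chi
  rw [← Complex.exp_add]
  congr 1
  push_cast
  rw [← mul_add, ← Finset.sum_add_distrib]
  congr 1
  refine Finset.sum_congr rfl (fun j _ => ?_)
  simp only [Pi.add_apply]
  push_cast
  ring

lemma chi_sub {d : ℕ} (k : Fin d → ℤ) (x y : Fin d → ℝ) :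
    ‖chi k x - chi k y‖ ≤ |∑ j, (k j : ℝ) * (x j - y j)| := by
  have h1 : chi k x = chi k y * Complex.exp (Complex.I * ((∑ j, (k j : ℝ) * (x j - y j) : ℝ) : ℂ)) := by
    unfold chi
    rw [← Complex.exp_add]
    congr 1
    push_cast
    rw [← mul_add, ← Finset.sum_add_distrib]
    congr 1
    refine Finset.sum_congr rfl (fun j _ => ?_)
    ring
  rw [h1, ← mul_sub_one, norm_mul, chi_norm, one_mul]
  have := Real.norm_exp_I_mul_ofReal_sub_one_le (x := ∑ j, (k j : ℝ) * (x j - y j))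
  rwa [Real.norm_eq_abs] at this

lemma chi_per {d : ℕ} (k m : Fin d → ℤ) (x : Fin d → ℝ) :
    chi k (fun j => x j + 2 * π * (m j : ℝ)) = chi k x := by
  unfold chi
  have h1 : ((∑ j, (k j : ℝ) * (x j + 2 * π * (m j : ℝ)) : ℝ) : ℂ) =
      ((∑ j, (k j : ℝ) * x j : ℝ) : ℂ) + 2 * π * ((∑ j, k j * m j : ℤ) : ℂ) := by
    push_cast
    rw [Finset.mul_sum, ← Finset.sum_add_distrib]
    refine Finset.sum_congr rfl (fun j _ => ?_)
    ring
  rw [h1, mul_add, Complex.exp_add]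
  have h2 : Complex.I * (2 * π * ((∑ j, k j * m j : ℤ) : ℂ)) =
      ((∑ j, k j * m j : ℤ) : ℂ) * (2 * π * Complex.I) := by ring
  rw [h2, Complex.exp_int_mul_two_pi_mul_I, mul_one]

lemma orth {d : ℕ} (M : ℕ) (hM : 0 < M) (l : Fin d → ℤ) (hl : l ≠ 0)
    (hlM : ∀ j, |l j| < (M : ℤ)) :
    ∑ g : Fin d → Fin M, chi l (fun j => 2 * π * ((g j : ℕ) : ℝ) / M) = 0 := by
  obtain ⟨j0, hj0⟩ := Function.ne_iff.1 hl
  simp only [Pi.zero_apply] at hj0
  have hMr : (M : ℝ) ≠ 0 := by exact_mod_cast hM.ne'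
  have hMc : (M : ℂ) ≠ 0 := by exact_mod_cast hM.ne'
  have h1 : ∀ g : Fin d → Fin M, chi l (fun j => 2 * π * ((g j : ℕ) : ℝ) / M) =
      ∏ j, (Complex.exp (Complex.I * ((l j : ℝ) * (2 * π / M) : ℝ))) ^ ((g j : ℕ)) := by
    intro g
    rw [chi_prod]
    refine Finset.prod_congr rfl (fun j _ => ?_)
    rw [← Complex.exp_nat_mul]
    congr 1
    push_cast
    ring
  simp_rw [h1]
  rw [← Fintype.piFinset_univ, ← Finset.prod_univ_sum (fun _ => Finset.univ)
    (fun (j : Fin d) (t : Fin M) =>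
      (Complex.exp (Complex.I * ((l j : ℝ) * (2 * π / M) : ℝ))) ^ (t : ℕ))]
  apply Finset.prod_eq_zero (Finset.mem_univ j0)
  rw [Fin.sum_univ_eq_sum_range
    (fun t => (Complex.exp (Complex.I * ((l j0 : ℝ) * (2 * π / M) : ℝ))) ^ t) M]
  have hne : Complex.exp (Complex.I * ((l j0 : ℝ) * (2 * π / M) : ℝ)) ≠ 1 := by
    intro h2
    rw [Complex.exp_eq_one_iff] at h2
    obtain ⟨m, hm⟩ := h2
    have hpi : (π : ℂ) ≠ 0 := by exact_mod_cast Real.pi_ne_zero
    have h3 : (l j0 : ℂ) = m * M := by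
      push_cast at hm
      have h4 : (2 * π * Complex.I / M : ℂ) * (l j0 : ℂ) = (2 * π * Complex.I / M) * (m * M) := by
        rw [show (2 * π * Complex.I / M : ℂ) * (l j0 : ℂ) =
          Complex.I * ((l j0 : ℂ) * (2 * π / M)) by ring, hm]
        field_simp
      refine mul_left_cancel₀ ?_ h4
      refine div_ne_zero (mul_ne_zero (mul_ne_zero two_ne_zero hpi) Complex.I_ne_zero) hMc
    have h5 : l j0 = m * M := by exact_mod_cast h3
    have h6 := hlM j0
    rw [h5, abs_mul, Nat.abs_cast] at h6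
    have hm0 : m ≠ 0 := by
      intro h7
      rw [h7, zero_mul] at h5
      exact hj0 h5
    have h7 : 1 ≤ |m| := Int.one_le_abs hm0
    nlinarith
  have hMω : (Complex.exp (Complex.I * ((l j0 : ℝ) * (2 * π / M) : ℝ))) ^ M = 1 := by
    rw [← Complex.exp_nat_mul]
    have : (M : ℂ) * (Complex.I * (((l j0 : ℝ) * (2 * π / M) : ℝ) : ℂ)) =
        (l j0 : ℂ) * (2 * π * Complex.I) := by
      push_cast
      field_simp
    rw [this, Complex.exp_int_mul_two_pi_mul_I]
  rw [geom_sum_eq hne, hMω, sub_self, zero_div]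

lemma layer_abs {d n : ℕ} (k : layer d n) (j : Fin d) : |k.1 j| < (2 : ℤ) ^ n := by
  classical
  have hk := k.2
  unfold layer at hk
  rw [Finset.mem_filter, Fintype.mem_piFinset] at hk
  have := hk.1 j
  rw [Finset.mem_Ioo] at this
  rw [abs_lt]
  exact this

lemma layer_card {d n : ℕ} : Fintype.card (layer d n) ≤ (2 ^ (n + 1)) ^ d := by
  classical
  rw [Fintype.card_coe]
  unfold layer
  refine (Finset.card_filter_le _ _).trans ?_
  rw [Fintype.card_piFinset, Finset.prod_const, Finset.card_univ, Fintype.card_fin]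
  refine Nat.pow_le_pow_left ?_ d
  rw [Int.card_Ioo]
  have h1 : (2 : ℤ) ^ n - -(2 : ℤ) ^ n - 1 ≤ ((2 ^ (n + 1) : ℕ) : ℤ) := by
    push_cast
    rw [pow_succ]
    linarith
  exact Int.toNat_le.2 h1

lemma poly_chi {d n : ℕ} (a : (layer d n) × Fin 2 → ℝ) (x : Fin d → ℝ) :
    poly a x = ∑ k : layer d n, ((a (k, 0) : ℂ) + (a (k, 1) : ℂ) * Complex.I) * chi k.1 x := rfl

lemma coef_bound {d n : ℕ} (a : (layer d n) × Fin 2 → ℝ) (ρ : ℝ) (M : ℕ) (hM : 2 ^ (n + 1) ≤ M)
    (h : ∀ g : Fin d → Fin M, ‖poly a (fun j => 2 * π * ((g j : ℕ) : ℝ) / M)‖ ≤ ρ)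
    (k : layer d n) :
    ‖(a (k, 0) : ℂ) + (a (k, 1) : ℂ) * Complex.I‖ ≤ ρ := by
  classical
  have hM0 : 0 < M := lt_of_lt_of_le (by positivity) hM
  have key : ∑ g : Fin d → Fin M, poly a (fun j => 2 * π * ((g j : ℕ) : ℝ) / M) *
      chi (-k.1) (fun j => 2 * π * ((g j : ℕ) : ℝ) / M) =
      (M : ℂ) ^ d * ((a (k, 0) : ℂ) + (a (k, 1) : ℂ) * Complex.I) := by
    simp_rw [poly_chi, Finset.sum_mul]
    rw [Finset.sum_comm]
    rw [Finset.sum_eq_single k]
    · have : ∀ g : Fin d → Fin M, ((a (k, 0) : ℂ) + (a (k, 1) : ℂ) * Complex.I) *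
          chi k.1 (fun j => 2 * π * ((g j : ℕ) : ℝ) / M) *
          chi (-k.1) (fun j => 2 * π * ((g j : ℕ) : ℝ) / M) =
          ((a (k, 0) : ℂ) + (a (k, 1) : ℂ) * Complex.I) := by
        intro g
        rw [mul_assoc, chi_mul_freq, add_neg_cancel]
        simp [chi]
      simp_rw [this]
      rw [Finset.sum_const, Finset.card_univ, Fintype.card_pi_const, Fintype.card_fin, nsmul_eq_mul]
      push_cast
      rfl
    · intro k' _ hk'
      have : ∀ g : Fin d → Fin M, ((a (k', 0) : ℂ) + (a (k', 1) : ℂ) * Complex.I) *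
          chi k'.1 (fun j => 2 * π * ((g j : ℕ) : ℝ) / M) *
          chi (-k.1) (fun j => 2 * π * ((g j : ℕ) : ℝ) / M) =
          ((a (k', 0) : ℂ) + (a (k', 1) : ℂ) * Complex.I) *
            chi (k'.1 + -k.1) (fun j => 2 * π * ((g j : ℕ) : ℝ) / M) := by
        intro g
        rw [mul_assoc, chi_mul_freq]
      simp_rw [this]
      rw [← Finset.mul_sum, orth M hM0, mul_zero]
      · intro h0
        apply hk'
        apply Subtype.ext
        exact add_neg_eq_zero.1 h0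
      · intro j
        have h1 := layer_abs k' j
        have h2 := layer_abs k j
        have h3 : (2 : ℤ) ^ (n + 1) ≤ M := by exact_mod_cast hM
        rw [pow_succ] at h3
        rw [Pi.add_apply, Pi.neg_apply]
        rw [abs_lt] at h1 h2 ⊢
        constructor <;> linarith [h1.1, h1.2, h2.1, h2.2]
    · intro h0
      exact absurd (Finset.mem_univ k) h0
  have h2 : ‖(M : ℂ) ^ d * ((a (k, 0) : ℂ) + (a (k, 1) : ℂ) * Complex.I)‖ ≤ (M : ℝ) ^ d * ρ := by
    rw [← key]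
    refine (norm_sum_le _ _).trans ?_
    have : ∀ g ∈ (Finset.univ : Finset (Fin d → Fin M)),
        ‖poly a (fun j => 2 * π * ((g j : ℕ) : ℝ) / M) *
        chi (-k.1) (fun j => 2 * π * ((g j : ℕ) : ℝ) / M)‖ ≤ ρ := by
      intro g _
      rw [norm_mul, chi_norm, mul_one]
      exact h g
    refine (Finset.sum_le_sum this).trans ?_
    rw [Finset.sum_const, Finset.card_univ, Fintype.card_pi_const, Fintype.card_fin, nsmul_eq_mul]
    push_cast
    exact le_rfl
  rw [norm_mul, norm_pow, Complex.norm_natCast] at h2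
  have hMd : (0 : ℝ) < (M : ℝ) ^ d := by positivity
  exact le_of_mul_le_mul_left h2 hMd

theorem disc_poly (d : ℕ) : ∃ c : ℕ, ∀ (n : ℕ) (a : (layer d n) × Fin 2 → ℝ) (ρ : ℝ), 0 ≤ ρ →
    (∀ g : Fin d → Fin (2^(c*(n+1))), ‖poly a (fun j => 2 * π * ((g j : ℕ) : ℝ) / 2^(c*(n+1)))‖ ≤ ρ) →
    ∀ x : Fin d → ℝ, ‖poly a x‖ ≤ 2 * ρ := by
  refine ⟨2 * d + 4, ?_⟩
  intro n a ρ hρ h x
  set M : ℕ := 2 ^ ((2 * d + 4) * (n + 1)) with hMdef
  have hMc : ((2 : ℝ) ^ ((2 * d + 4) * (n + 1))) = (M : ℝ) := by rw [hMdef]; push_cast; rfl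
  rw [hMc] at h
  have hM0 : 0 < M := by positivity
  have hM0r : (0 : ℝ) < M := by exact_mod_cast hM0
  have hMn : 2 ^ (n + 1) ≤ M := Nat.pow_le_pow_right (by norm_num) (by nlinarith)
  have hcoef := coef_bound a ρ M hMn h
  have hpi := Real.pi_pos
  let N : Fin d → ℤ := fun j => ⌊x j * M / (2 * π)⌋
  let g : Fin d → Fin M := fun j => ⟨(N j % (M : ℤ)).toNat, by
    have h1 := Int.emod_nonneg (N j) (show (M : ℤ) ≠ 0 by exact_mod_cast hM0.ne')
    have h2 := Int.emod_lt_of_pos (N j) (show (0 : ℤ) < M by exact_mod_cast hM0)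
    omega⟩
  have hg : ∀ j, ((g j : ℕ) : ℝ) = (N j : ℝ) - M * ((N j / (M : ℤ) : ℤ) : ℝ) := by
    intro j
    have h1 := Int.emod_nonneg (N j) (show (M : ℤ) ≠ 0 by exact_mod_cast hM0.ne')
    have h2 : (((g j : ℕ) : ℤ)) = N j - M * (N j / (M : ℤ)) := by
      show (((N j % (M : ℤ)).toNat : ℕ) : ℤ) = _
      rw [Int.toNat_of_nonneg h1, Int.emod_def]
    exact_mod_cast h2
  set y : Fin d → ℝ := fun j => 2 * π * ((g j : ℕ) : ℝ) / M with hy
  set x' : Fin d → ℝ := fun j => x j + 2 * π * ((-(N j / (M : ℤ)) : ℤ) : ℝ) with hx'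
  have hpx : poly a x = poly a x' := by
    rw [poly_chi, poly_chi]
    refine Finset.sum_congr rfl (fun k _ => ?_)
    rw [hx', chi_per k.1 (fun j => -(N j / (M : ℤ))) x]
  have hdist : ∀ j, |x' j - y j| ≤ 2 * π / M := by
    intro j
    have h1 : x' j - y j = (2 * π / M) * (x j * M / (2 * π) - (N j : ℝ)) := by
      simp only [hx', hy, hg j]
      push_cast
      field_simp
      ring
    rw [h1, abs_mul, abs_of_pos (by positivity)]
    have h2 : |x j * M / (2 * π) - (N j : ℝ)| ≤ 1 := by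
      have h3 := Int.floor_le (x j * M / (2 * π))
      have h4 := Int.lt_floor_add_one (x j * M / (2 * π))
      rw [abs_le]
      constructor
      · show -1 ≤ x j * M / (2 * π) - ((⌊x j * M / (2 * π)⌋ : ℤ) : ℝ)
        linarith
      · show x j * M / (2 * π) - ((⌊x j * M / (2 * π)⌋ : ℤ) : ℝ) ≤ 1
        linarith
    have h5 : (0 : ℝ) < 2 * π / M := by positivity
    nlinarith
  have hdiff : ‖poly a x' - poly a y‖ ≤ ρ := by
    have h1 : poly a x' - poly a y = ∑ k : layer d n,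
        ((a (k, 0) : ℂ) + (a (k, 1) : ℂ) * Complex.I) * (chi k.1 x' - chi k.1 y) := by
      rw [poly_chi, poly_chi, ← Finset.sum_sub_distrib]
      refine Finset.sum_congr rfl (fun k _ => ?_)
      ring
    rw [h1]
    refine (norm_sum_le _ _).trans ?_
    have h2 : ∀ k ∈ (Finset.univ : Finset (layer d n)),
        ‖((a (k, 0) : ℂ) + (a (k, 1) : ℂ) * Complex.I) * (chi k.1 x' - chi k.1 y)‖ ≤
        ρ * (d * (2 ^ n * (2 * π / M))) := by
      intro k _
      rw [norm_mul]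
      refine mul_le_mul (hcoef k) ?_ (norm_nonneg _) hρ
      refine (chi_sub k.1 x' y).trans ((Finset.abs_sum_le_sum_abs _ _).trans ?_)
      have h3 : ∀ j ∈ (Finset.univ : Finset (Fin d)), |(k.1 j : ℝ) * (x' j - y j)| ≤
          2 ^ n * (2 * π / M) := by
        intro j _
        rw [abs_mul]
        have h4 : |((k.1 j : ℤ) : ℝ)| ≤ 2 ^ n := by
          have := (layer_abs k j).le
          exact_mod_cast this
        exact mul_le_mul h4 (hdist j) (abs_nonneg _) (by positivity)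
      refine (Finset.sum_le_sum h3).trans ?_
      rw [Finset.sum_const, Finset.card_univ, Fintype.card_fin, nsmul_eq_mul]
    refine (Finset.sum_le_sum h2).trans ?_
    rw [Finset.sum_const, Finset.card_univ, nsmul_eq_mul]
    have hcard : ((Fintype.card (layer d n) : ℕ) : ℝ) ≤ (2 ^ (n + 1)) ^ d := by
      exact_mod_cast (layer_card (d := d) (n := n))
    have hfin : ((2 : ℝ) ^ (n + 1)) ^ d * (d * (2 ^ n * (2 * π))) ≤ M := by
      have hd : (d : ℝ) ≤ 2 ^ d := by
        have := (Nat.lt_two_pow_self (n := d)).le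
        exact_mod_cast this
      have hpi4 : 2 * π ≤ 2 ^ 3 := by linarith [Real.pi_le_four]
      calc ((2 : ℝ) ^ (n + 1)) ^ d * (d * (2 ^ n * (2 * π)))
          ≤ ((2 : ℝ) ^ (n + 1)) ^ d * (2 ^ d * (2 ^ n * 2 ^ 3)) := by gcongr
        _ = 2 ^ ((n + 1) * d + (d + (n + 3))) := by
            rw [← pow_mul, ← pow_add, ← pow_add, ← pow_add]
        _ ≤ 2 ^ ((2 * d + 4) * (n + 1)) := by
            apply pow_le_pow_right₀ (by norm_num)
            nlinarith
        _ = M := hMc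
    calc ((Fintype.card (layer d n) : ℕ) : ℝ) * (ρ * (d * (2 ^ n * (2 * π / M))))
        ≤ (2 ^ (n + 1)) ^ d * (ρ * (d * (2 ^ n * (2 * π / M)))) := by gcongr
      _ = ρ * (((2 : ℝ) ^ (n + 1)) ^ d * (d * (2 ^ n * (2 * π))) / M) := by ring
      _ ≤ ρ * 1 := by
          refine mul_le_mul_of_nonneg_left ?_ hρ
          rw [div_le_one hM0r]
          exact hfin
      _ = ρ := mul_one ρ
  have hyb := h g
  rw [hpx]
  calc ‖poly a x'‖ = ‖(poly a x' - poly a y) + poly a y‖ := by rw [sub_add_cancel]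
    _ ≤ ‖poly a x' - poly a y‖ + ‖poly a y‖ := norm_add_le _ _
    _ ≤ ρ + ρ := add_le_add hdiff hyb
    _ = 2 * ρ := by ring


end Sol_disc_poly

alias disc_poly := Sol_disc_poly.disc_poly

end HypVol
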