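import Pool.Agent.HypVol.Defs
open MeasureTheory Real ProbabilityTheory
open scoped ENNReal BigOperators

namespace HypVol
namespace Sol_dualdist



theorem dualdist {X : Type} [Fintype X] (m : ℕ) (y : X → ℝ) (w : Fin m → X → ℝ) (ρ : ℝ) (hρ : 0 ≤ ρ)
    (h : ∀ μ : X → ℝ, ∑ x, |μ x| ≤ 1 → (∀ j, ∑ x, μ x * w j x = 0) → ∑ x, μ x * y x ≤ ρ) :
    ∃ β : Fin m → ℝ, ∀ x, |y x - ∑ j, β j * w j x| ≤ ρ := by
  classical
  by_cases hdis : Disjoint (Metric.closedBall y ρ) (Submodule.span ℝ (Set.range w) : Set (X → ℝ))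
  · exfalso
    obtain ⟨f, u, v, h1, h2, h3⟩ := geometric_hahn_banach_compact_closed (convex_closedBall y ρ)
      (isCompact_closedBall y ρ) (Submodule.convex _)
      (Submodule.closed_of_finiteDimensional (Submodule.span ℝ (Set.range w))) hdis
    have hv0 : v < 0 := by
      have := h3 0 (Submodule.zero_mem _)
      rwa [map_zero] at this
    have hfW : ∀ b ∈ Submodule.span ℝ (Set.range w), f b = 0 := by
      intro b hb
      by_contra hne
      have h4 := h3 ((v / f b) • b) (Submodule.smul_mem _ _ hb)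
      rw [map_smul, smul_eq_mul, div_mul_cancel₀ _ hne] at h4
      exact lt_irrefl _ h4
    obtain ⟨ν, hν⟩ : ∃ ν : X → ℝ, ν = fun x => - f (Pi.single x 1) := ⟨_, rfl⟩
    have hf : ∀ a : X → ℝ, ∑ x, ν x * a x = - f a := by
      intro a
      have ha : a = ∑ x, a x • (Pi.single x (1:ℝ) : X → ℝ) := by
        ext z
        rw [Finset.sum_apply]
        simp [Pi.single_apply]
      conv_rhs => rw [ha]
      rw [map_sum, ← Finset.sum_neg_distrib]
      refine Finset.sum_congr rfl fun x _ => ?_
      rw [map_smul, smul_eq_mul, hν]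
      ring
    have hN0 : 0 ≤ ∑ x, |ν x| := Finset.sum_nonneg fun x _ => abs_nonneg _
    -- test point
    have hball : (fun x => y x - ρ * SignType.sign (ν x)) ∈ Metric.closedBall y ρ := by
      rw [mem_closedBall_iff_norm, pi_norm_le_iff_of_nonneg hρ]
      intro x
      simp only [Pi.sub_apply, sub_sub_cancel_left, norm_neg, norm_mul]
      rw [Real.norm_of_nonneg hρ]
      have : ‖((SignType.sign (ν x) : ℝ))‖ ≤ 1 := by
        rcases lt_trichotomy (ν x) 0 with h0 | h0 | h0
        · simp [sign_neg h0]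
        · simp [h0]
        · simp [sign_pos h0]
      nlinarith
    have h5 := h1 _ hball
    have h6 := hf (fun x => y x - ρ * SignType.sign (ν x))
    have h7 : ∑ x, ν x * (y x - ρ * SignType.sign (ν x)) = ∑ x, ν x * y x - ρ * ∑ x, |ν x| := by
      rw [Finset.mul_sum, ← Finset.sum_sub_distrib]
      refine Finset.sum_congr rfl fun x _ => ?_
      have : |ν x| = ν x * SignType.sign (ν x) := by
        rw [mul_comm, sign_mul_self]
      rw [this]
      ring
    rw [h7] at h6
    have hgt : ρ * ∑ x, |ν x| < ∑ x, ν x * y x := by linarith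
    have hNpos : 0 < ∑ x, |ν x| := by
      rcases hN0.lt_or_eq with h8 | h8
      · exact h8
      · exfalso
        have hz : ∀ x, ν x = 0 := by
          intro x
          have := (Finset.sum_eq_zero_iff_of_nonneg (fun x _ => abs_nonneg (ν x))).mp h8.symm x
            (Finset.mem_univ x)
          exact abs_eq_zero.mp this
        rw [← h8, mul_zero] at hgt
        simp [hz] at hgt
    obtain ⟨N, hN⟩ : ∃ N : ℝ, N = ∑ x, |ν x| := ⟨_, rfl⟩
    rw [← hN] at hgt hNpos
    have h9a : ∑ x, |ν x / N| ≤ 1 := by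
      have : ∀ x, |ν x / N| = |ν x| / N := by
        intro x; rw [abs_div, abs_of_pos hNpos]
      simp only [this]
      rw [← Finset.sum_div, ← hN, div_self hNpos.ne']
    have h9b : ∀ j, ∑ x, (ν x / N) * w j x = 0 := by
      intro j
      have h10 := hf (w j)
      rw [hfW (w j) (Submodule.subset_span ⟨j, rfl⟩), neg_zero] at h10
      have : ∀ x, ν x / N * w j x = ν x * w j x / N := by
        intro x; ring
      simp only [this]
      rw [← Finset.sum_div, h10, zero_div]
    have h9 := h (fun x => ν x / N) h9a h9b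
    have h11 : ∀ x, ν x / N * y x = ν x * y x / N := by
      intro x; ring
    simp only [h11] at h9
    rw [← Finset.sum_div, div_le_iff₀ hNpos] at h9
    linarith
  · rw [Set.not_disjoint_iff] at hdis
    obtain ⟨z, hz1, hz2⟩ := hdis
    obtain ⟨β, hβ⟩ := (Submodule.mem_span_range_iff_exists_fun ℝ).mp hz2
    refine ⟨β, fun x => ?_⟩
    have h1 : ∑ j, β j * w j x = z x := by
      rw [← hβ, Finset.sum_apply]
      rfl
    rw [h1]
    rw [mem_closedBall_iff_norm] at hz1
    have h2 := (norm_le_pi_norm (z - y) x).trans hz1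
    rw [Pi.sub_apply, Real.norm_eq_abs, abs_sub_comm] at h2
    exact h2


end Sol_dualdist

alias dualdist := Sol_dualdist.dualdist

end HypVol
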