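import Pool.Agent.HypVol.Defs
import Pool.Agent.HypVol.L_TP_prob
import Pool.Agent.HypVol.L_entropy_C
open MeasureTheory Real ProbabilityTheory
open scoped ENNReal BigOperators

namespace HypVol
namespace Sol_entropy_K





theorem entropy_lower_summ (r : ℝ) (hr : 1 < r) : Summable (fun k : ℕ => ((k:ℝ)+1)^(-r)) := by
  have h1 := (summable_nat_add_iff 1).2 (Real.summable_nat_rpow.2 (show -r < -1 by linarith))
  refine h1.congr (fun m => ?_)
  push_cast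
  rfl

theorem entropy_lower_term (r α x : ℝ) (k : ℕ) :
    ‖((k:ℝ)+1)^(-r) * Real.cos (((k:ℝ)+1) * x - α * π / 2)‖ ≤ ((k:ℝ)+1)^(-r) := by
  rw [norm_mul, Real.norm_of_nonneg (by positivity : (0:ℝ) ≤ ((k:ℝ)+1)^(-r))]
  refine mul_le_of_le_one_right (by positivity) ?_
  rw [Real.norm_eq_abs]
  exact Real.abs_cos_le_one _

theorem entropy_lower_F1cont (r : ℝ) (hr : 1 < r) (α : ℝ) : Continuous (F1 r α) := by
  unfold F1
  refine continuous_const.add (continuous_const.mul ?_)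
  refine continuous_tsum (fun k => ?_) (entropy_lower_summ r hr)
    (fun k x => entropy_lower_term r α x k)
  fun_prop

theorem entropy_lower_F1bd (r : ℝ) (hr : 1 < r) (α x : ℝ) :
    ‖F1 r α x‖ ≤ 1 + 2 * ∑' k : ℕ, ((k:ℝ)+1)^(-r) := by
  unfold F1
  refine (norm_add_le _ _).trans ?_
  rw [norm_one, norm_mul, Real.norm_ofNat]
  have := tsum_of_norm_bounded (entropy_lower_summ r hr).hasSum
    (fun k => entropy_lower_term r α x k)
  linarith

theorem entropy_lower_Frcont {d : ℕ} (r : ℝ) (hr : 1 < r) (α : Fin d → ℝ) :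
    Continuous (Fr r α) := by
  unfold Fr
  exact continuous_finsetProd _ (fun j _ => (entropy_lower_F1cont r hr (α j)).comp
    (continuous_apply j))

theorem entropy_lower_Frbd {d : ℕ} (r : ℝ) (hr : 1 < r) (α x : Fin d → ℝ) :
    ‖Fr r α x‖ ≤ (1 + 2 * ∑' k : ℕ, ((k:ℝ)+1)^(-r)) ^ d := by
  unfold Fr
  rw [norm_prod]
  calc ∏ j, ‖F1 r (α j) (x j)‖ ≤ ∏ _j : Fin d, (1 + 2 * ∑' k : ℕ, ((k:ℝ)+1)^(-r)) :=
        Finset.prod_le_prod (fun _ _ => norm_nonneg _)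
          (fun j _ => entropy_lower_F1bd r hr (α j) (x j))
    _ = _ := by rw [Finset.prod_const, Finset.card_univ, Fintype.card_fin]

theorem entropy_lower_int {d : ℕ} (q r : ℝ) (hq : 1 ≤ q) (hr : 1 < r) (α : Fin d → ℝ)
    (φ : (Fin d → ℝ) → ℂ) (hφ : MemLp φ (ENNReal.ofReal q) (TP d)) (x : Fin d → ℝ) :
    Integrable (fun y => Fr r α (x - y) • φ y) (TP d) := by
  haveI := TP_prob d
  have h1 : Integrable φ (TP d) := hφ.integrable (by
    rw [← ENNReal.ofReal_one]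
    exact ENNReal.ofReal_le_ofReal hq)
  have h2 : Continuous (fun y => Fr r α (x - y)) :=
    (entropy_lower_Frcont r hr α).comp (continuous_const.sub continuous_id)
  refine Integrable.mono' (h1.norm.const_mul ((1 + 2 * ∑' k : ℕ, ((k:ℝ)+1)^(-r)) ^ d)) ?_ ?_
  · exact h2.aestronglyMeasurable.smul h1.aestronglyMeasurable
  · refine Filter.Eventually.of_forall (fun y => ?_)
    rw [norm_smul]
    exact mul_le_mul_of_nonneg_right (entropy_lower_Frbd r hr α _) (norm_nonneg _)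

/-- a real valued weight of norm at most one gives an element of the class -/
theorem entropy_lower_mem (𝕜 : Type) [RCLike 𝕜] {d : ℕ} (q r : ℝ) (α : Fin d → ℝ)
    (φ : (Fin d → ℝ) → ℂ) (hφ : MemLp φ (ENNReal.ofReal q) (TP d))
    (hφ1 : eLpNorm φ (ENNReal.ofReal q) (TP d) ≤ 1) (p : ℂ → ℝ) (hp : Continuous p)
    (hp1 : ∀ z, |p z| ≤ ‖z‖) :
    ∃ h ∈ MW 𝕜 d r (ENNReal.ofReal q) α,
      ∀ x, RCLike.re (h x) = ∫ y, Fr r α (x - y) * p (φ y) ∂(TP d) := by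
  have hnorm : ∀ y, ‖((p (φ y) : ℝ) : 𝕜)‖ ≤ ‖φ y‖ := by
    intro y
    rw [RCLike.norm_ofReal]
    exact hp1 _
  refine ⟨fun x => ∫ y, Fr r α (x - y) • ((p (φ y) : ℝ) : 𝕜) ∂(TP d),
    ⟨fun y => ((p (φ y) : ℝ) : 𝕜), ?_, ?_, rfl⟩, ?_⟩
  · refine hφ.mono ?_ (Filter.Eventually.of_forall hnorm)
    exact (RCLike.continuous_ofReal.comp hp).comp_aestronglyMeasurable hφ.1
  · exact (eLpNorm_mono hnorm).trans hφ1
  · intro x
    have h1 : ∀ y, Fr r α (x - y) • ((p (φ y) : ℝ) : 𝕜) =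
        ((Fr r α (x - y) * p (φ y) : ℝ) : 𝕜) := by
      intro y
      rw [RCLike.real_smul_eq_coe_mul, ← RCLike.ofReal_mul]
    show RCLike.re (∫ y, Fr r α (x - y) • ((p (φ y) : ℝ) : 𝕜) ∂(TP d)) = _
    simp_rw [h1]
    rw [integral_ofReal, RCLike.ofReal_re]

/-- the complex cover -/
theorem entropy_lower_cover (𝕜 : Type) [RCLike 𝕜] (d : ℕ) (q r : ℝ) (hq : 1 ≤ q) (hr : 1 < r)
    (α : Fin d → ℝ) (k : ℕ) (ε : ℝ) (hε : 0 < ε)
    (h : ∃ c : Fin (2^k) → ((Fin d → ℝ) → 𝕜), 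
      ∀ f ∈ MW 𝕜 d r (ENNReal.ofReal q) α, ∃ j,
        eLpNorm (fun x => f x - c j x) ⊤ (TP d) ≤ ENNReal.ofReal ε) :
    ∃ cc : Fin (2^(2 * k)) → ((Fin d → ℝ) → ℂ), ∀ f ∈ MW ℂ d r (ENNReal.ofReal q) α, ∃ j,
        eLpNorm (fun x => f x - cc j x) ⊤ (TP d) ≤ ENNReal.ofReal (2 * ε) := by
  obtain ⟨c, hc⟩ := h
  have hcard : 2 ^ (2 * k) = 2 ^ k * 2 ^ k := by rw [two_mul, pow_add]
  refine ⟨fun j x => ((RCLike.re (c (finProdFinEquiv.symm (Fin.cast hcard j)).1 x) : ℝ) : ℂ) +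
    ((RCLike.re (c (finProdFinEquiv.symm (Fin.cast hcard j)).2 x) : ℝ) : ℂ) * Complex.I, ?_⟩
  rintro f ⟨φ, hφ, hφ1, rfl⟩
  obtain ⟨h1, hm1, hv1⟩ := entropy_lower_mem 𝕜 q r α φ hφ hφ1 Complex.re Complex.continuous_re
    Complex.abs_re_le_norm
  obtain ⟨h2, hm2, hv2⟩ := entropy_lower_mem 𝕜 q r α φ hφ hφ1 Complex.im Complex.continuous_im
    Complex.abs_im_le_norm
  obtain ⟨j1, hj1⟩ := hc h1 hm1
  obtain ⟨j2, hj2⟩ := hc h2 hm2
  refine ⟨Fin.cast hcard.symm (finProdFinEquiv (j1, j2)), ?_⟩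
  have hcast : Fin.cast hcard (Fin.cast hcard.symm (finProdFinEquiv (j1, j2))) =
      finProdFinEquiv (j1, j2) := by
    apply Fin.ext
    rfl
  simp only [hcast, Equiv.symm_apply_apply]
  rw [eLpNorm_exponent_top] at hj1 hj2 ⊢
  apply eLpNormEssSup_le_of_ae_enorm_bound
  filter_upwards [enorm_ae_le_eLpNormEssSup (fun x => h1 x - c j1 x) (TP d),
    enorm_ae_le_eLpNormEssSup (fun x => h2 x - c j2 x) (TP d)] with x e1 e2
  have e1' := e1.trans hj1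
  have e2' := e2.trans hj2
  rw [← ofReal_norm_eq_enorm, ENNReal.ofReal_le_ofReal_iff hε.le] at e1' e2'
  rw [← ofReal_norm_eq_enorm]
  apply ENNReal.ofReal_le_ofReal
  have hint := entropy_lower_int q r hq hr α φ hφ x
  have hre : (∫ y, Fr r α (x - y) • φ y ∂(TP d)).re = ∫ y, Fr r α (x - y) * (φ y).re ∂(TP d) := by
    have := integral_re (𝕜 := ℂ) hint
    rw [← RCLike.re_eq_complex_re, ← this]
    refine integral_congr_ae (Filter.Eventually.of_forall (fun y => ?_))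
    simp
  have him : (∫ y, Fr r α (x - y) • φ y ∂(TP d)).im = ∫ y, Fr r α (x - y) * (φ y).im ∂(TP d) := by
    have := integral_im (𝕜 := ℂ) hint
    rw [← RCLike.im_eq_complex_im, ← this]
    refine integral_congr_ae (Filter.Eventually.of_forall (fun y => ?_))
    simp
  have hg : ∫ y, Fr r α (x - y) • φ y ∂(TP d) =
      ((RCLike.re (h1 x) : ℝ) : ℂ) + ((RCLike.re (h2 x) : ℝ) : ℂ) * Complex.I := by
    rw [hv1, hv2, ← hre, ← him]
    exact (Complex.re_add_im _).symm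
  rw [hg]
  have hsub : ((RCLike.re (h1 x) : ℝ) : ℂ) + ((RCLike.re (h2 x) : ℝ) : ℂ) * Complex.I -
      (((RCLike.re (c j1 x) : ℝ) : ℂ) + ((RCLike.re (c j2 x) : ℝ) : ℂ) * Complex.I) =
      ((RCLike.re (h1 x - c j1 x) : ℝ) : ℂ) + ((RCLike.re (h2 x - c j2 x) : ℝ) : ℂ) * Complex.I := by
    simp only [map_sub]
    push_cast
    ring
  rw [hsub]
  refine (norm_add_le _ _).trans ?_
  rw [norm_mul, Complex.norm_I, mul_one, Complex.norm_real, Complex.norm_real]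
  have g1 := RCLike.norm_re_le_norm (h1 x - c j1 x)
  have g2 := RCLike.norm_re_le_norm (h2 x - c j2 x)
  linarith

theorem entropy_lower (𝕜 : Type) [RCLike 𝕜] (d : ℕ) (hd : 3 ≤ d) (q r : ℝ) (hq : 1 ≤ q) (hr : 1 < r)
    (α : Fin d → ℝ) : ∃ c : ℝ, 0 < c ∧ ∀ k : ℕ, 2 ≤ k →
      ENNReal.ofReal (c * (k:ℝ)^(-r) * (Real.log k)^(((d:ℝ)-1) * r + 1/2))
        ≤ entropyNum k (MW 𝕜 d r (ENNReal.ofReal q) α) := by
  obtain ⟨c, hc, hmain⟩ := entropy_lower_complex d hd q r hq hr α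
  refine ⟨c * 2 ^ (-r) / 2, by positivity, ?_⟩
  intro k hk
  unfold entropyNum
  refine le_iInf (fun ε => le_iInf (fun hε => ?_))
  obtain ⟨hε0, cc, -, hcc⟩ := hε
  rcases eq_or_ne ε ⊤ with rfl | hεt
  · exact le_top
  have hε1 : 0 < ε.toReal := ENNReal.toReal_pos hε0.ne' hεt
  have hε2 : ENNReal.ofReal ε.toReal = ε := ENNReal.ofReal_toReal hεt
  have hcov := entropy_lower_cover 𝕜 d q r hq hr α k ε.toReal hε1 ⟨cc, by rw [hε2]; exact hcc⟩
  have h1 := hmain (2 * k) (2 * ε.toReal) (by omega) (by positivity) hcov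
  have hk2 : (2 : ℝ) ≤ k := by exact_mod_cast hk
  have hk0 : (0 : ℝ) < k := by linarith
  have hP : 0 ≤ ((d:ℝ)-1) * r + 1/2 := by
    have hd1 : (3 : ℝ) ≤ d := by exact_mod_cast hd
    have : 0 ≤ ((d:ℝ)-1) * r := mul_nonneg (by linarith) (by linarith)
    linarith
  have hlog : (Real.log k)^(((d:ℝ)-1) * r + 1/2) ≤
      (Real.log ((2 * k : ℕ) : ℝ))^(((d:ℝ)-1) * r + 1/2) := by
    apply Real.rpow_le_rpow (Real.log_nonneg (by linarith)) _ hP
    apply Real.log_le_log hk0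
    push_cast
    linarith
  have hpow : ((2 * k : ℕ) : ℝ)^(-r) = 2 ^ (-r) * (k : ℝ)^(-r) := by
    push_cast
    rw [Real.mul_rpow (by norm_num) hk0.le]
  rw [hpow] at h1
  have h2 : c * (2 ^ (-r) * (k : ℝ)^(-r)) * (Real.log k)^(((d:ℝ)-1) * r + 1/2) ≤
      c * (2 ^ (-r) * (k : ℝ)^(-r)) * (Real.log ((2 * k : ℕ) : ℝ))^(((d:ℝ)-1) * r + 1/2) :=
    mul_le_mul_of_nonneg_left hlog (by positivity)
  rw [← hε2]
  apply ENNReal.ofReal_le_ofReal
  nlinarith [h1, h2]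



end Sol_entropy_K

alias entropy_lower := Sol_entropy_K.entropy_lower

end HypVol
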