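import Pool.Agent.HypVol.Defs
open MeasureTheory Real ProbabilityTheory
open scoped ENNReal BigOperators

namespace HypVol
namespace Sol_jl



theorem gauss_sq (l : ℝ) (hl : l < 1/2) :
    ∫ y, Real.exp (l * y ^ 2) ∂(gaussianReal 0 1) = (√(2 * π))⁻¹ * √(π / (1/2 - l)) := by
  rw [integral_gaussianReal_eq_integral_smul (by norm_num)]
  have h1 : ∀ x : ℝ, gaussianPDFReal 0 1 x • Real.exp (l * x ^ 2) =
      (√(2 * π))⁻¹ * Real.exp (-(1/2 - l) * x ^ 2) := by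
    intro x
    rw [gaussianPDFReal_def]
    simp only [smul_eq_mul, NNReal.coe_one, mul_one, sub_zero]
    rw [mul_assoc, ← Real.exp_add]
    congr 2
    ring
  simp_rw [h1]
  rw [integral_const_mul, integral_gaussian]

theorem law_inner {ι : Type} [Fintype ι] (u : EuclideanSpace ℝ ι) (hu : ‖u‖ = 1) :
    (stdGaussian (EuclideanSpace ℝ ι)).map (innerSL ℝ u) = gaussianReal 0 1 := by
  rw [IsGaussian.map_eq_gaussianReal, integral_strongDual_stdGaussian, variance_dual_stdGaussian,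
    innerSL_apply_norm, hu]
  norm_num

theorem int_inner {ι : Type} [Fintype ι] (u : EuclideanSpace ℝ ι) (hu : ‖u‖ = 1) (l : ℝ) (hl : l < 1/2) :
    ∫ x, Real.exp (l * (innerSL ℝ u x) ^ 2) ∂(stdGaussian (EuclideanSpace ℝ ι)) =
      (√(2 * π))⁻¹ * √(π / (1/2 - l)) := by
  rw [← gauss_sq l hl, ← law_inner u hu, integral_map (by fun_prop)
    (by exact (Continuous.aestronglyMeasurable (by fun_prop)))]

theorem integrable_inner {ι : Type} [Fintype ι] (u : EuclideanSpace ℝ ι) (hu : ‖u‖ = 1) (l : ℝ)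
    (hl : l < 1/2) :
    Integrable (fun x => Real.exp (l * (innerSL ℝ u x) ^ 2)) (stdGaussian (EuclideanSpace ℝ ι)) := by
  by_contra h
  have h1 := int_inner u hu l hl
  rw [integral_undef h] at h1
  have h2 : 0 < (√(2 * π))⁻¹ * √(π / (1/2 - l)) := by
    have : 0 < 1/2 - l := by linarith
    have := Real.pi_pos
    positivity
  linarith

/-- product moments -/
theorem prod_moment {ι : Type} [Fintype ι] (m : ℕ) (u : EuclideanSpace ℝ ι) (hu : ‖u‖ = 1) (l c : ℝ)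
    (hl : l < 1/2) (hc : Real.exp c * ((√(2 * π))⁻¹ * √(π / (1/2 - l))) ≤ Real.exp (-(1/4))) :
    Integrable (fun g : Fin m → EuclideanSpace ℝ ι => ∏ j, (Real.exp c * Real.exp (l * (innerSL ℝ u (g j)) ^ 2)))
      (Measure.pi fun _ : Fin m => stdGaussian (EuclideanSpace ℝ ι)) ∧
    ∫ g : Fin m → EuclideanSpace ℝ ι, ∏ j, (Real.exp c * Real.exp (l * (innerSL ℝ u (g j)) ^ 2))
      ∂(Measure.pi fun _ : Fin m => stdGaussian (EuclideanSpace ℝ ι)) ≤ Real.exp (-((m:ℝ)/4)) := by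
  have hi := (integrable_inner u hu l hl).const_mul (Real.exp c)
  refine ⟨Integrable.fintype_prod_dep (fun _ => hi), ?_⟩
  rw [integral_fintype_prod_eq_prod (fun (_ : Fin m) (x : EuclideanSpace ℝ ι) =>
    Real.exp c * Real.exp (l * (innerSL ℝ u x) ^ 2))]
  rw [Finset.prod_const, Finset.card_univ, Fintype.card_fin, integral_const_mul, int_inner u hu l hl]
  refine (pow_le_pow_left₀ (by positivity) hc m).trans (le_of_eq ?_)
  rw [← Real.exp_nat_mul]
  congr 1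
  ring

theorem jl_E {ι : Type} [Fintype ι] (m : ℕ) (V : Finset (EuclideanSpace ℝ ι))
    (hV : 2 * (V.card : ℝ) < Real.exp ((m:ℝ)/4)) (hu : ∀ u ∈ V, ‖u‖ = 1) :
    ∃ g : Fin m → EuclideanSpace ℝ ι, ∀ u ∈ V, (m:ℝ)/4 ≤ ∑ j, (innerSL ℝ u (g j)) ^ 2 ∧
      ∑ j, (innerSL ℝ u (g j)) ^ 2 ≤ 4 * m := by
  have hpi := Real.pi_pos
  have hl1 := Real.log_two_gt_d9
  have hl2 := Real.log_two_lt_d9
  have c1 : Real.exp (3/8) * ((√(2 * π))⁻¹ * √(π / (1/2 - (-(3/2))))) ≤ Real.exp (-(1/4)) := by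
    have e1 : √(π / (1/2 - (-(3/2)))) = √(2 * π) / 2 := by
      rw [show π / (1/2 - (-(3/2))) = (2 * π) / 2 ^ 2 by ring, Real.sqrt_div' _ (by norm_num),
        Real.sqrt_sq (by norm_num)]
    have e2 : (√(2 * π))⁻¹ * (√(2 * π) / 2) = 1 / 2 := by
      have : √(2 * π) ≠ 0 := (Real.sqrt_pos.2 (by positivity)).ne'
      field_simp
    rw [e1, e2]
    have e3 : (1/2 : ℝ) = Real.exp (-Real.log 2) := by
      rw [Real.exp_neg, Real.exp_log (by norm_num)]; norm_num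
    rw [e3, ← Real.exp_add]
    exact Real.exp_le_exp.2 (by linarith)
  have c2 : Real.exp (-(3/2)) * ((√(2 * π))⁻¹ * √(π / (1/2 - 3/8))) ≤ Real.exp (-(1/4)) := by
    have e1 : √(π / (1/2 - 3/8)) = √(2 * π) * 2 := by
      rw [show π / (1/2 - 3/8) = (2 * π) * 2 ^ 2 by ring, Real.sqrt_mul' _ (by norm_num),
        Real.sqrt_sq (by norm_num)]
    have e2 : (√(2 * π))⁻¹ * (√(2 * π) * 2) = 2 := by
      have : √(2 * π) ≠ 0 := (Real.sqrt_pos.2 (by positivity)).ne'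
      field_simp
    rw [e1, e2]
    nth_rewrite 2 [← Real.exp_log (show (0:ℝ) < 2 by norm_num)]
    rw [← Real.exp_add]
    exact Real.exp_le_exp.2 (by linarith)
  set P : Measure (Fin m → EuclideanSpace ℝ ι) := Measure.pi fun _ : Fin m => stdGaussian (EuclideanSpace ℝ ι)
  let A : EuclideanSpace ℝ ι → (Fin m → EuclideanSpace ℝ ι) → ℝ := fun u g =>
    ∏ j, (Real.exp (3/8) * Real.exp ((-(3/2)) * (innerSL ℝ u (g j)) ^ 2))
  let B : EuclideanSpace ℝ ι → (Fin m → EuclideanSpace ℝ ι) → ℝ := fun u g =>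
    ∏ j, (Real.exp (-(3/2)) * Real.exp ((3/8) * (innerSL ℝ u (g j)) ^ 2))
  have hA : ∀ u ∈ V, Integrable (A u) P ∧ ∫ g, A u g ∂P ≤ Real.exp (-((m:ℝ)/4)) := fun u hu' =>
    prod_moment m u (hu u hu') (-(3/2)) (3/8) (by norm_num) c1
  have hB : ∀ u ∈ V, Integrable (B u) P ∧ ∫ g, B u g ∂P ≤ Real.exp (-((m:ℝ)/4)) := fun u hu' =>
    prod_moment m u (hu u hu') (3/8) (-(3/2)) (by norm_num) c2
  have hA0 : ∀ u g, 0 ≤ A u g := fun u g => Finset.prod_nonneg fun j _ => by positivity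
  have hB0 : ∀ u g, 0 ≤ B u g := fun u g => Finset.prod_nonneg fun j _ => by positivity
  have hint : Integrable (fun g => ∑ u ∈ V, (A u g + B u g)) P :=
    integrable_finsetSum _ fun u hu' => (hA u hu').1.add (hB u hu').1
  have hval : ∫ g, ∑ u ∈ V, (A u g + B u g) ∂P < 1 := by
    have e0 : ∫ g, ∑ u ∈ V, (A u g + B u g) ∂P = ∑ u ∈ V, ∫ g, (A u g + B u g) ∂P :=
      integral_finsetSum V fun u hu' => (hA u hu').1.add (hB u hu').1
    rw [e0]
    have h1 : ∑ u ∈ V, ∫ g, (A u g + B u g) ∂P ≤ ∑ u ∈ V, (2 * Real.exp (-((m:ℝ)/4))) := by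
      refine Finset.sum_le_sum fun u hu' => ?_
      rw [integral_add (hA u hu').1 (hB u hu').1]
      linarith [(hA u hu').2, (hB u hu').2]
    refine h1.trans_lt ?_
    rw [Finset.sum_const, nsmul_eq_mul, Real.exp_neg]
    have h2 := Real.exp_pos ((m:ℝ)/4)
    rw [show (V.card : ℝ) * (2 * (Real.exp ((m:ℝ)/4))⁻¹) = (2 * V.card) / Real.exp ((m:ℝ)/4) by
      field_simp, div_lt_one h2]
    exact hV
  obtain ⟨g, hg⟩ := exists_le_integral hint
  have hg1 : ∑ u ∈ V, (A u g + B u g) < 1 := hg.trans_lt hval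
  refine ⟨g, fun u hu' => ?_⟩
  have hs : A u g + B u g < 1 :=
    (Finset.single_le_sum (f := fun u => A u g + B u g) (fun w _ => add_nonneg (hA0 w g) (hB0 w g)) hu').trans_lt hg1
  have hAe : A u g = Real.exp (3 * m / 8 - 3/2 * ∑ j, (innerSL ℝ u (g j)) ^ 2) := by
    show ∏ j, (Real.exp (3/8) * Real.exp ((-(3/2)) * (innerSL ℝ u (g j)) ^ 2)) = _
    simp_rw [← Real.exp_add]
    rw [← Real.exp_sum]
    congr 1
    rw [Finset.sum_add_distrib, ← Finset.mul_sum, Finset.sum_const, Finset.card_univ, Fintype.card_fin,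
      nsmul_eq_mul]
    ring
  have hBe : B u g = Real.exp (-(3 * m / 2) + 3/8 * ∑ j, (innerSL ℝ u (g j)) ^ 2) := by
    show ∏ j, (Real.exp (-(3/2)) * Real.exp ((3/8) * (innerSL ℝ u (g j)) ^ 2)) = _
    simp_rw [← Real.exp_add]
    rw [← Real.exp_sum]
    congr 1
    rw [Finset.sum_add_distrib, ← Finset.mul_sum, Finset.sum_const, Finset.card_univ, Fintype.card_fin,
      nsmul_eq_mul]
    ring
  constructor
  · have h3 : A u g < 1 := by linarith [hB0 u g]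
    rw [hAe, Real.exp_lt_one_iff] at h3
    linarith
  · have h3 : B u g < 1 := by linarith [hA0 u g]
    rw [hBe, Real.exp_lt_one_iff] at h3
    linarith

theorem jl {ι : Type} [Fintype ι] (m : ℕ) (V : Finset (ι → ℝ)) (hV : 2 * (V.card : ℝ) < Real.exp ((m:ℝ)/4)) :
    ∃ g : Fin m → ι → ℝ, ∀ v ∈ V, (m:ℝ)/4 * ∑ i, v i ^ 2 ≤ ∑ j, (∑ i, g j i * v i)^2 ∧
      ∑ j, (∑ i, g j i * v i)^2 ≤ 4 * m * ∑ i, v i ^ 2 := by
  classical
  let nz : (ι → ℝ) → EuclideanSpace ℝ ι := fun v => ‖(WithLp.toLp 2 v : EuclideanSpace ℝ ι)‖⁻¹ • WithLp.toLp 2 v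
  let V' : Finset (EuclideanSpace ℝ ι) := (V.filter (fun v => v ≠ 0)).image nz
  have hcard : (V'.card : ℝ) ≤ V.card := by
    exact_mod_cast Finset.card_image_le.trans (Finset.card_filter_le _ _)
  have hnorm : ∀ v : ι → ℝ, v ≠ 0 → 0 < ‖(WithLp.toLp 2 v : EuclideanSpace ℝ ι)‖ := by
    intro v hv
    rw [norm_pos_iff]
    intro h
    apply hv
    exact congrArg WithLp.ofLp h
  obtain ⟨g, hg⟩ := jl_E m V' (by linarith) (by
    intro u hu
    obtain ⟨v, hv, rfl⟩ := Finset.mem_image.1 hu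
    have h0 := hnorm v (Finset.mem_filter.1 hv).2
    show ‖‖(WithLp.toLp 2 v : EuclideanSpace ℝ ι)‖⁻¹ • (WithLp.toLp 2 v : EuclideanSpace ℝ ι)‖ = 1
    rw [norm_smul, norm_inv, norm_norm, inv_mul_cancel₀ h0.ne'])
  refine ⟨fun j i => g j i, fun v hv => ?_⟩
  by_cases hv0 : v = 0
  · subst hv0
    simp
  have h0 := hnorm v hv0
  obtain ⟨h1, h2⟩ := hg (nz v) (Finset.mem_image.2 ⟨v, Finset.mem_filter.2 ⟨hv, hv0⟩, rfl⟩)
  have hsq : ∑ i, v i ^ 2 = ‖(WithLp.toLp 2 v : EuclideanSpace ℝ ι)‖ ^ 2 := by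
    rw [EuclideanSpace.norm_sq_eq]
    simp
  have hin : ∀ j, ∑ i, g j i * v i = ‖(WithLp.toLp 2 v : EuclideanSpace ℝ ι)‖ * innerSL ℝ (nz v) (g j) := by
    intro j
    show _ = _ * inner ℝ (‖(WithLp.toLp 2 v : EuclideanSpace ℝ ι)‖⁻¹ • (WithLp.toLp 2 v : EuclideanSpace ℝ ι)) (g j)
    rw [inner_smul_left, ← mul_assoc]
    simp only [conj_trivial]
    rw [mul_inv_cancel₀ h0.ne', one_mul, PiLp.inner_apply]
    refine Finset.sum_congr rfl fun i _ => ?_
    simp [mul_comm]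
  have hS : ∑ j, (∑ i, g j i * v i) ^ 2 =
      ‖(WithLp.toLp 2 v : EuclideanSpace ℝ ι)‖ ^ 2 * ∑ j, (innerSL ℝ (nz v) (g j)) ^ 2 := by
    rw [Finset.mul_sum]
    refine Finset.sum_congr rfl fun j _ => ?_
    rw [hin j]; ring
  rw [hS, hsq]
  have h3 : 0 < ‖(WithLp.toLp 2 v : EuclideanSpace ℝ ι)‖ ^ 2 := by positivity
  constructor
  · nlinarith
  · nlinarith


end Sol_jl

alias jl := Sol_jl.jl

end HypVol
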