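import Pool.Agent.HypVol.Defs
import Pool.Agent.HypVol.L_jl
open MeasureTheory Real ProbabilityTheory
open scoped ENNReal BigOperators

namespace HypVol
namespace Sol_mstar




theorem ms_step {S κ : Type} [Fintype S] [Fintype κ] (w : S → ℝ) (hw : ∀ s, 0 ≤ w s)
    (hw1 : ∑ s, w s = 1) (Y : S → κ → ℝ) (B : ℝ) (hB : ∀ s, ∑ k, Y s k ^ 2 ≤ B) (P : κ → ℝ) :
    ∃ s, ∑ k, (P k + (Y s k - ∑ t, w t * Y t k)) ^ 2 ≤ ∑ k, P k ^ 2 + B := by
  by_contra hcon
  push Not at hcon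
  obtain ⟨s0, hs0⟩ : ∃ s, 0 < w s := by
    by_contra h
    push Not at h
    have : ∑ s, w s ≤ 0 := Finset.sum_nonpos fun s _ => h s
    linarith
  have h1 : 0 < ∑ s, w s * (∑ k, (P k + (Y s k - ∑ t, w t * Y t k)) ^ 2 - (∑ k, P k ^ 2 + B)) := by
    apply Finset.sum_pos'
    · intro s _
      exact mul_nonneg (hw s) (by linarith [hcon s])
    · exact ⟨s0, Finset.mem_univ _, mul_pos hs0 (by linarith [hcon s0])⟩
  have h2 : ∑ s, w s * (∑ k, (P k + (Y s k - ∑ t, w t * Y t k)) ^ 2 - (∑ k, P k ^ 2 + B)) =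
      ∑ k, (∑ s, w s * (P k + (Y s k - ∑ t, w t * Y t k)) ^ 2) - (∑ k, P k ^ 2 + B) := by
    simp only [mul_sub]
    rw [Finset.sum_sub_distrib, ← Finset.sum_mul, hw1, one_mul]
    congr 1
    rw [Finset.sum_comm]
    exact Finset.sum_congr rfl fun s _ => Finset.mul_sum _ _ _
  have h3 : ∀ k, ∑ s, w s * (P k + (Y s k - ∑ t, w t * Y t k)) ^ 2 ≤ P k ^ 2 + ∑ s, w s * Y s k ^ 2 := by
    intro k
    set z := ∑ t, w t * Y t k with hz
    have e : ∀ s, w s * (P k + (Y s k - z)) ^ 2 = w s * (P k - z) ^ 2 + 2 * (P k - z) * (w s * Y s k) +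
        w s * Y s k ^ 2 := by intro s; ring
    simp only [e]
    rw [Finset.sum_add_distrib, Finset.sum_add_distrib, ← Finset.sum_mul, ← Finset.mul_sum, hw1, ← hz]
    nlinarith [sq_nonneg z]
  have h4 : ∑ k, ∑ s, w s * Y s k ^ 2 ≤ B := by
    rw [Finset.sum_comm]
    calc ∑ s, ∑ k, w s * Y s k ^ 2 = ∑ s, w s * ∑ k, Y s k ^ 2 :=
          Finset.sum_congr rfl fun s _ => (Finset.mul_sum _ _ _).symm
      _ ≤ ∑ s, w s * B := Finset.sum_le_sum fun s _ => mul_le_mul_of_nonneg_left (hB s) (hw s)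
      _ = B := by rw [← Finset.sum_mul, hw1, one_mul]
  have h5 : ∑ k, (∑ s, w s * (P k + (Y s k - ∑ t, w t * Y t k)) ^ 2) ≤
      ∑ k, P k ^ 2 + ∑ k, ∑ s, w s * Y s k ^ 2 := by
    rw [← Finset.sum_add_distrib]
    exact Finset.sum_le_sum fun k _ => h3 k
  linarith

theorem ms_maurey {S κ : Type} [Fintype S] [Fintype κ] (w : S → ℝ) (hw : ∀ s, 0 ≤ w s)
    (hw1 : ∑ s, w s = 1) (Y : S → κ → ℝ) (B : ℝ) (hB : ∀ s, ∑ k, Y s k ^ 2 ≤ B) (l : ℕ) :
    ∃ σ : Fin l → S, ∑ k, (∑ s, (Y (σ s) k - ∑ t, w t * Y t k)) ^ 2 ≤ l * B := by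
  induction l with
  | zero => exact ⟨fun i => i.elim0, by simp⟩
  | succ l ih =>
    obtain ⟨σ, hσ⟩ := ih
    obtain ⟨s, hs⟩ := ms_step w hw hw1 Y B hB (fun k => ∑ s, (Y (σ s) k - ∑ t, w t * Y t k))
    refine ⟨Fin.snoc (α := fun _ => S) σ s, ?_⟩
    have e : ∀ k, ∑ i : Fin (l + 1), (Y (Fin.snoc (α := fun _ => S) σ s i) k - ∑ t, w t * Y t k) =
        ∑ s, (Y (σ s) k - ∑ t, w t * Y t k) + (Y s k - ∑ t, w t * Y t k) := by
      intro k
      rw [Fin.sum_univ_castSucc]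
      simp only [Fin.snoc_castSucc, Fin.snoc_last]
    simp only [e]
    push_cast
    linarith

theorem mstar {X ι : Type} [Fintype X] [Nonempty X] [Fintype ι] (z : X → ι → ℝ) (R : ℝ)
    (hR : ∀ x, ∑ i, z x i ^ 2 ≤ R^2) (m l : ℕ) (hl : 1 ≤ l)
    (h : 8 * (3 * (Fintype.card X : ℝ))^l < Real.exp ((m:ℝ)/4)) :
    ∃ g : Fin m → ι → ℝ, ∀ μ : X → ℝ, ∑ x, |μ x| ≤ 1 → (∀ j, ∑ x, μ x * (∑ i, g j i * z x i) = 0) →
      ∑ i, (∑ x, μ x * z x i)^2 ≤ 50 * R^2 / l := by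
  classical
  have hl0 : (0:ℝ) < l := by
    have : 0 < l := hl
    exact_mod_cast this
  have hXc : (1:ℝ) ≤ (Fintype.card X : ℝ) := by
    have : 1 ≤ Fintype.card X := Fintype.card_pos
    exact_mod_cast this
  have hm : 0 < m := by
    rcases Nat.eq_zero_or_pos m with h0 | h0
    · exfalso
      subst h0
      have h1 : (1:ℝ) ≤ (3 * (Fintype.card X : ℝ))^l := one_le_pow₀ (by linarith)
      simp only [Nat.cast_zero, zero_div, Real.exp_zero] at h
      linarith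
    · exact h0
  have hm0 : (0:ℝ) < m := by exact_mod_cast hm
  set y : X × Fin 3 → ι → ℝ := fun s i => (![1, -1, 0] : Fin 3 → ℝ) s.2 * z s.1 i with hy
  have hyn : ∀ s, ∑ i, y s i ^ 2 ≤ R ^ 2 := by
    intro s
    have h1 : ((![1, -1, 0] : Fin 3 → ℝ) s.2) ^ 2 ≤ 1 := by
      rcases s with ⟨x, e⟩
      fin_cases e <;> norm_num
    have h2 : ∑ i, y s i ^ 2 = ((![1, -1, 0] : Fin 3 → ℝ) s.2) ^ 2 * ∑ i, z s.1 i ^ 2 := by
      rw [Finset.mul_sum]
      exact Finset.sum_congr rfl fun i _ => by simp only [hy]; ring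
    rw [h2]
    have h3 : 0 ≤ ∑ i, z s.1 i ^ 2 := Finset.sum_nonneg fun i _ => sq_nonneg _
    nlinarith [hR s.1]
  set avg : (Fin l → X × Fin 3) → ι → ℝ := fun σ i => (1 / l : ℝ) * ∑ s, y (σ s) i with havg
  set V : Finset (ι → ℝ) := Finset.univ.image avg with hV
  have hVc : (V.card : ℝ) ≤ (3 * (Fintype.card X : ℝ)) ^ l := by
    have h1 : V.card ≤ (Fintype.card X * 3) ^ l := by
      refine Finset.card_image_le.trans (le_of_eq ?_)
      simp [Fintype.card_prod]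
    have h2 : (V.card : ℝ) ≤ (((Fintype.card X * 3) ^ l : ℕ) : ℝ) := by exact_mod_cast h1
    refine h2.trans (le_of_eq ?_)
    push_cast
    rw [mul_comm]
  obtain ⟨g, hg⟩ := jl m V (by
    have : (0:ℝ) ≤ (3 * (Fintype.card X : ℝ)) ^ l := by positivity
    linarith)
  refine ⟨g, fun μ hμ hGz => ?_⟩
  have hgavg : ∀ σ, _ := fun σ => hg (avg σ) (Finset.mem_image_of_mem _ (Finset.mem_univ σ))
  have hGy : ∀ s, ∑ j, (∑ i, g j i * y s i) ^ 2 ≤ 4 * m * R ^ 2 := by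
    intro s
    have h1 := (hgavg (fun _ => s)).2
    have h2 : avg (fun _ => s) = y s := by
      funext i
      simp only [havg, Finset.sum_const, Finset.card_univ, Fintype.card_fin, nsmul_eq_mul]
      field_simp
    rw [h2] at h1
    exact h1.trans (mul_le_mul_of_nonneg_left (hyn s) (by positivity))
  -- weights
  set w : X × Fin 3 → ℝ := fun s => (![(|μ s.1| + μ s.1) / 2, (|μ s.1| - μ s.1) / 2,
    (1 - ∑ x, |μ x|) / (Fintype.card X : ℝ)] : Fin 3 → ℝ) s.2 with hwdef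
  have hw : ∀ s, 0 ≤ w s := by
    rintro ⟨x, e⟩
    have h1 := neg_abs_le (μ x)
    have h2 := le_abs_self (μ x)
    fin_cases e
    · simp [hwdef]; linarith
    · simp [hwdef]; linarith
    · simp only [hwdef]
      exact div_nonneg (by linarith) (by linarith)
  have hw1 : ∑ s, w s = 1 := by
    rw [Fintype.sum_prod_type]
    have h1 : ∀ x, ∑ e : Fin 3, w (x, e) = |μ x| + (1 - ∑ x, |μ x|) / (Fintype.card X : ℝ) := by
      intro x
      rw [Fin.sum_univ_three]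
      simp only [hwdef]
      simp
      ring
    simp only [h1]
    rw [Finset.sum_add_distrib, Finset.sum_const, Finset.card_univ, nsmul_eq_mul]
    field_simp
    ring
  have hwy : ∀ i, ∑ s, w s * y s i = ∑ x, μ x * z x i := by
    intro i
    rw [Fintype.sum_prod_type]
    refine Finset.sum_congr rfl fun x _ => ?_
    rw [Fin.sum_univ_three]
    simp only [hwdef, hy]
    simp
    ring
  have hwG : ∀ j, ∑ s, w s * (∑ i, g j i * y s i) = 0 := by
    intro j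
    rw [← hGz j, Fintype.sum_prod_type]
    refine Finset.sum_congr rfl fun x _ => ?_
    rw [Fin.sum_univ_three]
    simp only [hwdef, hy]
    simp
    ring
  set Y : X × Fin 3 → (ι ⊕ Fin m) → ℝ := fun s k => Sum.elim (fun i => 2 * Real.sqrt m * y s i)
    (fun j => ∑ i, g j i * y s i) k with hYdef
  have hsq : Real.sqrt m ^ 2 = m := Real.sq_sqrt hm0.le
  have hYn : ∀ s, ∑ k, Y s k ^ 2 ≤ 8 * m * R ^ 2 := by
    intro s
    rw [Fintype.sum_sum_type]
    have h1 : ∑ i, Y s (Sum.inl i) ^ 2 = 4 * m * ∑ i, y s i ^ 2 := by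
      rw [Finset.mul_sum]
      refine Finset.sum_congr rfl fun i _ => ?_
      simp only [hYdef, Sum.elim_inl]
      rw [mul_pow, mul_pow, hsq]; ring
    have h2 : ∑ j, Y s (Sum.inr j) ^ 2 = ∑ j, (∑ i, g j i * y s i) ^ 2 := by
      refine Finset.sum_congr rfl fun j _ => ?_
      simp only [hYdef, Sum.elim_inr]
    rw [h1, h2]
    have h3 := hGy s
    have h4 := hyn s
    nlinarith
  obtain ⟨σ, hσ⟩ := ms_maurey w hw hw1 Y (8 * m * R ^ 2) hYn l
  rw [Fintype.sum_sum_type] at hσ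
  set zz : ι → ℝ := fun i => ∑ x, μ x * z x i with hzz
  have e1 : ∀ i, ∑ s, (Y (σ s) (Sum.inl i) - ∑ t, w t * Y t (Sum.inl i)) =
      2 * Real.sqrt m * l * (avg σ i - zz i) := by
    intro i
    have h1 : ∑ t, w t * Y t (Sum.inl i) = 2 * Real.sqrt m * zz i := by
      simp only [hYdef, Sum.elim_inl, hzz]
      rw [← hwy i, Finset.mul_sum]
      exact Finset.sum_congr rfl fun t _ => by ring
    rw [h1, Finset.sum_sub_distrib, Finset.sum_const, Finset.card_univ, Fintype.card_fin, nsmul_eq_mul]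
    simp only [hYdef, Sum.elim_inl, havg]
    rw [← Finset.mul_sum]
    field_simp
  have e2 : ∀ j, ∑ s, (Y (σ s) (Sum.inr j) - ∑ t, w t * Y t (Sum.inr j)) =
      l * (∑ i, g j i * avg σ i) := by
    intro j
    have h1 : ∑ t, w t * Y t (Sum.inr j) = 0 := by
      simp only [hYdef, Sum.elim_inr]
      exact hwG j
    rw [h1]
    simp only [sub_zero, hYdef, Sum.elim_inr, havg]
    rw [Finset.sum_comm, Finset.mul_sum]
    refine Finset.sum_congr rfl fun i _ => ?_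
    rw [← Finset.mul_sum]
    field_simp
  simp only [e1, e2] at hσ
  have e3 : ∑ i, (2 * Real.sqrt m * l * (avg σ i - zz i)) ^ 2 =
      4 * m * l ^ 2 * ∑ i, (avg σ i - zz i) ^ 2 := by
    rw [Finset.mul_sum]
    refine Finset.sum_congr rfl fun i _ => ?_
    rw [mul_pow, mul_pow, mul_pow, hsq]; ring
  have e4 : ∑ j, ((l:ℝ) * (∑ i, g j i * avg σ i)) ^ 2 = l ^ 2 * ∑ j, (∑ i, g j i * avg σ i) ^ 2 := by
    rw [Finset.mul_sum]
    exact Finset.sum_congr rfl fun j _ => by ring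
  rw [e3, e4] at hσ
  have h6 := (hgavg σ).1
  set D := ∑ i, (avg σ i - zz i) ^ 2 with hD
  set Gv := ∑ j, (∑ i, g j i * avg σ i) ^ 2 with hGv
  set Av := ∑ i, avg σ i ^ 2 with hAv
  have h7 : ∑ i, zz i ^ 2 ≤ 17 / 16 * Av + 17 * D := by
    rw [hAv, hD, Finset.mul_sum, Finset.mul_sum, ← Finset.sum_add_distrib]
    refine Finset.sum_le_sum fun i _ => ?_
    nlinarith [sq_nonneg (avg σ i / 4 - 4 * (zz i - avg σ i))]
  rw [le_div_iff₀ hl0]
  have h8 : (l:ℝ) * (4 * m * D + Gv) ≤ 8 * m * R ^ 2 := by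
    have : (l:ℝ) * ((l:ℝ) * (4 * m * D + Gv)) ≤ l * (8 * m * R ^ 2) := by nlinarith
    exact le_of_mul_le_mul_left this hl0
  have h9 : m * ∑ i, zz i ^ 2 ≤ 17 / 4 * (4 * m * D + Gv) := by nlinarith
  have h10 : (m:ℝ) * ((∑ i, zz i ^ 2) * l) ≤ m * (34 * R ^ 2) := by nlinarith
  have h11 := le_of_mul_le_mul_left h10 hm0
  have hR0 := sq_nonneg R
  have h12 : ∑ i, (∑ x, μ x * z x i) ^ 2 = ∑ i, zz i ^ 2 := rfl
  rw [h12]
  linarith


end Sol_mstar

alias mstar := Sol_mstar.mstar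

end HypVol
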