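import Pool.Agent.HypVol.Defs
import Pool.Agent.HypVol.L_mstar
import Pool.Agent.HypVol.L_dualdist
open MeasureTheory Real ProbabilityTheory
open scoped ENNReal BigOperators

namespace HypVol
namespace Sol_kcore





theorem kcore_cs_aux {ι : Type} [Fintype ι] (a b : ι → ℝ) (B : ℝ) (ha : ∑ i, a i ^ 2 ≤ 1)
    (hb : ∑ i, b i ^ 2 ≤ B^2) (hB : 0 ≤ B) : |∑ i, a i * b i| ≤ B := by
  have h := Finset.sum_mul_sq_le_sq_mul_sq Finset.univ a b
  apply abs_le_of_sq_le_sq _ hB
  calc (∑ i, a i * b i)^2 ≤ (∑ i, a i^2) * (∑ i, b i^2) := h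
    _ ≤ 1 * B^2 := mul_le_mul ha hb (Finset.sum_nonneg fun i _ => sq_nonneg _) zero_le_one
    _ = B^2 := one_mul _

theorem kcore {X ι : Type} [Fintype X] [Nonempty X] [Fintype ι] (z : X → ι → ℝ) (R : ℝ) (hR0 : 0 ≤ R)
    (hR : ∀ x, ∑ i, z x i ^ 2 ≤ R^2) (m : ℕ) (hm : 1 ≤ m) :
    ∃ g : Fin m → ι → ℝ, ∀ a : ι → ℝ, ∑ i, a i ^ 2 ≤ 1 → ∃ β : Fin m → ℝ, ∀ x,
      |∑ i, (a i - ∑ j, β j * g j i) * z x i| ≤ 40 * R * Real.sqrt (Real.log (3 * Fintype.card X) / m) := by
  have hN1 : (1:ℝ) ≤ (Fintype.card X : ℝ) := by exact_mod_cast Fintype.card_pos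
  have hlog3 : 1 < Real.log 3 := by
    rw [Real.lt_log_iff_exp_lt (by norm_num)]
    have := Real.exp_one_lt_d9
    linarith
  obtain ⟨L, hL⟩ : ∃ L : ℝ, L = Real.log (3 * Fintype.card X) := ⟨_, rfl⟩
  rw [← hL]
  have hL1 : 1 < L := by
    rw [hL]
    refine lt_of_lt_of_le hlog3 (Real.log_le_log (by norm_num) ?_)
    linarith
  have hmpos : (0:ℝ) < m := by exact_mod_cast hm
  by_cases hcase : (m:ℝ) < 16 * L
  · refine ⟨fun _ _ => 0, fun a ha => ⟨fun _ => 0, fun x => ?_⟩⟩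
    simp only [mul_zero, Finset.sum_const_zero, sub_zero]
    refine (kcore_cs_aux a (z x) R ha (hR x) hR0).trans ?_
    have h1 : (1/4:ℝ) ≤ Real.sqrt (L / m) := by
      apply Real.le_sqrt_of_sq_le
      rw [le_div_iff₀ hmpos]
      linarith
    nlinarith
  · push Not at hcase
    obtain ⟨l, hl⟩ : ∃ l : ℕ, l = ⌊(m:ℝ) / (16 * L)⌋₊ := ⟨_, rfl⟩
    have hx1 : 1 ≤ (m:ℝ) / (16 * L) := by
      rw [le_div_iff₀ (by positivity)]; linarith
    have hl1 : 1 ≤ l := by
      rw [hl]; exact Nat.le_floor (by exact_mod_cast hx1)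
    have hl2 : (l:ℝ) ≤ (m:ℝ) / (16 * L) := by
      rw [hl]; exact Nat.floor_le (by positivity)
    have hl3 : (m:ℝ) / (32 * L) ≤ l := by
      have h1 : (m:ℝ) / (16 * L) < l + 1 := by rw [hl]; exact Nat.lt_floor_add_one _
      have h2 : (1:ℝ) ≤ l := by exact_mod_cast hl1
      have h3 : (m:ℝ) / (32 * L) = ((m:ℝ) / (16 * L)) / 2 := by
        field_simp; norm_num
      rw [h3]; linarith
    have hlpos : (0:ℝ) < l := by exact_mod_cast hl1
    have hm16 : (16:ℝ) < m := by linarith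
    have hcond : 8 * (3 * (Fintype.card X : ℝ))^l < Real.exp ((m:ℝ)/4) := by
      have h3N : 0 < 3 * (Fintype.card X : ℝ) := by linarith
      have e1 : (3 * (Fintype.card X : ℝ))^l = Real.exp (l * L) := by
        rw [hL, mul_comm (l:ℝ) (Real.log _), Real.exp_mul, Real.exp_log h3N, Real.rpow_natCast]
      have e2 : (8:ℝ) = Real.exp (3 * Real.log 2) := by
        rw [mul_comm, Real.exp_mul, Real.exp_log (by norm_num)]; norm_num
      rw [e1, e2, ← Real.exp_add]
      apply Real.exp_lt_exp.mpr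
      have h4 : (l:ℝ) * L ≤ m / 16 := by
        have := mul_le_mul_of_nonneg_right hl2 (by linarith : (0:ℝ) ≤ L)
        calc (l:ℝ) * L ≤ (m:ℝ) / (16 * L) * L := this
          _ = m / 16 := by field_simp
      have h5 := Real.log_two_lt_d9
      linarith
    obtain ⟨g, hg⟩ := mstar z R hR m l hl1 hcond
    refine ⟨g, fun a ha => ?_⟩
    obtain ⟨β, hβ⟩ := dualdist m (fun x => ∑ i, a i * z x i) (fun j x => ∑ i, g j i * z x i)
      (40 * R * Real.sqrt (L / m)) (by positivity) (by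
        intro μ hμ hμ0
        have h1 := hg μ hμ hμ0
        have h2 : ∑ x, μ x * ∑ i, a i * z x i = ∑ i, a i * ∑ x, μ x * z x i := by
          simp_rw [Finset.mul_sum]
          rw [Finset.sum_comm]
          refine Finset.sum_congr rfl fun i _ => Finset.sum_congr rfl fun x _ => by ring
        show ∑ x, μ x * ∑ i, a i * z x i ≤ _
        rw [h2]
        refine (le_abs_self _).trans (kcore_cs_aux a _ _ ha (h1.trans ?_) (by positivity))
        rw [mul_pow, mul_pow, Real.sq_sqrt (by positivity)]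
        have h3 : 50 * R^2 / (l:ℝ) ≤ 50 * R^2 / ((m:ℝ) / (32 * L)) :=
          div_le_div_of_nonneg_left (by positivity) (by positivity) hl3
        refine h3.trans (le_of_eq ?_)
        field_simp
        ring)
    refine ⟨β, fun x => ?_⟩
    have h4 : ∑ i, (a i - ∑ j, β j * g j i) * z x i
        = ∑ i, a i * z x i - ∑ j, β j * ∑ i, g j i * z x i := by
      simp_rw [sub_mul, Finset.sum_sub_distrib, Finset.sum_mul, Finset.mul_sum]
      congr 1
      rw [Finset.sum_comm]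
      refine Finset.sum_congr rfl fun i _ => Finset.sum_congr rfl fun x _ => by ring
    rw [h4]
    exact hβ x


end Sol_kcore

alias kcore := Sol_kcore.kcore

end HypVol
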