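import Pool.Agent.HypVol.Defs
import Pool.Agent.HypVol.L_kcore
import Pool.Agent.HypVol.L_disc_poly
open MeasureTheory Real ProbabilityTheory
open scoped ENNReal BigOperators

namespace HypVol
namespace Sol_layer_approx






theorem la_re {d n : ℕ} (a : (layer d n) × Fin 2 → ℝ) (x : Fin d → ℝ) :
    (poly a x).re = ∑ k : layer d n, (a (k, 0) * Real.cos (∑ j, (k.1 j : ℝ) * x j) -
      a (k, 1) * Real.sin (∑ j, (k.1 j : ℝ) * x j)) := by
  unfold poly
  rw [Complex.re_sum]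
  refine Finset.sum_congr rfl fun k _ => ?_
  generalize (∑ j, (k.1 j : ℝ) * x j) = θ
  rw [mul_comm Complex.I, Complex.exp_mul_I, ← Complex.ofReal_cos, ← Complex.ofReal_sin]
  simp only [Complex.mul_re, Complex.mul_im, Complex.add_re, Complex.add_im, Complex.ofReal_re,
    Complex.ofReal_im, Complex.I_re, Complex.I_im]
  ring

theorem la_im {d n : ℕ} (a : (layer d n) × Fin 2 → ℝ) (x : Fin d → ℝ) :
    (poly a x).im = ∑ k : layer d n, (a (k, 0) * Real.sin (∑ j, (k.1 j : ℝ) * x j) +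
      a (k, 1) * Real.cos (∑ j, (k.1 j : ℝ) * x j)) := by
  unfold poly
  rw [Complex.im_sum]
  refine Finset.sum_congr rfl fun k _ => ?_
  generalize (∑ j, (k.1 j : ℝ) * x j) = θ
  rw [mul_comm Complex.I, Complex.exp_mul_I, ← Complex.ofReal_cos, ← Complex.ofReal_sin]
  simp only [Complex.mul_re, Complex.mul_im, Complex.add_re, Complex.add_im, Complex.ofReal_re,
    Complex.ofReal_im, Complex.I_re, Complex.I_im]
  ring

theorem la_sum {d n : ℕ} (F : (layer d n) × Fin 2 → ℝ) :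
    ∑ i, F i = ∑ k : layer d n, (F (k, 0) + F (k, 1)) := by
  rw [Fintype.sum_prod_type]
  refine Finset.sum_congr rfl fun k _ => ?_
  rw [Fin.sum_univ_two]

/-- the functionals -/
noncomputable def laz {d n : ℕ} (M : ℕ) (p : (Fin d → Fin M) × Fin 2) (i : (layer d n) × Fin 2) : ℝ :=
  if p.2 = 0 then
    (if i.2 = 0 then Real.cos (∑ j, (i.1.1 j : ℝ) * (2 * π * ((p.1 j : ℕ) : ℝ) / M))
      else - Real.sin (∑ j, (i.1.1 j : ℝ) * (2 * π * ((p.1 j : ℕ) : ℝ) / M)))
  else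
    (if i.2 = 0 then Real.sin (∑ j, (i.1.1 j : ℝ) * (2 * π * ((p.1 j : ℕ) : ℝ) / M))
      else Real.cos (∑ j, (i.1.1 j : ℝ) * (2 * π * ((p.1 j : ℕ) : ℝ) / M)))

theorem laz_sq {d n : ℕ} (M : ℕ) (p : (Fin d → Fin M) × Fin 2) :
    ∑ i : (layer d n) × Fin 2, laz M p i ^ 2 = (layer d n).card := by
  rw [la_sum]
  have h : ∀ k : layer d n, laz M p (k, 0) ^ 2 + laz M p (k, 1) ^ 2 = 1 := by
    intro k
    unfold laz
    by_cases hp : p.2 = 0
    · simp [hp]
    · simp [hp]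
  rw [Finset.sum_congr rfl (fun k _ => h k)]
  simp

theorem laz_re {d n : ℕ} (M : ℕ) (g : Fin d → Fin M) (a : (layer d n) × Fin 2 → ℝ) :
    (poly a (fun j => 2 * π * ((g j : ℕ) : ℝ) / M)).re = ∑ i, a i * laz M (g, 0) i := by
  rw [la_re, la_sum]
  refine Finset.sum_congr rfl fun k _ => ?_
  simp [laz]
  ring

theorem laz_im {d n : ℕ} (M : ℕ) (g : Fin d → Fin M) (a : (layer d n) × Fin 2 → ℝ) :
    (poly a (fun j => 2 * π * ((g j : ℕ) : ℝ) / M)).im = ∑ i, a i * laz M (g, 1) i := by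
  rw [la_im, la_sum]
  refine Finset.sum_congr rfl fun k _ => ?_
  simp [laz]

theorem layer_approx (d : ℕ) : ∃ C : ℝ, 0 < C ∧ ∀ n m : ℕ, 1 ≤ m →
    ∃ G : Fin m → ((layer d n) × Fin 2 → ℝ), ∀ a : (layer d n) × Fin 2 → ℝ, ∑ i, a i ^ 2 ≤ 1 →
      ∃ β : Fin m → ℝ, ∀ x, ‖poly (fun i => a i - ∑ j, β j * G j i) x‖
        ≤ C * Real.sqrt (((n:ℝ)+1) * (layer d n).card / m) := by
  obtain ⟨c, hc⟩ := disc_poly d
  refine ⟨160 * Real.sqrt (5 + c * d), by positivity, ?_⟩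
  intro n m hm
  haveI : NeZero (2 ^ (c * (n + 1))) := ⟨by positivity⟩
  have hz : ∀ p : (Fin d → Fin (2 ^ (c * (n + 1)))) × Fin 2,
      ∑ i : (layer d n) × Fin 2, laz (2 ^ (c * (n + 1))) p i ^ 2 ≤
        (Real.sqrt (layer d n).card) ^ 2 := by
    intro p
    rw [laz_sq, Real.sq_sqrt (by positivity)]
  obtain ⟨G, hG⟩ := kcore (fun p : (Fin d → Fin (2 ^ (c * (n + 1)))) × Fin 2 =>
    fun i : (layer d n) × Fin 2 => laz (2 ^ (c * (n + 1))) p i) (Real.sqrt (layer d n).card)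
    (Real.sqrt_nonneg _) hz m hm
  refine ⟨G, fun a ha => ?_⟩
  obtain ⟨β, hβ⟩ := hG a ha
  refine ⟨β, ?_⟩
  set ρ : ℝ := 40 * Real.sqrt (layer d n).card *
    Real.sqrt (Real.log (3 * Fintype.card ((Fin d → Fin (2 ^ (c * (n + 1)))) × Fin 2)) / m) with hρ
  have hρ0 : 0 ≤ ρ := by positivity
  have hgrid : ∀ g : Fin d → Fin (2^(c*(n+1))),
      ‖poly (fun i => a i - ∑ j, β j * G j i)
        (fun j => 2 * π * ((g j : ℕ) : ℝ) / 2^(c*(n+1)))‖ ≤ 2 * ρ := by
    intro g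
    have h1 := hβ (g, 0)
    have h2 := hβ (g, 1)
    have e1 := laz_re (2^(c*(n+1))) g (fun i => a i - ∑ j, β j * G j i)
    have e2 := laz_im (2^(c*(n+1))) g (fun i => a i - ∑ j, β j * G j i)
    push_cast at e1 e2
    refine (Complex.norm_le_abs_re_add_abs_im _).trans ?_
    rw [e1, e2, two_mul]
    exact add_le_add h1 h2
  intro x
  have hfin := hc n _ (2 * ρ) (by positivity) hgrid x
  refine hfin.trans ?_
  have hcard : (Fintype.card ((Fin d → Fin (2 ^ (c * (n + 1)))) × Fin 2) : ℝ) =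
      (2:ℝ) ^ (c * (n + 1) * d) * 2 := by
    rw [Fintype.card_prod, Fintype.card_fun, Fintype.card_fin, Fintype.card_fin, Fintype.card_fin]
    push_cast
    rw [← pow_mul]
  have hlog : Real.log (3 * Fintype.card ((Fin d → Fin (2 ^ (c * (n + 1)))) × Fin 2)) ≤
      (5 + c * d) * (n + 1) := by
    rw [hcard, show (3:ℝ) * (2 ^ (c * (n + 1) * d) * 2) = 6 * 2 ^ (c * (n + 1) * d) by ring,
      Real.log_mul (by norm_num) (by positivity), Real.log_pow]
    have h6 : Real.log 6 ≤ 5 := by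
      have := Real.log_le_sub_one_of_pos (show (0:ℝ) < 6 by norm_num)
      linarith
    have h2 : Real.log 2 ≤ 1 := by
      have := Real.log_le_sub_one_of_pos (show (0:ℝ) < 2 by norm_num)
      linarith
    push_cast
    have h3 : (c:ℝ) * (n + 1) * d * Real.log 2 ≤ (c:ℝ) * (n + 1) * d * 1 :=
      mul_le_mul_of_nonneg_left h2 (by positivity)
    have h4 : (5:ℝ) ≤ 5 * (n + 1) := by
      have : (0:ℝ) ≤ n := Nat.cast_nonneg n
      linarith
    nlinarith
  have hm0 : (0:ℝ) < m := by exact_mod_cast hm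
  have hs : Real.sqrt (Real.log (3 * Fintype.card ((Fin d → Fin (2 ^ (c * (n + 1)))) × Fin 2)) / m)
      ≤ Real.sqrt ((5 + c * d) * (n + 1) / m) := by
    apply Real.sqrt_le_sqrt
    exact div_le_div_of_nonneg_right hlog hm0.le
  have hfinal : Real.sqrt (layer d n).card * Real.sqrt ((5 + c * d) * (n + 1) / m) =
      Real.sqrt (5 + c * d) * Real.sqrt (((n:ℝ)+1) * (layer d n).card / m) := by
    rw [← Real.sqrt_mul (by positivity), ← Real.sqrt_mul (by positivity)]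
    congr 1
    ring
  have hle : 160 * (Real.sqrt (layer d n).card *
      Real.sqrt (Real.log (3 * Fintype.card ((Fin d → Fin (2 ^ (c * (n + 1)))) × Fin 2)) / m))
      ≤ 160 * (Real.sqrt (layer d n).card * Real.sqrt ((5 + c * d) * (n + 1) / m)) := by
    gcongr
  rw [hfinal] at hle
  have heq : 2 * (2 * ρ) = 160 * (Real.sqrt (layer d n).card *
      Real.sqrt (Real.log (3 * Fintype.card ((Fin d → Fin (2 ^ (c * (n + 1)))) × Fin 2)) / m)) := by
    rw [hρ]; ring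
  rw [heq]
  refine hle.trans (le_of_eq ?_)
  ring


end Sol_layer_approx

alias layer_approx := Sol_layer_approx.layer_approx

end HypVol
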