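import Pool.Agent.HypVol.Defs
import Pool.Agent.HypVol.L_card_layer
import Pool.Agent.HypVol.L_shp_upper
open MeasureTheory Real ProbabilityTheory
open scoped ENNReal BigOperators

namespace HypVol
namespace Sol_num_up





theorem NU_summ (D : ℕ) (x : ℝ) (hx0 : 0 < x) (hx1 : x < 1) :
    Summable (fun n : ℕ => ((n:ℝ)+1)^D * x^n) := by
  have h := summable_pow_mul_geometric_of_norm_lt_one (R := ℝ) D (r := x)
    (by rw [Real.norm_eq_abs, abs_of_pos hx0]; exact hx1)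
  have h2 := (summable_nat_add_iff 1).2 h
  have h3 := h2.mul_left (1/x)
  refine h3.congr (fun n => ?_)
  push_cast
  rw [pow_succ]
  field_simp

theorem NU_tail (D : ℕ) (A : ℝ) (hA : 1 ≤ A) (L : ℕ → ℕ)
    (hL : ∀ n, (L n : ℝ) ≤ A * 2^n * ((n:ℝ)+1)^D) (a : ℝ) (ha : 0 < a) (ha2 : 2 * a < 1)
    (n1 : ℕ) :
    Summable (fun n : ℕ => a^(n+n1) * Real.sqrt (L (n+n1))) ∧
    ∑' n : ℕ, a^(n+n1) * Real.sqrt (L (n+n1)) ≤
      (Real.sqrt A * (a * Real.sqrt 2)^n1 * ((n1:ℝ)+1)^D) *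
        ∑' n : ℕ, ((n:ℝ)+1)^D * (a * Real.sqrt 2)^n := by
  have hs2 : Real.sqrt 2 < 2 := by
    rw [Real.sqrt_lt' (by norm_num)]; norm_num
  have hs2' : 0 < Real.sqrt 2 := Real.sqrt_pos.mpr (by norm_num)
  have hρ0 : 0 < a * Real.sqrt 2 := by positivity
  have hρ1 : a * Real.sqrt 2 < 1 := by nlinarith
  have hsum := NU_summ D (a * Real.sqrt 2) hρ0 hρ1
  have hb : ∀ n : ℕ, a^(n+n1) * Real.sqrt (L (n+n1)) ≤
      (Real.sqrt A * (a * Real.sqrt 2)^n1 * ((n1:ℝ)+1)^D) *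
        (((n:ℝ)+1)^D * (a * Real.sqrt 2)^n) := by
    intro n
    have h1 : Real.sqrt (L (n+n1)) ≤ Real.sqrt A * (Real.sqrt 2)^(n+n1) *
        (((n+n1:ℕ):ℝ)+1)^D := by
      rw [Real.sqrt_le_iff]
      refine ⟨by positivity, (hL (n+n1)).trans ?_⟩
      have e1 : (Real.sqrt A * (Real.sqrt 2)^(n+n1) * (((n+n1:ℕ):ℝ)+1)^D)^2 =
          A * 2^(n+n1) * ((((n+n1:ℕ):ℝ)+1)^D)^2 := by
        rw [mul_pow, mul_pow, Real.sq_sqrt (by linarith), ← pow_mul, mul_comm (n+n1) 2, pow_mul,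
          Real.sq_sqrt (by norm_num)]
      rw [e1]
      have h2 : (1:ℝ) ≤ (((n+n1:ℕ):ℝ)+1)^D := one_le_pow₀ (by linarith [Nat.cast_nonneg (α := ℝ) (n+n1)])
      have h3 : (((n+n1:ℕ):ℝ)+1)^D ≤ ((((n+n1:ℕ):ℝ)+1)^D)^2 := by nlinarith
      exact mul_le_mul_of_nonneg_left h3 (by positivity)
    have h4 : (((n+n1:ℕ):ℝ)+1)^D ≤ (((n:ℝ)+1) * ((n1:ℝ)+1))^D := by
      apply pow_le_pow_left₀ (by positivity)
      push_cast
      have : (0:ℝ) ≤ (n:ℝ) * n1 := by positivity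
      nlinarith
    calc a^(n+n1) * Real.sqrt (L (n+n1)) ≤ a^(n+n1) * (Real.sqrt A * (Real.sqrt 2)^(n+n1) *
        (((n:ℝ)+1) * ((n1:ℝ)+1))^D) := by
          apply mul_le_mul_of_nonneg_left (h1.trans _) (by positivity)
          exact mul_le_mul_of_nonneg_left h4 (by positivity)
      _ = _ := by
          rw [mul_pow, mul_pow, mul_pow, pow_add, pow_add]
          ring
  have hs := hsum.mul_left (Real.sqrt A * (a * Real.sqrt 2)^n1 * ((n1:ℝ)+1)^D)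
  have hS : Summable (fun n : ℕ => a^(n+n1) * Real.sqrt (L (n+n1))) :=
    Summable.of_nonneg_of_le (fun n => by positivity) hb hs
  refine ⟨hS, ?_⟩
  rw [← tsum_mul_left]
  exact hS.tsum_le_tsum hb hs

theorem NU_term (D : ℕ) (A : ℝ) (hA : 1 ≤ A) (L : ℕ) (n0 j : ℕ) (m M : ℝ)
    (hm : 8 * A * 2^n0 * ((n0:ℝ)+1)^D ≤ m) (hM : m / (8 * 2^j) ≤ M)
    (hL : (L:ℝ) ≤ A * 2^(n0+j) * (((n0+j:ℕ):ℝ)+1)^D) :
    Real.sqrt ((((n0 + j : ℕ):ℝ)+1) * L / M) ≤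
      2^j * Real.sqrt ((n0:ℝ)+1) * ((j:ℝ)+1)^(D+1) := by
  have hm0 : 0 < m := lt_of_lt_of_le (by positivity) hm
  have hM0 : 0 < M := lt_of_lt_of_le (by positivity) hM
  rw [Real.sqrt_le_iff]
  refine ⟨by positivity, ?_⟩
  rw [div_le_iff₀ hM0]
  have e1 : (2^j * Real.sqrt ((n0:ℝ)+1) * ((j:ℝ)+1)^(D+1))^2 =
      (2^j)^2 * ((n0:ℝ)+1) * (((j:ℝ)+1)^(D+1))^2 := by
    rw [mul_pow, mul_pow, Real.sq_sqrt (by positivity)]
  rw [e1]
  have h1 : (1:ℝ) ≤ ((j:ℝ)+1)^(D+1) := one_le_pow₀ (by linarith [Nat.cast_nonneg (α := ℝ) j])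
  have h2 : ((j:ℝ)+1)^(D+1) ≤ (((j:ℝ)+1)^(D+1))^2 := by nlinarith
  have h3 : (((n0+j:ℕ):ℝ)+1)^(D+1) ≤ (((n0:ℝ)+1) * ((j:ℝ)+1))^(D+1) := by
    apply pow_le_pow_left₀ (by positivity)
    push_cast
    have : (0:ℝ) ≤ (n0:ℝ) * j := by positivity
    nlinarith
  have h4 : A * 2^n0 * ((n0:ℝ)+1)^D / 2^j ≤ M := by
    refine le_trans ?_ hM
    rw [div_le_div_iff₀ (by positivity) (by positivity)]
    have : (0:ℝ) < 2^j := by positivity
    nlinarith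
  calc (((n0 + j : ℕ):ℝ)+1) * L ≤ (((n0 + j : ℕ):ℝ)+1) *
        (A * 2^(n0+j) * (((n0+j:ℕ):ℝ)+1)^D) := mul_le_mul_of_nonneg_left hL (by positivity)
    _ = (A * 2^(n0+j)) * (((n0+j:ℕ):ℝ)+1)^(D+1) := by rw [pow_succ]; ring
    _ ≤ (A * 2^(n0+j)) * (((n0:ℝ)+1) * ((j:ℝ)+1))^(D+1) :=
        mul_le_mul_of_nonneg_left h3 (by positivity)
    _ = (A * 2^(n0+j) * ((n0:ℝ)+1)^(D+1)) * ((j:ℝ)+1)^(D+1) := by rw [mul_pow]; ring
    _ ≤ (A * 2^(n0+j) * ((n0:ℝ)+1)^(D+1)) * (((j:ℝ)+1)^(D+1))^2 :=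
        mul_le_mul_of_nonneg_left h2 (by positivity)
    _ = ((2^j)^2 * ((n0:ℝ)+1) * (((j:ℝ)+1)^(D+1))^2) * (A * 2^n0 * ((n0:ℝ)+1)^D / 2^j) := by
        rw [pow_add, pow_succ ((n0:ℝ)+1) D]
        have : (2:ℝ)^j ≠ 0 := by positivity
        field_simp
    _ ≤ _ := mul_le_mul_of_nonneg_left h4 (by positivity)

theorem NU_geom (m : ℝ) (k : ℕ) :
    ∑ j ∈ Finset.range k, m / (4 * 2^j) = m / 2 - m / (2 * 2^k) := by
  induction k with
  | zero => simp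
  | succ k ih =>
    rw [Finset.sum_range_succ, ih, pow_succ]
    have : (2:ℝ)^k ≠ 0 := by positivity
    field_simp
    ring

theorem NU_final (D : ℕ) (A r : ℝ) (hA : 1 ≤ A) (hr : 1 < r) (n0 m : ℕ) (hm2 : 2 ≤ m)
    (h1 : 8 * A * 2^n0 * ((n0:ℝ)+1)^D ≤ m) (h2 : (m:ℝ) ≤ 8 * A * 2^(n0+1) * ((n0:ℝ)+2)^D) :
    (2:ℝ)^(-(r * n0)) * Real.sqrt ((n0:ℝ)+1) ≤
      ((16 * A)^r * 2^((D:ℝ) * r + 1/2)) * (m:ℝ)^(-r) * (Real.log m)^((D:ℝ) * r + 1/2) := by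
  have hm0 : (0:ℝ) < m := by
    have : 0 < m := by omega
    exact_mod_cast this
  have hX : (0:ℝ) < 2^n0 := by positivity
  have hn2 : (0:ℝ) < (n0:ℝ)+2 := by positivity
  have hY : (0:ℝ) < 16 * A * ((n0:ℝ)+2)^D := by positivity
  have hle : (m:ℝ) ≤ 2^n0 * (16 * A * ((n0:ℝ)+2)^D) := by
    refine h2.trans (le_of_eq ?_)
    rw [pow_succ]; ring
  have e0 : (2:ℝ)^(-(r * n0)) = ((2:ℝ)^n0)^(-r) := by
    rw [← Real.rpow_natCast, ← Real.rpow_mul (by norm_num)]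
    congr 1; ring
  have h3 : ((2:ℝ)^n0)^(-r) ≤ (16 * A * ((n0:ℝ)+2)^D)^r * (m:ℝ)^(-r) := by
    rw [Real.rpow_neg hX.le, Real.rpow_neg hm0.le]
    have h4 : (m:ℝ)^r ≤ ((2:ℝ)^n0)^r * (16 * A * ((n0:ℝ)+2)^D)^r := by
      rw [← Real.mul_rpow hX.le hY.le]
      exact Real.rpow_le_rpow hm0.le hle (by linarith)
    have h5 : 0 < (m:ℝ)^r := Real.rpow_pos_of_pos hm0 _
    have h6 : 0 < ((2:ℝ)^n0)^r := Real.rpow_pos_of_pos hX _
    rw [← one_div, ← div_eq_mul_inv, div_le_div_iff₀ h6 h5]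
    linarith
  have h7 : (16 * A * ((n0:ℝ)+2)^D)^r = (16 * A)^r * ((n0:ℝ)+2)^((D:ℝ) * r) := by
    rw [Real.mul_rpow (by positivity) (by positivity), ← Real.rpow_natCast,
      ← Real.rpow_mul hn2.le]
  have h8 : Real.sqrt ((n0:ℝ)+1) ≤ ((n0:ℝ)+2)^((1:ℝ)/2) := by
    rw [← Real.sqrt_eq_rpow]
    exact Real.sqrt_le_sqrt (by linarith)
  have hlog : (n0:ℝ)+2 ≤ 2 * Real.log m := by
    have h9 : (8:ℝ) * 2^n0 ≤ m := by
      refine le_trans ?_ h1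
      have h10 : (1:ℝ) ≤ ((n0:ℝ)+1)^D := one_le_pow₀ (by linarith [Nat.cast_nonneg (α := ℝ) n0])
      have h11 : (1:ℝ) ≤ A * ((n0:ℝ)+1)^D := by nlinarith
      calc (8:ℝ) * 2^n0 = (8 * 2^n0) * 1 := by ring
        _ ≤ (8 * 2^n0) * (A * ((n0:ℝ)+1)^D) := mul_le_mul_of_nonneg_left h11 (by positivity)
        _ = _ := by ring
    have h12 : Real.log (8 * 2^n0) ≤ Real.log m := Real.log_le_log (by positivity) h9
    have h13 : (8:ℝ) * 2^n0 = 2^(n0+3) := by rw [pow_add]; norm_num; ring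
    rw [h13, Real.log_pow] at h12
    have h14 := Real.log_two_gt_d9
    push_cast at h12
    have h15 : (0:ℝ) ≤ (n0:ℝ) := Nat.cast_nonneg _
    nlinarith
  have hlog0 : 0 < Real.log m := by linarith
  have h16 : ((n0:ℝ)+2)^((D:ℝ) * r + 1/2) ≤ 2^((D:ℝ) * r + 1/2) *
      (Real.log m)^((D:ℝ) * r + 1/2) := by
    rw [← Real.mul_rpow (by norm_num) hlog0.le]
    exact Real.rpow_le_rpow hn2.le hlog (by positivity)
  have h17 : ((n0:ℝ)+2)^((D:ℝ) * r + 1/2) = ((n0:ℝ)+2)^((D:ℝ) * r) * ((n0:ℝ)+2)^((1:ℝ)/2) :=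
    Real.rpow_add hn2 _ _
  rw [e0]
  have h18 : 0 ≤ (m:ℝ)^(-r) := Real.rpow_nonneg hm0.le _
  have h19 : 0 ≤ (16 * A)^r := Real.rpow_nonneg (by linarith) _
  calc ((2:ℝ)^n0)^(-r) * Real.sqrt ((n0:ℝ)+1) ≤
        ((16 * A * ((n0:ℝ)+2)^D)^r * (m:ℝ)^(-r)) * ((n0:ℝ)+2)^((1:ℝ)/2) :=
        mul_le_mul h3 h8 (Real.sqrt_nonneg _) (by positivity)
    _ = (16 * A)^r * (m:ℝ)^(-r) * ((n0:ℝ)+2)^((D:ℝ) * r + 1/2) := by
        rw [h7, h17]; ring
    _ ≤ (16 * A)^r * (m:ℝ)^(-r) * (2^((D:ℝ) * r + 1/2) *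
      (Real.log m)^((D:ℝ) * r + 1/2)) := mul_le_mul_of_nonneg_left h16 (by positivity)
    _ = _ := by ring

theorem NU_count (D : ℕ) (A : ℝ) (hA : 1 ≤ A) (L : ℕ → ℕ)
    (hL : ∀ n, (L n : ℝ) ≤ A * 2^n * ((n:ℝ)+1)^D) (n0 m : ℕ)
    (h1 : 8 * A * 2^n0 * ((n0:ℝ)+1)^D ≤ m) :
    (∀ j, j < n0 → (m:ℝ) / (8 * 2^j) ≤ ((max 1 (m / (4 * 2^j)) : ℕ) : ℝ)) ∧
    (∑ n ∈ Finset.range n0, 2 * L n) +
      ∑ n ∈ Finset.Ico n0 (2 * n0), max 1 (m / (4 * 2^(n - n0))) ≤ m := by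
  have h8 : (8:ℝ) * 2^n0 ≤ m := by
    refine le_trans ?_ h1
    have h10 : (1:ℝ) ≤ ((n0:ℝ)+1)^D := one_le_pow₀ (by linarith [Nat.cast_nonneg (α := ℝ) n0])
    have h11 : (1:ℝ) ≤ A * ((n0:ℝ)+1)^D := by nlinarith
    calc (8:ℝ) * 2^n0 = (8 * 2^n0) * 1 := by ring
      _ ≤ (8 * 2^n0) * (A * ((n0:ℝ)+1)^D) := mul_le_mul_of_nonneg_left h11 (by positivity)
      _ = _ := by ring
  have h8' : 8 * 2^n0 ≤ m := by exact_mod_cast h8
  have hq : ∀ j, j < n0 → 2 ≤ m / (4 * 2^j) := by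
    intro j hj
    rw [Nat.le_div_iff_mul_le (by positivity)]
    have : 2^j ≤ 2^n0 := Nat.pow_le_pow_right (by norm_num) hj.le
    nlinarith
  have hup : ∀ j, j < n0 → ((max 1 (m / (4 * 2^j)) : ℕ) : ℝ) ≤ (m:ℝ) / (4 * 2^j) := by
    intro j hj
    rw [max_eq_right (le_trans (by norm_num) (hq j hj))]
    have := @Nat.cast_div_le ℝ _ _ _ m (4 * 2^j)
    push_cast at this ⊢
    exact this
  constructor
  · intro j hj
    rw [max_eq_right (le_trans (by norm_num) (hq j hj))]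
    have hlt : m < (m / (4 * 2^j) + 1) * (4 * 2^j) := by
      have := Nat.lt_div_mul_add (a := m) (b := 4 * 2^j) (by positivity)
      nlinarith
    have h2 := hq j hj
    have hlt' : m ≤ (m / (4 * 2^j)) * (8 * 2^j) := by nlinarith
    rw [div_le_iff₀ (by positivity)]
    exact_mod_cast hlt'
  · have hr1 : ((∑ n ∈ Finset.range n0, 2 * L n : ℕ) : ℝ) ≤ m / 4 := by
      push_cast
      have hb : ∀ n ∈ Finset.range n0, 2 * (L n : ℝ) ≤ (2 * A * ((n0:ℝ)+1)^D) * 2^n := by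
        intro n hn
        rw [Finset.mem_range] at hn
        have h3 : ((n:ℝ)+1)^D ≤ ((n0:ℝ)+1)^D := by
          apply pow_le_pow_left₀ (by positivity)
          have : (n:ℝ) ≤ n0 := by exact_mod_cast hn.le
          linarith
        calc 2 * (L n : ℝ) ≤ 2 * (A * 2^n * ((n:ℝ)+1)^D) := by linarith [hL n]
          _ ≤ 2 * (A * 2^n * ((n0:ℝ)+1)^D) := by
            have := mul_le_mul_of_nonneg_left h3 (show (0:ℝ) ≤ A * 2^n by positivity)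
            linarith
          _ = _ := by ring
      refine (Finset.sum_le_sum hb).trans ?_
      rw [← Finset.mul_sum, geom_sum_eq (by norm_num : (2:ℝ) ≠ 1) n0]
      have : (0:ℝ) < 2 * A * ((n0:ℝ)+1)^D := by positivity
      have h5 : (2 * A * ((n0:ℝ)+1)^D) * ((2^n0 - 1) / (2 - 1)) ≤
          (2 * A * ((n0:ℝ)+1)^D) * 2^n0 := by
        apply mul_le_mul_of_nonneg_left _ this.le
        norm_num
      linarith
    have hr2 : ((∑ n ∈ Finset.Ico n0 (2 * n0), max 1 (m / (4 * 2^(n - n0))) : ℕ) : ℝ) ≤ m / 2 := by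
      rw [Finset.sum_Ico_eq_sum_range]
      have e : 2 * n0 - n0 = n0 := by omega
      rw [e, Nat.cast_sum]
      have hb : ∀ j ∈ Finset.range n0,
          ((max 1 (m / (4 * 2^(n0 + j - n0))) : ℕ) : ℝ) ≤ (m:ℝ) / (4 * 2^j) := by
        intro j hj
        rw [Finset.mem_range] at hj
        rw [show n0 + j - n0 = j by omega]
        exact hup j hj
      refine (Finset.sum_le_sum hb).trans ?_
      rw [NU_geom]
      have : (0:ℝ) ≤ (m:ℝ) / (2 * 2^n0) := by positivity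
      linarith
    have hm0 : (0:ℝ) ≤ m := Nat.cast_nonneg m
    have : (((∑ n ∈ Finset.range n0, 2 * L n) +
      ∑ n ∈ Finset.Ico n0 (2 * n0), max 1 (m / (4 * 2^(n - n0))) : ℕ) : ℝ) ≤ m := by
      rw [Nat.cast_add]
      linarith
    exact_mod_cast this

theorem NU_first (D : ℕ) (A : ℝ) (hA : 1 ≤ A) (L : ℕ → ℕ)
    (hL : ∀ n, (L n : ℝ) ≤ A * 2^n * ((n:ℝ)+1)^D) (n0 m : ℕ)
    (h1 : 8 * A * 2^n0 * ((n0:ℝ)+1)^D ≤ m) (a : ℝ) (ha : 0 < a) (ha2 : 2 * a < 1) :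
    ∑ n ∈ Finset.Ico n0 (2 * n0), a^n * Real.sqrt (((n:ℝ)+1) * (L n) /
      ((max 1 (m / (4 * 2^(n - n0))) : ℕ) : ℝ)) ≤
      a^n0 * Real.sqrt ((n0:ℝ)+1) * ∑' j : ℕ, ((j:ℝ)+1)^(D+1) * (2*a)^j := by
  obtain ⟨hc, -⟩ := NU_count D A hA L hL n0 m h1
  have hs := NU_summ (D+1) (2*a) (by positivity) ha2
  rw [Finset.sum_Ico_eq_sum_range]
  have e : 2 * n0 - n0 = n0 := by omega
  rw [e]
  have hb : ∀ j ∈ Finset.range n0, a^(n0+j) * Real.sqrt ((((n0+j:ℕ):ℝ)+1) * (L (n0+j)) /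
      ((max 1 (m / (4 * 2^(n0 + j - n0))) : ℕ) : ℝ)) ≤
      a^n0 * Real.sqrt ((n0:ℝ)+1) * (((j:ℝ)+1)^(D+1) * (2*a)^j) := by
    intro j hj
    rw [Finset.mem_range] at hj
    rw [show n0 + j - n0 = j by omega]
    have h := NU_term D A hA (L (n0+j)) n0 j m _ h1 (hc j hj) (hL (n0+j))
    calc _ ≤ a^(n0+j) * (2^j * Real.sqrt ((n0:ℝ)+1) * ((j:ℝ)+1)^(D+1)) :=
          mul_le_mul_of_nonneg_left h (by positivity)
      _ = _ := by rw [pow_add, mul_pow]; ring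
  refine (Finset.sum_le_sum hb).trans ?_
  rw [← Finset.mul_sum]
  apply mul_le_mul_of_nonneg_left _ (by positivity)
  exact hs.sum_le_tsum _ (fun i _ => by positivity)

theorem NU_exists (A : ℝ) (hA : 1 ≤ A) (D m : ℕ) (h : 8 * A ≤ m) : ∃ n0 : ℕ,
    8 * A * 2^n0 * ((n0:ℝ)+1)^D ≤ m ∧ (m:ℝ) ≤ 8 * A * 2^(n0+1) * ((n0:ℝ)+2)^D := by
  by_contra hcon
  push Not at hcon
  have hall : ∀ n : ℕ, 8 * A * 2^n * ((n:ℝ)+1)^D ≤ m := by
    intro n
    induction n with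
    | zero => simpa using h
    | succ n ih =>
      have h2 := hcon n ih
      push_cast
      rw [show (n:ℝ) + 1 + 1 = n + 2 by ring]
      exact h2.le
  have h3 := hall m
  have h4 : (m:ℝ) < 2^m := by exact_mod_cast Nat.lt_two_pow_self
  have h10 : (1:ℝ) ≤ ((m:ℝ)+1)^D := one_le_pow₀ (by linarith [Nat.cast_nonneg (α := ℝ) m])
  have h11 : (1:ℝ) ≤ A * ((m:ℝ)+1)^D := by nlinarith
  have h12 : (8:ℝ) * 2^m ≤ 8 * A * 2^m * ((m:ℝ)+1)^D := by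
    calc (8:ℝ) * 2^m = (8 * 2^m) * 1 := by ring
      _ ≤ (8 * 2^m) * (A * ((m:ℝ)+1)^D) := mul_le_mul_of_nonneg_left h11 (by positivity)
      _ = _ := by ring
  have h13 : (0:ℝ) < 2^m := by positivity
  linarith

theorem num_up (d : ℕ) (hd : 1 ≤ d) (r : ℝ) (hr : 1 < r) : ∃ C : ℝ, 0 < C ∧ ∀ m : ℕ, 2 ≤ m →
    ∃ (n0 n1 : ℕ) (M : ℕ → ℕ), n0 ≤ n1 ∧ (∀ n, 1 ≤ M n) ∧
      (∑ n ∈ Finset.range n0, 2 * (layer d n).card) + ∑ n ∈ Finset.Ico n0 n1, M n ≤ m ∧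
      Summable (fun n : ℕ => (2:ℝ)^(-(r * ((n + n1 : ℕ) : ℝ))) * Real.sqrt (layer d (n + n1)).card) ∧
      (∑ n ∈ Finset.Ico n0 n1, (2:ℝ)^(-(r * n)) * Real.sqrt (((n:ℝ)+1) * (layer d n).card / M n)) +
        ∑' n : ℕ, (2:ℝ)^(-(r * ((n + n1 : ℕ) : ℝ))) * Real.sqrt (layer d (n + n1)).card
        ≤ C * (m:ℝ)^(-r) * (Real.log m)^(((d:ℝ)-1) * r + 1/2) := by
  obtain ⟨C0, hC0, hC0'⟩ := shp_upper d hd
  obtain ⟨D, hD⟩ : ∃ D, D = d - 1 := ⟨_, rfl⟩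
  have hDr : (d:ℝ) - 1 = (D:ℝ) := by rw [hD, Nat.cast_sub hd]; simp
  obtain ⟨A, hAdef⟩ : ∃ A : ℝ, A = max 1 (max C0 (shp d 0 : ℝ)) := ⟨_, rfl⟩
  have hA : 1 ≤ A := by rw [hAdef]; exact le_max_left _ _
  have hA1 : C0 ≤ A := by rw [hAdef]; exact le_trans (le_max_left _ _) (le_max_right _ _)
  have hA2 : (shp d 0 : ℝ) ≤ A := by
    rw [hAdef]; exact le_trans (le_max_right _ _) (le_max_right _ _)
  have hL : ∀ n, ((layer d n).card : ℝ) ≤ A * 2^n * ((n:ℝ)+1)^D := by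
    intro n
    rw [card_layer]
    push_cast
    rcases Nat.eq_zero_or_pos n with hn | hn
    · subst hn; simpa using hA2
    · have h1 := hC0' n hn
      rw [← hD] at h1
      have h2 : (n:ℝ)^D ≤ ((n:ℝ)+1)^D := pow_le_pow_left₀ (by positivity) (by linarith) D
      have h3 : (shp d n : ℝ) ≤ A * ((n:ℝ)+1)^D := by
        refine h1.trans ?_
        exact mul_le_mul hA1 h2 (by positivity) (by linarith)
      calc (2:ℝ)^n * (shp d n : ℝ) ≤ 2^n * (A * ((n:ℝ)+1)^D) :=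
            mul_le_mul_of_nonneg_left h3 (by positivity)
        _ = _ := by ring
  obtain ⟨a, hadef⟩ : ∃ a : ℝ, a = (2:ℝ)^(-r) := ⟨_, rfl⟩
  have ha : 0 < a := by rw [hadef]; positivity
  have ha2 : 2 * a < 1 := by
    have h1 : (2:ℝ)^(-r) < (2:ℝ)^(-1:ℝ) :=
      Real.rpow_lt_rpow_of_exponent_lt (by norm_num) (by linarith)
    rw [Real.rpow_neg_one] at h1
    rw [hadef]; linarith
  have hapow : ∀ k : ℕ, (2:ℝ)^(-(r * (k:ℝ))) = a^k := by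
    intro k
    rw [hadef, ← Real.rpow_mul_natCast (by norm_num)]
    congr 1; ring
  obtain ⟨S1, hS1⟩ : ∃ S : ℝ, S = ∑' j : ℕ, ((j:ℝ)+1)^(D+1) * (2*a)^j := ⟨_, rfl⟩
  obtain ⟨S2, hS2⟩ : ∃ S : ℝ, S = ∑' n : ℕ, ((n:ℝ)+1)^D * (a * Real.sqrt 2)^n := ⟨_, rfl⟩
  have hS1p : 0 ≤ S1 := by rw [hS1]; exact tsum_nonneg (fun i => by positivity)
  have hS2p : 0 ≤ S2 := by rw [hS2]; exact tsum_nonneg (fun i => by positivity)
  obtain ⟨e, he⟩ : ∃ e : ℝ, e = (D:ℝ) * r + 1/2 := ⟨_, rfl⟩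
  have he0 : 0 ≤ e := by rw [he]; positivity
  obtain ⟨K1, hK1⟩ : ∃ K : ℝ, K = Real.sqrt A * S2 * (8*A)^r / (Real.log 2)^e := ⟨_, rfl⟩
  obtain ⟨K, hK⟩ : ∃ K : ℝ, K = (S1 + Real.sqrt A * S2 * 2^D * S1) * ((16 * A)^r * 2^e) := ⟨_, rfl⟩
  have hlog2 : 0 < Real.log 2 := Real.log_pos (by norm_num)
  have hK1p : 0 ≤ K1 := by rw [hK1]; positivity
  have hKp : 0 ≤ K := by rw [hK]; positivity
  refine ⟨K1 + K + 1, by positivity, ?_⟩
  intro m hm2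
  have hm2' : (2:ℝ) ≤ m := by exact_mod_cast hm2
  have hm0 : (0:ℝ) < m := by linarith
  have hlogm : Real.log 2 ≤ Real.log m := Real.log_le_log (by norm_num) hm2'
  have hmr : 0 < (m:ℝ)^(-r) := Real.rpow_pos_of_pos hm0 _
  have hle0 : 0 < (Real.log m)^e := Real.rpow_pos_of_pos (by linarith) _
  rw [hDr, ← he]
  by_cases h8 : 8 * A ≤ m
  · obtain ⟨n0, h1, h2⟩ := NU_exists A hA D m h8
    obtain ⟨-, hcount⟩ := NU_count D A hA (fun n => (layer d n).card) hL n0 m h1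
    obtain ⟨ht1, ht2⟩ := NU_tail D A hA (fun n => (layer d n).card) hL a ha ha2 (2 * n0)
    have hfun : (fun n : ℕ => (2:ℝ)^(-(r * ((n + 2 * n0 : ℕ) : ℝ))) *
        Real.sqrt (layer d (n + 2 * n0)).card) =
        fun n : ℕ => a^(n + 2 * n0) * Real.sqrt ((layer d (n + 2 * n0)).card : ℝ) := by
      funext n
      rw [hapow]
    refine ⟨n0, 2 * n0, fun n => max 1 (m / (4 * 2^(n - n0))), by omega,
      fun n => le_max_left _ _, hcount, ?_, ?_⟩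
    · rw [hfun]; exact ht1
    · rw [hfun]
      have hfirst := NU_first D A hA (fun n => (layer d n).card) hL n0 m h1 a ha ha2
      rw [← hS1] at hfirst
      rw [← hS2] at ht2
      have hfin := NU_final D A r hA hr n0 m hm2 h1 h2
      rw [hapow, ← he] at hfin
      have hsum1 : ∑ n ∈ Finset.Ico n0 (2 * n0), (2:ℝ)^(-(r * (n:ℝ))) *
          Real.sqrt (((n:ℝ)+1) * (layer d n).card /
            ((max 1 (m / (4 * 2^(n - n0))) : ℕ) : ℝ)) ≤ a^n0 * Real.sqrt ((n0:ℝ)+1) * S1 := by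
        refine le_trans (le_of_eq ?_) hfirst
        apply Finset.sum_congr rfl
        intro n _
        rw [hapow]
      have hs1 : 1 ≤ Real.sqrt ((n0:ℝ)+1) := by
        rw [Real.one_le_sqrt]
        linarith [Nat.cast_nonneg (α := ℝ) n0]
      have htail : (Real.sqrt A * (a * Real.sqrt 2)^(2 * n0) * (((2 * n0 : ℕ):ℝ)+1)^D) * S2 ≤
          a^n0 * Real.sqrt ((n0:ℝ)+1) * (Real.sqrt A * S2 * 2^D * S1) := by
        have e1 : (a * Real.sqrt 2)^(2 * n0) = a^n0 * (2*a)^n0 := by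
          rw [pow_mul, mul_pow, Real.sq_sqrt (by norm_num), ← mul_pow]
          congr 1; ring
        have e2 : (((2 * n0 : ℕ):ℝ)+1)^D ≤ 2^D * ((n0:ℝ)+1)^D := by
          rw [← mul_pow]
          apply pow_le_pow_left₀ (by positivity)
          push_cast; linarith
        have e3 : ((n0:ℝ)+1)^D * (2*a)^n0 ≤ S1 := by
          have e4 : ((n0:ℝ)+1)^D ≤ ((n0:ℝ)+1)^(D+1) :=
            pow_le_pow_right₀ (by linarith [Nat.cast_nonneg (α := ℝ) n0]) (by omega)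
          refine (mul_le_mul_of_nonneg_right e4 (by positivity)).trans ?_
          rw [hS1]
          exact (NU_summ (D+1) (2*a) (by positivity) ha2).le_tsum n0 (fun j _ => by positivity)
        rw [e1]
        calc (Real.sqrt A * (a^n0 * (2*a)^n0) * (((2 * n0 : ℕ):ℝ)+1)^D) * S2
            = (Real.sqrt A * a^n0 * S2 * (2*a)^n0) * (((2 * n0 : ℕ):ℝ)+1)^D := by ring
          _ ≤ (Real.sqrt A * a^n0 * S2 * (2*a)^n0) * (2^D * ((n0:ℝ)+1)^D) :=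
              mul_le_mul_of_nonneg_left e2 (by positivity)
          _ = (Real.sqrt A * a^n0 * S2 * 2^D) * (((n0:ℝ)+1)^D * (2*a)^n0) := by ring
          _ ≤ (Real.sqrt A * a^n0 * S2 * 2^D) * S1 :=
              mul_le_mul_of_nonneg_left e3 (by positivity)
          _ = (a^n0 * 1) * (Real.sqrt A * S2 * 2^D * S1) := by ring
          _ ≤ _ := by
              apply mul_le_mul_of_nonneg_right _ (by positivity)
              exact mul_le_mul_of_nonneg_left hs1 (by positivity)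
      calc _ ≤ a^n0 * Real.sqrt ((n0:ℝ)+1) * S1 +
            a^n0 * Real.sqrt ((n0:ℝ)+1) * (Real.sqrt A * S2 * 2^D * S1) :=
            add_le_add hsum1 (ht2.trans htail)
        _ = (S1 + Real.sqrt A * S2 * 2^D * S1) * (a^n0 * Real.sqrt ((n0:ℝ)+1)) := by ring
        _ ≤ (S1 + Real.sqrt A * S2 * 2^D * S1) *
            (((16 * A)^r * 2^e) * (m:ℝ)^(-r) * (Real.log m)^e) :=
            mul_le_mul_of_nonneg_left hfin (by positivity)
        _ = K * (m:ℝ)^(-r) * (Real.log m)^e := by rw [hK]; ring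
        _ ≤ (K1 + K + 1) * (m:ℝ)^(-r) * (Real.log m)^e := by
            apply mul_le_mul_of_nonneg_right _ hle0.le
            apply mul_le_mul_of_nonneg_right _ hmr.le
            linarith
  · push Not at h8
    obtain ⟨ht1, ht2⟩ := NU_tail D A hA (fun n => (layer d n).card) hL a ha ha2 0
    have hfun : (fun n : ℕ => (2:ℝ)^(-(r * ((n + 0 : ℕ) : ℝ))) *
        Real.sqrt (layer d (n + 0)).card) =
        fun n : ℕ => a^(n + 0) * Real.sqrt ((layer d (n + 0)).card : ℝ) := by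
      funext n
      rw [hapow]
    refine ⟨0, 0, fun _ => 1, le_refl _, fun n => le_refl _, by simp, ?_, ?_⟩
    · rw [hfun]; exact ht1
    · rw [hfun]
      rw [Finset.Ico_self, Finset.sum_empty, zero_add]
      refine ht2.trans ?_
      rw [← hS2]
      have h5 : (8*A)^(-r) ≤ (m:ℝ)^(-r) := by
        apply Real.rpow_le_rpow_of_nonpos hm0 h8.le
        linarith
      have h6 : (Real.log 2)^e ≤ (Real.log m)^e := Real.rpow_le_rpow hlog2.le hlogm he0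
      have h7 : 0 < (Real.log 2)^e := Real.rpow_pos_of_pos hlog2 _
      have h9 : 0 < (8*A)^r := Real.rpow_pos_of_pos (by linarith) _
      have h9' : 0 < (8*A)^(-r) := Real.rpow_pos_of_pos (by linarith) _
      have h10 : (8*A)^r * (8*A)^(-r) = 1 := by
        rw [← Real.rpow_add (by linarith)]; simp
      calc Real.sqrt A * (a * Real.sqrt 2)^0 * (((0:ℕ):ℝ)+1)^D * S2 = Real.sqrt A * S2 := by simp
        _ = Real.sqrt A * S2 * ((8*A)^r * (8*A)^(-r)) := by rw [h10, mul_one]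
        _ = K1 * (8*A)^(-r) * (Real.log 2)^e := by
            rw [hK1]; field_simp
        _ ≤ K1 * (m:ℝ)^(-r) * (Real.log m)^e := by
            apply mul_le_mul (mul_le_mul_of_nonneg_left h5 hK1p) h6 h7.le (by positivity)
        _ ≤ (K1 + K + 1) * (m:ℝ)^(-r) * (Real.log m)^e := by
            apply mul_le_mul_of_nonneg_right _ hle0.le
            apply mul_le_mul_of_nonneg_right _ hmr.le
            linarith


end Sol_num_up

alias num_up := Sol_num_up.num_up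

end HypVol
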