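import Pool.Agent.HypVol.Defs
open MeasureTheory Real ProbabilityTheory
open scoped ENNReal BigOperators

namespace HypVol
namespace Sol_packing



theorem packing {E : Type*} [NormedAddCommGroup E] [NormedSpace ℝ E] [FiniteDimensional ℝ E]
    (s : Finset E) (ρ δ : ℝ) (hρ : 0 ≤ ρ) (hδ : 0 < δ) (h1 : ∀ x ∈ s, ‖x‖ ≤ ρ)
    (h2 : ∀ x ∈ s, ∀ y ∈ s, x ≠ y → δ ≤ ‖x - y‖) :
    (s.card : ℝ) ≤ (1 + 2 * ρ / δ)^(Module.finrank ℝ E) := by
  classical
  borelize E
  let μ : Measure E := Measure.addHaar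
  have hδ2 : 0 < δ / 2 := by positivity
  have ρpos : 0 < ρ + δ / 2 := by positivity
  set A := ⋃ c ∈ s, Metric.ball (c : E) (δ / 2) with hA
  have D : Set.Pairwise (s : Set E) (Function.onFun Disjoint fun c => Metric.ball (c : E) (δ / 2)) := by
    rintro c hc d hd hcd
    apply Metric.ball_disjoint_ball
    rw [dist_eq_norm]
    have := h2 c hc d hd hcd
    linarith
  have A_subset : A ⊆ Metric.ball (0 : E) (ρ + δ / 2) := by
    refine Set.iUnion₂_subset fun x hx => ?_
    apply Metric.ball_subset_ball'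
    have := h1 x hx
    rw [dist_zero_right]
    linarith
  have I :
    (s.card : ℝ≥0∞) * ENNReal.ofReal ((δ / 2) ^ Module.finrank ℝ E) * μ (Metric.ball 0 1) ≤
      ENNReal.ofReal ((ρ + δ / 2) ^ Module.finrank ℝ E) * μ (Metric.ball 0 1) :=
    calc
      (s.card : ℝ≥0∞) * ENNReal.ofReal ((δ / 2) ^ Module.finrank ℝ E) * μ (Metric.ball 0 1) = μ A := by
        rw [hA, measure_biUnion_finset D fun c _ => measurableSet_ball]
        simp only [μ.addHaar_ball_of_pos _ hδ2]
        simp only [Finset.sum_const, nsmul_eq_mul, mul_assoc]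
      _ ≤ μ (Metric.ball (0 : E) (ρ + δ / 2)) := measure_mono A_subset
      _ = ENNReal.ofReal ((ρ + δ / 2) ^ Module.finrank ℝ E) * μ (Metric.ball 0 1) := by
        simp only [μ.addHaar_ball_of_pos _ ρpos]
  have J : (s.card : ℝ≥0∞) * ENNReal.ofReal ((δ / 2) ^ Module.finrank ℝ E) ≤
      ENNReal.ofReal ((ρ + δ / 2) ^ Module.finrank ℝ E) :=
    (ENNReal.mul_le_mul_iff_left (Metric.measure_ball_pos _ _ zero_lt_one).ne'
      measure_ball_lt_top.ne).1 I
  have K := ENNReal.toReal_le_of_le_ofReal (pow_nonneg ρpos.le _) J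
  rw [ENNReal.toReal_mul, ENNReal.toReal_natCast, ENNReal.toReal_ofReal (by positivity)] at K
  have h3 : (1 + 2 * ρ / δ) = (ρ + δ / 2) / (δ / 2) := by
    field_simp
    ring
  rw [h3, div_pow, le_div_iff₀ (by positivity)]
  exact K


end Sol_packing

alias packing := Sol_packing.packing

end HypVol
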