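import Pool.Agent.HypVol.Defs
import Pool.Agent.HypVol.L_TP_prob
import Pool.Agent.HypVol.L_fc_poly
open MeasureTheory Real ProbabilityTheory
open scoped ENNReal BigOperators

namespace HypVol
namespace Sol_pairing






theorem TP_fin (d : ℕ) : IsFiniteMeasure (TP d) := by
  haveI := TP_prob d
  infer_instance

theorem cexp_norm_one (t : ℝ) : ‖Complex.exp (Complex.I * ((t : ℝ) : ℂ))‖ = 1 := by
  rw [mul_comm]; exact Complex.norm_exp_ofReal_mul_I t

theorem cexp_norm_one' (t : ℝ) : ‖Complex.exp (-(Complex.I * ((t : ℝ) : ℂ)))‖ = 1 := by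
  have h : -(Complex.I * ((t : ℝ) : ℂ)) = ((-t : ℝ) : ℂ) * Complex.I := by push_cast; ring
  rw [h]; exact Complex.norm_exp_ofReal_mul_I (-t)

theorem poly_int {d n : ℕ} (a : (layer d n) × Fin 2 → ℝ) : Integrable (poly a) (TP d) := by
  haveI := TP_fin d
  unfold poly
  refine integrable_finset_sum _ (fun k _ => ?_)
  refine Integrable.const_mul ?_ _
  refine Integrable.of_bound (C := 1) ?_ ?_
  · refine Continuous.aestronglyMeasurable ?_
    fun_prop
  · refine Filter.Eventually.of_forall (fun x => ?_)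
    exact (cexp_norm_one _).le

theorem conj_poly {d n : ℕ} (a : (layer d n) × Fin 2 → ℝ) (x : Fin d → ℝ) :
    (starRingEnd ℂ) (poly a x) = ∑ k : layer d n, ((starRingEnd ℂ) ((a (k, 0) : ℂ) + (a (k, 1) : ℂ) * Complex.I)) *
      Complex.exp (-(Complex.I * ((∑ j, (k.1 j : ℝ) * x j : ℝ) : ℂ))) := by
  unfold poly
  rw [map_sum]
  refine Finset.sum_congr rfl (fun k _ => ?_)
  rw [map_mul, ← Complex.exp_conj]
  congr 2
  rw [map_mul, Complex.conj_I, Complex.conj_ofReal]
  ring

theorem fc_int {d : ℕ} (g : (Fin d → ℝ) → ℂ) (hg : Integrable g (TP d)) (k : Fin d → ℤ) :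
    Integrable (fun x => g x * Complex.exp (-(Complex.I * ((∑ j, (k j : ℝ) * x j : ℝ) : ℂ)))) (TP d) := by
  have hm : AEStronglyMeasurable (fun x : Fin d → ℝ => Complex.exp (-(Complex.I * ((∑ j, (k j : ℝ) * x j : ℝ) : ℂ)))) (TP d) := by
    refine Continuous.aestronglyMeasurable ?_
    fun_prop
  refine Integrable.mono hg (hg.aestronglyMeasurable.mul hm) ?_
  refine Filter.Eventually.of_forall (fun x => ?_)
  rw [norm_mul, cexp_norm_one', mul_one]

theorem pair_int {d n : ℕ} (a y : (layer d n) × Fin 2 → ℝ) (g : (Fin d → ℝ) → ℂ)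
    (hg : Integrable g (TP d)) (h0 : ∀ k ∈ layer d n, fc g k = 0) :
    ∫ x, (starRingEnd ℂ) (poly a x) * (poly y x - g x) ∂(TP d) =
      ∑ k : layer d n, ((starRingEnd ℂ) ((a (k, 0) : ℂ) + (a (k, 1) : ℂ) * Complex.I)) *
        ((y (k, 0) : ℂ) + (y (k, 1) : ℂ) * Complex.I) := by
  have hpy := poly_int y
  have e1 : (fun x => (starRingEnd ℂ) (poly a x) * (poly y x - g x)) = fun x =>
      ∑ k : layer d n, ((starRingEnd ℂ) ((a (k, 0) : ℂ) + (a (k, 1) : ℂ) * Complex.I)) *
        (poly y x * Complex.exp (-(Complex.I * ((∑ j, (k.1 j : ℝ) * x j : ℝ) : ℂ)))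
          - g x * Complex.exp (-(Complex.I * ((∑ j, (k.1 j : ℝ) * x j : ℝ) : ℂ)))) := by
    funext x
    rw [conj_poly, Finset.sum_mul]
    refine Finset.sum_congr rfl (fun k _ => ?_)
    ring
  rw [e1, integral_finset_sum]
  · refine Finset.sum_congr rfl (fun k _ => ?_)
    rw [integral_const_mul, integral_sub (fc_int _ hpy _) (fc_int _ hg _)]
    have h1 := fc_poly y k
    have h2 := h0 k.1 k.2
    unfold fc at h1 h2
    rw [h1, h2, sub_zero]
  · intro k _
    exact ((fc_int _ hpy _).sub (fc_int _ hg _)).const_mul _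

theorem pairing {d n : ℕ} (a y : (layer d n) × Fin 2 → ℝ) (ha : a ∈ ball d n) (hy : y ∈ bperp d n) :
    |∑ i, a i * y i| ≤ 1 := by
  have hre : ∑ i, a i * y i = (∑ k : layer d n, ((starRingEnd ℂ) ((a (k, 0) : ℂ) + (a (k, 1) : ℂ) * Complex.I)) *
        ((y (k, 0) : ℂ) + (y (k, 1) : ℂ) * Complex.I)).re := by
    rw [Fintype.sum_prod_type, Complex.re_sum]
    refine Finset.sum_congr rfl (fun k _ => ?_)
    rw [Fin.sum_univ_two]
    simp
  refine le_trans ?_ hy
  unfold Eperp
  refine le_csInf ?_ ?_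
  · refine ⟨_, fun _ => 0, integrable_zero _ _ _, ?_, rfl⟩
    intro k _
    unfold fc
    simp
  · rintro r ⟨g, hg, h0, rfl⟩
    rw [hre, ← pair_int a y g hg h0]
    refine le_trans (Complex.abs_re_le_norm _) ?_
    refine le_trans (norm_integral_le_integral_norm _) ?_
    have hpg : Integrable (fun x => poly y x - g x) (TP d) := (poly_int y).sub hg
    refine integral_mono_of_nonneg (Filter.Eventually.of_forall (fun x => norm_nonneg _)) hpg.norm
      (Filter.Eventually.of_forall (fun x => ?_))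
    show ‖(starRingEnd ℂ) (poly a x) * (poly y x - g x)‖ ≤ ‖poly y x - g x‖
    rw [norm_mul, RCLike.norm_conj]
    have := ha x
    nlinarith [norm_nonneg (poly y x - g x)]


end Sol_pairing

alias pairing := Sol_pairing.pairing

end HypVol
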