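import Pool.Agent.HypVol.Defs
open MeasureTheory Real ProbabilityTheory
open scoped ENNReal BigOperators

namespace HypVol
namespace Sol_rand_vol



/-- uniform law on `[-1,1]` -/
noncomputable def rvNu : Measure ℝ := (2:ℝ≥0∞)⁻¹ • (volume.restrict (Set.Icc (-1:ℝ) 1))

instance rvNu_prob : IsProbabilityMeasure rvNu := by
  constructor
  unfold rvNu
  rw [Measure.smul_apply, Measure.restrict_apply_univ, Real.volume_Icc, smul_eq_mul]
  have : ENNReal.ofReal (1 - (-1)) = 2 := by
    norm_num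
  rw [this]
  exact ENNReal.inv_mul_cancel (by norm_num) (by norm_num)

theorem rv_ae : ∀ᵐ t ∂rvNu, t ∈ Set.Icc (-1:ℝ) 1 := by
  unfold rvNu
  apply Measure.ae_smul_measure
  exact ae_restrict_mem measurableSet_Icc

theorem rv_int : ∫ t, t ∂rvNu = 0 := by
  unfold rvNu
  rw [integral_smul_measure, integral_Icc_eq_integral_Ioc,
    ← intervalIntegral.integral_of_le (by norm_num : (-1:ℝ) ≤ 1), integral_id]
  norm_num

theorem rv_sub : HasSubgaussianMGF (fun t : ℝ => t) 1 rvNu := by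
  have h := hasSubgaussianMGF_of_mem_Icc_of_integral_eq_zero (μ := rvNu) (X := fun t : ℝ => t)
    (a := -1) (b := 1) (by fun_prop) rv_ae rv_int
  convert h using 1
  have : ‖(1:ℝ) - (-1)‖₊ = 2 := by
    rw [← NNReal.coe_inj]
    norm_num
  rw [this]
  norm_num

theorem rv_mono {Ω : Type} [MeasurableSpace Ω] {μ : Measure Ω} {Y : Ω → ℝ} {c c' : NNReal}
    (h : HasSubgaussianMGF Y c μ) (hc : c ≤ c') : HasSubgaussianMGF Y c' μ where
  integrable_exp_mul := h.integrable_exp_mul
  mgf_le t := by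
    refine (h.mgf_le t).trans (Real.exp_le_exp.mpr ?_)
    have h1 : (c : ℝ) ≤ c' := by exact_mod_cast hc
    have h2 : (c : ℝ) * t ^ 2 ≤ c' * t ^ 2 := mul_le_mul_of_nonneg_right h1 (sq_nonneg t)
    linarith

theorem rv_scale (w : ℝ) : HasSubgaussianMGF (fun t : ℝ => w * t) (Real.toNNReal (w ^ 2)) rvNu where
  integrable_exp_mul t := by
    have h := rv_sub.integrable_exp_mul (t * w)
    simpa [mul_assoc] using h
  mgf_le t := by
    have h := rv_sub.mgf_le (t * w)
    unfold mgf at h ⊢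
    have e : (fun x : ℝ => Real.exp (t * (w * x))) = fun x : ℝ => Real.exp (t * w * x) := by
      funext x
      rw [mul_assoc]
    rw [e, Real.coe_toNNReal _ (sq_nonneg _)]
    refine h.trans (le_of_eq ?_)
    congr 1
    rw [NNReal.coe_one]
    ring

theorem rv_sum {ι : Type} [Fintype ι] (w : ι → ℝ) (M : ℝ) (hM : 0 < M) (h : ∑ i, w i ^ 2 ≤ M) :
    HasSubgaussianMGF (fun a : ι → ℝ => ∑ i, w i * a i) (Real.toNNReal M)
      (Measure.pi (fun _ : ι => rvNu)) := by
  have hind : iIndepFun (fun (i : ι) (a : ι → ℝ) => w i * a i) (Measure.pi (fun _ : ι => rvNu)) :=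
    iIndepFun_pi (μ := fun _ : ι => rvNu) (X := fun i (t : ℝ) => w i * t)
      (fun i => by fun_prop)
  have hsub : ∀ i ∈ Finset.univ, HasSubgaussianMGF (fun a : ι → ℝ => w i * a i)
      (Real.toNNReal (w i ^ 2)) (Measure.pi (fun _ : ι => rvNu)) := by
    intro i _
    have h1 := rv_scale (w i)
    have h3 : (Measure.pi (fun _ : ι => rvNu)).map (fun a : ι → ℝ => a i) = rvNu :=
      (measurePreserving_eval (fun _ : ι => rvNu) i).map_eq
    rw [← h3] at h1
    exact HasSubgaussianMGF.of_map (Y := fun a : ι → ℝ => a i)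
      (measurable_pi_apply i).aemeasurable h1
  refine rv_mono (HasSubgaussianMGF.sum_of_iIndepFun hind hsub) ?_
  rw [← Real.toNNReal_sum_of_nonneg (fun i _ => sq_nonneg (w i))]
  exact Real.toNNReal_le_toNNReal h

theorem rv_pi {ι : Type} [Fintype ι] :
    (volume : Measure (ι → ℝ)).restrict (Set.univ.pi fun _ => Set.Icc (-1:ℝ) 1) =
      (2:ℝ≥0∞) ^ (Fintype.card ι) • Measure.pi (fun _ : ι => rvNu) := by
  rw [volume_pi, Measure.restrict_pi_pi]
  refine Measure.pi_eq fun s hs => ?_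
  rw [Measure.smul_apply, Measure.pi_pi, smul_eq_mul]
  have h1 : ∀ i : ι, rvNu (s i) = (2:ℝ≥0∞)⁻¹ * (volume.restrict (Set.Icc (-1:ℝ) 1)) (s i) := by
    intro i
    unfold rvNu
    rw [Measure.smul_apply, smul_eq_mul]
  simp_rw [h1]
  rw [Finset.prod_mul_distrib, Finset.prod_const, Finset.card_univ, ← mul_assoc, ← mul_pow,
    ENNReal.mul_inv_cancel (by norm_num) (by norm_num), one_pow, one_mul]

theorem rand_vol {X ι : Type} [Fintype X] [Nonempty X] [Fintype ι] (b : ι → X → ℝ) (M : ℝ) (hM : 0 < M)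
    (h : ∀ x, ∑ i, b i x ^ 2 ≤ M) :
    ENNReal.ofReal (2^(Fintype.card ι) / 2) ≤
      volume {a : ι → ℝ | (∀ i, |a i| ≤ 1) ∧
        ∀ x, |∑ i, a i * b i x| ≤ Real.sqrt (2 * M * Real.log (4 * Fintype.card X))} := by
  obtain ⟨l, hl⟩ : ∃ l, l = Real.sqrt (2 * M * Real.log (4 * Fintype.card X)) := ⟨_, rfl⟩
  have hcard : (1:ℝ) ≤ Fintype.card X := by exact_mod_cast Fintype.card_pos
  have hlog : 0 ≤ Real.log (4 * Fintype.card X) := Real.log_nonneg (by linarith)
  have hl0 : 0 ≤ l := by rw [hl]; exact Real.sqrt_nonneg _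
  have hl2 : l ^ 2 = 2 * M * Real.log (4 * Fintype.card X) := by
    rw [hl]; exact Real.sq_sqrt (by positivity)
  rw [← hl]
  obtain ⟨P, hP⟩ : ∃ P, P = Measure.pi (fun _ : ι => rvNu) := ⟨_, rfl⟩
  have hPprob : IsProbabilityMeasure P := by rw [hP]; infer_instance
  have hexp : Real.exp (-l ^ 2 / (2 * ((Real.toNNReal M : NNReal) : ℝ))) =
      1 / (4 * Fintype.card X) := by
    rw [Real.coe_toNNReal _ hM.le, hl2]
    have : -(2 * M * Real.log (4 * Fintype.card X)) / (2 * M) =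
        -Real.log (4 * Fintype.card X) := by
      field_simp
    rw [this, Real.exp_neg, Real.exp_log (by linarith), one_div]
  have hS : ∀ x, HasSubgaussianMGF (fun a : ι → ℝ => ∑ i, a i * b i x) (Real.toNNReal M) P := by
    intro x
    have h1 := rv_sum (fun i => b i x) M hM (h x)
    rw [← hP] at h1
    have h2 : (fun a : ι → ℝ => ∑ i, a i * b i x) = fun a : ι → ℝ => ∑ i, b i x * a i := by
      funext a
      exact Finset.sum_congr rfl fun i _ => mul_comm _ _
    rw [h2]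
    exact h1
  have hx : ∀ x, P.real {a : ι → ℝ | l < |∑ i, a i * b i x|} ≤ 1 / (2 * Fintype.card X) := by
    intro x
    have h1 := (hS x).measure_ge_le hl0
    have h2 := (hS x).neg.measure_ge_le hl0
    rw [hexp] at h1 h2
    have h3 : {a : ι → ℝ | l < |∑ i, a i * b i x|} ⊆
        {a : ι → ℝ | l ≤ ∑ i, a i * b i x} ∪ {a : ι → ℝ | l ≤ (-fun a : ι → ℝ => ∑ i, a i * b i x) a} := by
      intro a ha
      have ha' : l < |∑ i, a i * b i x| := ha
      rcases lt_abs.mp ha' with h | h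
      · exact Or.inl h.le
      · exact Or.inr h.le
    have h4 := (measureReal_mono (μ := P) h3).trans (measureReal_union_le _ _)
    have h5 : 1 / (4 * (Fintype.card X : ℝ)) + 1 / (4 * (Fintype.card X : ℝ)) =
        1 / (2 * Fintype.card X) := by
      field_simp
      norm_num
    linarith
  have hbad : P.real (⋃ x : X, {a : ι → ℝ | l < |∑ i, a i * b i x|}) ≤ 1 / 2 := by
    refine (measureReal_iUnion_fintype_le _).trans ?_
    calc ∑ x : X, P.real {a : ι → ℝ | l < |∑ i, a i * b i x|}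
        ≤ ∑ _x : X, 1 / (2 * (Fintype.card X : ℝ)) := Finset.sum_le_sum fun x _ => hx x
      _ = 1 / 2 := by
        rw [Finset.sum_const, Finset.card_univ, nsmul_eq_mul]
        field_simp
  have hmeas : MeasurableSet (⋃ x : X, {a : ι → ℝ | l < |∑ i, a i * b i x|}) := by
    refine MeasurableSet.iUnion fun x => ?_
    exact measurableSet_lt measurable_const (by fun_prop)
  have hgood : ENNReal.ofReal (1 / 2) ≤ P (⋃ x : X, {a : ι → ℝ | l < |∑ i, a i * b i x|})ᶜ := by
    have h1 := probReal_compl_eq_one_sub (μ := P) hmeas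
    have h2 : (1:ℝ) / 2 ≤ P.real (⋃ x : X, {a : ι → ℝ | l < |∑ i, a i * b i x|})ᶜ := by
      rw [h1]; linarith
    exact (ENNReal.ofReal_le_iff_le_toReal (measure_ne_top _ _)).mpr h2
  have hset : {a : ι → ℝ | (∀ i, |a i| ≤ 1) ∧ ∀ x, |∑ i, a i * b i x| ≤ l} =
      (⋃ x : X, {a : ι → ℝ | l < |∑ i, a i * b i x|})ᶜ ∩
        (Set.univ.pi fun _ => Set.Icc (-1:ℝ) 1) := by
    ext a
    simp only [Set.mem_inter_iff, Set.mem_compl_iff, Set.mem_iUnion, not_exists, Set.mem_univ_pi,
      Set.mem_Icc]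
    constructor
    · rintro ⟨h1, h2⟩
      exact ⟨fun x hx' => absurd (h2 x) (not_le.mpr hx'), fun i => abs_le.mp (h1 i)⟩
    · rintro ⟨h1, h2⟩
      exact ⟨fun i => abs_le.mpr (h2 i), fun x => not_lt.mp (h1 x)⟩
  rw [hset, ← Measure.restrict_apply hmeas.compl, rv_pi, ← hP, Measure.smul_apply, smul_eq_mul]
  have h6 : ENNReal.ofReal (2 ^ (Fintype.card ι) / 2) =
      (2:ℝ≥0∞) ^ (Fintype.card ι) * ENNReal.ofReal (1 / 2) := by
    rw [div_eq_mul_one_div, ENNReal.ofReal_mul (by positivity), ENNReal.ofReal_pow (by norm_num)]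
    norm_num
  rw [h6]
  gcongr


end Sol_rand_vol

alias rand_vol := Sol_rand_vol.rand_vol

end HypVol
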