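import Pool.Agent.HypVol.Defs
import Pool.Agent.HypVol.L_card_layer
import Pool.Agent.HypVol.L_shp_upper
import Pool.Agent.HypVol.L_shp_lower
import Pool.Agent.HypVol.L_rand_vol
open MeasureTheory Real ProbabilityTheory
open scoped ENNReal BigOperators

namespace HypVol
namespace Sol_vol_lower







/-- the real system on a grid -/
noncomputable def vl_b {d n : ℕ} {Y : Type} (g : Y → Fin d → ℝ) (β : (layer d n) × Fin 2)
    (x : Y × Fin 2) : ℝ :=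
  if x.2 = 0 then (if β.2 = 0 then Real.cos (∑ j, (β.1.1 j : ℝ) * g x.1 j)
    else -Real.sin (∑ j, (β.1.1 j : ℝ) * g x.1 j))
  else (if β.2 = 0 then Real.sin (∑ j, (β.1.1 j : ℝ) * g x.1 j)
    else Real.cos (∑ j, (β.1.1 j : ℝ) * g x.1 j))

theorem vl_b_sq {d n : ℕ} {Y : Type} (g : Y → Fin d → ℝ) (x : Y × Fin 2) :
    ∑ β : (layer d n) × Fin 2, vl_b g β x ^ 2 ≤ ((layer d n).card : ℝ) := by
  rw [Fintype.sum_prod_type]
  have h : ∀ k : layer d n, ∑ e : Fin 2, vl_b g (k, e) x ^ 2 = 1 := by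
    intro k
    rw [Fin.sum_univ_two]
    unfold vl_b
    by_cases hx : x.2 = 0
    · simp [hx]
    · simp [hx]
  rw [Finset.sum_congr rfl (fun k _ => h k), Finset.sum_const, Finset.card_univ, Fintype.card_coe,
    nsmul_eq_mul, mul_one]

theorem vl_exp (t : ℝ) : Complex.exp (Complex.I * (t : ℂ)) =
    (Real.cos t : ℂ) + (Real.sin t : ℂ) * Complex.I := by
  rw [mul_comm, Complex.exp_mul_I, Complex.ofReal_cos, Complex.ofReal_sin]

theorem vl_term_re (a0 a1 A B : ℝ) :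
    (((a0 : ℂ) + (a1 : ℂ) * Complex.I) * ((A : ℂ) + (B : ℂ) * Complex.I)).re = a0 * A - a1 * B := by
  simp

theorem vl_term_im (a0 a1 A B : ℝ) :
    (((a0 : ℂ) + (a1 : ℂ) * Complex.I) * ((A : ℂ) + (B : ℂ) * Complex.I)).im = a0 * B + a1 * A := by
  simp

theorem vl_re {d n : ℕ} {Y : Type} (g : Y → Fin d → ℝ) (a : (layer d n) × Fin 2 → ℝ) (y : Y) :
    (poly a (g y)).re = ∑ β, a β * vl_b g β (y, 0) := by
  rw [Fintype.sum_prod_type]
  unfold poly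
  rw [Complex.re_sum]
  refine Finset.sum_congr rfl fun k _ => ?_
  rw [Fin.sum_univ_two, vl_exp, vl_term_re]
  simp [vl_b]
  ring

theorem vl_im {d n : ℕ} {Y : Type} (g : Y → Fin d → ℝ) (a : (layer d n) × Fin 2 → ℝ) (y : Y) :
    (poly a (g y)).im = ∑ β, a β * vl_b g β (y, 1) := by
  rw [Fintype.sum_prod_type]
  unfold poly
  rw [Complex.im_sum]
  refine Finset.sum_congr rfl fun k _ => ?_
  rw [Fin.sum_univ_two, vl_exp, vl_term_im]
  simp [vl_b]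

theorem vl_coord (Q : ℕ) (hQ : 0 < Q) (t : ℝ) : ∃ (q : Fin Q) (z : ℤ) (δ : ℝ),
    t = 2 * π * ((q : ℕ) : ℝ) / Q + 2 * π * z + δ ∧ |δ| ≤ 2 * π / Q := by
  have hpi : (0 : ℝ) < 2 * π := by positivity
  have hQ' : (0 : ℝ) < Q := by exact_mod_cast hQ
  obtain ⟨f, hf⟩ : ∃ f, f = Int.fract (t / (2 * π)) := ⟨_, rfl⟩
  have hf0 : 0 ≤ f := by rw [hf]; exact Int.fract_nonneg _
  have hf1 : f < 1 := by rw [hf]; exact Int.fract_lt_one _
  have hfl : (⌊t / (2 * π)⌋ : ℝ) + f = t / (2 * π) := by rw [hf]; exact Int.floor_add_fract _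
  have ht : t = 2 * π * ⌊t / (2 * π)⌋ + 2 * π * f := by
    have h1 : t = 2 * π * (t / (2 * π)) := by field_simp
    calc t = 2 * π * (t / (2 * π)) := h1
      _ = 2 * π * ((⌊t / (2 * π)⌋ : ℝ) + f) := by rw [hfl]
      _ = _ := by ring
  have hq : ⌊(Q : ℝ) * f⌋₊ < Q := by
    rw [Nat.floor_lt (by positivity)]
    nlinarith
  have h1 : ((⌊(Q : ℝ) * f⌋₊ : ℕ) : ℝ) ≤ Q * f := Nat.floor_le (by positivity)
  have h2 : (Q : ℝ) * f < ((⌊(Q : ℝ) * f⌋₊ : ℕ) : ℝ) + 1 := Nat.lt_floor_add_one _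
  refine ⟨⟨⌊(Q : ℝ) * f⌋₊, hq⟩, ⌊t / (2 * π)⌋,
    2 * π * (((Q : ℝ) * f - ((⌊(Q : ℝ) * f⌋₊ : ℕ) : ℝ)) / Q), ?_, ?_⟩
  · have e : 2 * π * ((⌊(Q : ℝ) * f⌋₊ : ℕ) : ℝ) / Q + 2 * π * (⌊t / (2 * π)⌋ : ℝ) +
        2 * π * (((Q : ℝ) * f - ((⌊(Q : ℝ) * f⌋₊ : ℕ) : ℝ)) / Q) =
        2 * π * ⌊t / (2 * π)⌋ + 2 * π * f := by
      field_simp
      ring
    show t = 2 * π * ((⌊(Q : ℝ) * f⌋₊ : ℕ) : ℝ) / Q + 2 * π * (⌊t / (2 * π)⌋ : ℝ) +
        2 * π * (((Q : ℝ) * f - ((⌊(Q : ℝ) * f⌋₊ : ℕ) : ℝ)) / Q)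
    rw [e]
    exact ht
  · have h3 : (((Q : ℝ) * f - ((⌊(Q : ℝ) * f⌋₊ : ℕ) : ℝ)) / Q) ≤ 1 / Q :=
      div_le_div_of_nonneg_right (by linarith) hQ'.le
    have h4 : 0 ≤ (((Q : ℝ) * f - ((⌊(Q : ℝ) * f⌋₊ : ℕ) : ℝ)) / Q) :=
      div_nonneg (by linarith) hQ'.le
    rw [abs_of_nonneg (by positivity)]
    calc 2 * π * (((Q : ℝ) * f - ((⌊(Q : ℝ) * f⌋₊ : ℕ) : ℝ)) / Q) ≤ 2 * π * (1 / Q) :=
          mul_le_mul_of_nonneg_left h3 hpi.le
      _ = 2 * π / Q := by ring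

theorem vl_mem {d n : ℕ} (k : layer d n) (j : Fin d) : |((k.1 j : ℤ) : ℝ)| ≤ 2 ^ n := by
  have hk := k.2
  simp only [layer, Finset.mem_filter] at hk
  have h1 := hk.1
  have h2 := Finset.mem_Ioo.1 (Fintype.mem_piFinset.1 h1 j)
  have h3 : ((-(2:ℤ)^n : ℤ) : ℝ) < ((k.1 j : ℤ) : ℝ) := by exact_mod_cast h2.1
  have h4 : ((k.1 j : ℤ) : ℝ) < (((2:ℤ)^n : ℤ) : ℝ) := by exact_mod_cast h2.2
  push_cast at h3 h4
  rw [abs_le]
  exact ⟨h3.le, h4.le⟩

theorem vl_close {d n : ℕ} (Q : ℕ) (hQ : 0 < Q) (a : (layer d n) × Fin 2 → ℝ)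
    (ha : ∀ i, |a i| ≤ 1)
    (hsm : ((layer d n).card : ℝ) * (2 * ((d : ℝ) * (2 ^ n * (2 * π / Q)))) ≤ 1)
    (y : Fin d → ℝ) :
    ∃ x : Fin d → Fin Q, ‖poly a y‖ ≤
      ‖poly a (fun j => 2 * π * ((x j : ℕ) : ℝ) / Q)‖ + 1 := by
  choose q z δ h1 h2 using fun j => vl_coord Q hQ (y j)
  refine ⟨q, ?_⟩
  have key : ‖poly a y - poly a (fun j => 2 * π * ((q j : ℕ) : ℝ) / Q)‖ ≤ 1 := by
    unfold poly
    rw [← Finset.sum_sub_distrib]
    refine (norm_sum_le _ _).trans ?_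
    refine le_trans ?_ hsm
    have hterm : ∀ k ∈ (Finset.univ : Finset (layer d n)),
        ‖((a (k, 0) : ℂ) + (a (k, 1) : ℂ) * Complex.I) *
          Complex.exp (Complex.I * ((∑ j, (k.1 j : ℝ) * y j : ℝ) : ℂ)) -
        ((a (k, 0) : ℂ) + (a (k, 1) : ℂ) * Complex.I) *
          Complex.exp (Complex.I * ((∑ j, (k.1 j : ℝ) * (2 * π * ((q j : ℕ) : ℝ) / Q) : ℝ) : ℂ))‖ ≤
        2 * ((d : ℝ) * (2 ^ n * (2 * π / Q))) := by
      intro k _
      rw [← mul_sub, norm_mul]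
      have e1 : ‖(a (k, 0) : ℂ) + (a (k, 1) : ℂ) * Complex.I‖ ≤ 2 := by
        refine (norm_add_le _ _).trans ?_
        rw [norm_mul, Complex.norm_I, mul_one, Complex.norm_real, Complex.norm_real,
          Real.norm_eq_abs, Real.norm_eq_abs]
        linarith [ha (k, 0), ha (k, 1)]
      have e2 : (∑ j, (k.1 j : ℝ) * y j : ℝ) =
          (∑ j, (k.1 j : ℝ) * (2 * π * ((q j : ℕ) : ℝ) / Q)) +
          ((∑ j, k.1 j * z j : ℤ) : ℝ) * (2 * π) + ∑ j, (k.1 j : ℝ) * δ j := by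
        push_cast
        rw [Finset.sum_mul, ← Finset.sum_add_distrib, ← Finset.sum_add_distrib]
        refine Finset.sum_congr rfl fun j _ => ?_
        conv_lhs => rw [h1 j]
        ring
      have e3 : Complex.exp (Complex.I * ((∑ j, (k.1 j : ℝ) * y j : ℝ) : ℂ)) =
          Complex.exp (Complex.I * ((∑ j, (k.1 j : ℝ) * (2 * π * ((q j : ℕ) : ℝ) / Q) : ℝ) : ℂ)) *
          Complex.exp (Complex.I * ((∑ j, (k.1 j : ℝ) * δ j : ℝ) : ℂ)) := by
        rw [e2, Complex.ofReal_add, Complex.ofReal_add, mul_add, mul_add, Complex.exp_add,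
          Complex.exp_add]
        have e4 : Complex.exp (Complex.I * ((((∑ j, k.1 j * z j : ℤ) : ℝ) * (2 * π) : ℝ) : ℂ)) = 1 := by
          rw [← Complex.exp_int_mul_two_pi_mul_I (∑ j, k.1 j * z j)]
          congr 1
          push_cast
          ring
        rw [e4, mul_one]
      have e5 : ‖Complex.exp (Complex.I * ((∑ j, (k.1 j : ℝ) * y j : ℝ) : ℂ)) -
          Complex.exp (Complex.I * ((∑ j, (k.1 j : ℝ) * (2 * π * ((q j : ℕ) : ℝ) / Q) : ℝ) : ℂ))‖ ≤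
          (d : ℝ) * (2 ^ n * (2 * π / Q)) := by
        rw [e3]
        have e6 : ∀ A B : ℂ, A * B - A = A * (B - 1) := fun A B => by ring
        rw [e6, norm_mul]
        have e7 : ‖Complex.exp (Complex.I *
            ((∑ j, (k.1 j : ℝ) * (2 * π * ((q j : ℕ) : ℝ) / Q) : ℝ) : ℂ))‖ = 1 := by
          rw [mul_comm]
          exact Complex.norm_exp_ofReal_mul_I _
        rw [e7, one_mul]
        refine (Real.norm_exp_I_mul_ofReal_sub_one_le).trans ?_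
        rw [Real.norm_eq_abs]
        refine (Finset.abs_sum_le_sum_abs _ _).trans ?_
        have e8 : ∀ j ∈ (Finset.univ : Finset (Fin d)), |(k.1 j : ℝ) * δ j| ≤
            2 ^ n * (2 * π / Q) := by
          intro j _
          rw [abs_mul]
          exact mul_le_mul (vl_mem k j) (h2 j) (abs_nonneg _) (by positivity)
        refine (Finset.sum_le_sum e8).trans ?_
        rw [Finset.sum_const, Finset.card_univ, Fintype.card_fin, nsmul_eq_mul]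
      exact mul_le_mul e1 e5 (norm_nonneg _) (by norm_num)
    refine (Finset.sum_le_sum hterm).trans ?_
    rw [Finset.sum_const, Finset.card_univ, Fintype.card_coe, nsmul_eq_mul]
  have := norm_sub_norm_le (poly a y) (poly a (fun j => 2 * π * ((q j : ℕ) : ℝ) / Q))
  linarith

theorem vl_card (d n : ℕ) : ((layer d n).card : ℝ) ≤ 2 ^ ((n + 1) * d) := by
  classical
  have h1 : (layer d n).card ≤ (2 ^ (n + 1)) ^ d := by
    unfold layer
    refine (Finset.card_filter_le _ _).trans ?_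
    rw [Fintype.card_piFinset, Finset.prod_const, Finset.card_univ, Fintype.card_fin, Int.card_Ioo]
    refine Nat.pow_le_pow_left ?_ d
    have h2 : ((2:ℤ)^n - -(2:ℤ)^n - 1) ≤ ((2 ^ (n + 1) : ℕ) : ℤ) := by
      push_cast
      rw [pow_succ]
      linarith
    exact Int.toNat_le.2 h2
  rw [← pow_mul] at h1
  exact_mod_cast h1

theorem vl_small (d n : ℕ) :
    ((layer d n).card : ℝ) * (2 * ((d : ℝ) * (2 ^ n *
      (2 * π / ((2 ^ ((n + 1) * d + d + n + 4) : ℕ) : ℝ))))) ≤ 1 := by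
  have h1 := vl_card d n
  have h2 : (d : ℝ) ≤ 2 ^ d := by exact_mod_cast (Nat.lt_two_pow_self (n := d)).le
  have h3 : 2 * π ≤ 8 := by linarith [Real.pi_le_four]
  have hpi := Real.pi_pos
  have hP : (0 : ℝ) < ((2 ^ ((n + 1) * d + d + n + 4) : ℕ) : ℝ) := by positivity
  have e : ((layer d n).card : ℝ) * (2 * ((d : ℝ) * (2 ^ n *
      (2 * π / ((2 ^ ((n + 1) * d + d + n + 4) : ℕ) : ℝ))))) =
      ((layer d n).card : ℝ) * (2 * ((d : ℝ) * (2 ^ n * (2 * π)))) /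
      ((2 ^ ((n + 1) * d + d + n + 4) : ℕ) : ℝ) := by ring
  rw [e, div_le_one hP]
  calc ((layer d n).card : ℝ) * (2 * ((d : ℝ) * (2 ^ n * (2 * π)))) ≤
      2 ^ ((n + 1) * d) * (2 * (2 ^ d * (2 ^ n * 8))) := by
        refine mul_le_mul h1 ?_ (by positivity) (by positivity)
        refine mul_le_mul_of_nonneg_left ?_ (by norm_num)
        refine mul_le_mul h2 ?_ (by positivity) (by positivity)
        exact mul_le_mul_of_nonneg_left h3 (by positivity)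
    _ = ((2 ^ ((n + 1) * d + d + n + 4) : ℕ) : ℝ) := by
        push_cast
        rw [pow_add, pow_add, pow_add]
        norm_num
        ring

theorem vl_log (d n : ℕ) (hn : 1 ≤ n) :
    Real.log (4 * (Fintype.card ((Fin d → Fin (2 ^ ((n + 1) * d + d + n + 4))) × Fin 2) : ℝ)) ≤
      (n : ℝ) * (3 * (d : ℝ) ^ 2 + 5 * d + 3) := by
  have hc : (4 * (Fintype.card ((Fin d → Fin (2 ^ ((n + 1) * d + d + n + 4))) × Fin 2) : ℝ)) =
      2 ^ (3 + ((n + 1) * d + d + n + 4) * d) := by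
    rw [Fintype.card_prod, Fintype.card_fun, Fintype.card_fin, Fintype.card_fin, Fintype.card_fin]
    push_cast
    rw [← pow_mul, pow_add]
    norm_num
    ring
  rw [hc, Real.log_pow]
  have hlog : Real.log 2 ≤ 1 := by
    have := Real.log_two_lt_d9
    linarith
  have hlog0 : 0 ≤ Real.log 2 := Real.log_nonneg (by norm_num)
  have hn' : (1 : ℝ) ≤ n := by exact_mod_cast hn
  have hd0 : (0 : ℝ) ≤ d := Nat.cast_nonneg d
  push_cast
  have h1 : (3 + (((n : ℝ) + 1) * d + d + n + 4) * d) ≤ (n : ℝ) * (3 * (d : ℝ) ^ 2 + 5 * d + 3) := by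
    nlinarith [mul_nonneg (sub_nonneg.2 hn') hd0, mul_nonneg (sub_nonneg.2 hn') (mul_nonneg hd0 hd0)]
  calc (3 + (((n : ℝ) + 1) * d + d + n + 4) * d) * Real.log 2 ≤
      (3 + (((n : ℝ) + 1) * d + d + n + 4) * d) * 1 :=
        mul_le_mul_of_nonneg_left hlog (by positivity)
    _ ≤ _ := by rw [mul_one]; exact h1

theorem vl_smul {d n : ℕ} (c : ℝ) (a : (layer d n) × Fin 2 → ℝ) (x : Fin d → ℝ) :
    poly (c • a) x = (c : ℂ) * poly a x := by
  unfold poly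
  rw [Finset.mul_sum]
  refine Finset.sum_congr rfl fun k _ => ?_
  simp only [Pi.smul_apply, smul_eq_mul, Complex.ofReal_mul]
  ring

open scoped Pointwise in
theorem vol_lower (d : ℕ) (hd : 1 ≤ d) : ∃ c : ℝ, 0 < c ∧ ∀ n : ℕ, 1 ≤ n →
    ENNReal.ofReal ((c * (Real.sqrt (2^n * (n:ℝ)^d))⁻¹)^(2 * (layer d n).card)) ≤ volume (ball d n) := by
  obtain ⟨C, hC, hup⟩ := shp_upper d hd
  obtain ⟨c', hc', hlow⟩ := shp_lower d hd
  obtain ⟨K, hK⟩ : ∃ K : ℝ, K = 3 * (d : ℝ) ^ 2 + 5 * d + 3 := ⟨_, rfl⟩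
  have hK0 : 0 < K := by rw [hK]; positivity
  obtain ⟨L, hL⟩ : ∃ L : ℝ, L = 2 * Real.sqrt (2 * C * K) + 1 := ⟨_, rfl⟩
  have hL0 : 0 < L := by rw [hL]; positivity
  refine ⟨L⁻¹, inv_pos.2 hL0, fun n hn => ?_⟩
  have hn' : (1 : ℝ) ≤ n := by exact_mod_cast hn
  obtain ⟨S, hS⟩ : ∃ S : ℝ, S = Real.sqrt (2^n * (n:ℝ)^d) := ⟨_, rfl⟩
  have hS1 : 1 ≤ S := by
    rw [hS]
    refine Real.one_le_sqrt.2 ?_
    exact one_le_mul_of_one_le_of_one_le (one_le_pow₀ (by norm_num)) (one_le_pow₀ hn')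
  rw [← hS]
  obtain ⟨m, hm⟩ : ∃ m : ℕ, m = (n + 1) * d + d + n + 4 := ⟨_, rfl⟩
  have hQ : 0 < 2 ^ m := by positivity
  let g : (Fin d → Fin (2 ^ m)) → Fin d → ℝ := fun x j => 2 * π * ((x j : ℕ) : ℝ) / ((2 ^ m : ℕ) : ℝ)
  have hshp : 0 < (shp d n : ℝ) := lt_of_lt_of_le (by positivity) (hlow n hn)
  have hM : 0 < ((layer d n).card : ℝ) := by
    rw [card_layer]
    push_cast
    positivity
  have hMpos : 0 < (layer d n).card := by exact_mod_cast hM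
  have : NeZero (2 ^ m) := ⟨hQ.ne'⟩
  have hvol := rand_vol (vl_b g) ((layer d n).card : ℝ) hM (vl_b_sq (n := n) g)
  obtain ⟨R, hR⟩ : ∃ R : ℝ, R = Real.sqrt (2 * ((layer d n).card : ℝ) *
      Real.log (4 * (Fintype.card ((Fin d → Fin (2 ^ m)) × Fin 2) : ℝ))) := ⟨_, rfl⟩
  rw [← hR] at hvol
  have hRle : R ≤ Real.sqrt (2 * C * K) * S := by
    rw [hR, hS, ← Real.sqrt_mul (by positivity)]
    refine Real.sqrt_le_sqrt ?_
    have h1 : ((layer d n).card : ℝ) ≤ 2 ^ n * (C * (n : ℝ) ^ (d - 1)) := by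
      rw [card_layer]
      push_cast
      exact mul_le_mul_of_nonneg_left (hup n hn) (by positivity)
    have h2 : Real.log (4 * (Fintype.card ((Fin d → Fin (2 ^ m)) × Fin 2) : ℝ)) ≤ (n : ℝ) * K := by
      rw [hm, hK]
      exact vl_log d n hn
    have h3 : 0 ≤ Real.log (4 * (Fintype.card ((Fin d → Fin (2 ^ m)) × Fin 2) : ℝ)) := by
      refine Real.log_nonneg ?_
      have h4 : (1 : ℝ) ≤ (Fintype.card ((Fin d → Fin (2 ^ m)) × Fin 2) : ℝ) := by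
        exact_mod_cast Fintype.card_pos
      linarith
    have h5 : (n : ℝ) ^ d = (n : ℝ) ^ (d - 1) * n := by
      rw [← pow_succ]
      congr 1
      omega
    calc 2 * ((layer d n).card : ℝ) * Real.log (4 *
          (Fintype.card ((Fin d → Fin (2 ^ m)) × Fin 2) : ℝ)) ≤
          2 * (2 ^ n * (C * (n : ℝ) ^ (d - 1))) * ((n : ℝ) * K) :=
          mul_le_mul (mul_le_mul_of_nonneg_left h1 (by norm_num)) h2 h3 (by positivity)
      _ = 2 * C * K * (2 ^ n * (n : ℝ) ^ d) := by rw [h5]; ring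
  have hsub : {a : (layer d n) × Fin 2 → ℝ | (∀ i, |a i| ≤ 1) ∧
      ∀ x, |∑ i, a i * vl_b g i x| ≤ R} ⊆ (L * S) • ball d n := by
    rintro a ⟨ha1, ha2⟩
    have hLS : L * S ≠ 0 := by positivity
    rw [Set.mem_smul_set_iff_inv_smul_mem₀ hLS]
    intro y
    rw [vl_smul, norm_mul, Complex.norm_real, Real.norm_eq_abs, abs_of_pos (by positivity)]
    have hsm := vl_small d n
    rw [← hm] at hsm
    obtain ⟨x, hx⟩ := vl_close (2 ^ m) hQ a ha1 hsm y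
    have h1 : ‖poly a (g x)‖ ≤ 2 * R := by
      refine (Complex.norm_le_abs_re_add_abs_im _).trans ?_
      rw [vl_re g a x, vl_im g a x]
      linarith [ha2 (x, 0), ha2 (x, 1)]
    have h2 : ‖poly a y‖ ≤ L * S := by
      have h3 : ‖poly a y‖ ≤ ‖poly a (g x)‖ + 1 := hx
      rw [hL]
      nlinarith
    rw [inv_mul_le_one₀ (by positivity)]
    exact h2
  have h1 := hvol.trans (measure_mono hsub)
  rw [Measure.addHaar_smul] at h1
  have hN : Module.finrank ℝ ((layer d n) × Fin 2 → ℝ) = 2 * (layer d n).card := by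
    rw [Module.finrank_fintype_fun_eq_card, Fintype.card_prod, Fintype.card_fin, Fintype.card_coe]
    ring
  have hN2 : Fintype.card ((layer d n) × Fin 2) = 2 * (layer d n).card := by
    rw [Fintype.card_prod, Fintype.card_fin, Fintype.card_coe]
    ring
  rw [hN, hN2] at h1
  obtain ⟨N, hNN⟩ : ∃ N, N = 2 * (layer d n).card := ⟨_, rfl⟩
  rw [← hNN] at h1 ⊢
  have hN1 : 1 ≤ N := by omega
  have hpow : (1 : ℝ) ≤ 2 ^ N / 2 := by
    rw [le_div_iff₀ (by norm_num)]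
    calc (1 : ℝ) * 2 = 2 ^ 1 := by norm_num
      _ ≤ 2 ^ N := pow_le_pow_right₀ (by norm_num) hN1
  have hLSN : 0 < (L * S) ^ N := by positivity
  rw [abs_of_pos hLSN] at h1
  have h2 : (1 : ℝ≥0∞) ≤ ENNReal.ofReal ((L * S) ^ N) * volume (ball d n) := by
    refine le_trans ?_ h1
    rw [← ENNReal.ofReal_one]
    exact ENNReal.ofReal_le_ofReal hpow
  have h3 : (L⁻¹ * S⁻¹) ^ N = ((L * S) ^ N)⁻¹ := by
    rw [← inv_pow, mul_inv]
  rw [h3, ENNReal.ofReal_inv_of_pos hLSN]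
  have hne : ENNReal.ofReal ((L * S) ^ N) ≠ 0 := by
    rw [ne_eq, ENNReal.ofReal_eq_zero, not_le]
    exact hLSN
  calc (ENNReal.ofReal ((L * S) ^ N))⁻¹ = (ENNReal.ofReal ((L * S) ^ N))⁻¹ * 1 := (mul_one _).symm
    _ ≤ (ENNReal.ofReal ((L * S) ^ N))⁻¹ * (ENNReal.ofReal ((L * S) ^ N) * volume (ball d n)) := by
        gcongr
    _ = volume (ball d n) := by
        rw [← mul_assoc, ENNReal.inv_mul_cancel hne ENNReal.ofReal_ne_top, one_mul]


end Sol_vol_lower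

alias vol_lower := Sol_vol_lower.vol_lower

end HypVol
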