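import Pool.Agent.HypVol.Defs
import Pool.Agent.HypVol.L_card_layer
import Pool.Agent.HypVol.L_shp_lower
import Pool.Agent.HypVol.L_shp_upper
import Pool.Agent.HypVol.L_santalo
import Pool.Agent.HypVol.L_vol_lower
import Pool.Agent.HypVol.L_coef_bound
import Pool.Agent.HypVol.L_ball_compact
import Pool.Agent.HypVol.L_pairing
open MeasureTheory Real ProbabilityTheory
open scoped ENNReal BigOperators

namespace HypVol
namespace Sol_perp_upper











theorem perp_upper_norm {d n : ℕ} (a : (layer d n) × Fin 2 → ℝ) (x : Fin d → ℝ) :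
    ‖poly a x‖ ≤ ∑ i, |a i| := by
  unfold poly
  refine (norm_sum_le _ _).trans ?_
  rw [Fintype.sum_prod_type]
  refine Finset.sum_le_sum fun k _ => ?_
  rw [norm_mul, Fin.sum_univ_two]
  have h1 : ‖Complex.exp (Complex.I * ((∑ j, (k.1 j : ℝ) * x j : ℝ) : ℂ))‖ = 1 := by
    rw [mul_comm]; exact Complex.norm_exp_ofReal_mul_I _
  rw [h1, mul_one]
  refine (norm_add_le _ _).trans ?_
  rw [norm_mul, Complex.norm_I, mul_one, Complex.norm_real, Complex.norm_real, Real.norm_eq_abs,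
    Real.norm_eq_abs]

open Classical in
theorem perp_upper_single {d n : ℕ} (i : (layer d n) × Fin 2) :
    (Pi.single i 1 : (layer d n) × Fin 2 → ℝ) ∈ ball d n := by
  intro x
  refine (perp_upper_norm _ x).trans ?_
  rw [Finset.sum_eq_single i]
  · simp
  · intro j _ hj
    rw [Pi.single_eq_of_ne hj, abs_zero]
  · intro h
    exact absurd (Finset.mem_univ i) h

theorem perp_upper_neg {d n : ℕ} (a : (layer d n) × Fin 2 → ℝ) (x : Fin d → ℝ) :
    poly (-a) x = - poly a x := by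
  unfold poly
  rw [← Finset.sum_neg_distrib]
  refine Finset.sum_congr rfl fun k _ => ?_
  simp only [Pi.neg_apply, Complex.ofReal_neg]
  ring

theorem perp_upper_sqrt (d n : ℕ) (hd : 3 ≤ d) :
    Real.sqrt (2^n * (n:ℝ)^d) * Real.sqrt (2^n * (n:ℝ)^(d-2)) = 2^n * (n:ℝ)^(d-1) := by
  obtain ⟨m, rfl⟩ : ∃ m, d = m + 3 := ⟨d - 3, by omega⟩
  rw [← Real.sqrt_mul (by positivity)]
  have h : (2:ℝ)^n * (n:ℝ)^(m+3) * (2^n * (n:ℝ)^(m+3-2)) = (2^n * (n:ℝ)^(m+3-1))^2 := by
    have e1 : m + 3 - 2 = m + 1 := by omega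
    have e2 : m + 3 - 1 = m + 2 := by omega
    rw [e1, e2]
    ring
  rw [h, Real.sqrt_sq (by positivity)]

theorem perp_upper (d : ℕ) (hd : 3 ≤ d) : ∃ C : ℝ, 0 < C ∧ ∀ n : ℕ, 1 ≤ n →
    volume (bperp d n) ≤ ENNReal.ofReal ((C * (Real.sqrt (2^n * (n:ℝ)^(d-2)))⁻¹)^(2 * (layer d n).card)) := by
  classical
  obtain ⟨c1, hc1, H1⟩ := shp_lower d (by omega)
  obtain ⟨c2, hc2, H2⟩ := vol_lower d (by omega)
  refine ⟨π * Real.exp 1 / (c1 * c2), by positivity, fun n hn => ?_⟩
  have hn0 : (0:ℝ) < n := by exact_mod_cast hn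
  have hshp := H1 n hn
  have hv := H2 n hn
  have hAB := perp_upper_sqrt d n hd
  have hApos : 0 < Real.sqrt (2^n * (n:ℝ)^d) := Real.sqrt_pos.mpr (by positivity)
  have hBpos : 0 < Real.sqrt (2^n * (n:ℝ)^(d-2)) := Real.sqrt_pos.mpr (by positivity)
  have hcard : Fintype.card ((layer d n) × Fin 2) = 2 * (layer d n).card := by
    rw [Fintype.card_prod, Fintype.card_coe, Fintype.card_fin, mul_comm]
  have hNr : ((2 * (layer d n).card : ℕ) : ℝ) = 2 * (2^n * shp d n) := by
    rw [card_layer]; push_cast; ring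
  have hN1 : 2 * (2^n * (c1 * (n:ℝ)^(d-1))) ≤ ((2 * (layer d n).card : ℕ) : ℝ) := by
    rw [hNr]; gcongr
  have hNpos : (0:ℝ) < ((2 * (layer d n).card : ℕ) : ℝ) := lt_of_lt_of_le (by positivity) hN1
  have hNpos' : 0 < 2 * (layer d n).card := by exact_mod_cast hNpos
  let L : Set ((layer d n) × Fin 2 → ℝ) := {y | ∀ a ∈ ball d n, |∑ i, a i * y i| ≤ 1}
  have hbL : bperp d n ⊆ L := fun y hy a ha => pairing a y ha hy
  have hLclosed : IsClosed L := by
    have h0 : L = ⋂ a ∈ ball d n, {y | |∑ i, a i * y i| ≤ 1} := by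
      ext y; simp [L]
    rw [h0]
    refine isClosed_biInter fun a _ => ?_
    exact isClosed_le (by fun_prop) continuous_const
  have hLsub : L ⊆ Metric.closedBall 0 1 := by
    intro y hy
    rw [mem_closedBall_zero_iff, pi_norm_le_iff_of_nonneg zero_le_one]
    intro i
    have h1 := hy _ (perp_upper_single i)
    simpa [Pi.single_apply, Real.norm_eq_abs] using h1
  have hLc : IsCompact L := (isCompact_closedBall 0 1).of_isClosed_subset hLclosed hLsub
  have hs := santalo (by rw [hcard]; exact hNpos') (ball d n) L (ball_compact d n) hLc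
    (fun x hx t => by rw [perp_upper_neg, norm_neg]; exact hx t)
    (fun y hy a ha => by
      have h1 := hy a ha
      simpa [Finset.sum_neg_distrib, abs_neg] using h1)
    (fun x hx y hy => (le_abs_self _).trans (hy x hx))
  rw [hcard] at hs
  generalize 2 * (layer d n).card = N at hv hs hN1 hNpos hNpos' ⊢
  generalize Real.sqrt (2^n * (n:ℝ)^d) = A at hv hAB hApos
  generalize Real.sqrt (2^n * (n:ℝ)^(d-2)) = B at hAB hBpos ⊢
  have hP : 0 < c2 * A⁻¹ := by positivity
  have hPN : 0 < (c2 * A⁻¹)^N := by positivity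
  have h1 : volume L * ENNReal.ofReal ((c2 * A⁻¹)^N) ≤ ENNReal.ofReal ((2 * π * Real.exp 1 / N)^N) := by
    refine le_trans ?_ hs
    rw [mul_comm]
    gcongr
  have h2 : volume L ≤ ENNReal.ofReal ((2 * π * Real.exp 1 / N)^N) / ENNReal.ofReal ((c2 * A⁻¹)^N) := by
    rw [ENNReal.le_div_iff_mul_le (Or.inl (by simpa using hPN)) (Or.inl ENNReal.ofReal_ne_top)]
    exact h1
  rw [← ENNReal.ofReal_div_of_pos hPN, ← div_pow] at h2
  refine (measure_mono hbL).trans (h2.trans (ENNReal.ofReal_le_ofReal ?_))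
  refine pow_le_pow_left₀ (by positivity) ?_ N
  have e1 : (2 * π * Real.exp 1 / N) / (c2 * A⁻¹) = (2 * π * Real.exp 1 * A) / (N * c2) := by
    field_simp
  have e2 : π * Real.exp 1 / (c1 * c2) * B⁻¹ = (π * Real.exp 1) / (c1 * c2 * B) := by
    field_simp
  rw [e1, e2, div_le_div_iff₀ (by positivity) (by positivity)]
  have h3 : 2 * (A * B) * c1 ≤ N := by rw [hAB]; linarith
  calc 2 * π * Real.exp 1 * A * (c1 * c2 * B) = (π * Real.exp 1 * c2) * (2 * (A * B) * c1) := by ring
    _ ≤ (π * Real.exp 1 * c2) * N := by gcongr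
    _ = π * Real.exp 1 * (N * c2) := by ring


end Sol_perp_upper

alias perp_upper := Sol_perp_upper.perp_upper

end HypVol
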