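import Pool.Agent.HypVol.Defs
open MeasureTheory Real ProbabilityTheory
open scoped ENNReal BigOperators

namespace HypVol
namespace Sol_rand_vol2




theorem rand_vol2_one (s : ℝ) :
    ∫ u in Set.Icc (-1:ℝ) 1, Real.exp (s * u) ≤ 2 * Real.exp (s^2/2) := by
  rw [integral_Icc_eq_integral_Ioc, ← intervalIntegral.integral_of_le (by norm_num)]
  have h1 : ∫ u in (-1:ℝ)..1, Real.exp (s * u) ≤
      ∫ u in (-1:ℝ)..1, ((Real.exp s + Real.exp (-s)) / 2 + u * ((Real.exp s - Real.exp (-s)) / 2)) := by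
    apply intervalIntegral.integral_mono_on (by norm_num)
    · exact (by fun_prop : Continuous fun u : ℝ => Real.exp (s * u)).intervalIntegrable _ _
    · exact (by fun_prop : Continuous fun u : ℝ => ((Real.exp s + Real.exp (-s)) / 2 + u * ((Real.exp s - Real.exp (-s)) / 2))).intervalIntegrable _ _
    · intro u hu
      have h2 := convexOn_exp.2 (Set.mem_univ s) (Set.mem_univ (-s))
        (show (0:ℝ) ≤ (1+u)/2 by linarith [hu.1]) (show (0:ℝ) ≤ (1-u)/2 by linarith [hu.2])
        (by ring)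
      simp only [smul_eq_mul] at h2
      have h3 : (1+u)/2 * s + (1-u)/2 * (-s) = s * u := by ring
      rw [h3] at h2
      refine h2.trans (le_of_eq ?_)
      ring
  refine h1.trans ?_
  rw [intervalIntegral.integral_add (by simp) (by
    exact (by fun_prop : Continuous fun u : ℝ => u * ((Real.exp s - Real.exp (-s)) / 2)).intervalIntegrable _ _),
    intervalIntegral.integral_const, intervalIntegral.integral_mul_const, integral_id]
  have h4 := Real.cosh_le_exp_half_sq s
  rw [Real.cosh_eq] at h4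
  simp only [smul_eq_mul]
  nlinarith [h4]

theorem rand_vol2_tail {ι : Type} [Fintype ι] (c : ι → ℝ) (M : ℝ) (hM : 0 < M)
    (hc : ∑ i, c i ^ 2 ≤ M) (l : ℝ) (hl : 0 ≤ l) :
    (volume.restrict (Set.pi Set.univ (fun _ : ι => Set.Icc (-1:ℝ) 1))) {a : ι → ℝ | l ≤ ∑ i, a i * c i} ≤
      ENNReal.ofReal (2^(Fintype.card ι) * Real.exp (-(l^2/(2*M)))) := by
  have hfin : IsFiniteMeasure ((volume : Measure (ι → ℝ)).restrict (Set.pi Set.univ (fun _ : ι => Set.Icc (-1:ℝ) 1))) := by
    rw [volume_pi, Measure.restrict_pi_pi]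
    infer_instance
  set ν := (volume : Measure (ι → ℝ)).restrict (Set.pi Set.univ (fun _ : ι => Set.Icc (-1:ℝ) 1)) with hν
  have hν' : ν = Measure.pi (fun _ : ι => (volume : Measure ℝ).restrict (Set.Icc (-1:ℝ) 1)) := by
    rw [hν, volume_pi, Measure.restrict_pi_pi]
  set t : ℝ := l / M with ht
  have ht0 : 0 ≤ t := div_nonneg hl hM.le
  have hfun : (fun a : ι → ℝ => Real.exp (t * ∑ i, a i * c i)) =
      fun a : ι → ℝ => ∏ i, (fun i u => Real.exp ((t * c i) * u)) i (a i) := by
    funext a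
    rw [Finset.mul_sum, Real.exp_sum]
    refine Finset.prod_congr rfl (fun i _ => ?_)
    show _ = Real.exp ((t * c i) * a i)
    congr 1
    ring
  have hint : Integrable (fun a : ι → ℝ => Real.exp (t * ∑ i, a i * c i)) ν := by
    rw [hfun, hν']
    exact Integrable.fintype_prod (f := fun (i : ι) (u : ℝ) => Real.exp ((t * c i) * u))
      (μ := fun _ : ι => (volume : Measure ℝ).restrict (Set.Icc (-1:ℝ) 1))
      (fun i => (by fun_prop : Continuous fun u : ℝ => Real.exp ((t * c i) * u)).integrableOn_Icc)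
  have hle : ∫ a, Real.exp (t * ∑ i, a i * c i) ∂ν ≤ 2^(Fintype.card ι) * Real.exp (t^2 * M / 2) := by
    rw [hfun, hν']
    have h0 := integral_fintype_prod_eq_prod (𝕜 := ℝ)
      (μ := fun _ : ι => (volume : Measure ℝ).restrict (Set.Icc (-1:ℝ) 1))
      (fun (i : ι) (u : ℝ) => Real.exp ((t * c i) * u))
    refine h0.le.trans ?_
    have h1 : ∏ i, ∫ u in Set.Icc (-1:ℝ) 1, Real.exp ((t * c i) * u) ≤
        ∏ i : ι, (2 * Real.exp ((t * c i)^2/2)) := by
      apply Finset.prod_le_prod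
      · intro i _
        exact integral_nonneg (fun u => (Real.exp_pos _).le)
      · intro i _
        exact rand_vol2_one _
    refine h1.trans ?_
    rw [Finset.prod_mul_distrib, Finset.prod_const, Finset.card_univ, ← Real.exp_sum]
    gcongr
    have h2 : ∑ i, (t * c i)^2/2 = t^2 / 2 * ∑ i, c i^2 := by
      rw [Finset.mul_sum]
      refine Finset.sum_congr rfl (fun i _ => ?_)
      ring
    rw [h2]
    have h3 : 0 ≤ t^2/2 := by positivity
    nlinarith [mul_le_mul_of_nonneg_left hc h3]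
  have hmk := mul_meas_ge_le_integral_of_nonneg (μ := ν)
    (Filter.Eventually.of_forall (fun a => (Real.exp_pos _).le)) hint (Real.exp (t * l))
  have hsub : {a : ι → ℝ | l ≤ ∑ i, a i * c i} ⊆
      {a : ι → ℝ | Real.exp (t * l) ≤ Real.exp (t * ∑ i, a i * c i)} := by
    intro a ha
    simp only [Set.mem_ofPred_eq] at ha ⊢
    exact Real.exp_le_exp.2 (mul_le_mul_of_nonneg_left ha ht0)
  have h5 : ν.real {a : ι → ℝ | l ≤ ∑ i, a i * c i} ≤ 2^(Fintype.card ι) * Real.exp (-(l^2/(2*M))) := by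
    have h6 : ν.real {a : ι → ℝ | l ≤ ∑ i, a i * c i} ≤
      ν.real {a : ι → ℝ | Real.exp (t * l) ≤ Real.exp (t * ∑ i, a i * c i)} := measureReal_mono hsub
    have h7 := hmk.trans hle
    have h8 : Real.exp (-(l^2/(2*M))) = Real.exp (t^2 * M / 2) / Real.exp (t * l) := by
      rw [← Real.exp_sub]
      congr 1
      rw [ht]
      field_simp
      ring
    rw [h8, mul_div_assoc', le_div_iff₀ (Real.exp_pos _)]
    nlinarith [mul_le_mul_of_nonneg_left h6 (Real.exp_pos (t * l)).le]
  rw [← ENNReal.ofReal_toReal (measure_ne_top ν {a : ι → ℝ | l ≤ ∑ i, a i * c i})]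
  exact ENNReal.ofReal_le_ofReal h5

theorem rand_vol2 {X ι : Type} [Fintype X] [Nonempty X] [Fintype ι] (b : ι → X → ℝ) (M : ℝ) (hM : 0 < M)
    (h : ∀ x, ∑ i, b i x ^ 2 ≤ M) :
    volume {a : ι → ℝ | (∀ i, |a i| ≤ 1) ∧
        ¬ ∀ x, |∑ i, a i * b i x| ≤ Real.sqrt (2 * M * Real.log (8 * Fintype.card X))}
      ≤ ENNReal.ofReal (2^(Fintype.card ι) / 4) := by
  set l : ℝ := Real.sqrt (2 * M * Real.log (8 * Fintype.card X)) with hl
  have hl0 : 0 ≤ l := Real.sqrt_nonneg _
  have hX : (1:ℝ) ≤ Fintype.card X := by exact_mod_cast Fintype.card_pos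
  have hlog : 0 ≤ Real.log (8 * Fintype.card X) := Real.log_nonneg (by linarith)
  have hl2 : l ^ 2 = 2 * M * Real.log (8 * Fintype.card X) := by
    rw [hl]
    exact Real.sq_sqrt (by positivity)
  set C : Set (ι → ℝ) := Set.pi Set.univ (fun _ : ι => Set.Icc (-1:ℝ) 1) with hC
  have hCm : MeasurableSet C := MeasurableSet.univ_pi (fun _ => measurableSet_Icc)
  have hexp : Real.exp (-(l^2/(2*M))) = 1 / (8 * Fintype.card X) := by
    rw [hl2]
    have : 2 * M * Real.log (8 * Fintype.card X) / (2 * M) = Real.log (8 * Fintype.card X) := by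
      field_simp
    rw [this, Real.exp_neg, Real.exp_log (by linarith), one_div]
  have hsub : {a : ι → ℝ | (∀ i, |a i| ≤ 1) ∧ ¬ ∀ x, |∑ i, a i * b i x| ≤ l} ⊆
      C ∩ ⋃ x : X, ({a : ι → ℝ | l ≤ ∑ i, a i * b i x} ∪ {a : ι → ℝ | l ≤ ∑ i, a i * (- b i x)}) := by
    rintro a ⟨h1, h2⟩
    refine ⟨fun i _ => abs_le.1 (h1 i), ?_⟩
    push Not at h2
    obtain ⟨x, hx⟩ := h2
    rw [Set.mem_iUnion]
    refine ⟨x, ?_⟩
    rcases lt_abs.1 hx with h3 | h3
    · left
      exact h3.le
    · right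
      show l ≤ ∑ i, a i * (- b i x)
      have : ∑ i, a i * (- b i x) = - ∑ i, a i * b i x := by
        rw [← Finset.sum_neg_distrib]
        exact Finset.sum_congr rfl (fun i _ => by ring)
      rw [this]
      exact h3.le
  refine (measure_mono hsub).trans ?_
  rw [Set.inter_comm, ← Measure.restrict_apply' hCm]
  refine (measure_iUnion_le _).trans ?_
  rw [tsum_fintype]
  have hone : ∀ x : X, (volume.restrict C) ({a : ι → ℝ | l ≤ ∑ i, a i * b i x} ∪ {a : ι → ℝ | l ≤ ∑ i, a i * (- b i x)}) ≤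
      ENNReal.ofReal (2^(Fintype.card ι) / (4 * Fintype.card X)) := by
    intro x
    refine (measure_union_le _ _).trans ?_
    have h1 := rand_vol2_tail (fun i => b i x) M hM (h x) l hl0
    have h2 := rand_vol2_tail (fun i => - b i x) M hM (by simpa using h x) l hl0
    refine (add_le_add h1 h2).trans ?_
    rw [← ENNReal.ofReal_add (by positivity) (by positivity), hexp]
    apply ENNReal.ofReal_le_ofReal
    apply le_of_eq
    field_simp
    ring
  refine (Finset.sum_le_sum (fun x _ => hone x)).trans ?_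
  rw [Finset.sum_const, Finset.card_univ, nsmul_eq_mul, ← ENNReal.ofReal_natCast,
    ← ENNReal.ofReal_mul (by positivity)]
  apply ENNReal.ofReal_le_ofReal
  apply le_of_eq
  have : (Fintype.card X : ℝ) ≠ 0 := by positivity
  field_simp


end Sol_rand_vol2

alias rand_vol2 := Sol_rand_vol2.rand_vol2

end HypVol
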