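import Pool.Agent.HypVol.Defs
import Pool.Agent.HypVol.L_card_layer
import Pool.Agent.HypVol.L_shp_lower
import Pool.Agent.HypVol.L_vol_upper
import Pool.Agent.HypVol.L_vol_lower
open MeasureTheory Real ProbabilityTheory
open scoped ENNReal BigOperators

namespace HypVol
namespace Sol_result_A







theorem ball_volume (d : ℕ) (hd : 3 ≤ d) : ∃ c C : ℝ, 0 < c ∧ 0 < C ∧ ∀ n : ℕ, 1 ≤ n →
    c * (Real.sqrt (2^n * (n:ℝ)^d))⁻¹ ≤ (volume (ball d n)).toReal ^ (1 / ((2 * (layer d n).card : ℕ) : ℝ)) ∧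
    (volume (ball d n)).toReal ^ (1 / ((2 * (layer d n).card : ℕ) : ℝ)) ≤ C * (Real.sqrt (2^n * (n:ℝ)^d))⁻¹ := by
  obtain ⟨c0, hc0, hs⟩ := shp_lower d (by omega)
  obtain ⟨c, hc, hl⟩ := vol_lower d (by omega)
  obtain ⟨C, hC, hu⟩ := vol_upper d hd
  refine ⟨c, C, hc, hC, fun n hn => ?_⟩
  have hn0 : (0 : ℝ) < (n : ℝ) := by exact_mod_cast hn
  have hshp : (0 : ℝ) < (shp d n : ℝ) := lt_of_lt_of_le (by positivity) (hs n hn)
  have hN : 2 * (layer d n).card ≠ 0 := by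
    rw [card_layer]
    have h1 : 0 < shp d n := by exact_mod_cast hshp
    have h2 : 0 < 2 ^ n * shp d n := Nat.mul_pos (by positivity) h1
    omega
  have h1 := hl n hn
  have h2 := hu n hn
  generalize hNN : 2 * (layer d n).card = N at *
  have hfin : volume (ball d n) ≠ ⊤ := ne_top_of_le_ne_top ENNReal.ofReal_ne_top h2
  have hL : 0 ≤ c * (Real.sqrt (2^n * (n:ℝ)^d))⁻¹ := by positivity
  have hU : 0 ≤ C * (Real.sqrt (2^n * (n:ℝ)^d))⁻¹ := by positivity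
  rw [ENNReal.ofReal_le_iff_le_toReal hfin] at h1
  have h3 := ENNReal.toReal_le_of_le_ofReal (pow_nonneg hU N) h2
  rw [one_div]
  constructor
  · calc c * (Real.sqrt (2^n * (n:ℝ)^d))⁻¹
        = ((c * (Real.sqrt (2^n * (n:ℝ)^d))⁻¹) ^ N) ^ ((N : ℝ)⁻¹) :=
          (Real.pow_rpow_inv_natCast hL hN).symm
      _ ≤ _ := Real.rpow_le_rpow (pow_nonneg hL N) h1 (by positivity)
  · calc (volume (ball d n)).toReal ^ ((N : ℝ)⁻¹)
        ≤ ((C * (Real.sqrt (2^n * (n:ℝ)^d))⁻¹) ^ N) ^ ((N : ℝ)⁻¹) :=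
          Real.rpow_le_rpow ENNReal.toReal_nonneg h3 (by positivity)
      _ = _ := Real.pow_rpow_inv_natCast hU hN


end Sol_result_A

alias ball_volume := Sol_result_A.ball_volume

end HypVol
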