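import Pool.Agent.HypVol.Defs
import Pool.Agent.HypVol.L_card_layer
import Pool.Agent.HypVol.L_shp_lower
import Pool.Agent.HypVol.L_perp_upper
import Pool.Agent.HypVol.L_perp_lower
open MeasureTheory Real ProbabilityTheory
open scoped ENNReal BigOperators

namespace HypVol
namespace Sol_result_B







theorem bperp_volume (d : ℕ) (hd : 3 ≤ d) : ∃ c C : ℝ, 0 < c ∧ 0 < C ∧ ∀ n : ℕ, 1 ≤ n →
    c * (Real.sqrt (2^n * (n:ℝ)^(d-2)))⁻¹ ≤ (volume (bperp d n)).toReal ^ (1 / ((2 * (layer d n).card : ℕ) : ℝ)) ∧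
    (volume (bperp d n)).toReal ^ (1 / ((2 * (layer d n).card : ℕ) : ℝ)) ≤ C * (Real.sqrt (2^n * (n:ℝ)^(d-2)))⁻¹ := by
  obtain ⟨c0, hc0, hshp⟩ := shp_lower d (by omega)
  obtain ⟨C, hC, hup⟩ := perp_upper d hd
  obtain ⟨c, hc, hlo⟩ := perp_lower d hd
  refine ⟨c, C, hc, hC, fun n hn => ?_⟩
  have hn0 : (0 : ℝ) < n := by exact_mod_cast hn
  have hs : 0 < shp d n := by
    have h1 := hshp n hn
    have h2 : 0 < c0 * (n : ℝ) ^ (d - 1) := by positivity
    exact_mod_cast h2.trans_le h1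
  have hN : 2 * (layer d n).card ≠ 0 := by
    rw [card_layer]
    positivity
  obtain ⟨N, hNe⟩ : ∃ N, N = 2 * (layer d n).card := ⟨_, rfl⟩
  have hup' := hup n hn
  have hlo' := hlo n hn
  rw [← hNe] at hup' hlo' hN ⊢
  have hx : 0 ≤ (Real.sqrt (2^n * (n:ℝ)^(d-2)))⁻¹ := by positivity
  have hfin : volume (bperp d n) ≠ ⊤ := ne_top_of_le_ne_top ENNReal.ofReal_ne_top hup'
  have h1 : (volume (bperp d n)).toReal ≤ (C * (Real.sqrt (2^n * (n:ℝ)^(d-2)))⁻¹) ^ N :=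
    ENNReal.toReal_le_of_le_ofReal (by positivity) hup'
  have h2 : (c * (Real.sqrt (2^n * (n:ℝ)^(d-2)))⁻¹) ^ N ≤ (volume (bperp d n)).toReal :=
    (ENNReal.ofReal_le_iff_le_toReal hfin).1 hlo'
  rw [one_div]
  constructor
  · have h3 := Real.rpow_le_rpow (by positivity) h2 (show (0 : ℝ) ≤ (N : ℝ)⁻¹ by positivity)
    rwa [Real.pow_rpow_inv_natCast (by positivity) hN] at h3
  · have h3 := Real.rpow_le_rpow ENNReal.toReal_nonneg h1 (show (0 : ℝ) ≤ (N : ℝ)⁻¹ by positivity)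
    rwa [Real.pow_rpow_inv_natCast (by positivity) hN] at h3


end Sol_result_B

alias bperp_volume := Sol_result_B.bperp_volume

end HypVol
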