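import Pool.Agent.HypVol.Defs
import Pool.Agent.HypVol.L_mem_layer
import Pool.Agent.HypVol.L_card_layer
import Pool.Agent.HypVol.L_shp_upper
import Pool.Agent.HypVol.L_shp_lower
import Pool.Agent.HypVol.L_rand_vol2
open MeasureTheory Real ProbabilityTheory
open scoped ENNReal BigOperators

namespace HypVol
namespace Sol_sup_vol








theorem sv_one (r : ℝ) (hr : 0 < r) (m : ℤ) (β : ℝ) :
    ‖(if m = 0 then (1 : ℂ) else (((|(m : ℝ)|)^(-r) : ℝ) : ℂ) *
      Complex.exp (-(Complex.I * ((β : ℝ) : ℂ))))‖ ≤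
      (2:ℝ)^(r - r * (Nat.size m.natAbs : ℝ)) := by
  by_cases hm : m = 0
  · subst hm
    rw [if_pos rfl]
    simp only [norm_one, Int.natAbs_zero, Nat.size_zero, Nat.cast_zero, mul_zero, sub_zero]
    exact Real.one_le_rpow (by norm_num) hr.le
  · rw [if_neg hm, norm_mul]
    have h1 : ‖Complex.exp (-(Complex.I * ((β : ℝ) : ℂ)))‖ = 1 := by
      have h2 : -(Complex.I * ((β : ℝ) : ℂ)) = (((-β : ℝ)) : ℂ) * Complex.I := by
        push_cast; ring
      rw [h2, Complex.norm_exp_ofReal_mul_I]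
    rw [h1, mul_one, Complex.norm_real, Real.norm_eq_abs,
      abs_of_nonneg (Real.rpow_nonneg (abs_nonneg _) _)]
    have hna : m.natAbs ≠ 0 := Int.natAbs_ne_zero.2 hm
    have hsz : 0 < Nat.size m.natAbs := Nat.size_pos.2 (Nat.pos_of_ne_zero hna)
    obtain ⟨t, ht⟩ : ∃ t, Nat.size m.natAbs = t + 1 := ⟨Nat.size m.natAbs - 1, by omega⟩
    have h3 : 2 ^ t ≤ m.natAbs := Nat.lt_size.1 (by omega)
    have h4 : (2:ℝ)^t ≤ |(m : ℝ)| := by
      have h5 : ((m.natAbs : ℕ) : ℝ) = |(m : ℝ)| := by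
        rw [Nat.cast_natAbs]; push_cast; rfl
      rw [← h5]
      exact_mod_cast h3
    rw [ht]
    have h6 : (|(m : ℝ)|)^(-r) ≤ ((2:ℝ)^t)^(-r) :=
      Real.rpow_le_rpow_of_nonpos (by positivity) h4 (by linarith)
    refine h6.trans (le_of_eq ?_)
    rw [← Real.rpow_natCast, ← Real.rpow_mul (by norm_num)]
    congr 1
    push_cast
    ring

theorem sv_Fh (d n : ℕ) (r : ℝ) (hr : 0 < r) (α : Fin d → ℝ) (k : Fin d → ℤ)
    (hk : k ∈ layer d n) : ‖Fh r α k‖ ≤ (2:ℝ)^(r * d) * (2:ℝ)^(-(r * n)) := by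
  have hs := (mem_layer_iff d n k).1 hk
  unfold Fh
  rw [norm_prod]
  calc ∏ j, ‖(if k j = 0 then (1 : ℂ) else (((|(k j : ℝ)|)^(-r) : ℝ) : ℂ) *
    Complex.exp (-(Complex.I * (((SignType.sign (k j) : ℤ) : ℝ) * α j * π / 2 : ℝ))))‖
      ≤ ∏ j : Fin d, (2:ℝ)^(r - r * (Nat.size (k j).natAbs : ℝ)) :=
        Finset.prod_le_prod (fun _ _ => norm_nonneg _) (fun j _ => sv_one r hr (k j) _)
    _ = (2:ℝ)^(∑ j : Fin d, (r - r * (Nat.size (k j).natAbs : ℝ))) :=
        (Real.rpow_sum_of_pos two_pos _ _).symm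
    _ = (2:ℝ)^(r * d) * (2:ℝ)^(-(r * n)) := by
        rw [← Real.rpow_add two_pos]
        congr 1
        rw [Finset.sum_sub_distrib, ← Finset.mul_sum, Finset.sum_const, Finset.card_univ,
          Fintype.card_fin, nsmul_eq_mul]
        have h1 : ∑ j, ((Nat.size (k j).natAbs : ℕ) : ℝ) = n := by
          rw [← hs]; push_cast; rfl
        rw [h1]
        ring

theorem sv_exp (u v : ℝ) (q : ℤ) :
    ‖Complex.exp (Complex.I * (u : ℂ)) - Complex.exp (Complex.I * (v : ℂ))‖ ≤
      |u - v - 2 * π * q| := by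
  have h1 : Complex.exp (Complex.I * (u : ℂ)) = Complex.exp (Complex.I * (v : ℂ)) *
      Complex.exp (Complex.I * ((u - v - 2 * π * q : ℝ) : ℂ)) := by
    rw [← Complex.exp_add]
    have h2 : Complex.I * (u : ℂ) = (Complex.I * (v : ℂ) +
        Complex.I * ((u - v - 2 * π * q : ℝ) : ℂ)) + (q : ℂ) * (2 * (π : ℂ) * Complex.I) := by
      push_cast
      ring
    rw [h2, Complex.exp_add, Complex.exp_int_mul_two_pi_mul_I, mul_one]
  have h3 : Complex.exp (Complex.I * (u : ℂ)) - Complex.exp (Complex.I * (v : ℂ)) =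
      Complex.exp (Complex.I * (v : ℂ)) *
      (Complex.exp (Complex.I * ((u - v - 2 * π * q : ℝ) : ℂ)) - 1) := by
    rw [h1]; ring
  rw [h3, norm_mul]
  have h4 : ‖Complex.exp (Complex.I * (v : ℂ))‖ = 1 := by
    rw [mul_comm, Complex.norm_exp_ofReal_mul_I]
  rw [h4, one_mul]
  exact Real.norm_exp_I_mul_ofReal_sub_one_le

/-- the wave with the multiplier -/
noncomputable def svw {d : ℕ} (r : ℝ) (α : Fin d → ℝ) (k : Fin d → ℤ) (x : Fin d → ℝ) : ℂ :=
  Fh r α k * Complex.exp (Complex.I * ((∑ j, (k j : ℝ) * x j : ℝ) : ℂ))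

theorem sv_poly {d n : ℕ} (r : ℝ) (α : Fin d → ℝ) (a : (layer d n) × Fin 2 → ℝ)
    (x : Fin d → ℝ) : poly (Mact r α a) x =
      ∑ k : layer d n, ((a (k, 0) : ℂ) + (a (k, 1) : ℂ) * Complex.I) * svw r α k.1 x := by
  unfold poly
  refine Finset.sum_congr rfl fun k _ => ?_
  have h1 : ((Mact r α a (k, 0) : ℂ) + (Mact r α a (k, 1) : ℂ) * Complex.I) =
      Fh r α k.1 * ((a (k, 0) : ℂ) + (a (k, 1) : ℂ) * Complex.I) := by
    unfold Mact
    simp only [if_true, Fin.isValue, one_ne_zero, if_false]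
    exact Complex.re_add_im _
  rw [h1]
  unfold svw
  ring

theorem sv_wnorm {d n : ℕ} (r : ℝ) (hr : 0 < r) (α : Fin d → ℝ) (k : Fin d → ℤ)
    (hk : k ∈ layer d n) (x : Fin d → ℝ) :
    ‖svw r α k x‖ ≤ (2:ℝ)^(r * d) * (2:ℝ)^(-(r * n)) := by
  unfold svw
  rw [norm_mul]
  have h4 : ‖Complex.exp (Complex.I * ((∑ j, (k j : ℝ) * x j : ℝ) : ℂ))‖ = 1 := by
    rw [mul_comm, Complex.norm_exp_ofReal_mul_I]
  rw [h4, mul_one]
  exact sv_Fh d n r hr α k hk

/-- rounding to the grid -/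
theorem sv_round (G : ℕ) (hG : 0 < G) (t : ℝ) : ∃ (g : Fin G) (q : ℤ),
    |t - 2 * π * ((g : ℕ) : ℝ) / G - 2 * π * q| ≤ 2 * π / G := by
  have hGr : (0:ℝ) < G := by exact_mod_cast hG
  have hGz : (0:ℤ) < G := by exact_mod_cast hG
  obtain ⟨m, hm⟩ : ∃ m : ℤ, m = ⌊t / (2 * π) * G⌋ := ⟨_, rfl⟩
  have h0 := Int.emod_nonneg m hGz.ne'
  have h1 := Int.emod_lt_of_pos m hGz
  have h2 := Int.emod_add_mul_ediv m G
  refine ⟨⟨(m % G).toNat, by omega⟩, m / G, ?_⟩
  have h3 : (((m % G).toNat : ℕ) : ℝ) = ((m % G : ℤ) : ℝ) := by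
    have : (((m % G).toNat : ℕ) : ℤ) = m % G := Int.toNat_of_nonneg h0
    exact_mod_cast congrArg (fun z : ℤ => (z : ℝ)) this
  have h4 : ((m % G : ℤ) : ℝ) + (G : ℝ) * ((m / G : ℤ) : ℝ) = (m : ℝ) := by
    exact_mod_cast congrArg (fun z : ℤ => (z : ℝ)) h2
  have h5 : (m : ℝ) ≤ t / (2 * π) * G := by rw [hm]; exact Int.floor_le _
  have h6 : t / (2 * π) * G < m + 1 := by rw [hm]; exact Int.lt_floor_add_one _
  have hpi := Real.pi_pos
  simp only [h3]
  have h7 : t - 2 * π * ((m % G : ℤ) : ℝ) / G - 2 * π * ((m / G : ℤ) : ℝ) =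
      2 * π / G * (t / (2 * π) * G - m) := by
    rw [← h4]
    field_simp
    ring
  rw [h7, abs_of_nonneg (mul_nonneg (by positivity) (by linarith))]
  exact mul_le_of_le_one_right (by positivity) (by linarith)

theorem sv_lay_abs {d n : ℕ} (k : Fin d → ℤ) (hk : k ∈ layer d n) (j : Fin d) :
    |(k j : ℝ)| ≤ (2:ℝ)^n := by
  classical
  unfold layer at hk
  rw [Finset.mem_filter, Fintype.mem_piFinset] at hk
  have h1 := Finset.mem_Ioo.1 (hk.1 j)
  rw [abs_le]
  constructor
  · have := h1.1.le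
    exact_mod_cast this
  · have := h1.2.le
    exact_mod_cast this

theorem sv_card {d n : ℕ} : (layer d n).card ≤ 2 ^ ((n + 1) * d) := by
  classical
  unfold layer
  refine (Finset.card_filter_le _ _).trans ?_
  rw [Fintype.card_piFinset]
  simp only [Int.card_Ioo, Finset.prod_const, Finset.card_univ, Fintype.card_fin]
  rw [pow_mul]
  apply Nat.pow_le_pow_left
  have : ((2:ℤ)^n - -(2:ℤ)^n - 1).toNat ≤ 2 ^ (n + 1) := by
    rw [Int.toNat_le]
    push_cast
    rw [pow_succ]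
    linarith
  exact this

theorem sv_diff {d n : ℕ} (r : ℝ) (hr : 0 < r) (α : Fin d → ℝ) (k : Fin d → ℤ)
    (hk : k ∈ layer d n) (x y : Fin d → ℝ) (q : Fin d → ℤ) (e : ℝ)
    (he : ∀ j, |x j - y j - 2 * π * q j| ≤ e) :
    ‖svw r α k x - svw r α k y‖ ≤ ((2:ℝ)^(r * d) * (2:ℝ)^(-(r * n))) * (d * 2^n * e) := by
  unfold svw
  rw [← mul_sub, norm_mul]
  have h1 := sv_Fh d n r hr α k hk
  have h2 : ‖Complex.exp (Complex.I * ((∑ j, (k j : ℝ) * x j : ℝ) : ℂ)) -
      Complex.exp (Complex.I * ((∑ j, (k j : ℝ) * y j : ℝ) : ℂ))‖ ≤ d * 2^n * e := by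
    refine (sv_exp _ _ (∑ j, k j * q j)).trans ?_
    have h3 : (∑ j, (k j : ℝ) * x j) - (∑ j, (k j : ℝ) * y j) -
        2 * π * ((∑ j, k j * q j : ℤ) : ℝ) = ∑ j, (k j : ℝ) * (x j - y j - 2 * π * q j) := by
      push_cast
      rw [Finset.mul_sum, ← Finset.sum_sub_distrib, ← Finset.sum_sub_distrib]
      refine Finset.sum_congr rfl fun j _ => ?_
      ring
    rw [h3]
    refine (Finset.abs_sum_le_sum_abs _ _).trans ?_
    calc ∑ j, |(k j : ℝ) * (x j - y j - 2 * π * q j)| ≤ ∑ _j : Fin d, (2:ℝ)^n * e := by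
          apply Finset.sum_le_sum
          intro j _
          rw [abs_mul]
          exact mul_le_mul (sv_lay_abs k hk j) (he j) (abs_nonneg _) (by positivity)
      _ = d * 2^n * e := by
          rw [Finset.sum_const, Finset.card_univ, Fintype.card_fin, nsmul_eq_mul]
          ring
  exact mul_le_mul h1 h2 (norm_nonneg _) (by positivity)

theorem sv_num (d n L : ℕ) (hn : 1 ≤ n) (hL : L ≤ 2 ^ ((n + 1) * d)) :
    L * d * 2 ^ n ≤ 2 ^ ((3 * d + 2) * n) := by
  have hd : d ≤ 2 ^ d := Nat.lt_two_pow_self.le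
  calc L * d * 2 ^ n ≤ 2 ^ ((n + 1) * d) * 2 ^ d * 2 ^ n :=
        Nat.mul_le_mul_right _ (Nat.mul_le_mul hL hd)
    _ = 2 ^ ((n + 1) * d + d + n) := by rw [pow_add, pow_add]
    _ ≤ 2 ^ ((3 * d + 2) * n) := by
        apply Nat.pow_le_pow_right (by norm_num)
        nlinarith [Nat.mul_le_mul_left d hn]

theorem sv_log (d n : ℕ) (hn : 1 ≤ n) :
    Real.log (8 * ((((2:ℝ) ^ ((3 * d + 2) * n)) ^ d) * 2)) ≤ (4 + (3 * d + 2) * d) * n := by
  have h1 : (8:ℝ) * ((((2:ℝ) ^ ((3 * d + 2) * n)) ^ d) * 2) = 2 ^ (4 + (3 * d + 2) * n * d) := by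
    rw [← pow_mul, pow_add]
    norm_num
    ring
  rw [h1, Real.log_pow]
  have h2 : Real.log 2 ≤ 1 := by
    have := Real.log_two_lt_d9
    linarith
  have h3 : (0:ℝ) ≤ ((4 + (3 * d + 2) * n * d : ℕ) : ℝ) := Nat.cast_nonneg _
  have h4 : ((4 + (3 * d + 2) * n * d : ℕ) : ℝ) ≤ (4 + (3 * d + 2) * d) * n := by
    push_cast
    have : (1:ℝ) ≤ n := by exact_mod_cast hn
    nlinarith
  calc _ ≤ ((4 + (3 * d + 2) * n * d : ℕ) : ℝ) * 1 := mul_le_mul_of_nonneg_left h2 h3
    _ ≤ _ := by rw [mul_one]; exact h4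

theorem sup_vol (d : ℕ) (hd : 1 ≤ d) (r : ℝ) (hr : 0 < r) (α : Fin d → ℝ) : ∃ C : ℝ, 0 < C ∧ ∀ n : ℕ, 1 ≤ n →
    volume {a : (layer d n) × Fin 2 → ℝ | (∀ i, |a i| ≤ 1) ∧
      ¬ ∀ x : Fin d → ℝ, ‖poly (Mact r α a) x‖
        ≤ C * (2:ℝ)^(-(r * n)) * Real.sqrt (n * (layer d n).card)}
      ≤ ENNReal.ofReal (2^(2 * (layer d n).card) / 4) := by
  classical
  obtain ⟨A, hA⟩ : ∃ A : ℝ, A = 4 + (3 * d + 2) * d := ⟨_, rfl⟩
  have hA0 : 0 < A := by rw [hA]; positivity
  refine ⟨(2:ℝ)^(r*d) * (2 * √(2 * A) + 4 * π), by positivity, ?_⟩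
  intro n hn
  obtain ⟨L, hL⟩ : ∃ L, L = (layer d n).card := ⟨_, rfl⟩
  rcases Nat.eq_zero_or_pos L with hL0 | hL1
  · have hempty : layer d n = ∅ := Finset.card_eq_zero.1 (by omega)
    haveI : IsEmpty (layer d n) := Finset.isEmpty_coe_sort.2 hempty
    have hset : {a : (layer d n) × Fin 2 → ℝ | (∀ i, |a i| ≤ 1) ∧
      ¬ ∀ x : Fin d → ℝ, ‖poly (Mact r α a) x‖
        ≤ ((2:ℝ)^(r*d) * (2 * √(2 * A) + 4 * π)) * (2:ℝ)^(-(r * n)) *
          Real.sqrt (n * (layer d n).card)} = ∅ := by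
      rw [Set.eq_empty_iff_forall_notMem]
      rintro a ⟨_, ha⟩
      apply ha
      intro x
      have h0 : poly (Mact r α a) x = 0 := by
        unfold poly
        rw [Finset.univ_eq_empty, Finset.sum_empty]
      rw [h0, norm_zero]
      positivity
    rw [hset, measure_empty]
    exact zero_le
  · obtain ⟨G, hG⟩ : ∃ G : ℕ, G = 2 ^ ((3 * d + 2) * n) := ⟨_, rfl⟩
    have hG0 : 0 < G := by rw [hG]; positivity
    obtain ⟨B, hB⟩ : ∃ B : ℝ, B = (2:ℝ)^(r * d) * (2:ℝ)^(-(r * n)) := ⟨_, rfl⟩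
    have hB0 : 0 < B := by rw [hB]; positivity
    have hLr : (1:ℝ) ≤ L := by exact_mod_cast hL1
    have hnr : (1:ℝ) ≤ n := by exact_mod_cast hn
    have hM : (0:ℝ) < L * B ^ 2 := by positivity
    haveI : Nonempty (Fin G) := ⟨⟨0, hG0⟩⟩
    obtain ⟨pt, hpt⟩ : ∃ pt : (Fin d → Fin G) → (Fin d → ℝ),
        pt = fun g j => 2 * π * ((g j : ℕ) : ℝ) / G := ⟨_, rfl⟩
    obtain ⟨bb, hbbdef⟩ : ∃ bb : (layer d n × Fin 2) → ((Fin d → Fin G) × Fin 2) → ℝ,
        bb = fun i p => if p.2 = 0 then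
          (if i.2 = 0 then (svw r α i.1.1 (pt p.1)).re else -(svw r α i.1.1 (pt p.1)).im)
          else (if i.2 = 0 then (svw r α i.1.1 (pt p.1)).im else (svw r α i.1.1 (pt p.1)).re) :=
      ⟨_, rfl⟩
    have hbb : ∀ p, ∑ i, bb i p ^ 2 ≤ L * B ^ 2 := by
      intro p
      rw [Fintype.sum_prod_type]
      calc ∑ k : layer d n, ∑ c : Fin 2, bb (k, c) p ^ 2 ≤ ∑ _k : layer d n, B ^ 2 := by
            apply Finset.sum_le_sum
            intro k _
            rw [Fin.sum_univ_two]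
            have h1 := sv_wnorm r hr α k.1 k.2 (pt p.1)
            rw [← hB] at h1
            have h2 : ‖svw r α k.1 (pt p.1)‖ ^ 2 ≤ B ^ 2 :=
              pow_le_pow_left₀ (norm_nonneg _) h1 2
            rw [Complex.sq_norm, Complex.normSq_apply] at h2
            have h3 : bb (k, 0) p ^ 2 + bb (k, 1) p ^ 2 =
                (svw r α k.1 (pt p.1)).re * (svw r α k.1 (pt p.1)).re +
                (svw r α k.1 (pt p.1)).im * (svw r α k.1 (pt p.1)).im := by
              rw [hbbdef]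
              by_cases hp : p.2 = 0
              · simp only [hp, if_true, Fin.isValue, one_ne_zero, if_false]
                ring
              · simp only [hp, if_true, Fin.isValue, one_ne_zero, if_false]
                ring
            rw [h3]
            exact h2
        _ = L * B ^ 2 := by
            rw [Finset.sum_const, Finset.card_univ, Fintype.card_coe, ← hL, nsmul_eq_mul]
    have hv := rand_vol2 bb (L * B ^ 2) hM hbb
    refine (measure_mono ?_).trans (hv.trans (le_of_eq ?_))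
    · rintro a ⟨ha1, ha2⟩
      refine ⟨ha1, fun hall => ha2 ?_⟩
      intro x
      choose g q hgq using fun j => sv_round G hG0 (x j)
      have hGr : (0:ℝ) < G := by exact_mod_cast hG0
      have hdiff : ‖poly (Mact r α a) x - poly (Mact r α a) (pt g)‖ ≤
          L * (2 * (B * (d * 2^n * (2 * π / G)))) := by
        rw [sv_poly, sv_poly, ← Finset.sum_sub_distrib]
        refine (norm_sum_le _ _).trans ?_
        calc ∑ k : layer d n, ‖((a (k, 0) : ℂ) + (a (k, 1) : ℂ) * Complex.I) * svw r α k.1 x -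
              ((a (k, 0) : ℂ) + (a (k, 1) : ℂ) * Complex.I) * svw r α k.1 (pt g)‖
            ≤ ∑ _k : layer d n, 2 * (B * (d * 2^n * (2 * π / G))) := by
              apply Finset.sum_le_sum
              intro k _
              rw [← mul_sub, norm_mul]
              have h1 : ‖((a (k, 0) : ℂ) + (a (k, 1) : ℂ) * Complex.I)‖ ≤ 2 := by
                refine (norm_add_le _ _).trans ?_
                rw [norm_mul, Complex.norm_I, mul_one, Complex.norm_real, Complex.norm_real,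
                  Real.norm_eq_abs, Real.norm_eq_abs]
                linarith [ha1 (k, 0), ha1 (k, 1)]
              have h2 := sv_diff r hr α k.1 k.2 x (pt g) q (2 * π / G) (by
                intro j
                rw [hpt]
                exact hgq j)
              rw [← hB] at h2
              exact mul_le_mul h1 h2 (norm_nonneg _) (by norm_num)
          _ = L * (2 * (B * (d * 2^n * (2 * π / G)))) := by
              rw [Finset.sum_const, Finset.card_univ, Fintype.card_coe, ← hL, nsmul_eq_mul]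
      obtain ⟨S, hS⟩ : ∃ S : ℝ, S = √(n * L) := ⟨_, rfl⟩
      have hS1 : 1 ≤ S := by
        rw [hS]
        apply Real.one_le_sqrt.2
        nlinarith
      have herr : L * (2 * (B * (d * 2^n * (2 * π / G)))) ≤ B * (4 * π) * S := by
        have h1 : ((L * d * 2 ^ n : ℕ) : ℝ) ≤ (G : ℝ) := by
          have := sv_num d n L hn (by rw [hL]; exact sv_card)
          rw [← hG] at this
          exact_mod_cast this
        push_cast at h1
        have h2 : (L : ℝ) * (2 * (B * (d * 2^n * (2 * π / G)))) =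
            B * (4 * π) * ((L * d * 2^n) / G) := by
          field_simp
          ring
        rw [h2]
        have h3 : ((L : ℝ) * d * 2^n) / G ≤ 1 := by rw [div_le_one hGr]; exact h1
        exact mul_le_mul_of_nonneg_left (h3.trans hS1) (by positivity)
      have hT : √(2 * (L * B ^ 2) *
          Real.log (8 * Fintype.card ((Fin d → Fin G) × Fin 2))) ≤ B * √(2 * A) * S := by
        have hlog : Real.log (8 * Fintype.card ((Fin d → Fin G) × Fin 2)) ≤ A * n := by
          rw [Fintype.card_prod, Fintype.card_fun, Fintype.card_fin, Fintype.card_fin,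
            Fintype.card_fin, hA, hG]
          push_cast
          exact sv_log d n hn
        apply Real.sqrt_le_iff.2
        refine ⟨by positivity, ?_⟩
        have h1 : (B * √(2 * A) * S) ^ 2 = B ^ 2 * (2 * A) * (n * L) := by
          rw [hS, mul_pow, mul_pow, Real.sq_sqrt (by positivity), Real.sq_sqrt (by positivity)]
        rw [h1]
        have h2 := mul_le_mul_of_nonneg_left hlog (show 0 ≤ 2 * (L * B ^ 2) by positivity)
        refine h2.trans (le_of_eq ?_)
        ring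
      have hre : (poly (Mact r α a) (pt g)).re = ∑ i, a i * bb i (g, 0) := by
        rw [sv_poly, Complex.re_sum, Fintype.sum_prod_type]
        refine Finset.sum_congr rfl fun k _ => ?_
        rw [Fin.sum_univ_two, hbbdef]
        simp only [if_true, Fin.isValue, one_ne_zero, if_false]
        simp
        ring
      have him : (poly (Mact r α a) (pt g)).im = ∑ i, a i * bb i (g, 1) := by
        rw [sv_poly, Complex.im_sum, Fintype.sum_prod_type]
        refine Finset.sum_congr rfl fun k _ => ?_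
        rw [Fin.sum_univ_two, hbbdef]
        simp only [if_true, Fin.isValue, one_ne_zero, if_false]
        simp
      have hy : ‖poly (Mact r α a) (pt g)‖ ≤ 2 * (B * √(2 * A) * S) := by
        refine (Complex.norm_le_abs_re_add_abs_im _).trans ?_
        rw [hre, him]
        have h1 := (hall (g, 0)).trans hT
        have h2 := (hall (g, 1)).trans hT
        linarith
      have htri : ‖poly (Mact r α a) x‖ ≤ ‖poly (Mact r α a) (pt g)‖ +
          ‖poly (Mact r α a) x - poly (Mact r α a) (pt g)‖ := by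
        have := norm_add_le (poly (Mact r α a) (pt g))
          (poly (Mact r α a) x - poly (Mact r α a) (pt g))
        rwa [add_sub_cancel] at this
      rw [← hL, ← hS]
      have hfin : (2:ℝ)^(r*d) * (2 * √(2 * A) + 4 * π) * (2:ℝ)^(-(r * n)) * S =
          2 * (B * √(2 * A) * S) + B * (4 * π) * S := by
        rw [hB]; ring
      rw [hfin]
      linarith
    · rw [Fintype.card_prod, Fintype.card_coe, Fintype.card_fin, mul_comm]


end Sol_sup_vol

alias sup_vol := Sol_sup_vol.sup_vol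

end HypVol
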