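import Pool.Agent.HypVol.DefsW
import Pool.Agent.HypVol.L_card_layer
import Pool.Agent.HypVol.L_shp_lower
import Pool.Agent.HypVol.L_shp_upper
import Pool.Agent.HypVol.L_vol_upper
import Pool.Agent.HypVol.L_Lq_vol
import Pool.Agent.HypVol.L_conv_poly
import Pool.Agent.HypVol.L_Mact_vol
import Pool.Agent.HypVol.L_ess_sup
import Pool.Agent.HypVol.L_sup_vol
import Pool.Agent.HypVol.L_packing
open MeasureTheory Real ProbabilityTheory
open scoped ENNReal BigOperators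

namespace HypVol
namespace Sol_width_main













theorem wm_cont {d n : ℕ} (a : (layer d n) × Fin 2 → ℝ) : Continuous (poly a) := by
  unfold poly
  fun_prop

theorem wm_poly_sub {d n : ℕ} (a b : (layer d n) × Fin 2 → ℝ) (x : Fin d → ℝ) :
    poly (a - b) x = poly a x - poly b x := by
  unfold poly
  rw [← Finset.sum_sub_distrib]
  refine Finset.sum_congr rfl fun k _ => ?_
  simp only [Pi.sub_apply]
  push_cast
  ring

theorem wm_poly_smul {d n : ℕ} (c : ℝ) (a : (layer d n) × Fin 2 → ℝ) (x : Fin d → ℝ) :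
    poly (c • a) x = (c : ℂ) * poly a x := by
  unfold poly
  rw [Finset.mul_sum]
  refine Finset.sum_congr rfl fun k _ => ?_
  simp only [Pi.smul_apply, smul_eq_mul]
  push_cast
  ring

theorem wm_Mact_sub {d n : ℕ} (r : ℝ) (α : Fin d → ℝ) (a b : (layer d n) × Fin 2 → ℝ) :
    Mact r α (a - b) = Mact r α a - Mact r α b := by
  funext i
  have e : Fh r α i.1.1 * (((a - b) (i.1, 0) : ℂ) + ((a - b) (i.1, 1) : ℂ) * Complex.I) =
      Fh r α i.1.1 * ((a (i.1, 0) : ℂ) + (a (i.1, 1) : ℂ) * Complex.I) -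
      Fh r α i.1.1 * ((b (i.1, 0) : ℂ) + (b (i.1, 1) : ℂ) * Complex.I) := by
    simp only [Pi.sub_apply]
    push_cast
    ring
  rw [Pi.sub_apply]
  unfold Mact
  rw [e]
  split_ifs
  · rw [Complex.sub_re]
  · rw [Complex.sub_im]

theorem wm_Mact_smul {d n : ℕ} (r : ℝ) (α : Fin d → ℝ) (c : ℝ) (a : (layer d n) × Fin 2 → ℝ) :
    Mact r α (c • a) = c • Mact r α a := by
  funext i
  have e : Fh r α i.1.1 * (((c • a) (i.1, 0) : ℂ) + ((c • a) (i.1, 1) : ℂ) * Complex.I) =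
      (c : ℂ) * (Fh r α i.1.1 * ((a (i.1, 0) : ℂ) + (a (i.1, 1) : ℂ) * Complex.I)) := by
    simp only [Pi.smul_apply, smul_eq_mul]
    push_cast
    ring
  rw [Pi.smul_apply, smul_eq_mul]
  unfold Mact
  rw [e]
  split_ifs
  · rw [Complex.re_ofReal_mul]
  · rw [Complex.im_ofReal_mul]

theorem wm_pack (V : Type) [NormedAddCommGroup V] [NormedSpace ℂ V] [FiniteDimensional ℂ V]
    (m : ℕ) (hm : Module.finrank ℂ V ≤ m) (s : Finset V) (ρ δ : ℝ) (hρ : 0 ≤ ρ) (hδ : 0 < δ)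
    (h1 : ∀ x ∈ s, ‖x‖ ≤ ρ) (h2 : ∀ x ∈ s, ∀ y ∈ s, x ≠ y → δ ≤ ‖x - y‖) :
    (s.card : ℝ) ≤ (1 + 2 * ρ / δ) ^ (2 * m) := by
  haveI : FiniteDimensional ℝ V := FiniteDimensional.complexToReal V
  have h := packing (E := V) s ρ δ hρ hδ h1 h2
  rw [finrank_real_of_complex] at h
  refine h.trans (pow_le_pow_right₀ ?_ (by omega))
  have : 0 ≤ 2 * ρ / δ := by positivity
  linarith

theorem wm_max (V : Type) [NormedAddCommGroup V] [NormedSpace ℂ V] [FiniteDimensional ℂ V]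
    (m : ℕ) (hm : Module.finrank ℂ V ≤ m) (B : Set V) (ρ δ : ℝ) (hρ : 0 ≤ ρ) (hδ : 0 < δ)
    (hB : ∀ x ∈ B, ‖x‖ ≤ ρ) :
    ∃ s : Finset V, (∀ x ∈ s, x ∈ B) ∧ (s.card : ℝ) ≤ (1 + 2 * ρ / δ) ^ (2 * m) ∧
      ∀ x ∈ B, ∃ y ∈ s, ‖x - y‖ < δ := by
  classical
  by_contra hcon
  push Not at hcon
  have key : ∀ k : ℕ, ∃ s : Finset V, (∀ x ∈ s, x ∈ B) ∧
      (∀ x ∈ s, ∀ y ∈ s, x ≠ y → δ ≤ ‖x - y‖) ∧ s.card = k := by
    intro k
    induction k with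
    | zero => exact ⟨∅, by simp, by simp, by simp⟩
    | succ k ih =>
      obtain ⟨s, h1, h2, h3⟩ := ih
      obtain ⟨x, hx, hx'⟩ := hcon s h1 (wm_pack V m hm s ρ δ hρ hδ (fun x hx => hB x (h1 x hx)) h2)
      have hxs : x ∉ s := by
        intro h
        have := hx' x h
        rw [sub_self, norm_zero] at this
        linarith
      refine ⟨insert x s, ?_, ?_, ?_⟩
      · intro y hy
        rcases Finset.mem_insert.1 hy with rfl | hy
        · exact hx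
        · exact h1 y hy
      · intro y hy z hz hyz
        rcases Finset.mem_insert.1 hy with hyx | hy1
        · rcases Finset.mem_insert.1 hz with hzx | hz1
          · exact absurd (hyx.trans hzx.symm) hyz
          · rw [hyx]
            exact hx' z hz1
        · rcases Finset.mem_insert.1 hz with hzx | hz1
          · rw [norm_sub_rev, hzx]
            exact hx' y hy1
          · exact h2 y hy1 z hz1 hyz
      · rw [Finset.card_insert_of_notMem hxs, h3]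
  obtain ⟨k, hk⟩ := exists_nat_gt ((1 + 2 * ρ / δ) ^ (2 * m))
  obtain ⟨s, h1, h2, h3⟩ := key k
  have := wm_pack V m hm s ρ δ hρ hδ (fun x hx => hB x (h1 x hx)) h2
  rw [h3] at this
  linarith

theorem wm_net {X ι : Type} [MeasurableSpace X] (μ : Measure X) (A : Set ι) (F : ι → X → ℂ)
    (hm : ∀ a, AEStronglyMeasurable (F a) μ) (R δ : ℝ) (hR : 0 ≤ R) (hδ : 0 < δ)
    (hb : ∀ a ∈ A, eLpNorm (F a) ⊤ μ ≤ ENNReal.ofReal R)
    (U : Submodule ℂ (X → ℂ)) (hU : Module.Finite ℂ U) (m : ℕ) (hUm : Module.finrank ℂ U ≤ m)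
    (hUL : ∀ u ∈ U, MemLp u ⊤ μ)
    (hap : ∀ a ∈ A, ∃ u ∈ U, eLpNorm (fun x => F a x - u x) ⊤ μ ≤ ENNReal.ofReal δ) :
    ∃ s : Finset ι, (s.card : ℝ) ≤ (1 + 2 * (R + δ) / (2 * δ)) ^ (2 * m) ∧
      ∀ a ∈ A, ∃ b ∈ s, eLpNorm (fun x => F a x - F b x) ⊤ μ ≤ ENNReal.ofReal (4 * δ) := by
  classical
  let T : U →ₗ[ℂ] Lp ℂ ⊤ μ :=
    { toFun := fun u => (hUL u.1 u.2).toLp u.1
      map_add' := fun u v => MemLp.toLp_add (hUL u.1 u.2) (hUL v.1 v.2)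
      map_smul' := fun c u => MemLp.toLp_const_smul c (hUL u.1 u.2) }
  have hT : ∀ u : U, ‖T u‖ = (eLpNorm u.1 ⊤ μ).toReal := fun u =>
    Lp.norm_toLp u.1 (hUL u.1 u.2)
  have hTsub : ∀ u v : U, ‖T u - T v‖ = (eLpNorm (u.1 - v.1) ⊤ μ).toReal := by
    intro u v
    rw [← map_sub, hT]
    rfl
  haveI : FiniteDimensional ℂ (LinearMap.range T) := inferInstance
  have hrank : Module.finrank ℂ (LinearMap.range T) ≤ m := (LinearMap.finrank_range_le T).trans hUm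
  choose! u hu hu' using hap
  let B : Set (LinearMap.range T) := {y | ∃ a, ∃ ha : a ∈ A, (y : Lp ℂ ⊤ μ) = T ⟨u a, hu a ha⟩}
  have hBn : ∀ y ∈ B, ‖y‖ ≤ R + δ := by
    rintro y ⟨a, ha, hy⟩
    have e1 : ‖y‖ = (eLpNorm (u a) ⊤ μ).toReal := by
      change ‖(y : Lp ℂ ⊤ μ)‖ = _
      rw [hy, hT]
    rw [e1]
    have hum : AEStronglyMeasurable (u a) μ := (hUL _ (hu a ha)).1
    have h1 : eLpNorm (u a) ⊤ μ ≤ ENNReal.ofReal R + ENNReal.ofReal δ := by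
      have e2 : u a = F a - (F a - u a) := by
        funext x
        simp
      calc eLpNorm (u a) ⊤ μ = eLpNorm (F a - (F a - u a)) ⊤ μ := by rw [← e2]
        _ ≤ eLpNorm (F a) ⊤ μ + eLpNorm (F a - u a) ⊤ μ :=
          eLpNorm_sub_le (hm a) ((hm a).sub hum) le_top
        _ ≤ _ := add_le_add (hb a ha) (hu' a ha)
    rw [← ENNReal.ofReal_add hR hδ.le] at h1
    exact ENNReal.toReal_le_of_le_ofReal (by linarith) h1
  obtain ⟨s, hs1, hs2, hs3⟩ := wm_max (LinearMap.range T) m hrank B (R + δ) (2 * δ)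
    (by linarith) (by linarith) hBn
  choose g hg using fun y : {y // y ∈ s} => hs1 y.1 y.2
  refine ⟨s.attach.image g, ?_, ?_⟩
  · refine le_trans ?_ hs2
    have h1 : (s.attach.image g).card ≤ s.card := by
      refine Finset.card_image_le.trans ?_
      rw [Finset.card_attach]
    exact_mod_cast h1
  · intro a ha
    obtain ⟨y, hy, hya⟩ := hs3 ⟨T ⟨u a, hu a ha⟩, LinearMap.mem_range_self _ _⟩ ⟨a, ha, rfl⟩
    obtain ⟨hb', hyb⟩ := hg ⟨y, hy⟩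
    refine ⟨g ⟨y, hy⟩, Finset.mem_image_of_mem g (Finset.mem_attach _ _), ?_⟩
    generalize hgy : g ⟨y, hy⟩ = b at hb' hyb ⊢
    have hum : AEStronglyMeasurable (u a) μ := (hUL _ (hu a ha)).1
    have hum' : AEStronglyMeasurable (u b) μ := (hUL _ (hu _ hb')).1
    have h1 : ‖T ⟨u a, hu a ha⟩ - T ⟨u b, hu _ hb'⟩‖ < 2 * δ := by
      have h2 : ‖(T ⟨u a, hu a ha⟩ : Lp ℂ ⊤ μ) - (y : Lp ℂ ⊤ μ)‖ < 2 * δ := hya
      rw [hyb] at h2
      exact h2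
    rw [hTsub] at h1
    have hfin : eLpNorm (u a - u b) ⊤ μ ≠ ⊤ :=
      ((hUL _ (hu a ha)).sub (hUL _ (hu _ hb'))).2.ne
    have h3 : eLpNorm (u a - u b) ⊤ μ ≤ ENNReal.ofReal (2 * δ) :=
      (ENNReal.le_ofReal_iff_toReal_le hfin (by linarith)).2 h1.le
    have h4 : eLpNorm (F b - u b) ⊤ μ ≤ ENNReal.ofReal δ := hu' _ hb'
    have h5 : eLpNorm (F a - u a) ⊤ μ ≤ ENNReal.ofReal δ := hu' a ha
    have e : (fun x => F a x - F b x) =
        ((F a - u a) + (u a - u b)) - (F b - u b) := by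
      funext x
      simp
    rw [e]
    calc eLpNorm (((F a - u a) + (u a - u b)) - (F b - u b)) ⊤ μ
        ≤ eLpNorm ((F a - u a) + (u a - u b)) ⊤ μ + eLpNorm (F b - u b) ⊤ μ :=
          eLpNorm_sub_le (((hm a).sub hum).add (hum.sub hum')) ((hm _).sub hum') le_top
      _ ≤ (eLpNorm (F a - u a) ⊤ μ + eLpNorm (u a - u b) ⊤ μ) +
          eLpNorm (F b - u b) ⊤ μ := by
          gcongr
          exact eLpNorm_add_le ((hm a).sub hum) (hum.sub hum') le_top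
      _ ≤ (ENNReal.ofReal δ + ENNReal.ofReal (2 * δ)) + ENNReal.ofReal δ :=
          add_le_add (add_le_add h5 h3) h4
      _ = ENNReal.ofReal (4 * δ) := by
          rw [← ENNReal.ofReal_add hδ.le (by linarith), ← ENNReal.ofReal_add (by linarith) hδ.le]
          congr 1
          ring

open scoped Pointwise in
theorem wm_clvol {d n : ℕ} (r : ℝ) (hr : 0 < r) (α : Fin d → ℝ) (B : ℝ) (hB : 0 < B)
    (hvol : volume (ball d n) ≤ ENNReal.ofReal (B ^ (2 * (layer d n).card))) (t : ℝ)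
    (ht : 0 < t) :
    volume {a : (layer d n) × Fin 2 → ℝ | ∀ x, ‖poly (Mact r α a) x‖ ≤ t} ≤
      ENNReal.ofReal (((2 : ℝ) ^ (r * n) * t * B) ^ (2 * (layer d n).card)) := by
  have e1 : {a : (layer d n) × Fin 2 → ℝ | ∀ x, ‖poly (Mact r α a) x‖ ≤ t} =
      (Mact r α) ⁻¹' (t • ball d n) := by
    ext a
    rw [Set.mem_preimage, Set.mem_smul_set_iff_inv_smul_mem₀ ht.ne']
    change (∀ x, ‖poly (Mact r α a) x‖ ≤ t) ↔ (∀ x, ‖poly (t⁻¹ • Mact r α a) x‖ ≤ 1)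
    refine forall_congr' fun x => ?_
    rw [wm_poly_smul, norm_mul, Complex.norm_real, Real.norm_eq_abs, abs_of_pos (inv_pos.2 ht),
      inv_mul_le_iff₀ ht, mul_one]
  rw [e1]
  refine (Mact_vol r hr α _).trans ?_
  rw [Measure.addHaar_smul, Module.finrank_fintype_fun_eq_card, Fintype.card_prod,
    Fintype.card_coe, Fintype.card_fin, mul_comm (layer d n).card 2]
  have h2 : (0 : ℝ) < (2 : ℝ) ^ (r * n) := by positivity
  rw [abs_of_pos (by positivity)]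
  calc ENNReal.ofReal (((2 : ℝ) ^ (r * n)) ^ (2 * (layer d n).card)) *
        (ENNReal.ofReal (t ^ (2 * (layer d n).card)) * volume (ball d n))
      ≤ ENNReal.ofReal (((2 : ℝ) ^ (r * n)) ^ (2 * (layer d n).card)) *
        (ENNReal.ofReal (t ^ (2 * (layer d n).card)) *
          ENNReal.ofReal (B ^ (2 * (layer d n).card))) := by gcongr
    _ = _ := by
      rw [← ENNReal.ofReal_mul (by positivity), ← ENNReal.ofReal_mul (by positivity)]
      congr 1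
      rw [mul_pow, mul_pow]
      ring

/-- the good set -/
def wmA (d n : ℕ) (q r : ℝ) (α : Fin d → ℝ) (κ ρ : ℝ) : Set ((layer d n) × Fin 2 → ℝ) :=
  {a | eLpNorm (poly a) (ENNReal.ofReal q) (TP d) ≤ ENNReal.ofReal κ ∧
    ∀ x, ‖poly (Mact r α a) x‖ ≤ ρ}

theorem wm_Avol {d n : ℕ} (q r : ℝ) (α : Fin d → ℝ) (κ ρ : ℝ)
    (h1 : ENNReal.ofReal (2 ^ (2 * (layer d n).card) / 2) ≤
      volume {a : (layer d n) × Fin 2 → ℝ | (∀ i, |a i| ≤ 1) ∧
        eLpNorm (poly a) (ENNReal.ofReal q) (TP d) ≤ ENNReal.ofReal κ})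
    (h2 : volume {a : (layer d n) × Fin 2 → ℝ | (∀ i, |a i| ≤ 1) ∧
      ¬ ∀ x : Fin d → ℝ, ‖poly (Mact r α a) x‖ ≤ ρ} ≤
        ENNReal.ofReal (2 ^ (2 * (layer d n).card) / 4)) :
    ENNReal.ofReal (2 ^ (2 * (layer d n).card) / 4) ≤ volume (wmA d n q r α κ ρ) := by
  have hsub : {a : (layer d n) × Fin 2 → ℝ | (∀ i, |a i| ≤ 1) ∧
        eLpNorm (poly a) (ENNReal.ofReal q) (TP d) ≤ ENNReal.ofReal κ} ⊆
      wmA d n q r α κ ρ ∪ {a : (layer d n) × Fin 2 → ℝ | (∀ i, |a i| ≤ 1) ∧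
        ¬ ∀ x : Fin d → ℝ, ‖poly (Mact r α a) x‖ ≤ ρ} := by
    rintro a ⟨ha1, ha2⟩
    by_cases h : ∀ x : Fin d → ℝ, ‖poly (Mact r α a) x‖ ≤ ρ
    · exact Or.inl ⟨ha2, h⟩
    · exact Or.inr ⟨ha1, h⟩
  have h3 := (h1.trans (measure_mono hsub)).trans ((measure_union_le _ _).trans
    (add_le_add le_rfl h2))
  have e : (2 : ℝ) ^ (2 * (layer d n).card) / 2 =
      2 ^ (2 * (layer d n).card) / 4 + 2 ^ (2 * (layer d n).card) / 4 := by ring
  rw [e, ENNReal.ofReal_add (by positivity) (by positivity)] at h3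
  exact ENNReal.le_of_add_le_add_right ENNReal.ofReal_ne_top h3

theorem wm_mem {d n : ℕ} (q r : ℝ) (hr : 1 < r) (α : Fin d → ℝ) (κ ρ : ℝ) (hκ : 0 < κ)
    (a : (layer d n) × Fin 2 → ℝ) (ha : a ∈ wmA d n q r α κ ρ) :
    poly (Mact r α (κ⁻¹ • a)) ∈ MW ℂ d r (ENNReal.ofReal q) α := by
  have h1 : eLpNorm (poly (κ⁻¹ • a)) (ENNReal.ofReal q) (TP d) ≤ 1 := by
    have e : poly (κ⁻¹ • a) = (κ⁻¹ : ℝ) • poly a := by
      funext x
      rw [wm_poly_smul, Pi.smul_apply, Complex.real_smul]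
    rw [e, eLpNorm_const_smul]
    calc ‖κ⁻¹‖ₑ * eLpNorm (poly a) (ENNReal.ofReal q) (TP d)
        ≤ ‖κ⁻¹‖ₑ * ENNReal.ofReal κ := by gcongr; exact ha.1
      _ = 1 := by
        rw [Real.enorm_eq_ofReal (inv_pos.2 hκ).le, ← ENNReal.ofReal_mul (inv_pos.2 hκ).le,
          inv_mul_cancel₀ hκ.ne', ENNReal.ofReal_one]
  refine ⟨poly (κ⁻¹ • a), ⟨(wm_cont _).aestronglyMeasurable, h1.trans_lt ENNReal.one_lt_top⟩,
    h1, ?_⟩
  funext x
  exact (conv_poly r hr α _ x).symm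

theorem wm_num (M m J : ℕ) (hM : 1 ≤ M) (h4m : 4 * m ≤ M) (L E : ℝ) (hL : 1 ≤ L) (hE : 0 ≤ E)
    (hJ : (J : ℝ) ≤ L ^ (2 * m)) (hcov : (2 : ℝ) ^ (2 * M) / 4 ≤ J * E ^ (2 * M)) :
    1 ≤ L * E ^ 4 := by
  by_contra hcon
  push Not at hcon
  have h1 : ((2 : ℝ) ^ (2 * M) / 4) ^ 2 ≤ (J * E ^ (2 * M)) ^ 2 :=
    pow_le_pow_left₀ (by positivity) hcov 2
  have h2 : (J * E ^ (2 * M)) ^ 2 ≤ (L ^ (2 * m) * E ^ (2 * M)) ^ 2 := by
    gcongr
  have h3 : (L ^ (2 * m) * E ^ (2 * M)) ^ 2 = L ^ (4 * m) * E ^ (4 * M) := by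
    rw [mul_pow, ← pow_mul, ← pow_mul]
    congr 2 <;> ring
  have h4 : L ^ (4 * m) ≤ L ^ M := pow_le_pow_right₀ hL h4m
  have h5 : L ^ M * E ^ (4 * M) = (L * E ^ 4) ^ M := by
    rw [mul_pow, ← pow_mul]
  have h6 : (L * E ^ 4) ^ M < 1 := pow_lt_one₀ (by positivity) hcon (by omega)
  have h7 : (1 : ℝ) ≤ ((2 : ℝ) ^ (2 * M) / 4) ^ 2 := by
    have h8 : (4 : ℝ) ≤ 2 ^ (2 * M) := by
      calc (4 : ℝ) = 2 ^ (2 * 1) := by norm_num
        _ ≤ 2 ^ (2 * M) := pow_le_pow_right₀ (by norm_num) (by omega)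
    have h9 : (1 : ℝ) ≤ 2 ^ (2 * M) / 4 := by linarith
    exact one_le_pow₀ h9
  have h10 : L ^ (4 * m) * E ^ (4 * M) ≤ L ^ M * E ^ (4 * M) := by gcongr
  linarith

theorem wm_D (d n : ℕ) (hd : 1 ≤ d) (C3 : ℝ) (hC3 : 0 < C3)
    (hshp : (shp d n : ℝ) ≤ C3 * (n : ℝ) ^ (d - 1)) :
    Real.sqrt ((layer d n).card) * Real.sqrt n ≤
      Real.sqrt C3 * Real.sqrt (2 ^ n * (n : ℝ) ^ d) := by
  rw [← Real.sqrt_mul (Nat.cast_nonneg _), ← Real.sqrt_mul hC3.le]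
  refine Real.sqrt_le_sqrt ?_
  rw [card_layer]
  push_cast
  have e : (n : ℝ) ^ d = (n : ℝ) ^ (d - 1) * n := by
    rw [← pow_succ]
    congr 1
    omega
  rw [e]
  have h2 : (0 : ℝ) < 2 ^ n := by positivity
  calc (2 : ℝ) ^ n * (shp d n : ℝ) * n ≤ (2 : ℝ) ^ n * (C3 * (n : ℝ) ^ (d - 1)) * n := by gcongr
    _ = _ := by ring

theorem width_main (d : ℕ) (hd : 3 ≤ d) (q r : ℝ) (hq : 1 ≤ q) (hr : 1 < r) (α : Fin d → ℝ) :
    ∃ c : ℝ, 0 < c ∧ ∀ (n m : ℕ), 1 ≤ n → 4 * m ≤ (layer d n).card →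
      ENNReal.ofReal (c * (2:ℝ)^(-(r * n)) * Real.sqrt n)
        ≤ kolW2 m (MW ℂ d r (ENNReal.ofReal q) α) := by
  obtain ⟨C0, hC0, hLq⟩ := Lq_vol d q hq
  obtain ⟨C1, hC1, hsup⟩ := sup_vol d (by omega) r (by linarith) α
  obtain ⟨C2, hC2, hvol⟩ := vol_upper d hd
  obtain ⟨C3, hC3, hshp⟩ := shp_upper d (by omega)
  obtain ⟨c3, hc3, hshpl⟩ := shp_lower d (by omega)
  obtain ⟨C4, hC4⟩ : ∃ C4, C4 = 2 + C1 / C0 := ⟨_, rfl⟩
  obtain ⟨C5, hC5⟩ : ∃ C5, C5 = 4 * C0 * C2 * Real.sqrt C3 := ⟨_, rfl⟩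
  have hC3s : 0 < Real.sqrt C3 := Real.sqrt_pos.2 hC3
  have hC4pos : 0 < C4 := by rw [hC4]; positivity
  have hC4two : 2 ≤ C4 := by
    rw [hC4]
    have : 0 < C1 / C0 := by positivity
    linarith
  have hC5pos : 0 < C5 := by rw [hC5]; positivity
  obtain ⟨θ, hθ⟩ : ∃ θ, θ = 1 / (1 + C4 * C5 ^ 4) := ⟨_, rfl⟩
  have hW : 0 < C4 * C5 ^ 4 := by positivity
  have hθpos : 0 < θ := by rw [hθ]; positivity
  have hθ1 : θ ≤ 1 := by
    rw [hθ, div_le_one (by positivity)]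
    linarith
  have hθ2 : C4 * C5 ^ 4 * θ < 1 := by
    rw [hθ, mul_one_div, div_lt_one (by positivity)]
    linarith
  refine ⟨θ, hθpos, fun n m hn h4m => ?_⟩
  by_contra hlt
  push Not at hlt
  have hn0 : (0 : ℝ) < n := by exact_mod_cast hn
  have hMpos : 1 ≤ (layer d n).card := by
    rw [card_layer]
    have h1 : (0 : ℝ) < shp d n := lt_of_lt_of_le (by positivity) (hshpl n hn)
    have h2 : 0 < shp d n := by exact_mod_cast h1
    have h3 : 0 < 2 ^ n := Nat.two_pow_pos n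
    exact Nat.mul_pos h3 h2
  have hM0 : (0 : ℝ) < (layer d n).card := by exact_mod_cast hMpos
  have hsM : 0 < Real.sqrt ((layer d n).card) := Real.sqrt_pos.2 hM0
  have hsn : 0 < Real.sqrt n := Real.sqrt_pos.2 hn0
  obtain ⟨P, hP⟩ : ∃ P, P = (2 : ℝ) ^ (-(r * n)) := ⟨_, rfl⟩
  have hPpos : 0 < P := by rw [hP]; positivity
  have hPQ : (2 : ℝ) ^ (r * n) * P = 1 := by
    rw [hP, ← Real.rpow_add (by norm_num), add_neg_cancel, Real.rpow_zero]
  rw [← hP] at hlt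
  obtain ⟨δ, hδ⟩ : ∃ δ, δ = θ * P * Real.sqrt n := ⟨_, rfl⟩
  have hδpos : 0 < δ := by rw [hδ]; positivity
  rw [← hδ] at hlt
  obtain ⟨κ, hκ⟩ : ∃ κ, κ = C0 * Real.sqrt ((layer d n).card) := ⟨_, rfl⟩
  have hκpos : 0 < κ := by rw [hκ]; positivity
  obtain ⟨ρ, hρ⟩ : ∃ ρ, ρ = C1 * P * Real.sqrt (n * (layer d n).card) := ⟨_, rfl⟩
  have hρpos : 0 ≤ ρ := by rw [hρ]; positivity
  unfold kolW2 at hlt
  rw [iInf_lt_iff] at hlt
  obtain ⟨U, hlt⟩ := hlt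
  rw [iInf_lt_iff] at hlt
  obtain ⟨⟨hfin, hrank, hL⟩, hlt⟩ := hlt
  have hLq' := hLq n
  rw [← hκ] at hLq'
  have hsup' := hsup n hn
  rw [← hP, ← hρ] at hsup'
  have hA := wm_Avol q r α κ ρ hLq' hsup'
  have hscale : ∀ (a : (layer d n) × Fin 2 → ℝ) (x : Fin d → ℝ),
      ‖poly (Mact r α (κ⁻¹ • a)) x‖ = κ⁻¹ * ‖poly (Mact r α a) x‖ := by
    intro a x
    rw [wm_Mact_smul, wm_poly_smul, norm_mul, Complex.norm_real, Real.norm_eq_abs,
      abs_of_pos (inv_pos.2 hκpos)]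
  obtain ⟨s, hs1, hs2⟩ := wm_net (TP d) (wmA d n q r α κ ρ)
    (fun a => poly (Mact r α (κ⁻¹ • a))) (fun a => (wm_cont _).aestronglyMeasurable)
    (κ⁻¹ * ρ) δ (by positivity) hδpos (by
      intro a ha
      rw [eLpNorm_exponent_top]
      refine eLpNormEssSup_le_of_ae_bound (Filter.Eventually.of_forall fun x => ?_)
      rw [hscale]
      exact mul_le_mul_of_nonneg_left (ha.2 x) (inv_pos.2 hκpos).le) U hfin m hrank hL (by
      intro a ha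
      have hf := wm_mem q r hr α κ ρ hκpos a ha
      have h1 := (le_iSup₂ (f := fun (f : (Fin d → ℝ) → ℂ)
        (_ : f ∈ MW ℂ d r (ENNReal.ofReal q) α) =>
          ⨅ u ∈ U, eLpNorm (fun x => f x - u x) ⊤ (TP d)) _ hf).trans_lt hlt
      rw [iInf_lt_iff] at h1
      obtain ⟨u, h1⟩ := h1
      rw [iInf_lt_iff] at h1
      obtain ⟨hu, h1⟩ := h1
      exact ⟨u, hu, h1.le⟩)
  have hcover : wmA d n q r α κ ρ ⊆ ⋃ b ∈ s, (fun a => a + (-b)) ⁻¹'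
      {a : (layer d n) × Fin 2 → ℝ | ∀ x, ‖poly (Mact r α a) x‖ ≤ κ * (4 * δ)} := by
    intro a ha
    obtain ⟨b, hb, hab⟩ := hs2 a ha
    rw [Set.mem_iUnion₂]
    refine ⟨b, hb, ?_⟩
    change ∀ x, ‖poly (Mact r α (a + (-b))) x‖ ≤ κ * (4 * δ)
    intro x
    have e : (fun x => poly (Mact r α (κ⁻¹ • a)) x - poly (Mact r α (κ⁻¹ • b)) x) =
        poly (Mact r α (κ⁻¹ • (a + (-b)))) := by
      funext x
      rw [← wm_poly_sub, ← wm_Mact_sub, ← smul_sub, sub_eq_add_neg]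
    rw [e] at hab
    have h1 := ess_sup_poly _ (4 * δ) (by positivity) hab x
    rw [hscale, inv_mul_le_iff₀ hκpos] at h1
    exact h1
  obtain ⟨B, hB⟩ : ∃ B, B = C2 * (Real.sqrt (2 ^ n * (n : ℝ) ^ d))⁻¹ := ⟨_, rfl⟩
  have hSpos : 0 < Real.sqrt (2 ^ n * (n : ℝ) ^ d) := Real.sqrt_pos.2 (by positivity)
  have hBpos : 0 < B := by rw [hB]; positivity
  have hvol' := hvol n hn
  rw [← hB] at hvol'
  have hcl := wm_clvol r (by linarith) α B hBpos hvol' (κ * (4 * δ)) (by positivity)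
  have hsum : ENNReal.ofReal (2 ^ (2 * (layer d n).card) / 4) ≤
      ENNReal.ofReal (s.card * ((2 : ℝ) ^ (r * n) * (κ * (4 * δ)) * B) ^
        (2 * (layer d n).card)) := by
    refine (hA.trans (measure_mono hcover)).trans ((measure_biUnion_finset_le _ _).trans ?_)
    rw [ENNReal.ofReal_mul (Nat.cast_nonneg _), ENNReal.ofReal_natCast, ← nsmul_eq_mul,
      ← Finset.sum_const]
    refine Finset.sum_le_sum fun b _ => ?_
    rw [measure_preimage_add_right]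
    exact hcl
  rw [ENNReal.ofReal_le_ofReal_iff (by positivity)] at hsum
  have hD : (2 : ℝ) ^ (r * n) * (κ * (4 * δ)) * B ≤ C5 * θ := by
    have h1 := wm_D d n (by omega) C3 hC3 (hshp n hn)
    have e1 : (2 : ℝ) ^ (r * n) * (κ * (4 * δ)) * B =
        ((2 : ℝ) ^ (r * n) * P) * (4 * C0 * C2 * θ) *
          ((Real.sqrt ((layer d n).card) * Real.sqrt n) *
            (Real.sqrt (2 ^ n * (n : ℝ) ^ d))⁻¹) := by
      rw [hκ, hδ, hB]
      ring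
    rw [e1, hPQ, one_mul]
    have h2 : (Real.sqrt ((layer d n).card) * Real.sqrt n) *
        (Real.sqrt (2 ^ n * (n : ℝ) ^ d))⁻¹ ≤ Real.sqrt C3 := by
      rw [← div_eq_mul_inv, div_le_iff₀ hSpos]
      exact h1
    calc 4 * C0 * C2 * θ * ((Real.sqrt ((layer d n).card) * Real.sqrt n) *
        (Real.sqrt (2 ^ n * (n : ℝ) ^ d))⁻¹) ≤ 4 * C0 * C2 * θ * Real.sqrt C3 :=
          mul_le_mul_of_nonneg_left h2 (by positivity)
      _ = C5 * θ := by rw [hC5]; ring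
  have hD0 : 0 ≤ (2 : ℝ) ^ (r * n) * (κ * (4 * δ)) * B := by positivity
  have hbase : 1 + 2 * (κ⁻¹ * ρ + δ) / (2 * δ) ≤ C4 / θ := by
    have e1 : κ⁻¹ * ρ = C1 / C0 * P * Real.sqrt n := by
      rw [hκ, hρ, Real.sqrt_mul hn0.le]
      field_simp
    rw [e1]
    have e2 : 1 + 2 * (C1 / C0 * P * Real.sqrt n + δ) / (2 * δ) = 2 + C1 / C0 / θ := by
      rw [hδ]
      field_simp
      ring
    rw [e2, hC4, add_div]
    have h3 : 2 ≤ 2 / θ := by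
      rw [le_div_iff₀ hθpos]
      linarith
    linarith
  have hJ : (s.card : ℝ) ≤ (C4 / θ) ^ (2 * m) :=
    hs1.trans (pow_le_pow_left₀ (by positivity) hbase _)
  have hfinal := wm_num (layer d n).card m s.card hMpos h4m (C4 / θ) (C5 * θ)
    (by rw [le_div_iff₀ hθpos]; linarith) (by positivity) hJ
    (hsum.trans (mul_le_mul_of_nonneg_left (pow_le_pow_left₀ hD0 hD _) (Nat.cast_nonneg _)))
  have e : C4 / θ * (C5 * θ) ^ 4 = (C4 * C5 ^ 4 * θ) * θ ^ 2 := by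
    field_simp
  rw [e] at hfinal
  have h5 : θ ^ 2 ≤ 1 := pow_le_one₀ hθpos.le hθ1
  have h6 : (C4 * C5 ^ 4 * θ) * θ ^ 2 ≤ (C4 * C5 ^ 4 * θ) * 1 :=
    mul_le_mul_of_nonneg_left h5 (by positivity)
  linarith


end Sol_width_main

alias width_main := Sol_width_main.width_main

end HypVol
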