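import Pool.Agent.HypVol.Defs
import Pool.Agent.HypVol.L_card_layer
import Pool.Agent.HypVol.L_shp_lower
import Pool.Agent.HypVol.L_shp_upper
open MeasureTheory Real ProbabilityTheory
open scoped ENNReal BigOperators

namespace HypVol
namespace Sol_width_num






theorem width_num (d : ℕ) (hd : 3 ≤ d) (r c0 : ℝ) (hr : 0 < r) (hc0 : 0 < c0) : ∃ c : ℝ, 0 < c ∧
    ∀ (m : ℕ), 2 ≤ m → ∃ n : ℕ, 1 ≤ n ∧ 4 * (2 * m) ≤ (layer d n).card ∧
      2 * (c * (m:ℝ)^(-r) * (Real.log m)^(((d:ℝ)-1) * r + 1/2))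
        ≤ c0 * (2:ℝ)^(-(r * n)) * Real.sqrt n := by
  obtain ⟨c1, hc1, hlow⟩ := shp_lower d (by omega)
  obtain ⟨D, hD⟩ : ∃ D : ℕ, D = d - 1 := ⟨_, rfl⟩
  have hDr : (d : ℝ) - 1 = (D : ℝ) := by
    rw [hD, Nat.cast_sub (by omega)]; simp
  rw [← hD] at hlow
  rw [hDr]
  set K : ℝ := 2 ^ (D + 4) / c1 + 1 with hK
  set L : ℝ := |Real.log (c1 / 8)| + 1 + D with hL
  set e : ℝ := (D : ℝ) * r + 1 / 2 with he
  have hKpos : 0 < K := by positivity
  have hLpos : 0 < L := by positivity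
  have he0 : 0 ≤ e := by positivity
  refine ⟨c0 * K ^ (-r) * L ^ (-e) / 2, by positivity, ?_⟩
  intro m hm
  have hmR : (2:ℝ) ≤ m := by exact_mod_cast hm
  have hex : ∃ n : ℕ, 1 ≤ n ∧ 8 * (m : ℝ) ≤ c1 * (2 ^ n * (n:ℝ) ^ D) := by
    obtain ⟨k, hk⟩ := pow_unbounded_of_one_lt (8 * (m:ℝ) / c1) (by norm_num : (1:ℝ) < 2)
    refine ⟨k + 1, by omega, ?_⟩
    have h1 : 8 * (m:ℝ) < 2 ^ k * c1 := by rwa [div_lt_iff₀ hc1] at hk
    have h2 : (2:ℝ) ^ k ≤ 2 ^ (k+1) * ((k + 1 : ℕ) : ℝ) ^ D := by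
      have h3 : (2:ℝ) ^ k ≤ 2 ^ (k+1) := pow_le_pow_right₀ (by norm_num) (by omega)
      have h4 : (1:ℝ) ≤ ((k + 1 : ℕ) : ℝ) ^ D :=
        one_le_pow₀ (by push_cast; linarith [k.cast_nonneg (α := ℝ)])
      have h5 : (0:ℝ) < 2 ^ (k+1) := by positivity
      calc (2:ℝ) ^ k ≤ 2 ^ (k+1) * 1 := by rw [mul_one]; exact h3
        _ ≤ _ := mul_le_mul_of_nonneg_left h4 h5.le
    calc 8 * (m:ℝ) ≤ c1 * 2 ^ k := by linarith
      _ ≤ _ := mul_le_mul_of_nonneg_left h2 hc1.le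
  classical
  obtain ⟨n, hn⟩ : ∃ n : ℕ, n = Nat.find hex := ⟨_, rfl⟩
  have hspec := Nat.find_spec hex
  rw [← hn] at hspec
  obtain ⟨hn1, hn2⟩ := hspec
  have hn1R : (1:ℝ) ≤ n := by exact_mod_cast hn1
  have hnpos : (0:ℝ) < n := by linarith
  have hmin : ∀ k, k < n → ¬ (1 ≤ k ∧ 8 * (m : ℝ) ≤ c1 * (2 ^ k * (k:ℝ) ^ D)) := by
    intro k hk
    rw [hn] at hk
    exact Nat.find_min hex hk
  -- upper bound
  have hup : (2:ℝ) ^ n * (n:ℝ) ^ D ≤ K * m := by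
    rcases Nat.lt_or_ge n 2 with h | h
    · have : n = 1 := by omega
      rw [this]
      have : (1:ℝ) ≤ K := by
        rw [hK]
        have : (0:ℝ) ≤ 2 ^ (D + 4) / c1 := by positivity
        linarith
      simp
      nlinarith
    · obtain ⟨k, rfl⟩ : ∃ k, n = k + 2 := ⟨n - 2, by omega⟩
      have h1 := hmin (k + 1) (by omega)
      have h2 : c1 * (2 ^ (k+1) * ((k + 1 : ℕ):ℝ) ^ D) < 8 * (m:ℝ) := by
        by_contra hc
        exact h1 ⟨by omega, not_lt.mp hc⟩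
      have h3 : (((k + 2 : ℕ):ℝ)) ^ D ≤ 2 ^ D * ((k + 1 : ℕ):ℝ) ^ D := by
        rw [← mul_pow]
        apply pow_le_pow_left₀ (by positivity)
        push_cast
        have := k.cast_nonneg (α := ℝ)
        linarith
      have h4 : (2:ℝ) ^ (k+2) * (((k + 2 : ℕ):ℝ)) ^ D ≤
          2 ^ (D + 1) * (2 ^ (k+1) * ((k + 1 : ℕ):ℝ) ^ D) := by
        calc (2:ℝ) ^ (k+2) * (((k + 2 : ℕ):ℝ)) ^ D ≤ 2 ^ (k+2) * (2 ^ D * ((k + 1 : ℕ):ℝ) ^ D) :=
              mul_le_mul_of_nonneg_left h3 (by positivity)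
          _ = _ := by ring
      have h5 : 2 ^ (k+1) * ((k + 1 : ℕ):ℝ) ^ D ≤ 8 * (m:ℝ) / c1 := by
        rw [le_div_iff₀ hc1]
        linarith
      calc (2:ℝ) ^ (k+2) * (((k + 2 : ℕ):ℝ)) ^ D ≤ 2 ^ (D + 1) * (8 * (m:ℝ) / c1) :=
            h4.trans (mul_le_mul_of_nonneg_left h5 (by positivity))
        _ = 2 ^ (D + 4) / c1 * m := by
            rw [pow_add, pow_add]; ring
        _ ≤ K * m := by
            apply mul_le_mul_of_nonneg_right _ (by linarith)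
            rw [hK]; linarith
  -- log bound
  have hlog : Real.log m ≤ L * n := by
    have hm0 : (0:ℝ) < m := by linarith
    have h1 : (m:ℝ) ≤ (c1 / 8) * (2 ^ n * (n:ℝ) ^ D) := by linarith
    have h2 : Real.log m ≤ Real.log ((c1 / 8) * (2 ^ n * (n:ℝ) ^ D)) := Real.log_le_log hm0 h1
    rw [Real.log_mul (by positivity) (by positivity), Real.log_mul (by positivity) (by positivity),
      Real.log_pow, Real.log_pow] at h2
    have h3 : Real.log 2 ≤ 1 := by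
      have := Real.log_two_lt_d9
      linarith
    have h4 : Real.log n ≤ n := (Real.log_le_sub_one_of_pos hnpos).trans (by linarith)
    have h5 : Real.log (c1 / 8) ≤ |Real.log (c1 / 8)| := le_abs_self _
    have h6 : |Real.log (c1 / 8)| ≤ |Real.log (c1 / 8)| * n := by
      have := abs_nonneg (Real.log (c1 / 8))
      nlinarith
    have h7 : (n:ℝ) * Real.log 2 ≤ n := by nlinarith
    have h8 : (D:ℝ) * Real.log n ≤ D * n := mul_le_mul_of_nonneg_left h4 D.cast_nonneg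
    have : L * n = |Real.log (c1 / 8)| * n + n + D * n := by rw [hL]; ring
    rw [this]
    linarith
  refine ⟨n, hn1, ?_, ?_⟩
  · rw [card_layer]
    have h1 := hlow n hn1
    have h2 : 8 * (m:ℝ) ≤ 2 ^ n * (shp d n : ℝ) := by
      calc 8 * (m:ℝ) ≤ c1 * (2 ^ n * (n:ℝ) ^ D) := hn2
        _ = 2 ^ n * (c1 * (n:ℝ) ^ D) := by ring
        _ ≤ _ := mul_le_mul_of_nonneg_left h1 (by positivity)
    have h3 : ((8 * m : ℕ) : ℝ) ≤ ((2 ^ n * shp d n : ℕ) : ℝ) := by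
      push_cast
      exact h2
    have h4 : 8 * m ≤ 2 ^ n * shp d n := by exact_mod_cast h3
    omega
  · have hm0 : (0:ℝ) < m := by linarith
    have hlm : 0 ≤ Real.log m := Real.log_nonneg (by linarith)
    have hA : L ^ (-e) * (Real.log m) ^ e ≤ (n:ℝ) ^ e := by
      have h1 : (Real.log m) ^ e ≤ (L * n) ^ e := Real.rpow_le_rpow hlm hlog he0
      rw [Real.mul_rpow hLpos.le hnpos.le] at h1
      have h2 : L ^ (-e) * L ^ e = 1 := by
        rw [← Real.rpow_add hLpos]; simp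
      calc L ^ (-e) * (Real.log m) ^ e ≤ L ^ (-e) * (L ^ e * (n:ℝ) ^ e) :=
            mul_le_mul_of_nonneg_left h1 (by positivity)
        _ = (L ^ (-e) * L ^ e) * (n:ℝ) ^ e := by ring
        _ = (n:ℝ) ^ e := by rw [h2, one_mul]
    have hB : K ^ (-r) * (m:ℝ) ^ (-r) * (n:ℝ) ^ ((D:ℝ) * r) ≤ (2:ℝ) ^ (-(r * n)) := by
      have h1 : (2:ℝ) ^ (-(r * n)) = ((2:ℝ) ^ n) ^ (-r) := by
        rw [← Real.rpow_natCast 2 n, ← Real.rpow_mul (by norm_num)]
        congr 1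
        ring
      have hnD : (0:ℝ) < (n:ℝ) ^ D := by positivity
      have h2 : (2:ℝ) ^ n ≤ K * m / (n:ℝ) ^ D := by
        rw [le_div_iff₀ hnD]; exact hup
      have h3 : (K * m / (n:ℝ) ^ D) ^ (-r) ≤ ((2:ℝ) ^ n) ^ (-r) :=
        Real.rpow_le_rpow_of_nonpos (by positivity) h2 (by linarith)
      rw [h1]
      refine le_trans (le_of_eq ?_) h3
      rw [Real.div_rpow (by positivity) hnD.le, Real.mul_rpow hKpos.le hm0.le,
        Real.rpow_neg hnD.le, div_inv_eq_mul, ← Real.rpow_natCast (n:ℝ) D,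
        ← Real.rpow_mul hnpos.le]
    have hC : (n:ℝ) ^ e = (n:ℝ) ^ ((D:ℝ) * r) * Real.sqrt n := by
      rw [he, Real.rpow_add hnpos, Real.sqrt_eq_rpow]
    calc 2 * (c0 * K ^ (-r) * L ^ (-e) / 2 * (m:ℝ) ^ (-r) * Real.log m ^ e)
        = c0 * K ^ (-r) * (m:ℝ) ^ (-r) * (L ^ (-e) * Real.log m ^ e) := by ring
      _ ≤ c0 * K ^ (-r) * (m:ℝ) ^ (-r) * (n:ℝ) ^ e :=
          mul_le_mul_of_nonneg_left hA (by positivity)
      _ = c0 * (K ^ (-r) * (m:ℝ) ^ (-r) * (n:ℝ) ^ ((D:ℝ) * r)) * Real.sqrt n := by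
          rw [hC]; ring
      _ ≤ c0 * (2:ℝ) ^ (-(r * n)) * Real.sqrt n := by
          apply mul_le_mul_of_nonneg_right _ (Real.sqrt_nonneg _)
          exact mul_le_mul_of_nonneg_left hB hc0.le


end Sol_width_num

alias width_num := Sol_width_num.width_num

end HypVol
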