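import Pool.Agent.HypVol.DefsW
import Pool.Agent.HypVol.L_TP_prob
import Pool.Agent.HypVol.L_width_main
import Pool.Agent.HypVol.L_width_num
open MeasureTheory Real ProbabilityTheory
open scoped ENNReal BigOperators

namespace HypVol
namespace Sol_width_lower






theorem WL_F1 (r α : ℝ) (hr : 1 < r) : Continuous (F1 r α) ∧ ∃ C : ℝ, 0 ≤ C ∧ ∀ x, |F1 r α x| ≤ C := by
  have hs : Summable (fun k : ℕ => ((k:ℝ)+1)^(-r)) := by
    have h1 := (Real.summable_nat_rpow.mpr (by linarith : -r < -1))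
    have h2 := (summable_nat_add_iff 1).mpr h1
    refine h2.congr (fun k => ?_)
    push_cast
    rfl
  have hb : ∀ (k : ℕ) (x : ℝ), ‖((k:ℝ)+1)^(-r) * Real.cos (((k:ℝ)+1) * x - α * π / 2)‖ ≤ ((k:ℝ)+1)^(-r) := by
    intro k x
    have h0 : 0 ≤ ((k:ℝ)+1)^(-r) := Real.rpow_nonneg (by positivity) _
    rw [norm_mul, Real.norm_of_nonneg h0]
    have := Real.abs_cos_le_one (((k:ℝ)+1) * x - α * π / 2)
    rw [Real.norm_eq_abs]
    nlinarith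
  constructor
  · unfold F1
    refine continuous_const.add (continuous_const.mul ?_)
    exact continuous_tsum (fun k => by fun_prop) hs hb
  · refine ⟨1 + 2 * ∑' k : ℕ, ((k:ℝ)+1)^(-r), ?_, fun x => ?_⟩
    · have : 0 ≤ ∑' k : ℕ, ((k:ℝ)+1)^(-r) := tsum_nonneg (fun k => Real.rpow_nonneg (by positivity) _)
      linarith
    · unfold F1
      have h1 := tsum_of_norm_bounded hs.hasSum (fun k => hb k x)
      rw [Real.norm_eq_abs] at h1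
      have h2 := abs_le.mp h1
      rw [abs_le]
      constructor <;> linarith [h2.1, h2.2]

theorem WL_Fr {d : ℕ} (r : ℝ) (α : Fin d → ℝ) (hr : 1 < r) :
    Continuous (Fr r α) ∧ ∃ C : ℝ, ∀ x, |Fr r α x| ≤ C := by
  constructor
  · unfold Fr
    refine continuous_finsetProd _ (fun j _ => ?_)
    exact (WL_F1 r (α j) hr).1.comp (continuous_apply j)
  · choose C hC0 hC using fun j => (WL_F1 r (α j) hr).2
    refine ⟨∏ j, C j, fun x => ?_⟩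
    unfold Fr
    rw [Finset.abs_prod]
    exact Finset.prod_le_prod (fun j _ => abs_nonneg _) (fun j _ => hC j _)

theorem WL_int {d : ℕ} {E : Type} [NormedAddCommGroup E] [NormedSpace ℝ E] (r : ℝ) (α : Fin d → ℝ) (hr : 1 < r)
    (φ : (Fin d → ℝ) → E) (hφ : Integrable φ (TP d)) (x : Fin d → ℝ) :
    Integrable (fun y => Fr r α (x - y) • φ y) (TP d) := by
  obtain ⟨hc, C, hC⟩ := WL_Fr r α hr
  refine Integrable.mono' (hφ.norm.const_mul C) ?_ ?_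
  · exact ((hc.comp (by fun_prop : Continuous fun y : Fin d → ℝ => x - y)).aestronglyMeasurable).smul hφ.aestronglyMeasurable
  · refine Filter.Eventually.of_forall (fun y => ?_)
    rw [norm_smul, Real.norm_eq_abs]
    exact mul_le_mul_of_nonneg_right (hC _) (norm_nonneg _)

/-- real part as a complex valued function -/
noncomputable def WLre {X 𝕜 : Type} [RCLike 𝕜] (u : X → 𝕜) : X → ℂ := fun x => ((RCLike.re (u x) : ℝ) : ℂ)
noncomputable def WLim {X 𝕜 : Type} [RCLike 𝕜] (u : X → 𝕜) : X → ℂ := fun x => ((RCLike.im (u x) : ℝ) : ℂ)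

theorem WL_space {d : ℕ} (𝕜 : Type) [RCLike 𝕜] (m : ℕ) (U : Submodule 𝕜 ((Fin d → ℝ) → 𝕜))
    (hf : Module.Finite 𝕜 U) (hm : Module.finrank 𝕜 U ≤ m) (hU : ∀ u ∈ U, MemLp u ⊤ (TP d)) :
    ∃ V : Submodule ℂ ((Fin d → ℝ) → ℂ), (Module.Finite ℂ V ∧ Module.finrank ℂ V ≤ 2 * m ∧
      ∀ u ∈ V, MemLp u ⊤ (TP d)) ∧ ∀ u ∈ U, WLre u ∈ V := by
  haveI := hf
  let b := Module.finBasis 𝕜 U
  let w : Fin (Module.finrank 𝕜 U) ⊕ Fin (Module.finrank 𝕜 U) → ((Fin d → ℝ) → ℂ) :=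
    Sum.elim (fun i => WLre (b i : (Fin d → ℝ) → 𝕜)) (fun i => WLim (b i : (Fin d → ℝ) → 𝕜))
  refine ⟨Submodule.span ℂ (Set.range w), ⟨?_, ?_, ?_⟩, ?_⟩
  · exact FiniteDimensional.span_of_finite ℂ (Set.finite_range _)
  · have h1 : Module.finrank ℂ (Submodule.span ℂ (Set.range w)) ≤
        Fintype.card (Fin (Module.finrank 𝕜 U) ⊕ Fin (Module.finrank 𝕜 U)) := finrank_range_le_card w
    rw [Fintype.card_sum, Fintype.card_fin] at h1
    omega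
  · intro u hu
    induction hu using Submodule.span_induction with
    | mem x hx =>
      obtain ⟨i, rfl⟩ := hx
      rcases i with i | i
      · exact (hU _ (b i).2).re.ofReal
      · exact (hU _ (b i).2).im.ofReal
    | zero => exact MemLp.zero
    | add x y _ _ hx hy => exact hx.add hy
    | smul a x _ hx => exact hx.const_smul a
  · intro u hu
    have h1 : (u : (Fin d → ℝ) → 𝕜) = ∑ i, (b.repr ⟨u, hu⟩ i) • (b i : (Fin d → ℝ) → 𝕜) := by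
      have h2 := b.sum_repr ⟨u, hu⟩
      have h3 := congrArg (fun z : U => (z : (Fin d → ℝ) → 𝕜)) h2
      simp only [Submodule.coe_sum, Submodule.coe_smul] at h3
      exact h3.symm
    have h4 : WLre u = ∑ i, (((RCLike.re (b.repr ⟨u, hu⟩ i) : ℝ) : ℂ) • w (Sum.inl i)
        + ((-(RCLike.im (b.repr ⟨u, hu⟩ i)) : ℝ) : ℂ) • w (Sum.inr i)) := by
      funext x
      rw [Finset.sum_apply]
      have h5 : u x = ∑ i, (b.repr ⟨u, hu⟩ i) * (b i : (Fin d → ℝ) → 𝕜) x := by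
        conv_lhs => rw [h1]
        rw [Finset.sum_apply]
        rfl
      show ((RCLike.re (u x) : ℝ) : ℂ) = _
      rw [h5, map_sum]
      push_cast
      refine Finset.sum_congr rfl (fun i _ => ?_)
      simp only [w, Sum.elim_inl, Sum.elim_inr, WLre, WLim, Pi.add_apply, Pi.smul_apply, smul_eq_mul, RCLike.mul_re]
      push_cast
      ring
    rw [h4]
    refine Submodule.sum_mem _ (fun i _ => Submodule.add_mem _ ?_ ?_)
    · exact Submodule.smul_mem _ _ (Submodule.subset_span ⟨_, rfl⟩)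
    · exact Submodule.smul_mem _ _ (Submodule.subset_span ⟨_, rfl⟩)

theorem WL_key {d : ℕ} (𝕜 : Type) [RCLike 𝕜] (q r : ℝ) (hq : 1 ≤ q) (hr : 1 < r) (α : Fin d → ℝ) (m : ℕ)
    (U : Submodule 𝕜 ((Fin d → ℝ) → 𝕜))
    (hU : Module.Finite 𝕜 U ∧ Module.finrank 𝕜 U ≤ m ∧ ∀ u ∈ U, MemLp u ⊤ (TP d)) :
    kolW2 (2 * m) (MW ℂ d r (ENNReal.ofReal q) α) ≤
      2 * ⨆ f ∈ MW 𝕜 d r (ENNReal.ofReal q) α, ⨅ u ∈ U, eLpNorm (fun x => f x - u x) ⊤ (TP d) := by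
  haveI := TP_prob d
  obtain ⟨V, hV, hVU⟩ := WL_space 𝕜 m U hU.1 hU.2.1 hU.2.2
  set E := ⨆ f ∈ MW 𝕜 d r (ENNReal.ofReal q) α, ⨅ u ∈ U, eLpNorm (fun x => f x - u x) ⊤ (TP d) with hE
  unfold kolW2
  refine iInf₂_le_of_le V hV (iSup₂_le (fun f hf => ?_))
  obtain ⟨φ, hφ, hφ1, rfl⟩ := hf
  have hq1 : (1:ℝ≥0∞) ≤ ENNReal.ofReal q := by
    rw [show (1:ℝ≥0∞) = ENNReal.ofReal 1 by simp]; exact ENNReal.ofReal_le_ofReal hq
  have hφi : Integrable φ (TP d) := hφ.integrable hq1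
  -- the two real functions
  have hA : ∀ x, (∫ y, Fr r α (x - y) • (((RCLike.re (φ y) : ℝ)) : 𝕜) ∂(TP d)) =
      (((∫ y, Fr r α (x - y) • φ y ∂(TP d)).re : ℝ) : 𝕜) := by
    intro x
    have h1 : (fun y => Fr r α (x - y) • (((RCLike.re (φ y) : ℝ)) : 𝕜)) = fun y => ((RCLike.re (Fr r α (x - y) • φ y) : ℝ) : 𝕜) := by
      funext y
      rw [RCLike.real_smul_eq_coe_mul, RCLike.real_smul_eq_coe_mul, RCLike.re_ofReal_mul, RCLike.ofReal_mul]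
    rw [h1, integral_ofReal, integral_re (WL_int r α hr φ hφi x)]
    rfl
  have hB : ∀ x, (∫ y, Fr r α (x - y) • (((RCLike.im (φ y) : ℝ)) : 𝕜) ∂(TP d)) =
      (((∫ y, Fr r α (x - y) • φ y ∂(TP d)).im : ℝ) : 𝕜) := by
    intro x
    have h1 : (fun y => Fr r α (x - y) • (((RCLike.im (φ y) : ℝ)) : 𝕜)) = fun y => ((RCLike.im (Fr r α (x - y) • φ y) : ℝ) : 𝕜) := by
      funext y
      rw [RCLike.real_smul_eq_coe_mul, RCLike.real_smul_eq_coe_mul, RCLike.im_ofReal_mul, RCLike.ofReal_mul]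
    rw [h1, integral_ofReal, integral_im (WL_int r α hr φ hφi x)]
    rfl
  have hm1 : (fun x => ∫ y, Fr r α (x - y) • (((RCLike.re (φ y) : ℝ)) : 𝕜) ∂(TP d)) ∈ MW 𝕜 d r (ENNReal.ofReal q) α := by
    refine ⟨fun y => (((RCLike.re (φ y) : ℝ)) : 𝕜), hφ.re.ofReal, le_trans (eLpNorm_mono (fun y => ?_)) hφ1, rfl⟩
    rw [RCLike.norm_ofReal]
    exact RCLike.abs_re_le_norm _
  have hm2 : (fun x => ∫ y, Fr r α (x - y) • (((RCLike.im (φ y) : ℝ)) : 𝕜) ∂(TP d)) ∈ MW 𝕜 d r (ENNReal.ofReal q) α := by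
    refine ⟨fun y => (((RCLike.im (φ y) : ℝ)) : 𝕜), hφ.im.ofReal, le_trans (eLpNorm_mono (fun y => ?_)) hφ1, rfl⟩
    rw [RCLike.norm_ofReal]
    exact RCLike.abs_im_le_norm _
  refine ENNReal.le_of_forall_pos_le_add (fun ε hε hfin => ?_)
  have hEfin : E < ⊤ := by
    by_contra hc
    rw [not_lt, top_le_iff] at hc
    rw [hc] at hfin
    simp at hfin
  have hε2 : (0:ℝ≥0∞) < (ε:ℝ≥0∞) / 2 := ENNReal.half_pos (by exact_mod_cast hε.ne')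
  have hlt : E < E + (ε:ℝ≥0∞) / 2 := ENNReal.lt_add_right hEfin.ne hε2.ne'
  have h1 : (⨅ u ∈ U, eLpNorm (fun x => (fun x => ∫ y, Fr r α (x - y) • (((RCLike.re (φ y) : ℝ)) : 𝕜) ∂(TP d)) x - u x) ⊤ (TP d)) < E + (ε:ℝ≥0∞) / 2 :=
    lt_of_le_of_lt (le_iSup₂ (f := fun f (_ : f ∈ MW 𝕜 d r (ENNReal.ofReal q) α) => ⨅ u ∈ U, eLpNorm (fun x => f x - u x) ⊤ (TP d)) _ hm1) hlt
  have h2 : (⨅ u ∈ U, eLpNorm (fun x => (fun x => ∫ y, Fr r α (x - y) • (((RCLike.im (φ y) : ℝ)) : 𝕜) ∂(TP d)) x - u x) ⊤ (TP d)) < E + (ε:ℝ≥0∞) / 2 :=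
    lt_of_le_of_lt (le_iSup₂ (f := fun f (_ : f ∈ MW 𝕜 d r (ENNReal.ofReal q) α) => ⨅ u ∈ U, eLpNorm (fun x => f x - u x) ⊤ (TP d)) _ hm2) hlt
  simp only [iInf_lt_iff] at h1 h2
  obtain ⟨u1, hu1, h1⟩ := h1
  obtain ⟨u2, hu2, h2⟩ := h2
  have hg : (WLre u1 + Complex.I • WLre u2) ∈ V := V.add_mem (hVU _ hu1) (V.smul_mem _ (hVU _ hu2))
  refine (iInf₂_le (WLre u1 + Complex.I • WLre u2) hg).trans ?_
  have h3 : (fun x => (fun x => ∫ y, Fr r α (x - y) • φ y ∂(TP d)) x - (WLre u1 + Complex.I • WLre u2) x) =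
      (fun x => ((RCLike.re ((((∫ y, Fr r α (x - y) • φ y ∂(TP d)).re : ℝ) : 𝕜) - u1 x) : ℝ) : ℂ)) +
      (fun x => Complex.I * ((RCLike.re ((((∫ y, Fr r α (x - y) • φ y ∂(TP d)).im : ℝ) : 𝕜) - u2 x) : ℝ) : ℂ)) := by
    funext x
    simp only [Pi.add_apply, Pi.smul_apply, WLre, smul_eq_mul, map_sub, RCLike.ofReal_re]
    push_cast
    have := Complex.re_add_im (∫ y, Fr r α (x - y) • φ y ∂(TP d))
    linear_combination -this
  rw [h3]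
  have h4 : eLpNorm ((fun x => ((RCLike.re ((((∫ y, Fr r α (x - y) • φ y ∂(TP d)).re : ℝ) : 𝕜) - u1 x) : ℝ) : ℂ)) +
      (fun x => Complex.I * ((RCLike.re ((((∫ y, Fr r α (x - y) • φ y ∂(TP d)).im : ℝ) : 𝕜) - u2 x) : ℝ) : ℂ))) ⊤ (TP d) ≤
      eLpNorm (fun x => ((RCLike.re ((((∫ y, Fr r α (x - y) • φ y ∂(TP d)).re : ℝ) : 𝕜) - u1 x) : ℝ) : ℂ)) ⊤ (TP d) +
      eLpNorm (fun x => Complex.I * ((RCLike.re ((((∫ y, Fr r α (x - y) • φ y ∂(TP d)).im : ℝ) : 𝕜) - u2 x) : ℝ) : ℂ)) ⊤ (TP d) := by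
    simp only [eLpNorm_exponent_top]
    exact eLpNormEssSup_add_le
  have h5 : eLpNorm (fun x => ((RCLike.re ((((∫ y, Fr r α (x - y) • φ y ∂(TP d)).re : ℝ) : 𝕜) - u1 x) : ℝ) : ℂ)) ⊤ (TP d) ≤
      E + (ε:ℝ≥0∞) / 2 := by
    refine le_trans (eLpNorm_mono (fun x => ?_)) h1.le
    rw [Complex.norm_real, Real.norm_eq_abs]
    simp only [hA x]
    exact RCLike.abs_re_le_norm _
  have h6 : eLpNorm (fun x => Complex.I * ((RCLike.re ((((∫ y, Fr r α (x - y) • φ y ∂(TP d)).im : ℝ) : 𝕜) - u2 x) : ℝ) : ℂ)) ⊤ (TP d) ≤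
      E + (ε:ℝ≥0∞) / 2 := by
    refine le_trans (eLpNorm_mono (fun x => ?_)) h2.le
    rw [norm_mul, Complex.norm_I, one_mul, Complex.norm_real, Real.norm_eq_abs]
    simp only [hB x]
    exact RCLike.abs_re_le_norm _
  refine h4.trans ((add_le_add h5 h6).trans (le_of_eq ?_))
  have h7 : E + (ε:ℝ≥0∞) / 2 + (E + (ε:ℝ≥0∞) / 2) = 2 * E + ((ε:ℝ≥0∞) / 2 + (ε:ℝ≥0∞) / 2) := by ring
  rw [h7, ENNReal.add_halves]

theorem width_lower (𝕜 : Type) [RCLike 𝕜] (d : ℕ) (hd : 3 ≤ d) (q r : ℝ) (hq : 1 ≤ q) (hr : 1 < r)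
    (α : Fin d → ℝ) : ∃ c : ℝ, 0 < c ∧ ∀ m : ℕ, 2 ≤ m →
      ENNReal.ofReal (c * (m:ℝ)^(-r) * (Real.log m)^(((d:ℝ)-1) * r + 1/2))
        ≤ kolW2 m (MW 𝕜 d r (ENNReal.ofReal q) α) := by
  obtain ⟨c0, hc0, h0⟩ := width_main d hd q r hq hr α
  obtain ⟨c, hc, h⟩ := width_num d hd r c0 (by linarith) hc0
  refine ⟨c, hc, fun m hm => ?_⟩
  obtain ⟨n, hn, hn1, hn2⟩ := h m hm
  have h1 := h0 n (2 * m) hn hn1
  unfold kolW2
  refine le_iInf₂ (fun U hU => ?_)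
  have h2 := WL_key 𝕜 q r hq hr α m U hU
  have h3 : ENNReal.ofReal (2 * (c * (m:ℝ)^(-r) * (Real.log m)^(((d:ℝ)-1) * r + 1/2))) ≤
      2 * ⨆ f ∈ MW 𝕜 d r (ENNReal.ofReal q) α, ⨅ u ∈ U, eLpNorm (fun x => f x - u x) ⊤ (TP d) :=
    (ENNReal.ofReal_le_ofReal hn2).trans (h1.trans h2)
  rw [ENNReal.ofReal_mul (by norm_num : (0:ℝ) ≤ 2), show ENNReal.ofReal 2 = 2 by simp] at h3
  exact (ENNReal.mul_le_mul_iff_right (by norm_num) (by norm_num)).mp h3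


end Sol_width_lower

alias width_lower := Sol_width_lower.width_lower

end HypVol
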