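import Pool.Agent.HypVol.DefsW
import Pool.Agent.HypVol.L_layer_approx
import Pool.Agent.HypVol.L_class_split
import Pool.Agent.HypVol.L_num_up
import Pool.Agent.HypVol.L_TP_prob
open MeasureTheory Real ProbabilityTheory
open scoped ENNReal BigOperators

namespace HypVol
namespace Sol_width_up







theorem width_upper_poly_add {d n : ℕ} (a b : (layer d n) × Fin 2 → ℝ) (x : Fin d → ℝ) :
    poly (a + b) x = poly a x + poly b x := by
  unfold poly
  rw [← Finset.sum_add_distrib]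
  apply Finset.sum_congr rfl
  intro k _
  simp only [Pi.add_apply, Complex.ofReal_add]
  ring

theorem width_upper_poly_smul {d n : ℕ} (c : ℝ) (a : (layer d n) × Fin 2 → ℝ) (x : Fin d → ℝ) :
    poly (c • a) x = (c : ℂ) * poly a x := by
  unfold poly
  rw [Finset.mul_sum]
  apply Finset.sum_congr rfl
  intro k _
  simp only [Pi.smul_apply, smul_eq_mul, Complex.ofReal_mul]
  ring

theorem width_upper_poly_cont {d n : ℕ} (a : (layer d n) × Fin 2 → ℝ) : Continuous (fun x => poly a x) := by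
  unfold poly
  fun_prop

theorem width_upper_poly_norm {d n : ℕ} (a : (layer d n) × Fin 2 → ℝ) (x : Fin d → ℝ) (κ : ℝ) (hκ : 0 ≤ κ)
    (ha : ∑ i, a i ^ 2 ≤ κ^2) : ‖poly a x‖ ≤ κ * Real.sqrt (layer d n).card := by
  have h1 : ‖poly a x‖ ≤ ∑ k : layer d n, ‖(a (k, 0) : ℂ) + (a (k, 1) : ℂ) * Complex.I‖ := by
    unfold poly
    refine (norm_sum_le _ _).trans (Finset.sum_le_sum fun k _ => ?_)
    rw [norm_mul, mul_comm Complex.I, Complex.norm_exp_ofReal_mul_I, mul_one]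
  have h2 := sq_sum_le_card_mul_sum_sq (s := (Finset.univ : Finset (layer d n)))
    (f := fun k => ‖(a (k, 0) : ℂ) + (a (k, 1) : ℂ) * Complex.I‖)
  have h3 : ∑ k : layer d n, ‖(a (k, 0) : ℂ) + (a (k, 1) : ℂ) * Complex.I‖ ^ 2 = ∑ i, a i ^ 2 := by
    rw [Fintype.sum_prod_type]
    apply Finset.sum_congr rfl
    intro k _
    rw [Fin.sum_univ_two, Complex.sq_norm, Complex.normSq_add_mul_I]
  rw [h3, Finset.card_univ, Fintype.card_coe] at h2
  have h4 : ‖poly a x‖ ^ 2 ≤ (κ * Real.sqrt (layer d n).card) ^ 2 := by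
    rw [mul_pow, Real.sq_sqrt (Nat.cast_nonneg _)]
    calc ‖poly a x‖ ^ 2 ≤ (∑ k : layer d n, ‖(a (k, 0) : ℂ) + (a (k, 1) : ℂ) * Complex.I‖) ^ 2 :=
          pow_le_pow_left₀ (norm_nonneg _) h1 2
      _ ≤ (layer d n).card * ∑ i, a i ^ 2 := h2
      _ ≤ (layer d n).card * κ ^ 2 := mul_le_mul_of_nonneg_left ha (Nat.cast_nonneg _)
      _ = κ ^ 2 * (layer d n).card := mul_comm _ _
  exact (pow_le_pow_iff_left₀ (norm_nonneg _) (by positivity) two_ne_zero).mp h4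

/-- the linear map -/
noncomputable def width_upperP (d n : ℕ) : ((layer d n) × Fin 2 → ℝ) →ₗ[ℝ] ((Fin d → ℝ) → ℝ) where
  toFun a := fun x => (poly a x).re
  map_add' a b := by
    funext x
    simp only [Pi.add_apply]
    rw [width_upper_poly_add, Complex.add_re]
  map_smul' c a := by
    funext x
    simp only [Pi.smul_apply, RingHom.id_apply, smul_eq_mul]
    rw [width_upper_poly_smul, Complex.re_ofReal_mul]

theorem width_upperP_apply {d n : ℕ} (a : (layer d n) × Fin 2 → ℝ) (x : Fin d → ℝ) :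
    width_upperP d n a x = (poly a x).re := rfl

/-- index type -/
abbrev Width_upperI (d n0 n1 : ℕ) (M : ℕ → ℕ) :=
  (Σ n : Fin n0, ((layer d n) × Fin 2)) ⊕ (Σ n : {n // n ∈ Finset.Ico n0 n1}, Fin (M n))

/-- the family spanning the subspace -/
noncomputable def width_upperE {d n0 n1 : ℕ} {M : ℕ → ℕ} (G : ∀ n, Fin (M n) → ((layer d n) × Fin 2 → ℝ)) :
    Width_upperI d n0 n1 M → ((Fin d → ℝ) → ℝ)
  | Sum.inl p => width_upperP d p.1 (fun j => if p.2 = j then 1 else 0)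
  | Sum.inr p => width_upperP d p.1 (G p.1 p.2)

theorem width_upperI_card (d n0 n1 : ℕ) (M : ℕ → ℕ) : Fintype.card (Width_upperI d n0 n1 M) =
    (∑ n ∈ Finset.range n0, 2 * (layer d n).card) + ∑ n ∈ Finset.Ico n0 n1, M n := by
  rw [Fintype.card_sum, Fintype.card_sigma, Fintype.card_sigma]
  congr 1
  · rw [← Fin.sum_univ_eq_sum_range (fun n => 2 * (layer d n).card) n0]
    apply Finset.sum_congr rfl
    intro n _
    rw [Fintype.card_prod, Fintype.card_coe, Fintype.card_fin, mul_comm]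
  · rw [← Finset.sum_coe_sort (Finset.Ico n0 n1) (fun n => M n)]
    apply Finset.sum_congr rfl
    intro n _
    rw [Fintype.card_fin]

theorem width_upperP_mem_low {d n0 n1 : ℕ} {M : ℕ → ℕ} (G : ∀ n, Fin (M n) → ((layer d n) × Fin 2 → ℝ))
    (n : ℕ) (hn : n < n0) (a : (layer d n) × Fin 2 → ℝ) :
    width_upperP d n a ∈ Submodule.span ℝ (Set.range (width_upperE (n0 := n0) (n1 := n1) G)) := by
  rw [LinearMap.pi_apply_eq_sum_univ (width_upperP d n) a]
  apply Submodule.sum_mem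
  intro i _
  apply Submodule.smul_mem
  apply Submodule.subset_span
  exact ⟨Sum.inl ⟨⟨n, hn⟩, i⟩, rfl⟩

theorem width_upperP_mem_mid {d n0 n1 : ℕ} {M : ℕ → ℕ} (G : ∀ n, Fin (M n) → ((layer d n) × Fin 2 → ℝ))
    (n : ℕ) (hn : n ∈ Finset.Ico n0 n1) (β : Fin (M n) → ℝ) :
    width_upperP d n (fun i => ∑ j, β j * G n j i) ∈
      Submodule.span ℝ (Set.range (width_upperE (n0 := n0) (n1 := n1) G)) := by
  have h1 : (fun i => ∑ j, β j * G n j i) = ∑ j, β j • G n j := by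
    funext i
    rw [Finset.sum_apply]
    rfl
  rw [h1, map_sum]
  apply Submodule.sum_mem
  intro j _
  rw [map_smul]
  apply Submodule.smul_mem
  apply Submodule.subset_span
  exact ⟨Sum.inr ⟨⟨n, hn⟩, j⟩, rfl⟩

theorem width_upper_real {d : ℕ} (C1 C2 : ℝ) (hC2 : 0 < C2) (n0 n1 : ℕ) (h01 : n0 ≤ n1) (r : ℝ)
    (M : ℕ → ℕ) (G : ∀ n, Fin (M n) → ((layer d n) × Fin 2 → ℝ))
    (hG : ∀ n, ∀ a : (layer d n) × Fin 2 → ℝ, ∑ i, a i ^ 2 ≤ 1 →
      ∃ β : Fin (M n) → ℝ, ∀ x, ‖poly (fun i => a i - ∑ j, β j * G n j i) x‖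
        ≤ C1 * Real.sqrt (((n:ℝ)+1) * (layer d n).card / M n))
    (hsum : Summable (fun n : ℕ => (2:ℝ)^(-(r * ((n + n1 : ℕ) : ℝ))) *
      Real.sqrt (layer d (n + n1)).card))
    (A : ∀ n : ℕ, (layer d n) × Fin 2 → ℝ)
    (hA : ∀ n : ℕ, ∑ i, A n i ^ 2 ≤ (C2 * (2:ℝ)^(-(r * n)))^2) (h : (Fin d → ℝ) → ℝ)
    (hh : ∀ x, HasSum (fun n => poly (A n) x) ((h x : ℝ) : ℂ)) :
    ∃ u ∈ Submodule.span ℝ (Set.range (width_upperE (n0 := n0) (n1 := n1) G)), ∀ x, |h x - u x| ≤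
      C1 * C2 * (∑ n ∈ Finset.Ico n0 n1, (2:ℝ)^(-(r * n)) *
        Real.sqrt (((n:ℝ)+1) * (layer d n).card / M n)) +
      C2 * ∑' n : ℕ, (2:ℝ)^(-(r * ((n + n1 : ℕ) : ℝ))) * Real.sqrt (layer d (n + n1)).card := by
  have hκ : ∀ n : ℕ, 0 < C2 * (2:ℝ)^(-(r * n)) := fun n => by positivity
  have hβ : ∀ n : ℕ, ∃ β : Fin (M n) → ℝ, ∀ x, ‖poly (A n) x - poly (fun i => ∑ j, β j * G n j i) x‖
      ≤ (C2 * (2:ℝ)^(-(r * n))) * (C1 * Real.sqrt (((n:ℝ)+1) * (layer d n).card / M n)) := by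
    intro n
    obtain ⟨β, hβ⟩ := hG n (fun i => (C2 * (2:ℝ)^(-(r * n)))⁻¹ * A n i) (by
      have h1 : ∑ i, ((C2 * (2:ℝ)^(-(r * n)))⁻¹ * A n i) ^ 2 =
          ((C2 * (2:ℝ)^(-(r * n)))⁻¹) ^ 2 * ∑ i, A n i ^ 2 := by
        rw [Finset.mul_sum]
        apply Finset.sum_congr rfl
        intro i _
        ring
      rw [h1]
      calc ((C2 * (2:ℝ)^(-(r * n)))⁻¹) ^ 2 * ∑ i, A n i ^ 2
          ≤ ((C2 * (2:ℝ)^(-(r * n)))⁻¹) ^ 2 * (C2 * (2:ℝ)^(-(r * n)))^2 :=
            mul_le_mul_of_nonneg_left (hA n) (by positivity)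
        _ = 1 := by
            rw [← mul_pow, inv_mul_cancel₀ (hκ n).ne', one_pow])
    refine ⟨fun j => (C2 * (2:ℝ)^(-(r * n))) * β j, fun x => ?_⟩
    have h2 : (A n : (layer d n) × Fin 2 → ℝ) = (C2 * (2:ℝ)^(-(r * n))) •
        (fun i => (C2 * (2:ℝ)^(-(r * n)))⁻¹ * A n i - ∑ j, β j * G n j i) +
        (fun i => ∑ j, (C2 * (2:ℝ)^(-(r * n))) * β j * G n j i) := by
      funext i
      simp only [Pi.add_apply, Pi.smul_apply, smul_eq_mul]
      rw [mul_sub, ← mul_assoc, mul_inv_cancel₀ (hκ n).ne', one_mul, Finset.mul_sum]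
      have h3 : ∀ j, C2 * (2:ℝ)^(-(r * n)) * (β j * G n j i) =
          C2 * (2:ℝ)^(-(r * n)) * β j * G n j i := fun j => by ring
      simp only [h3]
      ring
    have h4 : poly (A n) x = ((C2 * (2:ℝ)^(-(r * n)) : ℝ) : ℂ) *
        poly (fun i => (C2 * (2:ℝ)^(-(r * n)))⁻¹ * A n i - ∑ j, β j * G n j i) x +
        poly (fun i => ∑ j, (C2 * (2:ℝ)^(-(r * n))) * β j * G n j i) x := by
      conv_lhs => rw [h2]
      rw [width_upper_poly_add, width_upper_poly_smul]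
    rw [h4, add_sub_cancel_right, norm_mul, Complex.norm_real, Real.norm_eq_abs,
      abs_of_pos (hκ n)]
    exact mul_le_mul_of_nonneg_left (hβ x) (hκ n).le
  choose β hβ using hβ
  refine ⟨(∑ n ∈ Finset.range n0, width_upperP d n (A n)) +
    ∑ n ∈ Finset.Ico n0 n1, width_upperP d n (fun i => ∑ j, β n j * G n j i), ?_, ?_⟩
  · apply Submodule.add_mem
    · exact Submodule.sum_mem _ (fun n hn => width_upperP_mem_low G n (Finset.mem_range.mp hn) _)
    · exact Submodule.sum_mem _ (fun n hn => width_upperP_mem_mid G n hn _)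
  · intro x
    have hre : HasSum (fun n => (poly (A n) x).re) (h x) := by
      have h1 := Complex.hasSum_re (hh x)
      rw [Complex.ofReal_re] at h1
      exact h1
    have h2 : h x = ∑ n ∈ Finset.range n1, (poly (A n) x).re + ∑' n, (poly (A (n + n1)) x).re := by
      rw [hre.summable.sum_add_tsum_nat_add n1, hre.tsum_eq]
    have h3 : ∑ n ∈ Finset.range n1, (poly (A n) x).re = ∑ n ∈ Finset.range n0, (poly (A n) x).re +
        ∑ n ∈ Finset.Ico n0 n1, (poly (A n) x).re := by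
      rw [Finset.range_eq_Ico, Finset.range_eq_Ico, Finset.sum_Ico_consecutive _ (Nat.zero_le _) h01]
    have h4 : h x - ((∑ n ∈ Finset.range n0, width_upperP d n (A n)) +
        ∑ n ∈ Finset.Ico n0 n1, width_upperP d n (fun i => ∑ j, β n j * G n j i)) x =
        ∑ n ∈ Finset.Ico n0 n1, ((poly (A n) x).re -
          (poly (fun i => ∑ j, β n j * G n j i) x).re) + ∑' n, (poly (A (n + n1)) x).re := by
      rw [h2, h3, Pi.add_apply, Finset.sum_apply, Finset.sum_apply, Finset.sum_sub_distrib]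
      simp only [width_upperP_apply]
      ring
    rw [h4]
    refine (abs_add_le _ _).trans (add_le_add ?_ ?_)
    · refine (Finset.abs_sum_le_sum_abs _ _).trans ?_
      rw [Finset.mul_sum]
      apply Finset.sum_le_sum
      intro n _
      rw [← Complex.sub_re]
      refine (Complex.abs_re_le_norm _).trans ((hβ n x).trans (le_of_eq ?_))
      ring
    · rw [← tsum_mul_left]
      rw [← Real.norm_eq_abs]
      refine tsum_of_norm_bounded (hsum.mul_left C2).hasSum ?_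
      intro n
      rw [Real.norm_eq_abs, ← mul_assoc]
      refine (Complex.abs_re_le_norm _).trans ?_
      exact width_upper_poly_norm _ x _ (hκ _).le (hA _)

theorem width_upper_transfer (𝕜 : Type) [RCLike 𝕜] {d : ℕ} {ι : Type} (e : ι → (Fin d → ℝ) → ℝ)
    (u : (Fin d → ℝ) → ℝ) (hu : u ∈ Submodule.span ℝ (Set.range e)) :
    (fun x => ((u x : ℝ) : 𝕜)) ∈
      Submodule.span 𝕜 (Set.range (fun i => fun x => ((e i x : ℝ) : 𝕜))) := by
  induction hu using Submodule.span_induction with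
  | mem u hu =>
    obtain ⟨i, rfl⟩ := hu
    exact Submodule.subset_span ⟨i, rfl⟩
  | zero =>
    have h1 : (fun x : Fin d → ℝ => (((0 : (Fin d → ℝ) → ℝ) x : ℝ) : 𝕜)) = 0 := by
      funext x
      simp
    rw [h1]
    exact Submodule.zero_mem _
  | add u v _ _ hu hv =>
    have h1 : (fun x : Fin d → ℝ => (((u + v) x : ℝ) : 𝕜)) =
        (fun x => ((u x : ℝ) : 𝕜)) + (fun x => ((v x : ℝ) : 𝕜)) := by
      funext x
      simp
    rw [h1]
    exact Submodule.add_mem _ hu hv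
  | smul c u _ hu =>
    have h1 : (fun x : Fin d → ℝ => (((c • u) x : ℝ) : 𝕜)) =
        (c : 𝕜) • (fun x => ((u x : ℝ) : 𝕜)) := by
      funext x
      simp
    rw [h1]
    exact Submodule.smul_mem _ _ hu

theorem width_upper_summ (r : ℝ) (hr : 1 < r) : Summable (fun k : ℕ => ((k:ℝ)+1)^(-r)) := by
  have h1 : Summable (fun k : ℕ => (k:ℝ)^(-r)) := Real.summable_nat_rpow.mpr (by linarith)
  have h2 := (summable_nat_add_iff 1).mpr h1
  refine h2.congr (fun k => ?_)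
  push_cast
  rfl

theorem width_upper_F1_term (r α x : ℝ) (k : ℕ) :
    ‖((k:ℝ)+1)^(-r) * Real.cos (((k:ℝ)+1) * x - α * π / 2)‖ ≤ ((k:ℝ)+1)^(-r) := by
  rw [norm_mul, Real.norm_eq_abs, Real.norm_eq_abs, abs_of_nonneg (by positivity)]
  exact mul_le_of_le_one_right (by positivity) (Real.abs_cos_le_one _)

theorem width_upper_F1_cont (r α : ℝ) (hr : 1 < r) : Continuous (F1 r α) := by
  unfold F1
  refine continuous_const.add (continuous_const.mul ?_)
  exact continuous_tsum (fun k => by fun_prop) (width_upper_summ r hr) (fun k x => width_upper_F1_term r α x k)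

theorem width_upper_F1_bdd (r : ℝ) (hr : 1 < r) : ∃ B : ℝ, 0 ≤ B ∧ ∀ α x, |F1 r α x| ≤ B := by
  refine ⟨1 + 2 * ∑' k : ℕ, ((k:ℝ)+1)^(-r), ?_, ?_⟩
  · have : 0 ≤ ∑' k : ℕ, ((k:ℝ)+1)^(-r) := tsum_nonneg (fun k => by positivity)
    linarith
  · intro α x
    unfold F1
    have h1 := tsum_of_norm_bounded (width_upper_summ r hr).hasSum (fun k => width_upper_F1_term r α x k)
    rw [Real.norm_eq_abs] at h1
    refine (abs_add_le _ _).trans ?_
    rw [abs_one, abs_mul, abs_two]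
    linarith

theorem width_upper_Fr_cont {d : ℕ} (r : ℝ) (hr : 1 < r) (α : Fin d → ℝ) : Continuous (Fr r α) := by
  unfold Fr
  refine continuous_finsetProd _ (fun j _ => ?_)
  exact (width_upper_F1_cont r (α j) hr).comp (continuous_apply j)

theorem width_upper_Fr_bdd {d : ℕ} (r : ℝ) (hr : 1 < r) (α : Fin d → ℝ) : ∃ B : ℝ, ∀ x, |Fr r α x| ≤ B := by
  obtain ⟨B, hB0, hB⟩ := width_upper_F1_bdd r hr
  refine ⟨B ^ d, fun x => ?_⟩
  unfold Fr
  rw [Finset.abs_prod]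
  calc ∏ j, |F1 r (α j) (x j)| ≤ ∏ _j : Fin d, B :=
        Finset.prod_le_prod (fun j _ => abs_nonneg _) (fun j _ => hB _ _)
    _ = B ^ d := by rw [Finset.prod_const, Finset.card_univ, Fintype.card_fin]

theorem width_upper_comp (𝕜 : Type) [RCLike 𝕜] (d : ℕ) (q : ℝ≥0∞) (hq : 2 ≤ q) (r : ℝ) (hr : 1 < r)
    (α : Fin d → ℝ) (f : (Fin d → ℝ) → 𝕜) (hf : f ∈ MW 𝕜 d r q α) (L : 𝕜 →L[ℝ] ℂ)
    (hL : ∀ z, ‖L z‖ ≤ ‖z‖) : (fun x => L (f x)) ∈ MW ℂ d r q α := by
  have := TP_prob d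
  obtain ⟨φ, h1, h2, rfl⟩ := hf
  have hle : ∀ᵐ y ∂(TP d), ‖L (φ y)‖ ≤ ‖φ y‖ := Filter.Eventually.of_forall (fun y => hL _)
  have hm : AEStronglyMeasurable (fun y => L (φ y)) (TP d) :=
    L.continuous.comp_aestronglyMeasurable h1.aestronglyMeasurable
  refine ⟨fun y => L (φ y), h1.of_le hm hle, (eLpNorm_mono_ae hle).trans h2, ?_⟩
  funext x
  have hint : Integrable φ (TP d) :=
    h1.integrable (le_trans (by norm_num) hq)
  obtain ⟨B, hB⟩ := width_upper_Fr_bdd r hr α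
  have hint2 : Integrable (fun y => Fr r α (x - y) • φ y) (TP d) := by
    have hm2 : AEStronglyMeasurable (fun y => Fr r α (x - y)) (TP d) :=
      ((width_upper_Fr_cont r hr α).comp (continuous_const.sub continuous_id)).aestronglyMeasurable
    exact Integrable.bdd_smul (𝕜 := ℝ) (φ := fun y => Fr r α (x - y)) hint B hm2
      (Filter.Eventually.of_forall (fun y => hB _))
  rw [← L.integral_comp_comm hint2]
  congr 1
  funext y
  rw [map_smul]

theorem width_upper_memLp (𝕜 : Type) [RCLike 𝕜] {d n0 n1 : ℕ} {M : ℕ → ℕ}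
    (G : ∀ n, Fin (M n) → ((layer d n) × Fin 2 → ℝ)) (i : Width_upperI d n0 n1 M) :
    MemLp (fun x => ((width_upperE G i x : ℝ) : 𝕜)) ⊤ (TP d) := by
  have key : ∀ (n : ℕ) (a : (layer d n) × Fin 2 → ℝ),
      MemLp (fun x => ((width_upperP d n a x : ℝ) : 𝕜)) ⊤ (TP d) := by
    intro n a
    refine memLp_top_of_bound ?_ (Real.sqrt (∑ i, a i ^ 2) * Real.sqrt (layer d n).card) ?_
    · exact (RCLike.continuous_ofReal.comp
        (Complex.continuous_re.comp (width_upper_poly_cont a))).aestronglyMeasurable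
    · refine Filter.Eventually.of_forall (fun x => ?_)
      rw [RCLike.norm_ofReal, width_upperP_apply]
      refine (Complex.abs_re_le_norm _).trans ?_
      apply width_upper_poly_norm a x _ (Real.sqrt_nonneg _)
      rw [Real.sq_sqrt (Finset.sum_nonneg (fun i _ => sq_nonneg _))]
  rcases i with p | p
  · exact key _ _
  · exact key _ _

theorem width_upper (𝕜 : Type) [RCLike 𝕜] (d : ℕ) (hd : 1 ≤ d) (q : ℝ≥0∞) (hq : 2 ≤ q) (r : ℝ) (hr : 1 < r)
    (α : Fin d → ℝ) : ∃ C : ℝ, 0 < C ∧ ∀ m : ℕ, 2 ≤ m →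
      kolW2 m (MW 𝕜 d r q α)
        ≤ ENNReal.ofReal (C * (m:ℝ)^(-r) * (Real.log m)^(((d:ℝ)-1) * r + 1/2)) := by
  obtain ⟨C1, hC1, hlay⟩ := layer_approx d
  obtain ⟨C2, hC2, hsplit⟩ := class_split d r hr α
  obtain ⟨C3, hC3, hnum⟩ := num_up d hd r hr
  refine ⟨2 * ((C1 * C2 + C2) * C3), by positivity, ?_⟩
  intro m hm
  obtain ⟨n0, n1, M, h01, hM1, hcard, hsum, hbound⟩ := hnum m hm
  choose G hG using fun n => hlay n (M n) (hM1 n)
  obtain ⟨U, hU⟩ : ∃ U : Submodule 𝕜 ((Fin d → ℝ) → 𝕜), U =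
    Submodule.span 𝕜 (Set.range (fun i : Width_upperI d n0 n1 M => fun x => ((width_upperE G i x : ℝ) : 𝕜))) :=
    ⟨_, rfl⟩
  have hUfin : Module.Finite 𝕜 U ∧ Module.finrank 𝕜 U ≤ m ∧ ∀ u ∈ U, MemLp u ⊤ (TP d) := by
    refine ⟨?_, ?_, ?_⟩
    · rw [hU]
      exact FiniteDimensional.span_of_finite 𝕜 (Set.finite_range _)
    · rw [hU]
      refine (finrank_range_le_card _).trans ?_
      rw [width_upperI_card]
      exact hcard
    · intro u hu
      rw [hU] at hu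
      induction hu using Submodule.span_induction with
      | mem u hu =>
        obtain ⟨i, rfl⟩ := hu
        exact width_upper_memLp 𝕜 G i
      | zero => exact MemLp.zero
      | add u v _ _ hu hv => exact hu.add hv
      | smul c u _ hu => exact hu.const_smul c
  unfold kolW2
  refine (iInf₂_le U hUfin).trans ?_
  refine iSup₂_le (fun f hf => ?_)
  -- the two real parts
  obtain ⟨S, hS⟩ : ∃ S : ℝ, S = C1 * C2 * (∑ n ∈ Finset.Ico n0 n1, (2:ℝ)^(-(r * n)) *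
        Real.sqrt (((n:ℝ)+1) * (layer d n).card / M n)) +
      C2 * ∑' n : ℕ, (2:ℝ)^(-(r * ((n + n1 : ℕ) : ℝ))) * Real.sqrt (layer d (n + n1)).card :=
    ⟨_, rfl⟩
  have hpart : ∀ g : 𝕜 →L[ℝ] ℝ, (∀ z, |g z| ≤ ‖z‖) →
      ∃ u ∈ Submodule.span ℝ (Set.range (width_upperE (n0 := n0) (n1 := n1) G)),
        ∀ x, |g (f x) - u x| ≤ S := by
    intro g hg
    have h1 := width_upper_comp 𝕜 d q hq r hr α f hf (Complex.ofRealCLM.comp g) (fun z => by
      rw [ContinuousLinearMap.comp_apply, Complex.ofRealCLM_apply, Complex.norm_real,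
        Real.norm_eq_abs]
      exact hg z)
    obtain ⟨A, hA, hh⟩ := hsplit q hq _ h1
    rw [hS]
    exact width_upper_real C1 C2 hC2 n0 n1 h01 r M G hG hsum A hA (fun x => g (f x)) (fun x => hh x)
  obtain ⟨u1, hu1, hb1⟩ := hpart RCLike.reCLM (fun z => RCLike.abs_re_le_norm z)
  obtain ⟨u2, hu2, hb2⟩ := hpart RCLike.imCLM (fun z => RCLike.abs_im_le_norm z)
  have hu1' := width_upper_transfer 𝕜 _ u1 hu1
  have hu2' := width_upper_transfer 𝕜 _ u2 hu2
  have hmem : ((fun x => ((u1 x : ℝ) : 𝕜)) + (RCLike.I : 𝕜) • (fun x => ((u2 x : ℝ) : 𝕜))) ∈ U := by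
    rw [hU]
    exact Submodule.add_mem _ hu1' (Submodule.smul_mem _ _ hu2')
  refine (iInf₂_le _ hmem).trans ?_
  rw [eLpNorm_exponent_top]
  refine (eLpNormEssSup_le_of_ae_bound (C := 2 * S) (Filter.Eventually.of_forall (fun x => ?_))).trans ?_
  · have h1 : f x - ((fun x => ((u1 x : ℝ) : 𝕜)) + (RCLike.I : 𝕜) • (fun x => ((u2 x : ℝ) : 𝕜))) x =
        ((RCLike.re (f x) - u1 x : ℝ) : 𝕜) + ((RCLike.im (f x) - u2 x : ℝ) : 𝕜) * RCLike.I := by
      rw [Pi.add_apply, Pi.smul_apply, smul_eq_mul]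
      conv_lhs => rw [← RCLike.re_add_im (f x)]
      push_cast
      ring
    rw [h1]
    refine (norm_add_le _ _).trans ?_
    rw [norm_mul, RCLike.norm_ofReal, RCLike.norm_ofReal]
    have h2 : ‖(RCLike.I : 𝕜)‖ ≤ 1 := by
      by_cases hI : (RCLike.I : 𝕜) = 0
      · rw [hI, norm_zero]
        exact zero_le_one
      · exact (RCLike.norm_I_of_ne_zero hI).le
    have h3 : |RCLike.re (f x) - u1 x| ≤ S := hb1 x
    have h4 : |RCLike.im (f x) - u2 x| ≤ S := hb2 x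
    have h5 : |RCLike.im (f x) - u2 x| * ‖(RCLike.I : 𝕜)‖ ≤ |RCLike.im (f x) - u2 x| * 1 :=
      mul_le_mul_of_nonneg_left h2 (abs_nonneg _)
    linarith
  · apply ENNReal.ofReal_le_ofReal
    have h0 : 0 ≤ ∑ n ∈ Finset.Ico n0 n1, (2:ℝ)^(-(r * n)) *
        Real.sqrt (((n:ℝ)+1) * (layer d n).card / M n) :=
      Finset.sum_nonneg (fun n _ => by positivity)
    have h0' : 0 ≤ ∑' n : ℕ, (2:ℝ)^(-(r * ((n + n1 : ℕ) : ℝ))) * Real.sqrt (layer d (n + n1)).card :=
      tsum_nonneg (fun n => by positivity)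
    have h1 : S ≤ (C1 * C2 + C2) * (C3 * (m:ℝ)^(-r) * (Real.log m)^(((d:ℝ)-1) * r + 1/2)) := by
      rw [hS]
      refine le_trans ?_ (mul_le_mul_of_nonneg_left hbound (by positivity))
      have hC12 : 0 ≤ C1 * C2 := by positivity
      nlinarith [mul_nonneg hC2.le h0, mul_nonneg hC12 h0']
    calc 2 * S ≤ 2 * ((C1 * C2 + C2) * (C3 * (m:ℝ)^(-r) * (Real.log m)^(((d:ℝ)-1) * r + 1/2))) := by
          linarith
      _ = 2 * ((C1 * C2 + C2) * C3) * (m:ℝ)^(-r) * (Real.log m)^(((d:ℝ)-1) * r + 1/2) := by ring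


end Sol_width_up

alias width_upper := Sol_width_up.width_upper

end HypVol
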